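import Mathlib

/-!
# Singer project: the statement

Right-angled Coxeter groups, the cellular `ℓ²`-chain complex of the (cubical) Davis complex, and the
vanishing of its reduced homology.
-/

set_option autoImplicit false

open Finset

namespace Pool.Agent.H4.Singer

open Classical in
/-- The Coxeter matrix of the right-angled Coxeter group of a graph: `m(v,v) = 1`, `m(u,v) = 2` if
`u, v` are adjacent and `m(u,v) = 0` (which means `∞`) otherwise. -/
noncomputable def racg {V : Type} (G : SimpleGraph V) : CoxeterMatrix V where
  M := Matrix.of fun u v => if u = v then 1 else if G.Adj u v then 2 else 0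
  isSymm := by
    ext u v
    simp only [Matrix.transpose_apply, Matrix.of_apply, G.adj_comm, eq_comm]
  diagonal := by
    intro v
    simp
  off_diagonal := by
    intro u v huv
    simp only [Matrix.of_apply, if_neg huv]
    split_ifs <;> norm_num

/-- the right-angled Coxeter group of a graph -/
abbrev RGrp {V : Type} (G : SimpleGraph V) : Type := (racg G).Group

/-- the standard generators -/
noncomputable def gen {V : Type} (G : SimpleGraph V) (v : V) : RGrp G := (racg G).simple v

section

variable {V : Type} [Fintype V] [DecidableEq V]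

/-- Cellular `ℓ²`-chains of degree `i` of the Davis complex of the right-angled Coxeter group `W` of
`G`. The cubes of dimension `i` are the cosets `w W_σ`, `σ` a clique with `i` vertices; `f σ w` is
the coefficient of the cube `w W_σ` with the orientation given by the numbering of `σ` at the
vertex `w`; passing from the vertex `w` to the vertex `w v` (`v ∈ σ`) reverses the orientation. -/
structure IsL2Chain (G : SimpleGraph V) (i : ℕ) (f : Finset V → RGrp G → ℂ) : Prop where
  supp : ∀ σ w, f σ w ≠ 0 → G.IsClique (σ : Set V) ∧ σ.card = i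
  anti : ∀ σ, ∀ v ∈ σ, ∀ w, f σ (w * gen G v) = - f σ w
  l2 : ∀ σ, Summable fun w => ‖f σ w‖ ^ 2

/-- The cellular boundary operator: the cubes with face `w W_τ` are the `w W_{τ ∪ v}`; the incidence
sign is `(-1)` to the number of elements of `τ` that come before `v` in the numbering `ν`. -/
noncomputable def dbd {G : SimpleGraph V} (ν : V → ℕ) (f : Finset V → RGrp G → ℂ) :
    Finset V → RGrp G → ℂ :=
  fun τ w => ∑ v ∈ τᶜ, (-1) ^ (τ.filter fun u => ν u < ν v).card * f (insert v τ) w

/-- The reduced `ℓ²`-homology of the Davis complex vanishes in degree `i`: every `ℓ²`-cycle is an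
`ℓ²`-limit of boundaries of `ℓ²`-chains. -/
def L2HomologyZero (G : SimpleGraph V) (i : ℕ) : Prop :=
  ∀ ν : V → ℕ, Function.Injective ν → ∀ z : Finset V → RGrp G → ℂ, IsL2Chain G i z →
    dbd ν z = 0 → ∀ ε : ℝ, 0 < ε → ∃ y : Finset V → RGrp G → ℂ, IsL2Chain G (i + 1) y ∧
      ∑ σ, ∑' w, ‖z σ w - dbd ν y σ w‖ ^ 2 < ε

end

/-- a finite simplicial complex, given by its finite set of nonempty faces -/
def IsComplex {α : Type} [DecidableEq α] (K : Finset (Finset α)) : Prop :=
  ∀ σ ∈ K, σ.Nonempty ∧ ∀ τ ⊆ σ, τ.Nonempty → τ ∈ K

/-- the 1-skeleton of the barycentric subdivision of `K`: the vertices are the faces of `K`, two of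
them are adjacent if one strictly contains the other. The barycentric subdivision is the flag
complex of this graph. -/
def sdGraph {α : Type} [DecidableEq α] (K : Finset (Finset α)) : SimpleGraph {σ // σ ∈ K} where
  Adj a b := a.1 ⊂ b.1 ∨ b.1 ⊂ a.1
  symm := ⟨fun _ _ h => h.symm⟩
  loopless := ⟨fun a h => h.elim (fun h => (ssubset_irrefl a.1) h) (fun h => (ssubset_irrefl a.1) h)⟩

/-- `K` is a shellable sphere or ball of dimension `n - 1`: it is the complex of the nonempty
subsets of the facets `F 0, …, F (N-1)`, which all have `n` vertices, the facets are in a shelling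
order, and every ridge is in at most two facets. (By a theorem of Danaraj and Klee such a complex is
a PL sphere or a PL ball.) -/
def IsShellableSphereOrBall {α : Type} [DecidableEq α] (n : ℕ) (K : Finset (Finset α)) : Prop :=
  ∃ (N : ℕ) (F : Fin N → Finset α), Function.Injective F ∧ (∀ k, (F k).card = n) ∧
    (∀ σ, σ ∈ K ↔ σ.Nonempty ∧ ∃ k, σ ⊆ F k) ∧
    (∀ k i, i < k → ∃ l, l < k ∧ F i ∩ F k ⊆ F l ∧ (F l ∩ F k).card + 1 = n) ∧
    ∀ R : Finset α, R.card + 1 = n → (univ.filter fun k => R ⊆ F k).card ≤ 2

end Pool.Agent.H4.Singer
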