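import Pool.Agent.H4.Singer.Defs

/-!
# Singer project: basic facts on the generic level
-/

set_option autoImplicit false
set_option linter.unusedSectionVars false

open Finset

namespace Pool.Agent.H4.Singer

section Generic

variable {V C : Type} [DecidableEq V] [Fintype V] [DecidableEq C] {R M : Type} [CommRing R]
  [AddCommGroup M] [Module R M] (G : ColGraph V C) (T : V → R)

theorem ColGraph.irrefl {V C : Type} (G : ColGraph V C) (v : V) : ¬ G.adj v v :=
  fun h => G.ne v v h rfl

theorem ColGraph.Cl.mono {V C : Type} {G : ColGraph V C} {σ τ : Finset V} (h : G.Cl σ)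
    (hτ : τ ⊆ σ) : G.Cl τ := fun u hu v hv huv => h u (hτ hu) v (hτ hv) huv

/-- the boundary as a linear map -/
def bdL : (Finset V → (C → Bool) → M) →ₗ[R] (Finset V → (C → Bool) → M) where
  toFun := bd G T
  map_add' x y := by
    funext τ a
    simp [bd, Finset.sum_add_distrib]
  map_smul' r x := by
    funext τ a
    simp only [bd, Pi.smul_apply, RingHom.id_apply, Finset.smul_sum]
    exact Finset.sum_congr rfl fun v _ => by rw [smul_comm]

theorem bdL_apply (z : Finset V → (C → Bool) → M) : bdL G T z = bd G T z := rfl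

theorem bd_zero : bd G T (0 : Finset V → (C → Bool) → M) = 0 := (bdL G T).map_zero

theorem bd_add (x y : Finset V → (C → Bool) → M) : bd G T (x + y) = bd G T x + bd G T y :=
  (bdL G T).map_add x y

theorem bd_sub (x y : Finset V → (C → Bool) → M) : bd G T (x - y) = bd G T x - bd G T y :=
  (bdL G T).map_sub x y

theorem bd_smul (r : R) (x : Finset V → (C → Bool) → M) : bd G T (r • x) = r • bd G T x :=
  (bdL G T).map_smul r x

variable {G} {U U' : Finset V} {j : ℕ} {z x y : Finset V → (C → Bool) → M}

theorem IsChain.zero : IsChain G U j (0 : Finset V → (C → Bool) → M) :=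
  ⟨fun _ _ h => absurd rfl h, fun _ _ _ _ _ => rfl⟩

theorem IsChain.add (hx : IsChain G U j x) (hy : IsChain G U j y) : IsChain G U j (x + y) := by
  refine ⟨fun σ a h => ?_, fun σ a v b hv => ?_⟩
  · by_cases h1 : x σ a = 0
    · by_cases h2 : y σ a = 0
      · exact absurd (by simp [h1, h2]) h
      · exact hy.supp σ a h2
    · exact hx.supp σ a h1
  · simp only [Pi.add_apply]
    rw [hx.indep σ a v b hv, hy.indep σ a v b hv]

theorem IsChain.sub (hx : IsChain G U j x) (hy : IsChain G U j y) : IsChain G U j (x - y) := by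
  refine ⟨fun σ a h => ?_, fun σ a v b hv => ?_⟩
  · by_cases h1 : x σ a = 0
    · by_cases h2 : y σ a = 0
      · exact absurd (by simp [h1, h2]) h
      · exact hy.supp σ a h2
    · exact hx.supp σ a h1
  · simp only [Pi.sub_apply]
    rw [hx.indep σ a v b hv, hy.indep σ a v b hv]

theorem IsChain.smul {S : Type} [Monoid S] [DistribMulAction S M] (r : S)
    (hx : IsChain G U j x) : IsChain G U j (r • x) := by
  refine ⟨fun σ a h => hx.supp σ a ?_, fun σ a v b hv => ?_⟩
  · intro h0
    exact h (by simp [h0])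
  · simp only [Pi.smul_apply]
    rw [hx.indep σ a v b hv]

theorem IsChain.mono (hx : IsChain G U j x) (h : U ⊆ U') : IsChain G U' j x :=
  ⟨fun σ a h0 => ⟨(hx.supp σ a h0).1.trans h, (hx.supp σ a h0).2⟩, hx.indep⟩

/-- the boundary of a chain is a chain -/
theorem IsChain.bd (hx : IsChain G U (j + 1) x) : IsChain G U j (bd G T x) := by
  refine ⟨fun τ a h => ?_, fun τ a v b hv => ?_⟩
  · unfold Singer.bd at h
    obtain ⟨v, hv, hne⟩ := Finset.exists_ne_zero_of_sum_ne_zero h
    have hx0 : x (insert v τ) a ≠ 0 := fun h0 => hne (by rw [h0, smul_zero])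
    obtain ⟨h1, h2, h3⟩ := hx.supp _ _ hx0
    rw [Finset.mem_compl] at hv
    refine ⟨(Finset.subset_insert v τ).trans h1, h2.mono (Finset.subset_insert v τ), ?_⟩
    rw [Finset.card_insert_of_notMem hv] at h3
    omega
  · unfold Singer.bd
    refine Finset.sum_congr rfl fun u hu => ?_
    rw [Finset.mem_compl] at hu
    rw [hx.indep (insert u τ) a v b (Finset.mem_insert_of_mem hv)]
    by_cases hx0 : x (insert u τ) a = 0
    · rw [hx0, smul_zero, smul_zero]
    · have hcl := (hx.supp _ _ hx0).2.1
      have hadj : G.adj u v := hcl u (Finset.mem_insert_self _ _) v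
        (Finset.mem_insert_of_mem hv) (fun h => hu (h ▸ hv))
      rw [Function.update_of_ne (G.ne u v hadj)]

/-- `∂∂ = 0` in characteristic two -/
theorem bd_bd (h2 : ∀ m : M, m + m = 0) (z : Finset V → (C → Bool) → M) :
    Singer.bd G T (Singer.bd G T z) = 0 := by
  funext τ a
  unfold Singer.bd
  simp only [Finset.smul_sum, Pi.zero_apply]
  rw [Finset.sum_sigma']
  refine Finset.sum_involution (fun p _ => ⟨p.2, p.1⟩) ?_ ?_ ?_ ?_
  · rintro ⟨v, u⟩ h
    simp only
    rw [Finset.insert_comm, smul_comm]
    exact h2 _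
  · rintro ⟨v, u⟩ h _ heq
    simp only [Finset.mem_sigma, Finset.mem_compl, Finset.mem_insert, not_or] at h
    simp only [Sigma.mk.injEq, heq_eq_eq] at heq
    exact h.2.1 heq.1
  · rintro ⟨v, u⟩ h
    simp only [Finset.mem_sigma, Finset.mem_compl, Finset.mem_insert, not_or] at h ⊢
    exact ⟨h.2.2, fun h1 => h.2.1 h1.symm, h.1⟩
  · rintro ⟨v, u⟩ _
    rfl

end Generic

end Pool.Agent.H4.Singer
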