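import Pool.Agent.H4.Singer.HarmFin

/-!
# Singer project: harmonic chains as the kernel of an integer matrix over the group ring
-/

set_option autoImplicit false
set_option linter.unusedSectionVars false

open Finset

namespace Pool.Agent.H4.Singer

open Pool.Agent.H4.Atiyah

variable {V C : Type} [DecidableEq V] [Fintype V] [DecidableEq C]

theorem exists_harm_matrix (G : SimpleGraph V) (Γ : ColGraph V C)
    (hG : ∀ u v, G.Adj u v ↔ Γ.adj u v) (ν : V → ℕ) (hν : Function.Injective ν) (i : ℕ) :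
    ∃ (k n : ℕ) (A : Matrix (Fin k) (Fin n) (MonoidAlgebra ℤ (RGrp G))),
      ((∀ x ∈ l2ker (toC A), x = 0) →
        ∀ x : Finset V → RGrp G → ℂ, IsHarm G ν i x → x = 0) ∧
      ∀ (P : Type) [Group P] [Fintype P] (π : RGrp G →* P) (XP : InvAct Γ P),
        (∀ v p, XP.s v p = p * π (gen G v)) →
        (k * Fintype.card P : ℝ) -
          (op ((toC A).map (MonoidAlgebra.mapDomainRingHom ℂ π))).rank ≤ bet ℂ XP ν i :=
  ⟨_, _, HA G ν i, harm_inf G ν i, fun P _ _ π XP hXP => harm_fin G Γ hG ν hν i P π XP hXP⟩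

end Pool.Agent.H4.Singer
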