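import Pool.Agent.H4.Singer.Defs

/-!
# Singer project: a two-group acting on `Ω_q`
-/

set_option autoImplicit false
set_option linter.unusedSectionVars false

open Finset

namespace Pool.Agent.H4.Singer

variable {V C : Type} [DecidableEq V] [DecidableEq C]

/-- the special form of the permutations -/
def OmForm {C : Type} (q : ℕ) (h : Equiv.Perm ((C → Bool) × ZMod q)) (b : C → Bool)
    (f : (C → Bool) → ZMod q) : Prop :=
  ∀ a x, h (a, x) = (fun c => xor (a c) (b c), x + f a)

theorem omForm_xor {C : Type} (a b : C → Bool) :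
    (fun c => xor (xor (a c) (b c)) (b c)) = a := by
  funext c
  cases a c <;> cases b c <;> rfl

/-- the group of all permutations of the special form -/
def omSub {C : Type} (q : ℕ) : Subgroup (Equiv.Perm ((C → Bool) × ZMod q)) where
  carrier := {h | ∃ b f, OmForm q h b f}
  one_mem' := by
    refine ⟨fun _ => false, fun _ => 0, fun a x => ?_⟩
    simp
  mul_mem' := by
    rintro h1 h2 ⟨b1, f1, H1⟩ ⟨b2, f2, H2⟩
    refine ⟨fun c => xor (b2 c) (b1 c), fun a => f2 a + f1 (fun c => xor (a c) (b2 c)),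
      fun a x => ?_⟩
    rw [Equiv.Perm.mul_apply, H2, H1]
    simp only [Prod.mk.injEq]
    refine ⟨?_, by ring⟩
    funext c
    rw [Bool.xor_assoc]
  inv_mem' := by
    rintro h ⟨b, f, H⟩
    refine ⟨b, fun a => - f (fun c => xor (a c) (b c)), fun a x => ?_⟩
    rw [Equiv.Perm.inv_eq_iff_eq, H]
    simp only [Prod.mk.injEq]
    refine ⟨(omForm_xor a b).symm, by ring⟩

theorem omSub_sq {C : Type} (q : ℕ) (h : Equiv.Perm ((C → Bool) × ZMod q)) (b : C → Bool)
    (f : (C → Bool) → ZMod q) (H : OmForm q h b f) (n : ℕ) (a : C → Bool) (x : ZMod q) :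
    ((h ^ 2) ^ n) (a, x) = (a, x + n * (f a + f (fun c => xor (a c) (b c)))) := by
  induction n generalizing x with
  | zero => simp
  | succ n ih =>
    rw [pow_succ, Equiv.Perm.mul_apply, pow_two, Equiv.Perm.mul_apply, H, H, omForm_xor,
      ← pow_two, ih]
    simp only [Prod.mk.injEq, true_and]
    push_cast
    ring

/-- Proof: let `P` be the subgroup of the permutations `h` of `(C → Bool) × ZMod (2 ^ j)` that have
the form `h (a, x) = (a xor b, x + f a)` for some `b : C → Bool`, `f : (C → Bool) → ZMod (2 ^ j)`.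
Then `h ^ 2` has `b = false` and `h ^ (2 * 2 ^ j) = 1`, so `P` is a two-group. `g v` is the
involution `(omQ G (2 ^ j) k).s v` and `bit h = (h (fun _ => false, 0)).1`. -/
theorem exists_om_group [Fintype C] (G : ColGraph V C) (k : V → ℕ) (j : ℕ) :
    ∃ (P : Type) (_ : Group P) (_ : Fintype P) (g : V → P)
      (act : P →* Equiv.Perm ((C → Bool) × ZMod (2 ^ j))) (bit : P → C → Bool),
      IsPGroup 2 P ∧ (∀ v, g v * g v = 1) ∧ (∀ u v, G.adj u v → g u * g v = g v * g u) ∧
      (∀ v ω, act (g v) ω = (omQ G (2 ^ j) k).s v ω) ∧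
      ∀ p v, bit (p * g v) = Function.update (bit p) (G.col v) (!(bit p (G.col v))) := by
  have hmem : ∀ v : V, Function.Involutive.toPerm ((omQ G (2 ^ j) k).s v)
      ((omQ G (2 ^ j) k).invol v) ∈ omSub (C := C) (2 ^ j) := by
    intro v
    refine ⟨Function.update (fun _ => false) (G.col v) true,
      fun a => if a (G.col v) then - (k v : ZMod (2 ^ j)) else k v, fun a x => ?_⟩
    change (omQ G (2 ^ j) k).s v (a, x) = _
    simp only [omQ, Prod.mk.injEq]
    refine ⟨?_, ?_⟩
    · funext c
      by_cases hc : c = G.col v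
      · subst hc
        simp
      · simp [Function.update_of_ne hc]
    · by_cases ha : a (G.col v) = true
      · simp [ha, sub_eq_add_neg]
      · simp [ha]
  refine ⟨omSub (C := C) (2 ^ j), inferInstance, Fintype.ofFinite _,
    fun v => ⟨_, hmem v⟩, (omSub (C := C) (2 ^ j)).subtype,
    fun p => (p.1 (fun _ => false, 0)).1, ?_, ?_, ?_, ?_, ?_⟩
  · rintro ⟨h, b, f, H⟩
    refine ⟨j + 1, ?_⟩
    apply Subtype.ext
    rw [SubmonoidClass.coe_pow, pow_succ', pow_mul]
    apply Equiv.ext
    rintro ⟨a, x⟩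
    have := omSub_sq (2 ^ j) h b f H (2 ^ j) a x
    rw [this]
    have h0 : ((2 ^ j : ℕ) : ZMod (2 ^ j)) = 0 := ZMod.natCast_self _
    rw [h0]
    simp
  · intro v
    apply Subtype.ext
    apply Equiv.ext
    intro ω
    exact (omQ G (2 ^ j) k).invol v ω
  · intro u v huv
    apply Subtype.ext
    apply Equiv.ext
    intro ω
    exact (omQ G (2 ^ j) k).comm u v huv ω
  · intro v ω
    rfl
  · rintro ⟨h, b, f, H⟩ v
    have h1 : ((⟨h, b, f, H⟩ : omSub (C := C) (2 ^ j)) * ⟨_, hmem v⟩).1 (fun _ => false, 0) =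
        h ((omQ G (2 ^ j) k).s v (fun _ => false, 0)) := rfl
    simp only
    rw [h1]
    simp only [omQ]
    rw [H, H]
    simp only
    funext c
    by_cases hc : c = G.col v
    · subst hc
      simp
    · simp [Function.update_of_ne hc]

end Pool.Agent.H4.Singer
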