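import Pool.Agent.H4.Singer.NilCox
import Pool.Agent.H4.Singer.OmGroup

/-!
# Singer project: the finite two-group quotients
-/

set_option autoImplicit false
set_option linter.unusedSectionVars false

open Finset Filter

namespace Pool.Agent.H4.Singer

variable {V C : Type} [DecidableEq V] [DecidableEq C]

theorem racg_self (G : SimpleGraph V) (u : V) : (racg G) u u = 1 := (racg G).diagonal u

theorem racg_adj (G : SimpleGraph V) {u v : V} (h : G.Adj u v) : (racg G) u v = 2 := by
  simp [racg, h, h.ne]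

theorem racg_not_adj (G : SimpleGraph V) {u v : V} (huv : u ≠ v) (h : ¬ G.Adj u v) :
    (racg G) u v = 0 := by
  simp [racg, h, huv]

/-- the universal property of the right-angled Coxeter group -/
theorem exists_lift (G : SimpleGraph V) {P : Type} [Group P] (g : V → P)
    (hg : ∀ v, g v * g v = 1) (hgc : ∀ u v, G.Adj u v → g u * g v = g v * g u) :
    ∃ π : RGrp G →* P, ∀ v, π (gen G v) = g v := by
  have hl : (racg G).IsLiftable g := by
    intro u v
    by_cases h1 : u = v
    · subst h1
      rw [racg_self, pow_one, hg]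
    · by_cases h2 : G.Adj u v
      · rw [racg_adj G h2, pow_two]
        calc g u * g v * (g u * g v) = g v * g u * (g u * g v) := by rw [hgc u v h2]
          _ = g v * (g u * g u) * g v := by group
          _ = 1 := by rw [hg, mul_one, hg]
      · rw [racg_not_adj G h1 h2, pow_zero]
  exact ⟨(racg G).toCoxeterSystem.lift ⟨g, hl⟩, fun v =>
    (racg G).toCoxeterSystem.lift_apply_simple hl v⟩

theorem gen_mul_gen (G : SimpleGraph V) (v : V) : gen G v * gen G v = 1 :=
  (racg G).toCoxeterSystem.simple_mul_simple_self v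

theorem gen_inv (G : SimpleGraph V) (v : V) : (gen G v)⁻¹ = gen G v :=
  inv_eq_of_mul_eq_one_left (gen_mul_gen G v)

theorem gen_comm (G : SimpleGraph V) (u v : V) (h : G.Adj u v) :
    gen G u * gen G v = gen G v * gen G u := by
  have h1 : (gen G u * gen G v) ^ (racg G) u v = 1 :=
    (racg G).toCoxeterSystem.simple_mul_simple_pow u v
  rw [racg_adj G h, pow_two] at h1
  have h2 : gen G u * gen G v = (gen G u * gen G v)⁻¹ := eq_inv_of_mul_eq_one_left h1
  rw [h2, mul_inv_rev, gen_inv, gen_inv]

theorem exists_levels [Finite V] [Fintype C] (G : SimpleGraph V) (Γ : ColGraph V C)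
    (hG : ∀ u v, G.Adj u v ↔ Γ.adj u v) (k : V → ℕ) :
    ∃ (P : ℕ → Type) (_ : ∀ j, Group (P j)) (_ : ∀ j, Fintype (P j))
      (π : ∀ j, RGrp G →* P j) (XP : ∀ j, InvAct Γ (P j))
      (act : ∀ j, P j →* Equiv.Perm ((C → Bool) × ZMod (2 ^ j))),
      (∀ j, IsPGroup 2 (P j)) ∧ (∀ w : RGrp G, w ≠ 1 → ∀ᶠ j in atTop, π j w ≠ 1) ∧
      (∀ j v p, (XP j).s v p = p * π j (gen G v)) ∧
      ∀ j v ω, act j (π j (gen G v)) ω = (omQ Γ (2 ^ j) k).s v ω := by
  have h1 := fun L => exists_two_group G L
  choose P₁ grp₁ fin₁ π₁ hP₁ hsep using h1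
  have h2 := fun j => exists_om_group Γ k j
  choose P₂ grp₂ fin₂ g act bit hP₂ hg hgc hact hbit using h2
  have h3 : ∀ j, ∃ π : RGrp G →* P₂ j, ∀ v, π (gen G v) = g j v := fun j =>
    exists_lift G (g j) (hg j) (fun u v h => hgc j u v ((hG u v).1 h))
  choose π₂ hπ₂ using h3
  refine ⟨fun j => P₁ j × P₂ j, fun j => inferInstance, fun j => inferInstance,
    fun j => (π₁ j).prod (π₂ j),
    fun j => { s := fun v p => p * ((π₁ j).prod (π₂ j)) (gen G v)
               invol := fun v p => by
                rw [mul_assoc, ← map_mul, gen_mul_gen, map_one, mul_one]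
               comm := fun u v h p => by
                rw [mul_assoc, mul_assoc, ← map_mul, ← map_mul, gen_comm G u v ((hG u v).2 h)]
               bit := fun p => bit j p.2
               bit_s := fun v p => by
                rw [Prod.snd_mul, MonoidHom.prod_apply, hπ₂, hbit] },
    fun j => (act j).comp (MonoidHom.snd _ _), ?_, ?_, ?_, ?_⟩
  · intro j
    rintro ⟨a, b⟩
    obtain ⟨k1, hk1⟩ := hP₁ j a
    obtain ⟨k2, hk2⟩ := hP₂ j b
    refine ⟨k1 + k2, ?_⟩
    rw [Prod.pow_mk, pow_add, pow_mul, hk1, one_pow, mul_comm, pow_mul, hk2, one_pow]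
    rfl
  · intro w hw
    filter_upwards [eventually_ge_atTop ((racg G).toCoxeterSystem.length w)] with j hj h
    exact hsep j w hw hj (congrArg Prod.fst h)
  · intro j v p
    rfl
  · intro j v ω
    rw [MonoidHom.comp_apply, MonoidHom.prod_apply, MonoidHom.coe_snd, hπ₂, hact]

end Pool.Agent.H4.Singer
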