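import Pool.Agent.H4.Singer.ActBasic

/-!
# Singer project: antisymmetric extensions
-/

set_option autoImplicit false
set_option linter.unusedSectionVars false

open Finset

namespace Pool.Agent.H4.Singer

variable {V C : Type} [DecidableEq V] [Fintype V] [DecidableEq C] {G : ColGraph V C}

/-- Antisymmetric extension as an integer matrix: for a clique `σ` there is an integer matrix `E`
such that for all fields `F` and `x : Ω → F` the function `E x` is antisymmetric under `s v`,
`v ∈ σ`, and agrees with `x` at the points whose bits at the colours of `σ` are `false`.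

Proof: induction on `σ`; for `insert u σ` let
`E' ω = if bit ω (col u) = false then E ω else - E (s u ω)` (rows). -/
theorem exists_ext {Ω : Type} [Fintype Ω] (X : InvAct G Ω) (σ : Finset V) (hσ : G.Cl σ) :
    ∃ E : Ω → Ω → ℤ, ∀ (F : Type) [Field F] (x : Ω → F),
      (∀ v ∈ σ, ∀ ω, ∑ ω', (E (X.s v ω) ω' : F) * x ω' = - ∑ ω', (E ω ω' : F) * x ω') ∧
      ∀ ω, (∀ v ∈ σ, X.bit ω (G.col v) = false) → ∑ ω', (E ω ω' : F) * x ω' = x ω := by
  classical
  induction σ using Finset.induction_on with
  | empty =>
    refine ⟨fun ω ω' => if ω = ω' then 1 else 0, fun F _ x => ⟨fun v hv => absurd hv (by simp), ?_⟩⟩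
    intro ω _
    simp
  | @insert u σ hu ih =>
    obtain ⟨E, hE⟩ := ih fun a ha b hb hab =>
      hσ a (mem_insert_of_mem ha) b (mem_insert_of_mem hb) hab
    refine ⟨fun ω => if X.bit ω (G.col u) = false then E ω else fun ω' => - E (X.s u ω) ω',
      fun F _ x => ?_⟩
    obtain ⟨h1, h2⟩ := hE F x
    have key : ∀ ω, ∑ ω', (((if X.bit ω (G.col u) = false then E ω
        else fun ω' => - E (X.s u ω) ω') ω' : ℤ) : F) * x ω' =
        if X.bit ω (G.col u) = false then ∑ ω', (E ω ω' : F) * x ω'
        else - ∑ ω', (E (X.s u ω) ω' : F) * x ω' := by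
      intro ω
      split_ifs with h
      · rfl
      · push_cast
        rw [← Finset.sum_neg_distrib]
        exact Finset.sum_congr rfl fun _ _ => by ring
    have hbit : ∀ ω, X.bit (X.s u ω) (G.col u) = !(X.bit ω (G.col u)) := by
      intro ω
      rw [X.bit_s]
      simp
    refine ⟨fun v hv ω => ?_, fun ω hω => ?_⟩
    · rw [key, key]
      rcases Finset.mem_insert.1 hv with rfl | hv'
      · rw [hbit, X.invol]
        cases h : X.bit ω (G.col v) <;> simp
      · have hadj : G.adj u v := hσ u (mem_insert_self u σ) v hv (fun h => hu (h ▸ hv'))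
        have hcol : X.bit (X.s v ω) (G.col u) = X.bit ω (G.col u) := by
          rw [X.bit_s, Function.update_of_ne (G.ne u v hadj)]
        rw [hcol, X.comm u v hadj, h1 v hv' ω, h1 v hv' (X.s u ω)]
        split_ifs <;> simp
    · rw [key, if_pos (hω u (mem_insert_self u σ))]
      exact h2 ω fun v hv => hω v (mem_insert_of_mem hv)

/-- an antisymmetric function is determined by its values at the points whose bits at the colours of
`σ` are `false` -/
theorem anti_ext {Ω : Type} (X : InvAct G Ω) (σ : Finset V) (hσ : G.Cl σ) {F : Type} [Field F]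
    (f g : Ω → F) (hf : ∀ v ∈ σ, ∀ ω, f (X.s v ω) = - f ω)
    (hg : ∀ v ∈ σ, ∀ ω, g (X.s v ω) = - g ω)
    (hfg : ∀ ω, (∀ v ∈ σ, X.bit ω (G.col v) = false) → f ω = g ω) : f = g := by
  classical
  funext ω
  -- induction on the number of vertices with bit true
  induction hn : (σ.filter fun v => X.bit ω (G.col v) = true).card using Nat.strong_induction_on
    generalizing ω with
  | _ n ih =>
    by_cases h : ∀ v ∈ σ, X.bit ω (G.col v) = false
    · exact hfg ω h
    · push Not at h
      obtain ⟨v, hv, hb⟩ := h
      have hb' : X.bit ω (G.col v) = true := by simpa using hb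
      have h1 : f (X.s v ω) = g (X.s v ω) := by
        refine ih _ ?_ (X.s v ω) rfl
        rw [← hn]
        refine Finset.card_lt_card ?_
        rw [Finset.ssubset_iff_of_subset]
        · refine ⟨v, Finset.mem_filter.2 ⟨hv, hb'⟩, fun h => ?_⟩
          have := (Finset.mem_filter.1 h).2
          rw [X.bit_s, Function.update_self, hb'] at this
          simp at this
        · intro w hw
          rw [Finset.mem_filter] at hw ⊢
          refine ⟨hw.1, ?_⟩
          have h2 := hw.2
          rw [X.bit_s] at h2
          by_cases hwv : w = v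
          · subst hwv
            exact hb'
          · rwa [Function.update_of_ne (G.ne w v (hσ w hw.1 v hv hwv))] at h2
      rw [hf v hv ω, hg v hv ω] at h1
      exact neg_injective h1

end Pool.Agent.H4.Singer
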