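import Pool.Agent.H4.Singer.RankInt
import Pool.Agent.H4.Singer.AntiExt

/-!
# Singer project: comparison of the Betti numbers over `ℂ` and over an arbitrary field
-/

set_option autoImplicit false
set_option linter.unusedSectionVars false

open Finset

namespace Pool.Agent.H4.Singer

variable {V C : Type} [DecidableEq V] [Fintype V] [DecidableEq C] {G : ColGraph V C}

private def RCell {Ω : Type} (X : InvAct G Ω) (i : ℕ) (p : Finset V × Ω) : Prop :=
  G.Cl p.1 ∧ p.1.card = i ∧ ∀ v ∈ p.1, X.bit p.2 (G.col v) = false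

open Classical in
private noncomputable def rext {Ω : Type} (X : InvAct G Ω) (i : ℕ) {F : Type} [Field F]
    (x : {p : Finset V × Ω // RCell X i p} → F) (σ : Finset V) (ω : Ω) : F :=
  if h : RCell X i (σ, ω) then x ⟨(σ, ω), h⟩ else 0

open Classical in
private theorem rsum {Ω : Type} [Fintype Ω] (X : InvAct G Ω) (i : ℕ) {F : Type} [Field F]
    (x : {p : Finset V × Ω // RCell X i p} → F) (σ : Finset V) (f : Ω → ℤ) :
    ∑ c : {p : Finset V × Ω // RCell X i p}, ((if c.1.1 = σ then f c.1.2 else 0 : ℤ) : F) * x c =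
      ∑ ω, (f ω : F) * rext X i x σ ω := by
  have h1 : ∑ c : {p : Finset V × Ω // RCell X i p},
      ((if c.1.1 = σ then f c.1.2 else 0 : ℤ) : F) * x c =
      ∑ c : {p : Finset V × Ω // RCell X i p},
        (fun p : Finset V × Ω => ((if p.1 = σ then f p.2 else 0 : ℤ) : F) *
          rext X i x p.1 p.2) c.1 := by
    refine Finset.sum_congr rfl fun c _ => ?_
    have : rext X i x c.1.1 c.1.2 = x c := by
      unfold rext
      rw [dif_pos c.2]
    simp only [this]
  rw [h1]
  have h2 : ∑ c : {p : Finset V × Ω // RCell X i p},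
        (fun p : Finset V × Ω => ((if p.1 = σ then f p.2 else 0 : ℤ) : F) *
          rext X i x p.1 p.2) c.1 = ∑ p ∈ Finset.univ.filter (RCell X i),
        (fun p : Finset V × Ω => ((if p.1 = σ then f p.2 else 0 : ℤ) : F) *
          rext X i x p.1 p.2) p := by
    symm
    apply Finset.sum_subtype
    intro p
    simp
  rw [h2, Finset.sum_filter_of_ne, Fintype.sum_prod_type]
  · rw [Finset.sum_eq_single σ]
    · simp
    · intro τ _ hτ
      simp [hτ]
    · intro h
      exact absurd (Finset.mem_univ _) h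
  · intro p _ hp
    by_contra hc
    apply hp
    have : rext X i x p.1 p.2 = 0 := by
      unfold rext
      rw [dif_neg hc]
    simp [this]

private theorem exists_int_matrix {Ω : Type} [Fintype Ω] (X : InvAct G Ω) (ν : V → ℕ) (i : ℕ) :
    ∃ (I : Type) (_ : Fintype I) (D : Matrix (Finset V × Ω) I ℤ), ∀ (F : Type) [Field F],
      Module.finrank F ((Ch F X i).map (dl F ν)) = (D.map (Int.cast : ℤ → F)).rank ∧
      Module.finrank F (Zc F X ν i) + (D.map (Int.cast : ℤ → F)).rank = Fintype.card I := by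
  classical
  have hE : ∀ σ : Finset V, ∃ E : Ω → Ω → ℤ, G.Cl σ → ∀ (F : Type) [Field F] (x : Ω → F),
      (∀ v ∈ σ, ∀ ω, ∑ ω', (E (X.s v ω) ω' : F) * x ω' = - ∑ ω', (E ω ω' : F) * x ω') ∧
      ∀ ω, (∀ v ∈ σ, X.bit ω (G.col v) = false) → ∑ ω', (E ω ω' : F) * x ω' = x ω := by
    intro σ
    by_cases h : G.Cl σ
    · obtain ⟨E, hE⟩ := exists_ext X σ h
      exact ⟨E, fun _ => hE⟩
    · exact ⟨0, fun h' => absurd h' h⟩
  choose E hE using hE
  let I := {p : Finset V × Ω // RCell X i p}
  let Mx : Finset V → Ω → I → ℤ := fun σ ω c => if c.1.1 = σ then E σ ω c.1.2 else 0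
  let D : Matrix (Finset V × Ω) I ℤ := fun p c => ∑ v ∈ p.1ᶜ, sg ν v p.1 * Mx (insert v p.1) p.2 c
  refine ⟨I, inferInstance, D, fun F _ => ?_⟩
  let φ : (I → F) →ₗ[F] (Finset V → Ω → F) :=
    { toFun := fun x σ ω => ∑ c : I, (Mx σ ω c : F) * x c
      map_add' := by
        intro x y
        funext σ ω
        simp [mul_add, Finset.sum_add_distrib]
      map_smul' := by
        intro a x
        funext σ ω
        simp only [Pi.smul_apply, smul_eq_mul, RingHom.id_apply, Finset.mul_sum]
        exact Finset.sum_congr rfl fun c _ => by ring }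
  have hφ : ∀ (x : I → F) (σ : Finset V) (ω : Ω),
      φ x σ ω = ∑ ω', (E σ ω ω' : F) * rext X i x σ ω' := by
    intro x σ ω
    exact rsum X i x σ (E σ ω)
  have hz : ∀ (x : I → F) (σ : Finset V), ¬ (G.Cl σ ∧ σ.card = i) → ∀ ω, φ x σ ω = 0 := by
    intro x σ h ω
    rw [hφ]
    refine Finset.sum_eq_zero fun ω' _ => ?_
    have : rext X i x σ ω' = 0 := by
      unfold rext
      rw [dif_neg (fun h' : RCell X i (σ, ω') => h ⟨h'.1, h'.2.1⟩)]
    rw [this, mul_zero]
  have hanti : ∀ (x : I → F) (σ : Finset V), ∀ v ∈ σ, ∀ ω, φ x σ (X.s v ω) = - φ x σ ω := by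
    intro x σ v hv ω
    by_cases h : G.Cl σ
    · rw [hφ, hφ]
      exact (hE σ h F (rext X i x σ)).1 v hv ω
    · rw [hz x σ (fun h' => h h'.1), hz x σ (fun h' => h h'.1), neg_zero]
  have hres : ∀ (x : I → F) (σ : Finset V) (ω : Ω) (h : RCell X i (σ, ω)),
      φ x σ ω = x ⟨(σ, ω), h⟩ := by
    intro x σ ω h
    rw [hφ, (hE σ h.1 F (rext X i x σ)).2 ω h.2.2]
    unfold rext
    rw [dif_pos h]
  have hinj : Function.Injective φ := by
    intro x y hxy
    funext c
    have h1 := hres x c.1.1 c.1.2 c.2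
    have h2 := hres y c.1.1 c.1.2 c.2
    have h3 : x c = φ x c.1.1 c.1.2 := h1.symm
    have h4 : y c = φ y c.1.1 c.1.2 := h2.symm
    rw [h3, h4, hxy]
  have hrange : LinearMap.range φ = Ch F X i := by
    apply le_antisymm
    · rintro _ ⟨x, rfl⟩
      rw [mem_Ch]
      refine ⟨fun σ ω h => ?_, hanti x⟩
      by_contra hc
      exact h (hz x σ hc ω)
    · intro f hf
      rw [mem_Ch] at hf
      refine ⟨fun c => f c.1.1 c.1.2, ?_⟩
      funext σ
      by_cases h : G.Cl σ ∧ σ.card = i
      · refine anti_ext X σ h.1 _ _ (hanti _ σ) (hf.2 σ) fun ω hω => ?_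
        rw [hres _ σ ω ⟨h.1, h.2, hω⟩]
      · funext ω
        rw [hz _ σ h]
        by_contra hc
        exact h (hf.1 σ ω (Ne.symm hc))
  -- the matrix of `dl ∘ φ`
  have hD : ∀ (x : I → F) (τ : Finset V) (ω : Ω), dl F ν (φ x) τ ω =
      ((D.map (Int.cast : ℤ → F)).mulVec x) (τ, ω) := by
    intro x τ ω
    rw [dl_apply]
    simp only [Matrix.mulVec, dotProduct, Matrix.map_apply]
    have h1 : ∀ v ∈ τᶜ, (sg ν v τ : F) * φ x (insert v τ) ω =
        ∑ c : I, (sg ν v τ : F) * ((Mx (insert v τ) ω c : F) * x c) := by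
      intro v _
      rw [← Finset.mul_sum]
      rfl
    rw [Finset.sum_congr rfl h1, Finset.sum_comm]
    refine Finset.sum_congr rfl fun c _ => ?_
    have h2 : ((D (τ, ω) c : ℤ) : F) = ∑ v ∈ τᶜ, (sg ν v τ : F) * (Mx (insert v τ) ω c : F) := by
      change ((∑ v ∈ τᶜ, sg ν v τ * Mx (insert v τ) ω c : ℤ) : F) = _
      push_cast
      rfl
    rw [h2, Finset.sum_mul]
    exact Finset.sum_congr rfl fun v _ => by ring
  let e : (Finset V × Ω → F) ≃ₗ[F] (Finset V → Ω → F) := LinearEquiv.curry F F (Finset V) Ω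
  have hcomp : (dl F ν).comp φ = e.toLinearMap.comp (D.map (Int.cast : ℤ → F)).mulVecLin := by
    refine LinearMap.ext fun x => ?_
    funext τ ω
    exact hD x τ ω
  have hr1 : Module.finrank F ((Ch F X i).map (dl F ν)) = (D.map (Int.cast : ℤ → F)).rank := by
    rw [← hrange, ← LinearMap.range_comp, hcomp, LinearMap.range_comp]
    rw [LinearEquiv.finrank_map_eq]
    rfl
  refine ⟨hr1, ?_⟩
  have hker : Zc F X ν i = (LinearMap.ker ((dl F ν).comp φ)).map φ := by
    unfold Zc
    rw [← hrange]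
    ext f
    constructor
    · rintro ⟨⟨x, rfl⟩, hx⟩
      exact ⟨x, hx, rfl⟩
    · rintro ⟨x, hx, rfl⟩
      exact ⟨⟨x, rfl⟩, hx⟩
  have h1 : Module.finrank F (Zc F X ν i) = Module.finrank F (LinearMap.ker ((dl F ν).comp φ)) := by
    rw [hker]
    exact (Submodule.equivMapOfInjective φ hinj _).finrank_eq.symm
  have h2 := LinearMap.finrank_range_add_finrank_ker ((dl F ν).comp φ)
  have h3 : Module.finrank F (LinearMap.range ((dl F ν).comp φ)) =
      (D.map (Int.cast : ℤ → F)).rank := by
    rw [← hr1, LinearMap.range_comp, hrange]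
  have h4 : Module.finrank F (I → F) = Fintype.card I := Module.finrank_fintype_fun_eq_card F
  omega

/-- Let `I i` be the set of the cells: pairs `(σ, ω)` with `σ` a clique with `i` elements and the
bits of `ω` at the colours of `σ` equal to `false`. By `exists_ext`, `anti_ext` the map
`Ch F X i → (I i → F)` (restriction) is an isomorphism whose inverse is given by an integer matrix
that does not depend on `F`; so `finrank (Ch F X i) = |I i|` and
`finrank ((Ch F X i).map (dl F ν))` is the rank over `F` of an integer matrix that does not depend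
on `F`. As `finrank (Zc i) = finrank (Ch i) - finrank ((Ch i).map dl)`, the claim follows from
`rank_int_le`. -/
theorem bet_complex_le {Ω : Type} [Fintype Ω] (X : InvAct G Ω) (ν : V → ℕ)
    (hν : Function.Injective ν) (i : ℕ) (F : Type) [Field F] : bet ℂ X ν i ≤ bet F X ν i := by
  obtain ⟨I, _, D, hD⟩ := exists_int_matrix X ν i
  obtain ⟨I', _, D', hD'⟩ := exists_int_matrix X ν (i + 1)
  have h1 := (hD ℂ).2
  have h2 := (hD F).2
  have h3 := (hD' ℂ).1
  have h4 := (hD' F).1
  have h5 := rank_int_le D F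
  have h6 := rank_int_le D' F
  unfold bet Bc
  rw [h3, h4]
  omega

end Pool.Agent.H4.Singer
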