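import Pool.Agent.H4.Singer.TowerProd

/-!
# Singer project: finite two-groups
-/

set_option autoImplicit false
set_option linter.unusedSectionVars false

open Finset

namespace Pool.Agent.H4.Singer

variable {V C : Type} [DecidableEq V] [Fintype V] [DecidableEq C] {G : ColGraph V C}
  {F : Type} [Field F]

/-- If the two-group `P` acts on `Ω` such that `g v` acts as `X.s v`, then the map
`(p, ω) ↦ (p, p ω)` is an isomorphism of `prodAct g X` with `copies XP Ω`. -/
theorem bet_level [CharP F 2] {P Ω : Type} [Group P] [Fintype P] [Fintype Ω]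
    (hP : IsPGroup 2 P) (g : V → P) (hg : ∀ v, g v * g v = 1)
    (hgc : ∀ u v, G.adj u v → g u * g v = g v * g u) (X : InvAct G Ω) (XP : InvAct G P)
    (hXP : ∀ v p, XP.s v p = p * g v) (act : P →* Equiv.Perm Ω)
    (hact : ∀ v ω, act (g v) ω = X.s v ω) (ν : V → ℕ) (hν : Function.Injective ν) (i : ℕ) :
    Fintype.card Ω * bet F XP ν i ≤ Fintype.card P * bet F X ν i := by
  have h1 := bet_prod_le (F := F) hP g hg hgc X ν hν i
  have h2 := bet_copies (F := F) XP Ω ν hν i
  have h3 : bet F (prodAct g hg hgc X) ν i = bet F (copies XP Ω) ν i := by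
    refine bet_equiv _ _ ν i
      { toFun := fun p => (p.1, act p.1 p.2)
        invFun := fun p => (p.1, act p.1⁻¹ p.2)
        left_inv := fun p => by simp
        right_inv := fun p => by simp } ?_
    rintro v ⟨p, ω⟩
    simp only [prodAct, copies, Equiv.coe_fn_mk, hXP, map_mul, Equiv.Perm.mul_apply]
    rw [hact, X.invol]
  rw [h3, h2] at h1
  exact h1

end Pool.Agent.H4.Singer
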