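import Pool.Agent.H4.Singer.OmegaBound
import Pool.Agent.H4.Singer.Tower
import Pool.Agent.H4.Singer.RankCompare
import Pool.Agent.H4.Singer.Levels
import Pool.Agent.H4.Singer.HarmMatrix

/-!
# Singer project: from generic vanishing to the vanishing of the reduced `ℓ²`-homology
-/

set_option autoImplicit false
set_option linter.unusedSectionVars false

open Finset Filter Topology

namespace Pool.Agent.H4.Singer

open Pool.Agent.H4.Atiyah

variable {V C : Type} [DecidableEq V] [Fintype V] [DecidableEq C] [Fintype C] {K : Type} [Field K]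

theorem core [CharP K 2] (G : SimpleGraph V) (Γ : ColGraph V C)
    (hG : ∀ u v, G.Adj u v ↔ Γ.adj u v) (t₀ : V → K) (i : ℕ) (h : Van Γ t₀ univ i) :
    L2HomologyZero G i := by
  classical
  intro ν hν z hz hdz ε hε
  refine l2_hodge G ν hν i ?_ z hz hdz ε hε
  obtain ⟨D, k, hD⟩ := bet_omQ_le Γ t₀ i h ν
  obtain ⟨P, grp, fin, π, XP, act, h2, hsep, hs, hact⟩ := exists_levels G Γ hG k
  obtain ⟨kk, n, A, hA, hdim⟩ := exists_harm_matrix G Γ hG ν hν i
  refine hA (l2ker_trivial π hsep A ?_)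
  intro η hη
  have hbd : ∀ j, (bet ℂ (XP j) ν i : ℝ) ≤ D / 2 ^ j * Fintype.card (P j) := by
    intro j
    have h3 : bet ℂ (XP j) ν i ≤ bet K (XP j) ν i := bet_complex_le (XP j) ν hν i K
    have h4 := bet_level (F := K) (h2 j) (fun v => π j (gen G v))
      (fun v => by rw [← map_mul, gen_mul_gen, map_one])
      (fun u v huv => by rw [← map_mul, ← map_mul, gen_comm G u v ((hG u v).2 huv)])
      (omQ Γ (2 ^ j) k) (XP j) (hs j) (act j) (hact j) ν hν i
    have h5 := hD (2 ^ j)
    have h6 : 2 ^ j ≤ Fintype.card ((C → Bool) × ZMod (2 ^ j)) := by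
      rw [Fintype.card_prod, ZMod.card]
      exact Nat.le_mul_of_pos_left _ Fintype.card_pos
    have h7 : 2 ^ j * bet ℂ (XP j) ν i ≤ Fintype.card (P j) * D :=
      (Nat.mul_le_mul h6 h3).trans (h4.trans (Nat.mul_le_mul_left _ h5))
    have h8 : (2 ^ j * bet ℂ (XP j) ν i : ℝ) ≤ Fintype.card (P j) * D := by exact_mod_cast h7
    rw [div_mul_eq_mul_div, le_div_iff₀ (by positivity)]
    linarith
  have hlim : Tendsto (fun j : ℕ => (D : ℝ) / 2 ^ j) atTop (𝓝 0) := by
    have h9 : Tendsto (fun j : ℕ => (D : ℝ) * (1 / 2) ^ j) atTop (𝓝 (D * 0)) :=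
      (tendsto_pow_atTop_nhds_zero_of_lt_one (by norm_num) (by norm_num)).const_mul _
    rw [mul_zero] at h9
    refine h9.congr fun j => ?_
    rw [div_pow, one_pow, mul_one_div]
  filter_upwards [hlim.eventually (eventually_le_nhds hη)] with j hj
  refine (hdim (P j) (π j) (XP j) (hs j)).trans ((hbd j).trans ?_)
  exact mul_le_mul_of_nonneg_right hj (Nat.cast_nonneg _)

end Pool.Agent.H4.Singer
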