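import Pool.Agent.H4.Singer.Basic

/-!
# Singer project: removing a vertex
-/

set_option autoImplicit false
set_option linter.unusedSectionVars false

open Finset

namespace Pool.Agent.H4.Singer

variable {V C : Type} [DecidableEq V] [Fintype V] [DecidableEq C] {K : Type} [Field K]

open Classical in
/-- the neighbours of `v` in `U` -/
noncomputable def lk (G : ColGraph V C) (U : Finset V) (v : V) : Finset V :=
  U.filter fun u => G.adj v u

theorem mem_lk_iff (G : ColGraph V C) (U : Finset V) (v u : V) :
    u ∈ lk G U v ↔ u ∈ U ∧ G.adj v u := by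
  classical
  unfold lk
  exact Finset.mem_filter

/-- Mayer-Vietoris (long exact sequence of the pair). Proof: let `z` be a cycle of degree `j + 1` on
`U`. Then `z₁ τ a = if v ∈ τ then 0 else z (insert v τ) a` is a cycle of degree `j` on `lk G U v`,
so `z₁ = ∂ y₁`, and we may assume that `y₁ τ a` does not depend on `a (col v)` (replace it by
`y₁ τ (update a (col v) false)`). Let `y σ a = if v ∈ σ then y₁ (σ.erase v) a else 0`, a chain of
degree `j + 2` on `U`. Then `z - ∂ y` is a cycle on `U.erase v`. -/
theorem van_step [CharP K 2] (G : ColGraph V C) (t : V → K) (U : Finset V) (v : V) (hv : v ∈ U)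
    (j : ℕ) (h1 : Van G t (U.erase v) (j + 1)) (h2 : Van G t (lk G U v) j) :
    Van G t U (j + 1) := by
  intro z hz hbz
  obtain ⟨z1, hz1⟩ : ∃ z1 : Finset V → (C → Bool) → K,
      ∀ τ a, z1 τ a = if v ∈ τ then 0 else z (insert v τ) a := ⟨_, fun _ _ => rfl⟩
  have hz1c : IsChain G (lk G U v) j z1 := by
    refine ⟨fun τ a h => ?_, fun τ a u b hu => ?_⟩
    · rw [hz1] at h
      by_cases hvt : v ∈ τ
      · rw [if_pos hvt] at h
        exact absurd rfl h
      · rw [if_neg hvt] at h
        obtain ⟨a1, a2, a3⟩ := hz.supp _ _ h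
        rw [Finset.card_insert_of_notMem hvt] at a3
        refine ⟨fun u hu => ?_, a2.mono (Finset.subset_insert v τ), by omega⟩
        rw [mem_lk_iff]
        exact ⟨a1 (Finset.mem_insert_of_mem hu), a2 v (Finset.mem_insert_self _ _) u
          (Finset.mem_insert_of_mem hu) (fun h => hvt (h ▸ hu))⟩
    · rw [hz1, hz1, hz.indep (insert v τ) a u b (Finset.mem_insert_of_mem hu)]
  have hbz1 : bd G t z1 = 0 := by
    funext τ a
    by_cases hvt : v ∈ τ
    · unfold bd
      refine Finset.sum_eq_zero fun u _ => ?_
      rw [hz1, if_pos (Finset.mem_insert_of_mem hvt), smul_zero]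
    · have h0 := congrFun (congrFun hbz (insert v τ)) a
      unfold bd at h0 ⊢
      rw [Pi.zero_apply, Pi.zero_apply] at h0 ⊢
      rw [← h0]
      symm
      have hsub : (insert v τ)ᶜ ⊆ τᶜ := by
        intro u hu
        rw [Finset.mem_compl] at hu ⊢
        exact fun h => hu (Finset.mem_insert_of_mem h)
      rw [← Finset.sum_subset hsub (f := fun u => wt t u (a (G.col u)) • z1 (insert u τ) a)]
      · refine Finset.sum_congr rfl fun u hu => ?_
        rw [Finset.mem_compl, Finset.mem_insert, not_or] at hu
        have hvu : v ∉ insert u τ := by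
          rw [Finset.mem_insert, not_or]
          exact ⟨fun h => hu.1 h.symm, hvt⟩
        rw [hz1, if_neg hvu, Finset.insert_comm]
      · intro u hu hu'
        rw [Finset.mem_compl] at hu hu'
        rw [not_not, Finset.mem_insert] at hu'
        rcases hu' with rfl | hu'
        · rw [hz1, if_pos (Finset.mem_insert_self _ _), smul_zero]
        · exact absurd hu' hu
  obtain ⟨y1, hy1, hby1⟩ := h2 z1 hz1c hbz1
  obtain ⟨y1', hy1'⟩ : ∃ y1' : Finset V → (C → Bool) → K,
      ∀ τ a, y1' τ a = y1 τ (Function.update a (G.col v) false) := ⟨_, fun _ _ => rfl⟩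
  have hy1c : IsChain G (lk G U v) (j + 1) y1' := by
    refine ⟨fun τ a h => hy1.supp τ _ (by rwa [hy1'] at h), fun τ a u b hu => ?_⟩
    rw [hy1', hy1']
    by_cases hc : G.col u = G.col v
    · rw [hc, Function.update_idem]
    · rw [Function.update_comm hc, hy1.indep τ _ u b hu]
  have hby1' : bd G t y1' = z1 := by
    funext τ a
    have e1 : z1 τ a = z1 τ (Function.update a (G.col v) false) := by
      rw [hz1, hz1, hz.indep (insert v τ) a v false (Finset.mem_insert_self _ _)]
    rw [e1, ← hby1]
    unfold bd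
    refine Finset.sum_congr rfl fun u _ => ?_
    rw [hy1']
    by_cases h0 : y1 (insert u τ) (Function.update a (G.col v) false) = 0
    · rw [h0, smul_zero, smul_zero]
    · have hu := (hy1.supp _ _ h0).1 (Finset.mem_insert_self _ _)
      rw [mem_lk_iff] at hu
      rw [Function.update_of_ne (G.ne v u hu.2).symm]
  obtain ⟨y, hy⟩ : ∃ y : Finset V → (C → Bool) → K,
      ∀ σ a, y σ a = if v ∈ σ then y1' (σ.erase v) a else 0 := ⟨_, fun _ _ => rfl⟩
  have hyc : IsChain G U (j + 1 + 1) y := by
    refine ⟨fun σ a h => ?_, fun σ a u b hu => ?_⟩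
    · rw [hy] at h
      by_cases hvs : v ∈ σ
      · rw [if_pos hvs] at h
        obtain ⟨a1, a2, a3⟩ := hy1c.supp _ _ h
        have key : ∀ u ∈ σ, u ≠ v → u ∈ U ∧ G.adj v u := fun u hu hne => by
          have := a1 (Finset.mem_erase.2 ⟨hne, hu⟩)
          rwa [mem_lk_iff] at this
        refine ⟨fun u hu => ?_, ?_, ?_⟩
        · by_cases hne : u = v
          · rw [hne]; exact hv
          · exact (key u hu hne).1
        · intro u hu w hw huw
          by_cases hne : u = v
          · subst hne
            exact (key w hw huw.symm).2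
          · by_cases hnw : w = v
            · subst hnw
              exact G.symm _ _ (key u hu hne).2
            · exact a2 u (Finset.mem_erase.2 ⟨hne, hu⟩) w (Finset.mem_erase.2 ⟨hnw, hw⟩) huw
        · rw [Finset.card_erase_of_mem hvs] at a3
          have : 0 < σ.card := Finset.card_pos.2 ⟨v, hvs⟩
          omega
      · rw [if_neg hvs] at h
        exact absurd rfl h
    · rw [hy, hy]
      by_cases hvs : v ∈ σ
      · rw [if_pos hvs, if_pos hvs]
        by_cases hne : u = v
        · subst hne
          rw [hy1', hy1', Function.update_idem]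
        · exact hy1c.indep _ a u b (Finset.mem_erase.2 ⟨hne, hu⟩)
      · rw [if_neg hvs, if_neg hvs]
  have h20 : ∀ m : K, m + m = 0 := fun m => CharTwo.add_self_eq_zero m
  have hzc : IsChain G (U.erase v) (j + 1) (z - bd G t y) := by
    have hc := hz.sub (hyc.bd t)
    refine ⟨fun σ a h => ?_, hc.indep⟩
    obtain ⟨a1, a2, a3⟩ := hc.supp σ a h
    refine ⟨fun u hu => Finset.mem_erase.2 ⟨?_, a1 hu⟩, a2, a3⟩
    rintro rfl
    apply h
    rw [Pi.sub_apply, Pi.sub_apply, sub_eq_zero]
    have e1 : z σ a = z1 (σ.erase u) a := by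
      rw [hz1, if_neg (Finset.notMem_erase _ _), Finset.insert_erase hu]
    rw [e1, ← hby1']
    unfold bd
    symm
    have hsub : σᶜ ⊆ (σ.erase u)ᶜ := by
      intro w hw
      rw [Finset.mem_compl] at hw ⊢
      exact fun h => hw (Finset.mem_of_mem_erase h)
    rw [← Finset.sum_subset hsub
      (f := fun w => wt t w (a (G.col w)) • y1' (insert w (σ.erase u)) a)]
    · refine Finset.sum_congr rfl fun w hw => ?_
      rw [Finset.mem_compl] at hw
      have hwu : w ≠ u := fun h => hw (h ▸ hu)
      rw [hy, if_pos (Finset.mem_insert_of_mem hu), Finset.erase_insert_of_ne hwu]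
    · intro w hw hw'
      rw [Finset.mem_compl] at hw hw'
      rw [not_not] at hw'
      have hwu : w = u := by
        by_contra hne
        exact hw (Finset.mem_erase.2 ⟨hne, hw'⟩)
      subst hwu
      have h0 : y1' (insert w (σ.erase w)) a = 0 := by
        by_contra h0
        have := (hy1c.supp _ _ h0).1 (Finset.mem_insert_self _ _)
        rw [mem_lk_iff] at this
        exact G.irrefl _ this.2
      rw [h0, smul_zero]
  obtain ⟨y2, hy2, hby2⟩ := h1 _ hzc (by rw [bd_sub, hbz, bd_bd t h20 y, sub_zero])
  refine ⟨y2 + y, (hy2.mono (Finset.erase_subset _ _)).add hyc, ?_⟩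
  rw [bd_add, hby2, sub_add_cancel]

end Pool.Agent.H4.Singer
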