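import Pool.Agent.H4.Singer.Defs

/-!
# Singer project: chain complexes of sets with an action
-/

set_option autoImplicit false
set_option linter.unusedSectionVars false

open Finset

namespace Pool.Agent.H4.Singer

variable {V C : Type} [DecidableEq V] [Fintype V] [DecidableEq C] {G : ColGraph V C} {Ω : Type}
  {F : Type} [Field F]

theorem dl_apply (ν : V → ℕ) (f : Finset V → Ω → F) (τ : Finset V) (ω : Ω) :
    dl F ν f τ ω = ∑ v ∈ τᶜ, (sg ν v τ : F) * f (insert v τ) ω := rfl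

theorem mem_Ch {X : InvAct G Ω} {i : ℕ} {f : Finset V → Ω → F} :
    f ∈ Ch F X i ↔ (∀ σ ω, f σ ω ≠ 0 → G.Cl σ ∧ σ.card = i) ∧
      ∀ σ, ∀ v ∈ σ, ∀ ω, f σ (X.s v ω) = - f σ ω := Iff.rfl

/-- the boundary of a chain is a chain -/
theorem dl_mem_Ch {X : InvAct G Ω} {i : ℕ} (ν : V → ℕ) {f : Finset V → Ω → F}
    (hf : f ∈ Ch F X (i + 1)) : dl F ν f ∈ Ch F X i := by
  rw [mem_Ch] at hf ⊢
  obtain ⟨h1, h2⟩ := hf
  refine ⟨fun τ ω h => ?_, fun τ v hv ω => ?_⟩
  · rw [dl_apply] at h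
    obtain ⟨u, hu, hne⟩ := Finset.exists_ne_zero_of_sum_ne_zero h
    rw [Finset.mem_compl] at hu
    obtain ⟨h3, h4⟩ := h1 _ _ (right_ne_zero_of_mul hne)
    refine ⟨fun a ha b hb hab => h3 a (mem_insert_of_mem ha) b (mem_insert_of_mem hb) hab, ?_⟩
    rw [Finset.card_insert_of_notMem hu] at h4
    omega
  · rw [dl_apply, dl_apply, ← Finset.sum_neg_distrib]
    refine Finset.sum_congr rfl fun u _ => ?_
    rw [h2 (insert u τ) v (mem_insert_of_mem hv)]
    ring

/-- the incidence signs of the two ways to add two vertices are opposite -/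
theorem sg_swap (ν : V → ℕ) (hν : Function.Injective ν) (u v : V) (huv : u ≠ v) (τ : Finset V)
    (hu : u ∉ τ) (hv : v ∉ τ) :
    sg ν v τ * sg ν u (insert v τ) = - (sg ν u τ * sg ν v (insert u τ)) := by
  have key : ∀ a b : V, a ≠ b → a ∉ τ → b ∉ τ → ν a < ν b →
      sg ν b τ * sg ν a (insert b τ) = - (sg ν a τ * sg ν b (insert a τ)) := by
    intro a b hab ha hb hlt
    unfold sg
    rw [Finset.filter_insert, if_neg (by omega), Finset.filter_insert, if_pos hlt,
      Finset.card_insert_of_notMem (fun h => ha (Finset.mem_filter.1 h).1)]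
    ring
  rcases lt_trichotomy (ν u) (ν v) with h | h | h
  · exact key u v huv hu hv h
  · exact absurd (hν h) huv
  · rw [key v u huv.symm hv hu h, neg_neg]

/-- `∂∂ = 0` -/
theorem dl_dl (ν : V → ℕ) (hν : Function.Injective ν) (f : Finset V → Ω → F) :
    dl F ν (dl F ν f) = 0 := by
  funext τ ω
  rw [dl_apply]
  simp only [dl_apply, Finset.mul_sum, Pi.zero_apply]
  rw [Finset.sum_sigma']
  refine Finset.sum_involution (fun p _ => ⟨p.2, p.1⟩) ?_ ?_ ?_ ?_
  · rintro ⟨v, u⟩ h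
    simp only [Finset.mem_sigma, Finset.mem_compl, Finset.mem_insert, not_or] at h
    simp only
    rw [Finset.insert_comm v u τ, ← mul_assoc, ← mul_assoc, ← add_mul, ← Int.cast_mul,
      ← Int.cast_mul, sg_swap ν hν u v h.2.1 τ h.2.2 h.1]
    push_cast
    ring
  · rintro ⟨v, u⟩ h _ heq
    simp only [Finset.mem_sigma, Finset.mem_compl, Finset.mem_insert, not_or] at h
    simp only [Sigma.mk.injEq, heq_eq_eq] at heq
    exact h.2.1 heq.1
  · rintro ⟨v, u⟩ h
    simp only [Finset.mem_sigma, Finset.mem_compl, Finset.mem_insert, not_or] at h ⊢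
    exact ⟨h.2.2, fun h1 => h.2.1 h1.symm, h.1⟩
  · rintro ⟨v, u⟩ _
    rfl

theorem Bc_le_Zc (X : InvAct G Ω) (ν : V → ℕ) (hν : Function.Injective ν) (i : ℕ) :
    Bc F X ν i ≤ Zc F X ν i := by
  rintro _ ⟨f, hf, rfl⟩
  exact ⟨dl_mem_Ch ν hf, dl_dl ν hν f⟩

instance [Fintype Ω] : Module.Finite F (Finset V → Ω → F) := inferInstance

theorem bet_add [Fintype Ω] (X : InvAct G Ω) (ν : V → ℕ) (hν : Function.Injective ν) (i : ℕ) :
    bet F X ν i + Module.finrank F (Bc F X ν i) = Module.finrank F (Zc F X ν i) := by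
  unfold bet
  have := Submodule.finrank_mono (Bc_le_Zc (F := F) X ν hν i)
  omega

end Pool.Agent.H4.Singer
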