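import Mathlib

/-!
# Singer project: the adjoint of the boundary operator
-/

set_option autoImplicit false
set_option linter.unusedSectionVars false

open Finset

namespace Pool.Agent.H4.Singer

lemma adjId_summable {Ω : Type} {f g : Ω → ℂ} (hf : Summable fun ω => ‖f ω‖ ^ 2)
    (hg : Summable fun ω => ‖g ω‖ ^ 2) : Summable fun ω => (starRingEnd ℂ) (f ω) * g ω := by
  refine Summable.of_norm_bounded (hf.add hg) fun ω => ?_
  rw [norm_mul, RCLike.norm_conj]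
  nlinarith [sq_nonneg (‖f ω‖ - ‖g ω‖), sq_nonneg ‖f ω‖, sq_nonneg ‖g ω‖]

lemma adjId_comp {Ω : Type} (e : Ω ≃ Ω) {f : Ω → ℂ} (hf : Summable fun ω => ‖f ω‖ ^ 2) :
    Summable fun ω => ‖f (e ω)‖ ^ 2 :=
  (e.summable_iff (f := fun ω => ‖f ω‖ ^ 2)).2 hf

lemma adjId_anti {Ω : Type} (e : Ω ≃ Ω) (he : ∀ ω, e (e ω) = ω) (f g : Ω → ℂ)
    (hg : ∀ ω, g (e ω) = - g ω) :
    ∑' ω, (starRingEnd ℂ) (f (e ω)) * g ω = - ∑' ω, (starRingEnd ℂ) (f ω) * g ω := by
  rw [← e.tsum_eq (fun ω => (starRingEnd ℂ) (f (e ω)) * g ω), ← tsum_neg]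
  refine tsum_congr fun ω => ?_
  rw [he, hg]
  ring

/-- Proof: exchange the sums: the pairs `(τ, v)` with `v ∉ τ` correspond to the pairs `(ρ, v)` with
`v ∈ ρ` (`ρ = insert v τ`); all series converge absolutely (products of square summable functions).
For fixed `ρ, v` the substitution `ω ↦ s v ω` and the antisymmetry of `c` give
`∑' conj (h' ω) (c ρ ω) = - ∑' conj (h' (s v ω)) (c ρ ω)` with `h' = h (ρ.erase v)`, so it is one
half of `∑' conj (h' ω - h' (s v ω)) (c ρ ω)`. -/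
theorem adj_identity {V Ω : Type} [Fintype V] [DecidableEq V] (s : V → Ω → Ω)
    (hs : ∀ v ω, s v (s v ω) = ω) (ν : V → ℕ) (h c : Finset V → Ω → ℂ)
    (hh : ∀ σ, Summable fun ω => ‖h σ ω‖ ^ 2) (hc : ∀ σ, Summable fun ω => ‖c σ ω‖ ^ 2)
    (hanti : ∀ ρ, ∀ v ∈ ρ, ∀ ω, c ρ (s v ω) = - c ρ ω) :
    ∑ τ : Finset V, ∑' ω, (starRingEnd ℂ) (h τ ω) *
        (∑ v ∈ τᶜ, (-1 : ℂ) ^ (τ.filter fun u => ν u < ν v).card * c (insert v τ) ω) =
      (1 / 2) * ∑ ρ : Finset V, ∑' ω, (starRingEnd ℂ)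
        (∑ v ∈ ρ, (-1 : ℂ) ^ ((ρ.erase v).filter fun u => ν u < ν v).card *
          (h (ρ.erase v) ω - h (ρ.erase v) (s v ω))) * c ρ ω := by
  let e : V → Ω ≃ Ω := fun v => (show Function.Involutive (s v) from hs v).toPerm
  have he : ∀ v ω, e v ω = s v ω := fun v ω => rfl
  -- the left hand side
  have h1 : ∀ τ : Finset V, ∑' ω, (starRingEnd ℂ) (h τ ω) *
        (∑ v ∈ τᶜ, (-1 : ℂ) ^ (τ.filter fun u => ν u < ν v).card * c (insert v τ) ω) =
      ∑ v ∈ τᶜ, (-1 : ℂ) ^ (τ.filter fun u => ν u < ν v).card *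
        ∑' ω, (starRingEnd ℂ) (h τ ω) * c (insert v τ) ω := by
    intro τ
    have e1 : ∀ ω, (starRingEnd ℂ) (h τ ω) *
        (∑ v ∈ τᶜ, (-1 : ℂ) ^ (τ.filter fun u => ν u < ν v).card * c (insert v τ) ω) =
        ∑ v ∈ τᶜ, (-1 : ℂ) ^ (τ.filter fun u => ν u < ν v).card *
          ((starRingEnd ℂ) (h τ ω) * c (insert v τ) ω) := by
      intro ω
      rw [Finset.mul_sum]
      exact Finset.sum_congr rfl fun v _ => by ring
    rw [tsum_congr e1, Summable.tsum_finsetSum fun v _ => (adjId_summable (hh τ) (hc _)).mul_left _]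
    exact Finset.sum_congr rfl fun v _ => tsum_mul_left
  -- the right hand side
  have h2 : ∀ ρ : Finset V, ∑' ω, (starRingEnd ℂ)
        (∑ v ∈ ρ, (-1 : ℂ) ^ ((ρ.erase v).filter fun u => ν u < ν v).card *
          (h (ρ.erase v) ω - h (ρ.erase v) (s v ω))) * c ρ ω =
      ∑ v ∈ ρ, (-1 : ℂ) ^ ((ρ.erase v).filter fun u => ν u < ν v).card *
        (2 * ∑' ω, (starRingEnd ℂ) (h (ρ.erase v) ω) * c ρ ω) := by
    intro ρ
    have e1 : ∀ ω, (starRingEnd ℂ)
        (∑ v ∈ ρ, (-1 : ℂ) ^ ((ρ.erase v).filter fun u => ν u < ν v).card *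
          (h (ρ.erase v) ω - h (ρ.erase v) (s v ω))) * c ρ ω =
        ∑ v ∈ ρ, (-1 : ℂ) ^ ((ρ.erase v).filter fun u => ν u < ν v).card *
          ((starRingEnd ℂ) (h (ρ.erase v) ω) * c ρ ω -
            (starRingEnd ℂ) (h (ρ.erase v) (e v ω)) * c ρ ω) := by
      intro ω
      rw [map_sum, Finset.sum_mul]
      refine Finset.sum_congr rfl fun v _ => ?_
      rw [map_mul, map_pow, map_neg, map_one, map_sub, he]
      ring
    have e2 : ∀ v ∈ ρ, Summable fun ω => (-1 : ℂ) ^ ((ρ.erase v).filter fun u => ν u < ν v).card *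
          ((starRingEnd ℂ) (h (ρ.erase v) ω) * c ρ ω -
            (starRingEnd ℂ) (h (ρ.erase v) (e v ω)) * c ρ ω) := fun v _ =>
      ((adjId_summable (hh _) (hc ρ)).sub
        (adjId_summable (adjId_comp (e v) (hh (ρ.erase v))) (hc ρ))).mul_left _
    rw [tsum_congr e1, Summable.tsum_finsetSum e2]
    refine Finset.sum_congr rfl fun v hv => ?_
    rw [tsum_mul_left, Summable.tsum_sub (adjId_summable (hh _) (hc ρ))
      (adjId_summable (adjId_comp (e v) (hh (ρ.erase v))) (hc ρ)),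
      adjId_anti (e v) (hs v) (h (ρ.erase v)) (c ρ) (hanti ρ v hv)]
    ring
  rw [Finset.sum_congr rfl fun τ _ => h1 τ, Finset.sum_congr rfl fun ρ _ => h2 ρ, Finset.mul_sum]
  simp only [Finset.mul_sum]
  rw [Finset.sum_sigma', Finset.sum_sigma']
  refine Finset.sum_bij' (fun p _ => ⟨insert p.2 p.1, p.2⟩) (fun p _ => ⟨p.1.erase p.2, p.2⟩)
    ?_ ?_ ?_ ?_ ?_
  · rintro ⟨τ, v⟩ hp
    simp
  · rintro ⟨ρ, v⟩ hp
    simp
  · rintro ⟨τ, v⟩ hp
    simp only [mem_sigma, mem_univ, mem_compl, true_and] at hp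
    simp [Finset.erase_insert hp]
  · rintro ⟨ρ, v⟩ hp
    simp only [mem_sigma, mem_univ, true_and] at hp
    simp [Finset.insert_erase hp]
  · rintro ⟨τ, v⟩ hp
    simp only [mem_sigma, mem_univ, mem_compl, true_and] at hp
    simp only [Finset.erase_insert hp]
    ring

end Pool.Agent.H4.Singer
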