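import Pool.Agent.H4.Singer.TopDefs
import Pool.Agent.H4.Singer.AdjId
import Pool.Agent.H4.Singer.ActBasic

/-!
# Singer project: harmonic `ℓ²`-chains and reduced homology
-/

set_option autoImplicit false
set_option linter.unusedSectionVars false

open Finset

namespace Pool.Agent.H4.Singer

variable {V : Type} [Fintype V] [DecidableEq V]

/-- Harmonic `ℓ²`-chains: kernel of the boundary and of the coboundary. -/
structure IsHarm (G : SimpleGraph V) (ν : V → ℕ) (i : ℕ) (x : Finset V → RGrp G → ℂ) : Prop where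
  chain : IsL2Chain G i x
  cyc : dbd ν x = 0
  cocyc : ∀ (ρ : Finset V) (w : RGrp G), G.IsClique (ρ : Set V) → ρ.card = i + 1 →
    ∑ v ∈ ρ, (-1) ^ ((ρ.erase v).filter fun u => ν u < ν v).card *
      (x (ρ.erase v) w - x (ρ.erase v) (w * gen G v)) = 0

/-! ### group relations -/

lemma l2h_gen_sq (G : SimpleGraph V) (v : V) : gen G v * gen G v = 1 :=
  (racg G).toCoxeterSystem.simple_mul_simple_self v

lemma l2h_gen_comm (G : SimpleGraph V) (u v : V) (h : G.Adj u v) :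
    gen G u * gen G v = gen G v * gen G u := by
  have h1 : (gen G u * gen G v) ^ (racg G) u v = 1 :=
    (racg G).toCoxeterSystem.simple_mul_simple_pow u v
  have h0 : (racg G) u v = 2 := by simp [racg, h, h.ne]
  have hinv : ∀ v, (gen G v)⁻¹ = gen G v := fun v => inv_eq_of_mul_eq_one_left (l2h_gen_sq G v)
  rw [h0, pow_two] at h1
  have h2 : gen G u * gen G v = (gen G u * gen G v)⁻¹ := eq_inv_of_mul_eq_one_left h1
  rw [h2, mul_inv_rev, hinv, hinv]

/-! ### square summable functions -/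

lemma l2h_mem_iff {Ω : Type} (f : Ω → ℂ) :
    Memℓp (E := fun _ : Ω => ℂ) f 2 ↔ Summable fun ω => ‖f ω‖ ^ 2 := by
  rw [memℓp_gen_iff (by norm_num)]
  simp

lemma l2h_sum {Ω κ : Type} (s : Finset κ) (f : κ → Ω → ℂ)
    (hf : ∀ k ∈ s, Summable fun ω => ‖f k ω‖ ^ 2) : Summable fun ω => ‖∑ k ∈ s, f k ω‖ ^ 2 := by
  rw [← l2h_mem_iff]
  exact Memℓp.finsetSum s fun k hk => (l2h_mem_iff (f k)).2 (hf k hk)

lemma l2h_mul {Ω : Type} (a : ℂ) {f : Ω → ℂ} (hf : Summable fun ω => ‖f ω‖ ^ 2) :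
    Summable fun ω => ‖a * f ω‖ ^ 2 := by
  rw [← l2h_mem_iff] at hf ⊢
  exact hf.const_mul a

lemma l2h_add {Ω : Type} {f g : Ω → ℂ} (hf : Summable fun ω => ‖f ω‖ ^ 2)
    (hg : Summable fun ω => ‖g ω‖ ^ 2) : Summable fun ω => ‖f ω + g ω‖ ^ 2 := by
  rw [← l2h_mem_iff] at hf hg ⊢
  exact hf.add hg

lemma l2h_sub {Ω : Type} {f g : Ω → ℂ} (hf : Summable fun ω => ‖f ω‖ ^ 2)
    (hg : Summable fun ω => ‖g ω‖ ^ 2) : Summable fun ω => ‖f ω - g ω‖ ^ 2 := by
  rw [← l2h_mem_iff] at hf hg ⊢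
  exact hf.sub hg

lemma l2h_prod {A W : Type} [Finite A] (x : A → W → ℂ)
    (hx : ∀ σ, Summable fun w => ‖x σ w‖ ^ 2) :
    Memℓp (E := fun _ : A × W => ℂ) (fun p => x p.1 p.2) 2 := by
  rw [l2h_mem_iff, summable_prod_of_nonneg fun p => sq_nonneg _]
  exact ⟨hx, Summable.of_finite⟩

lemma l2h_slice {A W : Type} [Finite A] (e : lp (fun _ : A × W => ℂ) 2) (σ : A) :
    Summable fun w => ‖e (σ, w)‖ ^ 2 := by
  have h := (l2h_mem_iff (fun p => e p)).1 (lp.memℓp e)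
  exact ((summable_prod_of_nonneg fun p => sq_nonneg _).1 h).1 σ

lemma l2h_norm {A W : Type} [Fintype A] (e : lp (fun _ : A × W => ℂ) 2) :
    ‖e‖ ^ 2 = ∑ σ, ∑' w, ‖e (σ, w)‖ ^ 2 := by
  have h := lp.norm_rpow_eq_tsum (p := 2) (by norm_num) e
  have h2 : ‖e‖ ^ 2 = ∑' p, ‖e p‖ ^ 2 := by simpa using h
  rw [h2, Summable.tsum_prod ((l2h_mem_iff (fun p => e p)).1 (lp.memℓp e)), tsum_fintype]

lemma l2h_inner {A W : Type} [Fintype A] (e f : lp (fun _ : A × W => ℂ) 2) :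
    inner ℂ e f = ∑ σ, ∑' w, (starRingEnd ℂ) (e (σ, w)) * f (σ, w) := by
  have h1 : inner ℂ e f = ∑' p, inner ℂ (e p) (f p) := lp.inner_eq_tsum e f
  have h2 : Summable (fun p : A × W => inner ℂ (e p) (f p)) := lp.summable_inner e f
  have h3 : ∑' p : A × W, inner ℂ (e p) (f p) = ∑' σ, ∑' w, inner ℂ (e (σ, w)) (f (σ, w)) :=
    Summable.tsum_prod h2
  have h4 : ∑' σ, ∑' w, inner ℂ (e (σ, w)) (f (σ, w)) =
      ∑ σ, ∑' w, inner ℂ (e (σ, w)) (f (σ, w)) := tsum_fintype _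
  rw [h1, h3, h4]
  refine Finset.sum_congr rfl fun σ _ => tsum_congr fun w => ?_
  rw [RCLike.inner_apply, mul_comm]

/-- evaluation -/
noncomputable def l2hEv {Ω : Type} (p : Ω) : lp (fun _ : Ω => ℂ) 2 →L[ℂ] ℂ :=
  LinearMap.mkContinuous
    { toFun := fun e => e p
      map_add' := fun _ _ => rfl
      map_smul' := fun _ _ => rfl } 1
    (fun e => by
      rw [one_mul]
      exact lp.norm_apply_le_norm two_ne_zero e p)

lemma l2hEv_apply {Ω : Type} (p : Ω) (e : lp (fun _ : Ω => ℂ) 2) : l2hEv p e = e p := rfl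

/-! ### chains -/

lemma l2h_dbd_eq {G : SimpleGraph V} (ν : V → ℕ) (f : Finset V → RGrp G → ℂ) :
    dbd ν f = dl ℂ ν f := by
  funext τ w
  rw [dl_apply]
  unfold dbd sg
  refine Finset.sum_congr rfl fun v _ => ?_
  push_cast
  rfl

lemma l2h_dbd_l2 {G : SimpleGraph V} (ν : V → ℕ) {f : Finset V → RGrp G → ℂ}
    (hf : ∀ σ, Summable fun w => ‖f σ w‖ ^ 2) (τ : Finset V) :
    Summable fun w => ‖dbd ν f τ w‖ ^ 2 :=
  l2h_sum _ _ fun v _ => l2h_mul _ (hf (insert v τ))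

lemma l2h_chain_add {G : SimpleGraph V} {i : ℕ} {f g : Finset V → RGrp G → ℂ}
    (hf : IsL2Chain G i f) (hg : IsL2Chain G i g) : IsL2Chain G i (f + g) where
  supp σ w h := by
    by_cases h1 : f σ w = 0
    · by_cases h2 : g σ w = 0
      · exact absurd (by simp [h1, h2]) h
      · exact hg.supp σ w h2
    · exact hf.supp σ w h1
  anti σ v hv w := by
    simp only [Pi.add_apply]
    rw [hf.anti σ v hv w, hg.anti σ v hv w]
    ring
  l2 σ := l2h_add (hf.l2 σ) (hg.l2 σ)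

lemma l2h_chain_smul {G : SimpleGraph V} {i : ℕ} (a : ℂ) {f : Finset V → RGrp G → ℂ}
    (hf : IsL2Chain G i f) : IsL2Chain G i (a • f) where
  supp σ w h := hf.supp σ w (right_ne_zero_of_mul h)
  anti σ v hv w := by
    simp only [Pi.smul_apply, smul_eq_mul]
    rw [hf.anti σ v hv w]
    ring
  l2 σ := l2h_mul a (hf.l2 σ)

lemma l2h_chain_zero {G : SimpleGraph V} {i : ℕ} :
    IsL2Chain G i (0 : Finset V → RGrp G → ℂ) where
  supp σ w h := absurd rfl h
  anti σ v hv w := by simp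
  l2 σ := by simp

/-- boundaries -/
noncomputable def l2hB (G : SimpleGraph V) (ν : V → ℕ) (i : ℕ) :
    Submodule ℂ (lp (fun _ : Finset V × RGrp G => ℂ) 2) where
  carrier := {e | ∃ y : Finset V → RGrp G → ℂ, IsL2Chain G (i + 1) y ∧
    ∀ σ w, e (σ, w) = dbd ν y σ w}
  zero_mem' := ⟨0, l2h_chain_zero, fun σ w => by simp [dbd]⟩
  add_mem' := by
    rintro e e' ⟨y, hy, h⟩ ⟨y', hy', h'⟩
    refine ⟨y + y', l2h_chain_add hy hy', fun σ w => ?_⟩
    rw [l2h_dbd_eq, map_add, ← l2h_dbd_eq, ← l2h_dbd_eq]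
    show e (σ, w) + e' (σ, w) = dbd ν y σ w + dbd ν y' σ w
    rw [h, h']
  smul_mem' := by
    rintro a e ⟨y, hy, h⟩
    refine ⟨a • y, l2h_chain_smul a hy, fun σ w => ?_⟩
    rw [l2h_dbd_eq, map_smul, ← l2h_dbd_eq]
    show a * e (σ, w) = a * dbd ν y σ w
    rw [h]

/-- cycles -/
noncomputable def l2hT (G : SimpleGraph V) (ν : V → ℕ) (i : ℕ) :
    Submodule ℂ (lp (fun _ : Finset V × RGrp G => ℂ) 2) where
  carrier := {e | (∀ (σ : Finset V) (w : RGrp G),
      ¬ (G.IsClique (σ : Set V) ∧ σ.card = i) → e (σ, w) = 0) ∧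
    (∀ (σ : Finset V), ∀ v ∈ σ, ∀ w : RGrp G, e (σ, w * gen G v) = - e (σ, w)) ∧
    ∀ (τ : Finset V) (w : RGrp G), ∑ v ∈ τᶜ, (-1 : ℂ) ^ (τ.filter fun u => ν u < ν v).card * e (insert v τ, w) = 0}
  zero_mem' := by
    refine ⟨fun σ w _ => rfl, fun σ v _ w => ?_, fun τ w => ?_⟩
    · show (0 : ℂ) = - 0
      simp
    · refine Finset.sum_eq_zero fun v _ => ?_
      show _ * (0 : ℂ) = 0
      simp
  add_mem' := by
    rintro e e' ⟨h1, h2, h3⟩ ⟨h1', h2', h3'⟩
    refine ⟨fun σ w h => ?_, fun σ v hv w => ?_, fun τ w => ?_⟩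
    · show e (σ, w) + e' (σ, w) = 0
      rw [h1 σ w h, h1' σ w h, add_zero]
    · show e (σ, w * gen G v) + e' (σ, w * gen G v) = - (e (σ, w) + e' (σ, w))
      rw [h2 σ v hv w, h2' σ v hv w]
      ring
    · show ∑ v ∈ τᶜ, (-1 : ℂ) ^ (τ.filter fun u => ν u < ν v).card *
        (e (insert v τ, w) + e' (insert v τ, w)) = 0
      simp only [mul_add, Finset.sum_add_distrib]
      rw [h3, h3', add_zero]
  smul_mem' := by
    rintro a e ⟨h1, h2, h3⟩
    refine ⟨fun σ w h => ?_, fun σ v hv w => ?_, fun τ w => ?_⟩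
    · show a * e (σ, w) = 0
      rw [h1 σ w h, mul_zero]
    · show a * e (σ, w * gen G v) = - (a * e (σ, w))
      rw [h2 σ v hv w]
      ring
    · show ∑ v ∈ τᶜ, (-1 : ℂ) ^ (τ.filter fun u => ν u < ν v).card *
        (a * e (insert v τ, w)) = 0
      have := h3 τ w
      calc _ = a * ∑ v ∈ τᶜ, (-1 : ℂ) ^ (τ.filter fun u => ν u < ν v).card *
            e (insert v τ, w) := by
            rw [Finset.mul_sum]
            exact Finset.sum_congr rfl fun v _ => by ring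
        _ = 0 := by rw [this, mul_zero]

lemma l2hT_closed (G : SimpleGraph V) (ν : V → ℕ) (i : ℕ) :
    IsClosed (l2hT G ν i : Set (lp (fun _ : Finset V × RGrp G => ℂ) 2)) := by
  have h : (l2hT G ν i : Set (lp (fun _ : Finset V × RGrp G => ℂ) 2)) =
      ((⋂ σ : Finset V, ⋂ w : RGrp G, ⋂ _ : ¬ (G.IsClique (σ : Set V) ∧ σ.card = i),
        {e | l2hEv (σ, w) e = 0}) ∩
      (⋂ σ : Finset V, ⋂ v : V, ⋂ _ : v ∈ σ, ⋂ w : RGrp G,
        {e | l2hEv (σ, w * gen G v) e = - l2hEv (σ, w) e})) ∩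
      (⋂ τ : Finset V, ⋂ w : RGrp G,
        {e | ∑ v ∈ τᶜ, (-1 : ℂ) ^ (τ.filter fun u => ν u < ν v).card *
          l2hEv (insert v τ, w) e = 0}) := by
    ext e
    simp only [Set.mem_inter_iff, Set.mem_iInter, Set.mem_ofPred_eq, l2hEv_apply]
    constructor
    · rintro ⟨h1, h2, h3⟩
      exact ⟨⟨h1, fun σ v hv w => h2 σ v hv w⟩, h3⟩
    · rintro ⟨⟨h1, h2⟩, h3⟩
      exact ⟨h1, fun σ v hv w => h2 σ v hv w, h3⟩
  rw [h]
  refine (IsClosed.inter ?_ ?_).inter ?_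
  · refine isClosed_iInter fun σ => isClosed_iInter fun w => isClosed_iInter fun _ => ?_
    exact isClosed_eq (l2hEv _).continuous continuous_const
  · refine isClosed_iInter fun σ => isClosed_iInter fun v => isClosed_iInter fun _ =>
      isClosed_iInter fun w => ?_
    exact isClosed_eq (l2hEv _).continuous (l2hEv _).continuous.neg
  · refine isClosed_iInter fun τ => isClosed_iInter fun w => ?_
    refine isClosed_eq ?_ continuous_const
    exact continuous_finsetSum _ fun v _ => continuous_const.mul (l2hEv _).continuous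

lemma l2hB_le (G : SimpleGraph V) (ν : V → ℕ) (hν : Function.Injective ν) (i : ℕ) :
    l2hB G ν i ≤ l2hT G ν i := by
  rintro e ⟨y, hy, h⟩
  refine ⟨fun σ w hσ => ?_, fun σ v hv w => ?_, fun τ w => ?_⟩
  · rw [h]
    unfold dbd
    refine Finset.sum_eq_zero fun v hv => ?_
    rw [Finset.mem_compl] at hv
    by_contra hne
    obtain ⟨h1, h2⟩ := hy.supp _ _ (right_ne_zero_of_mul hne)
    apply hσ
    refine ⟨h1.subset (by simp), ?_⟩
    rw [Finset.card_insert_of_notMem hv] at h2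
    omega
  · rw [h, h]
    unfold dbd
    rw [← Finset.sum_neg_distrib]
    refine Finset.sum_congr rfl fun u _ => ?_
    rw [hy.anti (insert u σ) v (mem_insert_of_mem hv)]
    ring
  · have h1 := congrFun (congrFun (dl_dl (F := ℂ) ν hν y) τ) w
    rw [← l2h_dbd_eq, ← l2h_dbd_eq] at h1
    simp only [Pi.zero_apply] at h1
    rw [← h1]
    show _ = ∑ v ∈ τᶜ, (-1 : ℂ) ^ (τ.filter fun u => ν u < ν v).card * dbd ν y (insert v τ) w
    exact Finset.sum_congr rfl fun v _ => by rw [h]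

open Classical in
/-- the coboundary, restricted to cliques with `i + 1` elements -/
noncomputable def l2hC (G : SimpleGraph V) (ν : V → ℕ) (i : ℕ) (x : Finset V → RGrp G → ℂ) :
    Finset V → RGrp G → ℂ := fun ρ w =>
  if G.IsClique (ρ : Set V) ∧ ρ.card = i + 1 then
    ∑ v ∈ ρ, (-1 : ℂ) ^ ((ρ.erase v).filter fun u => ν u < ν v).card *
      (x (ρ.erase v) w - x (ρ.erase v) (w * gen G v)) else 0

lemma l2hC_chain (G : SimpleGraph V) (ν : V → ℕ) (i : ℕ) {x : Finset V → RGrp G → ℂ}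
    (hx : IsL2Chain G i x) : IsL2Chain G (i + 1) (l2hC G ν i x) where
  supp σ w h := by
    unfold l2hC at h
    by_contra hcon
    rw [if_neg hcon] at h
    exact h rfl
  anti ρ u hu w := by
    unfold l2hC
    by_cases hρ : G.IsClique (ρ : Set V) ∧ ρ.card = i + 1
    · rw [if_pos hρ, if_pos hρ, ← Finset.sum_neg_distrib]
      refine Finset.sum_congr rfl fun v hv => ?_
      by_cases huv : v = u
      · subst huv
        rw [mul_assoc, l2h_gen_sq, mul_one]
        ring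
      · have hadj : G.Adj u v := hρ.1 hu hv (Ne.symm huv)
        have hmem : u ∈ ρ.erase v := Finset.mem_erase.2 ⟨Ne.symm huv, hu⟩
        rw [hx.anti _ u hmem, mul_assoc, l2h_gen_comm G u v hadj, ← mul_assoc, hx.anti _ u hmem]
        ring
    · rw [if_neg hρ, if_neg hρ, neg_zero]
  l2 ρ := by
    unfold l2hC
    by_cases hρ : G.IsClique (ρ : Set V) ∧ ρ.card = i + 1
    · simp only [if_pos hρ]
      refine l2h_sum _ _ fun v _ => l2h_mul _ (l2h_sub (hx.l2 _) ?_)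
      exact (Equiv.mulRight (gen G v)).summable_iff (f := fun w => ‖x (ρ.erase v) w‖ ^ 2) |>.2
        (hx.l2 _)
    · simp only [if_neg hρ]
      simp

lemma l2h_harm (G : SimpleGraph V) (ν : V → ℕ) (i : ℕ)
    (h : lp (fun _ : Finset V × RGrp G => ℂ) 2) (hT : h ∈ l2hT G ν i)
    (hperp : ∀ e ∈ l2hB G ν i, inner ℂ h e = 0) : IsHarm G ν i (fun σ w => h (σ, w)) := by
  classical
  obtain ⟨x, hx⟩ : ∃ x : Finset V → RGrp G → ℂ, x = fun σ w => h (σ, w) := ⟨_, rfl⟩
  have hxa : ∀ σ w, h (σ, w) = x σ w := fun σ w => by rw [hx]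
  rw [← hx]
  obtain ⟨hT1, hT2, hT3⟩ := hT
  have hxc : IsL2Chain G i x :=
    { supp := fun σ w hne => by
        by_contra hcon
        apply hne
        rw [← hxa]
        exact hT1 σ w hcon
      anti := fun σ v hv w => by
        rw [← hxa, ← hxa]
        exact hT2 σ v hv w
      l2 := fun σ => by
        have := l2h_slice h σ
        simp only [hxa] at this
        exact this }
  have hcyc : dbd ν x = 0 := by
    funext τ w
    have := hT3 τ w
    simp only [hxa] at this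
    exact this
  obtain ⟨c, hc⟩ : ∃ c, c = l2hC G ν i x := ⟨_, rfl⟩
  have hcc : IsL2Chain G (i + 1) c := by
    rw [hc]
    exact l2hC_chain G ν i hxc
  obtain ⟨dE, hdEa⟩ : ∃ dE : lp (fun _ : Finset V × RGrp G => ℂ) 2,
      ∀ σ w, dE (σ, w) = dbd ν c σ w :=
    ⟨⟨fun p => dbd ν c p.1 p.2, l2h_prod (dbd ν c) (l2h_dbd_l2 ν hcc.l2)⟩, fun _ _ => rfl⟩
  have hdE : dE ∈ l2hB G ν i := ⟨c, hcc, hdEa⟩
  have hinner : inner ℂ h dE = 0 := hperp dE hdE
  rw [l2h_inner h dE] at hinner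
  have key := adj_identity (fun v (w : RGrp G) => w * gen G v)
    (fun v w => by rw [mul_assoc, l2h_gen_sq, mul_one]) ν x c hxc.l2 hcc.l2 hcc.anti
  have e1 : ∑ τ : Finset V, ∑' w, (starRingEnd ℂ) (x τ w) *
      (∑ v ∈ τᶜ, (-1 : ℂ) ^ (τ.filter fun u => ν u < ν v).card * c (insert v τ) w) = 0 := by
    rw [← hinner]
    refine Finset.sum_congr rfl fun τ _ => tsum_congr fun w => ?_
    rw [hdEa, hxa]
    rfl
  rw [e1] at key
  have e2 : ∀ ρ w, (starRingEnd ℂ)
        (∑ v ∈ ρ, (-1 : ℂ) ^ ((ρ.erase v).filter fun u => ν u < ν v).card *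
          (x (ρ.erase v) w - x (ρ.erase v) (w * gen G v))) * c ρ w = ((‖c ρ w‖ ^ 2 : ℝ) : ℂ) := by
    intro ρ w
    have hsq : ∀ z : ℂ, (starRingEnd ℂ) z * z = ((‖z‖ ^ 2 : ℝ) : ℂ) := by
      intro z
      rw [mul_comm, Complex.mul_conj, Complex.normSq_eq_norm_sq]
    by_cases hρ : G.IsClique (ρ : Set V) ∧ ρ.card = i + 1
    · have : c ρ w = ∑ v ∈ ρ, (-1 : ℂ) ^ ((ρ.erase v).filter fun u => ν u < ν v).card *
          (x (ρ.erase v) w - x (ρ.erase v) (w * gen G v)) := by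
        simp only [hc, l2hC]
        rw [if_pos hρ]
      rw [← this]
      exact hsq _
    · have : c ρ w = 0 := by
        simp only [hc, l2hC]
        rw [if_neg hρ]
      rw [this]
      simp
  simp only [e2] at key
  have key2 : ∑ ρ : Finset V, ∑' w, ((‖c ρ w‖ ^ 2 : ℝ) : ℂ) = 0 := by
    have h2 : (1 / 2 : ℂ) ≠ 0 := by norm_num
    exact (mul_eq_zero.1 key.symm).resolve_left h2
  simp only [← Complex.ofReal_tsum, ← Complex.ofReal_sum] at key2
  have key3 : ∑ ρ : Finset V, ∑' w, ‖c ρ w‖ ^ 2 = 0 := by exact_mod_cast key2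
  have hc0 : ∀ ρ w, c ρ w = 0 := by
    intro ρ w
    have h1 := (Finset.sum_eq_zero_iff_of_nonneg
      (fun ρ _ => tsum_nonneg fun w => sq_nonneg ‖c ρ w‖)).1 key3 ρ (mem_univ ρ)
    have h2 := (hcc.l2 ρ).hasSum
    rw [h1] at h2
    have h3 := (hasSum_zero_iff_of_nonneg fun w => sq_nonneg ‖c ρ w‖).1 h2
    have h4 := congrFun h3 w
    simpa using h4
  exact
    { chain := hxc
      cyc := hcyc
      cocyc := fun ρ w h1 h2 => by
        have h3 := hc0 ρ w
        simp only [hc, l2hC] at h3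
        rw [if_pos ⟨h1, h2⟩] at h3
        exact h3 }

lemma l2h_closure (G : SimpleGraph V) (ν : V → ℕ) (hν : Function.Injective ν) (i : ℕ)
    (h0 : ∀ x : Finset V → RGrp G → ℂ, IsHarm G ν i x → x = 0)
    (zE : lp (fun _ : Finset V × RGrp G => ℂ) 2) (hzT : zE ∈ l2hT G ν i) :
    zE ∈ (l2hB G ν i).topologicalClosure := by
  obtain ⟨B, hB⟩ : ∃ B, B = (l2hB G ν i).topologicalClosure := ⟨_, rfl⟩
  rw [← hB]
  have hcl : IsClosed (B : Set (lp (fun _ : Finset V × RGrp G => ℂ) 2)) := by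
    rw [hB]
    exact (l2hB G ν i).isClosed_topologicalClosure
  have : CompleteSpace B := hcl.completeSpace_coe
  have hBT : B ≤ l2hT G ν i := by
    rw [hB]
    exact Submodule.topologicalClosure_minimal _ (l2hB_le G ν hν i) (l2hT_closed G ν i)
  have hBB : l2hB G ν i ≤ B := by
    rw [hB]
    exact Submodule.le_topologicalClosure _
  obtain ⟨b, hb⟩ : ∃ b, b = B.starProjection zE := ⟨_, rfl⟩
  have hbB : b ∈ B := by
    rw [hb]
    exact Submodule.starProjection_apply_mem B zE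
  have hperp : zE - b ∈ Bᗮ := by
    rw [hb]
    exact Submodule.sub_starProjection_mem_orthogonal zE
  have hT : zE - b ∈ l2hT G ν i := (l2hT G ν i).sub_mem hzT (hBT hbB)
  have hharm := l2h_harm G ν i (zE - b) hT
    (fun e he => (Submodule.mem_orthogonal' B (zE - b)).1 hperp e (hBB he))
  have hx0 := h0 _ hharm
  have hh0 : zE - b = 0 := by
    ext p
    exact congrFun (congrFun hx0 p.1) p.2
  rw [sub_eq_zero] at hh0
  rw [hh0]
  exact hbB

/-- Hodge decomposition. Proof: work in the Hilbert space `lp (fun _ : Finset V × RGrp G => ℂ) 2`. Let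
`B` be the closure of the subspace of all `dbd ν y`, `IsL2Chain G (i + 1) y`, and let `h` be the
component of `z` orthogonal to `B`. Every element of `B` is an `ℓ²`-chain of degree `i` and a cycle
(all these conditions involve finitely many coordinates each, and the coordinates are continuous;
`dbd ν (dbd ν y) = 0`), so `h` is an `ℓ²`-chain and a cycle. Let `c ρ w` be the left hand side of `cocyc` for `h` if `ρ` is a clique with `i + 1` elements
and `0` otherwise; `c` is an `ℓ²`-chain of degree `i + 1` and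
`0 = ⟨h, dbd ν c⟩ = (1/2) ‖c‖²` by `adj_identity` (with `s v w = w * gen G v`). So `h` is harmonic, `h = 0` and `z ∈ B`. -/
theorem l2_hodge (G : SimpleGraph V) (ν : V → ℕ) (hν : Function.Injective ν) (i : ℕ)
    (h0 : ∀ x : Finset V → RGrp G → ℂ, IsHarm G ν i x → x = 0)
    (z : Finset V → RGrp G → ℂ) (hz : IsL2Chain G i z) (hdz : dbd ν z = 0) (ε : ℝ) (hε : 0 < ε) :
    ∃ y : Finset V → RGrp G → ℂ, IsL2Chain G (i + 1) y ∧
      ∑ σ, ∑' w, ‖z σ w - dbd ν y σ w‖ ^ 2 < ε := by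
  obtain ⟨zE, hzE⟩ : ∃ zE : lp (fun _ : Finset V × RGrp G => ℂ) 2, ∀ σ w, zE (σ, w) = z σ w :=
    ⟨⟨fun p => z p.1 p.2, l2h_prod z hz.l2⟩, fun _ _ => rfl⟩
  have hzT : zE ∈ l2hT G ν i := by
    refine ⟨fun σ w h => ?_, fun σ v hv w => ?_, fun τ w => ?_⟩
    · rw [hzE]
      by_contra hne
      exact h (hz.supp σ w hne)
    · rw [hzE, hzE]
      exact hz.anti σ v hv w
    · simp only [hzE]
      exact congrFun (congrFun hdz τ) w
  have hcl : zE ∈ closure (l2hB G ν i : Set (lp (fun _ : Finset V × RGrp G => ℂ) 2)) :=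
    l2h_closure G ν hν i h0 zE hzT
  rw [Metric.mem_closure_iff] at hcl
  obtain ⟨e, ⟨y, hy, hey⟩, hdist⟩ := hcl (Real.sqrt ε) (Real.sqrt_pos.2 hε)
  refine ⟨y, hy, ?_⟩
  rw [dist_eq_norm] at hdist
  have hn := l2h_norm (zE - e)
  have e3 : ∑ σ, ∑' w, ‖z σ w - dbd ν y σ w‖ ^ 2 = ∑ σ, ∑' w, ‖(zE - e) (σ, w)‖ ^ 2 := by
    refine Finset.sum_congr rfl fun σ _ => tsum_congr fun w => ?_
    have e4 : (zE - e) (σ, w) = zE (σ, w) - e (σ, w) := rfl
    rw [e4, hzE, hey]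
  rw [e3, ← hn]
  calc ‖zE - e‖ ^ 2 < Real.sqrt ε ^ 2 := pow_lt_pow_left₀ hdist (norm_nonneg _) two_ne_zero
    _ = ε := Real.sq_sqrt hε.le

end Pool.Agent.H4.Singer
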