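import Pool.Agent.H4.Singer.TopDefs

/-!
# Singer project: the matrix of the harmonic chains
-/

set_option autoImplicit false
set_option linter.unusedSectionVars false

open Finset

namespace Pool.Agent.H4.Singer

variable {V : Type} [Fintype V] [DecidableEq V]

/-- the cliques with `i` elements -/
abbrev RI (G : SimpleGraph V) (i : ℕ) : Type :=
  {σ : Finset V // G.IsClique (σ : Set V) ∧ σ.card = i}

noncomputable instance (G : SimpleGraph V) (i : ℕ) : Fintype (RI G i) := Fintype.ofFinite _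

/-- the columns: antisymmetry, boundary, coboundary -/
abbrev CI (G : SimpleGraph V) (i : ℕ) : Type := (RI G i × V) ⊕ (Finset V ⊕ Finset V)

/-- the incidence sign as an integer -/
def sz (ν : V → ℕ) (v : V) (τ : Finset V) : ℤ := (-1) ^ (τ.filter fun u => ν u < ν v).card

open Classical in
/-- the matrix over the group ring whose left kernel consists of the harmonic chains -/
noncomputable def HM (G : SimpleGraph V) (ν : V → ℕ) (i : ℕ) :
    Matrix (RI G i) (CI G i) (MonoidAlgebra ℤ (RGrp G)) :=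
  Matrix.of fun σ c => match c with
    | Sum.inl (σ', v) =>
      if σ = σ' ∧ v ∈ σ'.1 then MonoidAlgebra.single 1 1 + MonoidAlgebra.single (gen G v) 1 else 0
    | Sum.inr (Sum.inl τ) =>
      ∑ v ∈ τᶜ, if insert v τ = σ.1 then MonoidAlgebra.single 1 (sz ν v τ) else 0
    | Sum.inr (Sum.inr ρ) =>
      if G.IsClique (ρ : Set V) ∧ ρ.card = i + 1 then
        ∑ v ∈ ρ, if ρ.erase v = σ.1 then MonoidAlgebra.single 1 (sz ν v (ρ.erase v)) -
          MonoidAlgebra.single (gen G v) (sz ν v (ρ.erase v)) else 0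
      else 0

/-- the action of an element of the integral group ring on a function on a group `H` (by
`π : W → H`) -/
noncomputable def gact {W H : Type} [Group W] [Group H] (π : W →* H) (a : MonoidAlgebra ℤ W)
    (φ : H → ℂ) (h : H) : ℂ :=
  ∑ g ∈ a.coeff.support, φ (h * (π g)⁻¹) * (a.coeff g : ℂ)

theorem gact_zero {W H : Type} [Group W] [Group H] (π : W →* H) (φ : H → ℂ) (h : H) :
    gact π 0 φ h = 0 := by
  simp [gact]

private lemma gact_eq_sum {W H : Type} [Group W] [Group H] (π : W →* H) (a : MonoidAlgebra ℤ W)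
    (φ : H → ℂ) (h : H) :
    gact π a φ h = a.coeff.sum fun g r => φ (h * (π g)⁻¹) * (r : ℂ) := rfl

theorem gact_add {W H : Type} [Group W] [Group H] (π : W →* H) (a b : MonoidAlgebra ℤ W)
    (φ : H → ℂ) (h : H) : gact π (a + b) φ h = gact π a φ h + gact π b φ h := by
  rw [gact_eq_sum, gact_eq_sum, gact_eq_sum, MonoidAlgebra.coeff_add]
  refine Finsupp.sum_add_index' (fun g => ?_) (fun g r₁ r₂ => ?_)
  · simp
  · push_cast
    ring

theorem gact_single {W H : Type} [Group W] [Group H] (π : W →* H) (g : W) (r : ℤ)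
    (φ : H → ℂ) (h : H) : gact π (MonoidAlgebra.single g r) φ h = φ (h * (π g)⁻¹) * (r : ℂ) := by
  rw [gact_eq_sum, MonoidAlgebra.coeff_single]
  exact Finsupp.sum_single_index (by simp)

private lemma gact_sub {W H : Type} [Group W] [Group H] (π : W →* H) (a b : MonoidAlgebra ℤ W)
    (φ : H → ℂ) (h : H) : gact π (a - b) φ h = gact π a φ h - gact π b φ h := by
  have h1 := gact_add π (a - b) b φ h
  rw [sub_add_cancel] at h1
  rw [h1]
  ring

private lemma gact_sum {W H ι : Type} [Group W] [Group H] (π : W →* H) (s : Finset ι)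
    (f : ι → MonoidAlgebra ℤ W) (φ : H → ℂ) (h : H) :
    gact π (∑ k ∈ s, f k) φ h = ∑ k ∈ s, gact π (f k) φ h := by
  classical
  induction s using Finset.induction_on with
  | empty => simp [gact_zero]
  | insert k s hk ih => rw [Finset.sum_insert hk, Finset.sum_insert hk, gact_add, ih]

private lemma gact_ite {W H : Type} [Group W] [Group H] (π : W →* H) (p : Prop) [Decidable p]
    (a : MonoidAlgebra ℤ W) (φ : H → ℂ) (h : H) :
    gact π (if p then a else 0) φ h = if p then gact π a φ h else 0 := by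
  split_ifs
  · rfl
  · exact gact_zero π φ h

variable (G : SimpleGraph V) (ν : V → ℕ) (i : ℕ) {H : Type} [Group H] (π : RGrp G →* H)
  (φ : Finset V → H → ℂ)

theorem HM_anti (σ' : RI G i) (v : V) (h : H) :
    ∑ σ : RI G i, gact π (HM G ν i σ (Sum.inl (σ', v))) (φ σ.1) h =
      if v ∈ σ'.1 then φ σ'.1 h + φ σ'.1 (h * (π (gen G v))⁻¹) else 0 := by
  classical
  have key : ∀ σ : RI G i, gact π (HM G ν i σ (Sum.inl (σ', v))) (φ σ.1) h =
      if σ = σ' then (if v ∈ σ'.1 then φ σ'.1 h + φ σ'.1 (h * (π (gen G v))⁻¹) else 0) else 0 := by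
    intro σ
    have h1 : HM G ν i σ (Sum.inl (σ', v)) = if σ = σ' ∧ v ∈ σ'.1 then
        MonoidAlgebra.single 1 1 + MonoidAlgebra.single (gen G v) 1 else 0 := by
      simp only [HM, Matrix.of_apply]
    rw [h1, gact_ite, gact_add, gact_single, gact_single]
    by_cases h2 : σ = σ'
    · subst h2
      by_cases h3 : v ∈ σ.1
      · simp [h3]
      · simp [h3]
    · simp [h2]
  rw [Finset.sum_congr rfl fun σ _ => key σ, Finset.sum_ite_eq' Finset.univ σ']
  simp

private lemma sum_RI (S : Finset V) (F : Finset V → ℂ)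
    (hF : ¬ (G.IsClique (S : Set V) ∧ S.card = i) → F S = 0) :
    ∑ σ : RI G i, (if S = σ.1 then F σ.1 else 0) = F S := by
  classical
  by_cases hS : G.IsClique (S : Set V) ∧ S.card = i
  · rw [Finset.sum_eq_single (⟨S, hS⟩ : RI G i)]
    · simp
    · intro σ _ hσ
      rw [if_neg]
      intro h1
      exact hσ (Subtype.ext h1.symm)
    · intro h1
      exact absurd (Finset.mem_univ _) h1
  · rw [hF hS]
    refine Finset.sum_eq_zero fun σ _ => ?_
    rw [if_neg]
    intro h1
    exact hS (h1 ▸ σ.2)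

theorem HM_bd (hφ : ∀ σ : Finset V, ¬ (G.IsClique (σ : Set V) ∧ σ.card = i) → φ σ = 0)
    (τ : Finset V) (h : H) :
    ∑ σ : RI G i, gact π (HM G ν i σ (Sum.inr (Sum.inl τ))) (φ σ.1) h =
      ∑ v ∈ τᶜ, (-1 : ℂ) ^ (τ.filter fun u => ν u < ν v).card * φ (insert v τ) h := by
  classical
  have key : ∀ σ : RI G i, gact π (HM G ν i σ (Sum.inr (Sum.inl τ))) (φ σ.1) h =
      ∑ v ∈ τᶜ, if insert v τ = σ.1 then φ σ.1 h * ((sz ν v τ : ℤ) : ℂ) else 0 := by
    intro σ
    have h1 : HM G ν i σ (Sum.inr (Sum.inl τ)) =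
        ∑ v ∈ τᶜ, if insert v τ = σ.1 then MonoidAlgebra.single 1 (sz ν v τ) else 0 := by
      simp only [HM, Matrix.of_apply]
    rw [h1, gact_sum]
    refine Finset.sum_congr rfl fun v _ => ?_
    rw [gact_ite, gact_single]
    simp
  rw [Finset.sum_congr rfl fun σ _ => key σ, Finset.sum_comm]
  refine Finset.sum_congr rfl fun v _ => ?_
  rw [sum_RI G i (insert v τ) (fun S => φ S h * ((sz ν v τ : ℤ) : ℂ))]
  · simp only [sz]
    push_cast
    ring
  · intro h1
    rw [hφ _ h1]
    simp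

theorem HM_cobd (hφ : ∀ σ : Finset V, ¬ (G.IsClique (σ : Set V) ∧ σ.card = i) → φ σ = 0)
    (ρ : Finset V) (hρ : G.IsClique (ρ : Set V)) (hρi : ρ.card = i + 1) (h : H) :
    ∑ σ : RI G i, gact π (HM G ν i σ (Sum.inr (Sum.inr ρ))) (φ σ.1) h =
      ∑ v ∈ ρ, (-1 : ℂ) ^ ((ρ.erase v).filter fun u => ν u < ν v).card *
        (φ (ρ.erase v) h - φ (ρ.erase v) (h * (π (gen G v))⁻¹)) := by
  classical
  have key : ∀ σ : RI G i, gact π (HM G ν i σ (Sum.inr (Sum.inr ρ))) (φ σ.1) h =
      ∑ v ∈ ρ, if ρ.erase v = σ.1 then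
        (φ σ.1 h - φ σ.1 (h * (π (gen G v))⁻¹)) * ((sz ν v (ρ.erase v) : ℤ) : ℂ) else 0 := by
    intro σ
    have h1 : HM G ν i σ (Sum.inr (Sum.inr ρ)) =
        ∑ v ∈ ρ, if ρ.erase v = σ.1 then MonoidAlgebra.single 1 (sz ν v (ρ.erase v)) -
          MonoidAlgebra.single (gen G v) (sz ν v (ρ.erase v)) else 0 := by
      simp only [HM, Matrix.of_apply]
      rw [if_pos ⟨hρ, hρi⟩]
    rw [h1, gact_sum]
    refine Finset.sum_congr rfl fun v _ => ?_
    rw [gact_ite, gact_sub, gact_single, gact_single]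
    rw [map_one, inv_one, mul_one, sub_mul]
  rw [Finset.sum_congr rfl fun σ _ => key σ, Finset.sum_comm]
  refine Finset.sum_congr rfl fun v _ => ?_
  rw [sum_RI G i (ρ.erase v) (fun S => (φ S h - φ S (h * (π (gen G v))⁻¹)) *
    ((sz ν v (ρ.erase v) : ℤ) : ℂ))]
  · simp only [sz]
    push_cast
    ring
  · intro h1
    rw [hφ _ h1]
    simp

theorem HM_cobd_zero (ρ : Finset V) (hρ : ¬ (G.IsClique (ρ : Set V) ∧ ρ.card = i + 1)) (h : H) :
    ∑ σ : RI G i, gact π (HM G ν i σ (Sum.inr (Sum.inr ρ))) (φ σ.1) h = 0 := by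
  classical
  refine Finset.sum_eq_zero fun σ _ => ?_
  have h1 : HM G ν i σ (Sum.inr (Sum.inr ρ)) = 0 := by
    simp only [HM, Matrix.of_apply]
    rw [if_neg hρ]
  rw [h1, gact_zero]

end Pool.Agent.H4.Singer
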