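import Pool.Agent.H4.Atiyah.VN

/-!
# Singer project: faithfulness of the von Neumann dimension
-/

set_option autoImplicit false
set_option linter.unusedSectionVars false

open Filter Topology

namespace Pool.Agent.H4.Singer

open Pool.Agent.H4.Atiyah

/-- Proof: `l2ker A` is a closed linear subspace (see `l2ker_eq` in `VN.lean`), and
`1 - infDist e_j (l2ker A) ^ 2 = ‖p e_j‖ ^ 2 ≥ 0` for the orthogonal projection `p` onto it. If the
sum of these numbers is `≤ 0`, then all `p e_j` are zero, so `x (j, 1) = ⟨e_j, x⟩ = 0` for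
`x ∈ l2ker A`. As `l2ker A` is invariant under the left translations `x ↦ x (j, g * ·)`,
`x = 0`. -/
theorem l2ker_trivial_of_vnDim {G : Type} [Group G] [DecidableEq G] {k n : ℕ}
    (A : Matrix (Fin k) (Fin n) (MonoidAlgebra ℂ G)) (h : vnDim A ≤ 0) :
    ∀ x ∈ l2ker A, x = 0 := by
  obtain ⟨K, hK⟩ : ∃ K : Submodule ℂ (lp (fun _ : Fin k × G => ℂ) 2),
      ∀ z, z ∈ K ↔ z ∈ l2ker A := by
    refine ⟨LinearMap.ker (Lop (MonoidHom.id G) A).toLinearMap, fun z => ?_⟩
    rw [l2ker_eq]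
    exact Iff.rfl
  have hset : l2ker A = (K : Set (lp (fun _ : Fin k × G => ℂ) 2)) := by
    ext z
    exact (hK z).symm
  have hnorm : ∀ j : Fin k,
      ‖(lp.single 2 (j, (1 : G)) (1 : ℂ) : lp (fun _ : Fin k × G => ℂ) 2)‖ = 1 := by
    intro j
    rw [lp.norm_single (by norm_num)]
    simp
  have hle : ∀ j : Fin k, Metric.infDist
      (lp.single 2 (j, (1 : G)) (1 : ℂ) : lp (fun _ : Fin k × G => ℂ) 2) (l2ker A) ≤ 1 := by
    intro j
    have h1 : (0 : lp (fun _ : Fin k × G => ℂ) 2) ∈ l2ker A := (hK 0).1 K.zero_mem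
    have h2 := Metric.infDist_le_dist_of_mem
      (x := (lp.single 2 (j, (1 : G)) (1 : ℂ) : lp (fun _ : Fin k × G => ℂ) 2)) h1
    rwa [dist_zero_right, hnorm] at h2
  have hnn : ∀ j ∈ (Finset.univ : Finset (Fin k)), 0 ≤ 1 - Metric.infDist
      (lp.single 2 (j, (1 : G)) (1 : ℂ) : lp (fun _ : Fin k × G => ℂ) 2) (l2ker A) ^ 2 := by
    intro j _
    have h1 := hle j
    have h2 := Metric.infDist_nonneg
      (x := (lp.single 2 (j, (1 : G)) (1 : ℂ) : lp (fun _ : Fin k × G => ℂ) 2)) (s := l2ker A)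
    nlinarith
  have hsum := le_antisymm h (Finset.sum_nonneg hnn)
  unfold vnDim at hsum
  rw [Finset.sum_eq_zero_iff_of_nonneg hnn] at hsum
  have hone : ∀ j : Fin k, Metric.infDist
      (lp.single 2 (j, (1 : G)) (1 : ℂ) : lp (fun _ : Fin k × G => ℂ) 2) (l2ker A) = 1 := by
    intro j
    have h1 := hsum j (Finset.mem_univ j)
    have h2 := Metric.infDist_nonneg
      (x := (lp.single 2 (j, (1 : G)) (1 : ℂ) : lp (fun _ : Fin k × G => ℂ) 2)) (s := l2ker A)
    nlinarith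
  have hval : ∀ z ∈ l2ker A, ∀ j : Fin k, z (j, (1 : G)) = 0 := by
    intro z hz j
    have h1 := (Submodule.norm_eq_iInf_iff_inner_eq_zero K
      (u := (lp.single 2 (j, (1 : G)) (1 : ℂ) : lp (fun _ : Fin k × G => ℂ) 2))
      (v := 0) K.zero_mem).1 (by
        rw [sub_zero, hnorm]
        have h2 := hone j
        rw [hset, Metric.infDist_eq_iInf] at h2
        simp only [dist_eq_norm] at h2
        exact h2.symm) z ((hK z).2 hz)
    rw [sub_zero, lp.inner_single_left] at h1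
    simpa using h1
  intro x hx
  ext ⟨j, g0⟩
  have hs : Summable fun p : Fin k × G => ‖x (p.1, g0 * p.2)‖ ^ 2 := by
    have h1 := (memlp_iff (fun p => x p)).1 (lp.memℓp x)
    exact ((Equiv.prodCongr (Equiv.refl (Fin k)) (Equiv.mulLeft g0)).summable_iff
      (f := fun p : Fin k × G => ‖x p‖ ^ 2)).2 h1
  obtain ⟨y, hy⟩ : ∃ y : lp (fun _ : Fin k × G => ℂ) 2, ∀ p, y p = x (p.1, g0 * p.2) :=
    ⟨⟨fun p => x (p.1, g0 * p.2), (memlp_iff _).2 hs⟩, fun _ => rfl⟩
  have hyk : y ∈ l2ker A := by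
    intro i g
    have h1 := hx i (g0 * g)
    rw [← h1]
    refine Finset.sum_congr rfl fun j' _ => Finset.sum_congr rfl fun h _ => ?_
    rw [hy, mul_assoc]
  have h2 := hval y hyk j
  rw [hy, mul_one] at h2
  exact h2

end Pool.Agent.H4.Singer
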