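import Pool.Agent.H4.Singer.LuckDim
import Pool.Agent.H4.Singer.LuckKer

/-!
# Singer project: vanishing of the `ℓ²`-kernel by Lück approximation
-/

set_option autoImplicit false
set_option linter.unusedSectionVars false

open Filter Topology

namespace Pool.Agent.H4.Singer

open Pool.Agent.H4.Atiyah

theorem l2ker_trivial {G : Type} [Group G] [DecidableEq G] {P : ℕ → Type} [∀ j, Group (P j)]
    [∀ j, Fintype (P j)] (π : ∀ j, G →* P j) (hπ : ∀ g : G, g ≠ 1 → ∀ᶠ j in atTop, π j g ≠ 1)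
    {k n : ℕ} (A : Matrix (Fin k) (Fin n) (MonoidAlgebra ℤ G))
    (hdim : ∀ η > (0 : ℝ), ∀ᶠ j in atTop, (k * Fintype.card (P j) : ℝ) -
      (op ((toC A).map (MonoidAlgebra.mapDomainRingHom ℂ (π j)))).rank ≤
        η * Fintype.card (P j)) :
    ∀ x ∈ l2ker (toC A), x = 0 :=
  l2ker_trivial_of_vnDim _ (vnDim_nonpos π hπ A hdim)

end Pool.Agent.H4.Singer
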