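import Pool.Agent.H4.Singer.L2Hodge
import Pool.Agent.H4.Singer.LuckVanish
import Pool.Agent.H4.Singer.HarmAct

/-!
# Singer project: harmonic `ℓ²`-chains are in the kernel of the matrix
-/

set_option autoImplicit false
set_option linter.unusedSectionVars false

open Finset

namespace Pool.Agent.H4.Singer

open Pool.Agent.H4.Atiyah

variable {V : Type} [Fintype V] [DecidableEq V]

/-- the matrix `HM` with rows and columns numbered by `Fin` -/
noncomputable def HA (G : SimpleGraph V) (ν : V → ℕ) (i : ℕ) :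
    Matrix (Fin (Fintype.card (RI G i))) (Fin (Fintype.card (CI G i)))
      (MonoidAlgebra ℤ (RGrp G)) :=
  (HM G ν i).submatrix (Fintype.equivFin (RI G i)).symm (Fintype.equivFin (CI G i)).symm

private lemma gen_inv' (G : SimpleGraph V) (v : V) : (gen G v)⁻¹ = gen G v := by
  have h : gen G v * gen G v = 1 := (racg G).toCoxeterSystem.simple_mul_simple_self v
  exact inv_eq_of_mul_eq_one_left h

private lemma coeff_toC {W : Type} [Group W] (a : MonoidAlgebra ℤ W) (h : W) :
    (MonoidAlgebra.mapRingHom W (Int.castRingHom ℂ) a).coeff h = ((a.coeff h : ℤ) : ℂ) := by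
  simp [MonoidAlgebra.mapRingHom]

private lemma sum_toC {W : Type} [Group W] (a : MonoidAlgebra ℤ W) (φ : W → ℂ) (g : W) :
    ∑ h ∈ (MonoidAlgebra.mapRingHom W (Int.castRingHom ℂ) a).coeff.support,
      φ (g * h⁻¹) * (MonoidAlgebra.mapRingHom W (Int.castRingHom ℂ) a).coeff h =
      gact (MonoidHom.id W) a φ g := by
  unfold gact
  have hs : (MonoidAlgebra.mapRingHom W (Int.castRingHom ℂ) a).coeff.support =
      a.coeff.support := by
    ext h
    rw [Finsupp.mem_support_iff, Finsupp.mem_support_iff, coeff_toC]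
    simp
  rw [hs]
  refine Finset.sum_congr rfl fun h _ => ?_
  rw [coeff_toC]
  rfl

/-- Proof: for a harmonic chain `x` the function `(j, w) ↦ x (row j) w` is in `lp` and in
`l2ker (toC (HA G ν i))` by `HM_anti`, `HM_bd`, `HM_cobd`, `HM_cobd_zero` (with `H = RGrp G`,
`π = id`; `(gen G v)⁻¹ = gen G v`). -/
theorem harm_inf (G : SimpleGraph V) (ν : V → ℕ) (i : ℕ)
    (h0 : ∀ x ∈ l2ker (toC (HA G ν i)), x = 0) :
    ∀ x : Finset V → RGrp G → ℂ, IsHarm G ν i x → x = 0 := by
  classical
  intro x hx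
  have hsupp : ∀ σ : Finset V, ¬ (G.IsClique (σ : Set V) ∧ σ.card = i) → x σ = 0 := by
    intro σ hσ
    funext w
    by_contra hne
    exact hσ (hx.chain.supp σ w hne)
  -- the function on `Fin k × W`
  let row : Fin (Fintype.card (RI G i)) → RI G i := (Fintype.equivFin (RI G i)).symm
  let F : Fin (Fintype.card (RI G i)) × RGrp G → ℂ := fun p => x (row p.1).1 p.2
  have hF : Memℓp F 2 := by
    refine memℓp_gen ?_
    have h1 : Summable fun p : Fin (Fintype.card (RI G i)) × RGrp G => ‖F p‖ ^ 2 := by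
      rw [summable_prod_of_nonneg (fun p => by positivity)]
      refine ⟨fun j => hx.chain.l2 (row j).1, ?_⟩
      exact Summable.of_finite
    refine h1.congr fun p => ?_
    norm_num
  let X : lp (fun _ : Fin (Fintype.card (RI G i)) × RGrp G => ℂ) 2 := ⟨F, hF⟩
  have hX : X ∈ l2ker (toC (HA G ν i)) := by
    intro c g
    have h1 : ∀ j : Fin (Fintype.card (RI G i)),
        ∑ h ∈ ((toC (HA G ν i)) j c).coeff.support, X (j, g * h⁻¹) *
          ((toC (HA G ν i)) j c).coeff h =
        gact (MonoidHom.id (RGrp G))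
          (HM G ν i (row j) ((Fintype.equivFin (CI G i)).symm c)) (x (row j).1) g := by
      intro j
      exact sum_toC (HM G ν i (row j) ((Fintype.equivFin (CI G i)).symm c)) (x (row j).1) g
    rw [Finset.sum_congr rfl fun j _ => h1 j]
    have h2 : ∑ j : Fin (Fintype.card (RI G i)), gact (MonoidHom.id (RGrp G))
          (HM G ν i (row j) ((Fintype.equivFin (CI G i)).symm c)) (x (row j).1) g =
        ∑ σ : RI G i, gact (MonoidHom.id (RGrp G))
          (HM G ν i σ ((Fintype.equivFin (CI G i)).symm c)) (x σ.1) g :=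
      Equiv.sum_comp (Fintype.equivFin (RI G i)).symm (fun σ : RI G i =>
        gact (MonoidHom.id (RGrp G)) (HM G ν i σ ((Fintype.equivFin (CI G i)).symm c)) (x σ.1) g)
    rw [h2]
    generalize (Fintype.equivFin (CI G i)).symm c = cc
    rcases cc with ⟨σ', v⟩ | τ | ρ
    · rw [HM_anti G ν i (MonoidHom.id (RGrp G)) x σ' v g]
      split_ifs with hv
      · rw [MonoidHom.id_apply, gen_inv', hx.chain.anti σ'.1 v hv g]
        ring
      · rfl
    · rw [HM_bd G ν i (MonoidHom.id (RGrp G)) x hsupp τ g]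
      exact congrFun (congrFun hx.cyc τ) g
    · by_cases hρ : G.IsClique (ρ : Set V) ∧ ρ.card = i + 1
      · rw [HM_cobd G ν i (MonoidHom.id (RGrp G)) x hsupp ρ hρ.1 hρ.2 g]
        have h3 := hx.cocyc ρ g hρ.1 hρ.2
        simp only [MonoidHom.id_apply, gen_inv']
        exact h3
      · exact HM_cobd_zero G ν i (MonoidHom.id (RGrp G)) x ρ hρ g
  have hX0 := h0 X hX
  funext σ w
  by_cases hσ : G.IsClique (σ : Set V) ∧ σ.card = i
  · have h4 : X (Fintype.equivFin (RI G i) ⟨σ, hσ⟩, w) = 0 := by rw [hX0]; rfl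
    have h5 : X (Fintype.equivFin (RI G i) ⟨σ, hσ⟩, w) = x σ w := by
      change x (row (Fintype.equivFin (RI G i) ⟨σ, hσ⟩)).1 w = x σ w
      simp only [row, Equiv.symm_apply_apply]
    rw [h5] at h4
    simpa using h4
  · rw [hsupp σ hσ]
    rfl

end Pool.Agent.H4.Singer
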