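import Pool.Agent.H4.Singer.FinHodge
import Pool.Agent.H4.Singer.HarmInf

/-!
# Singer project: the kernel of the matrix over a finite quotient
-/

set_option autoImplicit false
set_option linter.unusedSectionVars false

open Finset

namespace Pool.Agent.H4.Singer

open Pool.Agent.H4.Atiyah

variable {V C : Type} [DecidableEq V] [Fintype V] [DecidableEq C]

private theorem harmFin_coeff {W P : Type} [Group W] [Group P] [Fintype P] (π : W →* P)
    (a : MonoidAlgebra ℤ W) (φ : P → ℂ) (h : P) :
    ∑ g, φ g * (MonoidAlgebra.mapDomainRingHom ℂ π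
      (MonoidAlgebra.mapRingHom W (Int.castRingHom ℂ) a)).coeff (g⁻¹ * h) = gact π a φ h := by
  classical
  induction a using MonoidAlgebra.induction_linear with
  | zero => simp [gact_zero]
  | add a b ha hb =>
    rw [gact_add, ← ha, ← hb, ← Finset.sum_add_distrib]
    refine Finset.sum_congr rfl fun g _ => ?_
    rw [map_add, map_add, MonoidAlgebra.coeff_add, Finsupp.add_apply, mul_add]
  | single g r =>
    rw [gact_single, MonoidAlgebra.mapRingHom_single, MonoidAlgebra.mapDomainRingHom_apply,
      MonoidAlgebra.mapDomain_single, Finset.sum_eq_single (h * (π g)⁻¹)]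
    · rw [MonoidAlgebra.coeff_single, mul_inv_rev, inv_inv, inv_mul_cancel_right,
        Finsupp.single_eq_same]
      simp
    · intro g' _ hg'
      rw [MonoidAlgebra.coeff_single, Finsupp.single_eq_of_ne, mul_zero]
      intro he
      apply hg'
      rw [← he]
      group
    · intro hh
      exact absurd (Finset.mem_univ _) hh

/-- the extension by zero of a vector indexed by the cliques -/
private noncomputable def harmFinExt (G : SimpleGraph V) (i : ℕ) (P : Type) :
    (Fin (Fintype.card (RI G i)) × P → ℂ) →ₗ[ℂ] (Finset V → P → ℂ) := by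
  classical
  exact
  { toFun := fun x σ p => if h : G.IsClique (σ : Set V) ∧ σ.card = i then
      x (Fintype.equivFin (RI G i) ⟨σ, h⟩, p) else 0
    map_add' := by
      intro x y
      funext σ p
      simp only [Pi.add_apply]
      split_ifs <;> simp
    map_smul' := by
      intro c x
      funext σ p
      simp only [Pi.smul_apply, RingHom.id_apply]
      split_ifs <;> simp }

private theorem harmFinExt_of (G : SimpleGraph V) (i : ℕ) (P : Type)
    (x : Fin (Fintype.card (RI G i)) × P → ℂ) (σ : RI G i) (p : P) :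
    harmFinExt G i P x σ.1 p = x (Fintype.equivFin (RI G i) σ, p) := by
  classical
  show (if h : G.IsClique (σ.1 : Set V) ∧ σ.1.card = i then
      x (Fintype.equivFin (RI G i) ⟨σ.1, h⟩, p) else 0) = _
  rw [dif_pos σ.2]

private theorem harmFinExt_not (G : SimpleGraph V) (i : ℕ) (P : Type)
    (x : Fin (Fintype.card (RI G i)) × P → ℂ) (σ : Finset V)
    (hσ : ¬ (G.IsClique (σ : Set V) ∧ σ.card = i)) : harmFinExt G i P x σ = 0 := by
  classical
  funext p
  show (if h : G.IsClique (σ : Set V) ∧ σ.card = i then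
      x (Fintype.equivFin (RI G i) ⟨σ, h⟩, p) else 0) = _
  rw [dif_neg hσ]
  rfl

private theorem harmFinExt_injective (G : SimpleGraph V) (i : ℕ) (P : Type) :
    Function.Injective (harmFinExt G i P) := by
  intro x y hxy
  funext ⟨j, p⟩
  have h1 := congrFun (congrFun hxy ((Fintype.equivFin (RI G i)).symm j).1) p
  rwa [harmFinExt_of, harmFinExt_of, Equiv.apply_symm_apply] at h1

private theorem harmFin_key (G : SimpleGraph V) (ν : V → ℕ) (i : ℕ) (P : Type) [Group P]
    [Fintype P] (π : RGrp G →* P) (x : Fin (Fintype.card (RI G i)) × P → ℂ) (c : CI G i) (h : P) :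
    Matrix.vecMul x (op ((toC (HA G ν i)).map (MonoidAlgebra.mapDomainRingHom ℂ π)))
      (Fintype.equivFin (CI G i) c, h) =
      ∑ σ : RI G i, gact π (HM G ν i σ c) (harmFinExt G i P x σ.1) h := by
  rw [Matrix.vecMul, dotProduct, Fintype.sum_prod_type]
  rw [← Equiv.sum_comp (Fintype.equivFin (RI G i))]
  refine Finset.sum_congr rfl fun σ _ => ?_
  rw [← harmFin_coeff]
  refine Finset.sum_congr rfl fun g _ => ?_
  rw [harmFinExt_of]
  congr 1
  simp only [op, Matrix.of_apply, Matrix.map_apply, toC, HA, Matrix.submatrix_apply,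
    Equiv.symm_apply_apply]

/-- Proof: `k |P| - rank` is the dimension of the left kernel of the matrix (`Matrix.rank_transpose`,
rank-nullity). For `x` in the left kernel extend `x` to a function `Finset V → P → ℂ` by zero;
the map is injective and linear and the image `H` satisfies the hypothesis of `harm_finrank_le`, by
`HM_anti`, `HM_bd`, `HM_cobd` (with `H = P`): one has
`(x ᵥ* op (A.map (mapDomainRingHom ℂ π))) (c, h) = ∑ σ, gact π (A σ c) (x σ) h`. -/
theorem harm_fin (G : SimpleGraph V) (Γ : ColGraph V C) (hG : ∀ u v, G.Adj u v ↔ Γ.adj u v)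
    (ν : V → ℕ) (hν : Function.Injective ν) (i : ℕ) (P : Type) [Group P] [Fintype P]
    (π : RGrp G →* P) (XP : InvAct Γ P) (hXP : ∀ v p, XP.s v p = p * π (gen G v)) :
    ((Fintype.card (RI G i) : ℕ) * Fintype.card P : ℝ) -
      (op ((toC (HA G ν i)).map (MonoidAlgebra.mapDomainRingHom ℂ π))).rank ≤
        bet ℂ XP ν i := by
  classical
  set M := op ((toC (HA G ν i)).map (MonoidAlgebra.mapDomainRingHom ℂ π)) with hM
  -- the left kernel
  have hcl : ∀ σ : Finset V, Γ.Cl σ ↔ G.IsClique (σ : Set V) := by
    intro σ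
    constructor
    · intro h u hu v hv huv
      exact (hG u v).2 (h u hu v hv huv)
    · intro h u hu v hv huv
      exact (hG u v).1 (h hu hv huv)
  have hinv : ∀ v, (π (gen G v))⁻¹ = π (gen G v) := by
    intro v
    have h1 := XP.invol v 1
    rw [hXP, hXP, one_mul] at h1
    exact inv_eq_of_mul_eq_one_left h1
  have hker : ∀ x ∈ LinearMap.ker (Matrix.vecMulLinear M), ∀ (c : CI G i) (h : P),
      ∑ σ : RI G i, gact π (HM G ν i σ c) (harmFinExt G i P x σ.1) h = 0 := by
    intro x hx c h
    have h1 : Matrix.vecMul x M = 0 := hx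
    rw [← harmFin_key, ← hM, h1]
    rfl
  have hH : ∀ f ∈ (LinearMap.ker (Matrix.vecMulLinear M)).map (harmFinExt G i P),
      f ∈ Zc ℂ XP ν i ∧ ∀ ρ ω, Γ.Cl ρ → ρ.card = i + 1 →
      ∑ v ∈ ρ, (sg ν v (ρ.erase v) : ℂ) * (f (ρ.erase v) ω - f (ρ.erase v) (XP.s v ω)) = 0 := by
    rintro f ⟨x, hx, rfl⟩
    have hk := hker x hx
    have h0 := harmFinExt_not G i P x
    refine ⟨⟨?_, ?_⟩, ?_⟩
    · show harmFinExt G i P x ∈ Ch ℂ XP i
      rw [mem_Ch]
      refine ⟨?_, ?_⟩
      · intro σ ω hne
        by_contra hcon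
        rw [hcl] at hcon
        rw [h0 σ hcon] at hne
        exact hne rfl
      · intro σ v hv ω
        by_cases hσ : G.IsClique (σ : Set V) ∧ σ.card = i
        · have h1 := hk (Sum.inl (⟨σ, hσ⟩, v)) (XP.s v ω)
          rw [HM_anti, if_pos hv] at h1
          have h2 : XP.s v ω * (π (gen G v))⁻¹ = ω := by
            rw [hXP]
            group
          rw [h2] at h1
          exact eq_neg_of_add_eq_zero_left h1
        · rw [h0 σ hσ]
          simp
    · show dl ℂ ν (harmFinExt G i P x) = 0
      funext τ h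
      have h1 := hk (Sum.inr (Sum.inl τ)) h
      rw [HM_bd G ν i π _ h0] at h1
      rw [dl_apply, Pi.zero_apply, Pi.zero_apply, ← h1]
      refine Finset.sum_congr rfl fun v _ => ?_
      unfold sg
      push_cast
      rfl
    · intro ρ ω hρ hρi
      have h1 := hk (Sum.inr (Sum.inr ρ)) ω
      rw [HM_cobd G ν i π _ h0 ρ ((hcl ρ).1 hρ) hρi] at h1
      rw [← h1]
      refine Finset.sum_congr rfl fun v _ => ?_
      rw [hXP, hinv]
      unfold sg
      push_cast
      rfl
  have hle := harm_finrank_le XP ν hν i _ hH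
  have hfin : Module.finrank ℂ
      ((LinearMap.ker (Matrix.vecMulLinear M)).map (harmFinExt G i P)) =
      Module.finrank ℂ (LinearMap.ker (Matrix.vecMulLinear M)) :=
    (Submodule.equivMapOfInjective _ (harmFinExt_injective G i P) _).finrank_eq.symm
  have h1 := LinearMap.finrank_range_add_finrank_ker (Matrix.vecMulLinear M)
  rw [Module.finrank_fintype_fun_eq_card, Fintype.card_prod, Fintype.card_fin] at h1
  have h3 : Module.finrank ℂ (LinearMap.range (Matrix.vecMulLinear M)) = M.rank := by
    have h4 : Matrix.vecMulLinear M = (Matrix.transpose M).mulVecLin := by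
      apply LinearMap.ext
      intro x
      rw [Matrix.vecMulLinear_apply, Matrix.mulVecLin_apply, Matrix.mulVec_transpose]
    rw [h4, ← Matrix.rank_transpose M, Matrix.rank]
  rw [h3] at h1
  rw [hfin] at hle
  have h5 : ((Fintype.card (RI G i) : ℕ) * Fintype.card P : ℝ) =
      (M.rank : ℝ) + Module.finrank ℂ (LinearMap.ker (Matrix.vecMulLinear M)) := by
    exact_mod_cast h1.symm
  rw [h5]
  have h6 : (Module.finrank ℂ (LinearMap.ker (Matrix.vecMulLinear M)) : ℝ) ≤ bet ℂ XP ν i := by
    exact_mod_cast hle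
  linarith

end Pool.Agent.H4.Singer
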