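import Mathlib

/-!
# Singer project: common definitions
-/

set_option autoImplicit false

open Finset

namespace Pool.Agent.H4.Singer

/-! ## Coloured graphs -/

/-- a graph with properly coloured vertices -/
structure ColGraph (V C : Type) where
  /-- adjacency -/
  adj : V → V → Prop
  symm : ∀ u v, adj u v → adj v u
  /-- the colour of a vertex -/
  col : V → C
  ne : ∀ u v, adj u v → col u ≠ col v

/-- cliques of a coloured graph -/
def ColGraph.Cl {V C : Type} (G : ColGraph V C) (σ : Finset V) : Prop :=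
  ∀ u ∈ σ, ∀ v ∈ σ, u ≠ v → G.adj u v

/-! ## The generic level -/

section Generic

variable {V C : Type} [DecidableEq V] [Fintype V] [DecidableEq C] {R M : Type} [CommRing R]
  [AddCommGroup M] [Module R M]

/-- the weight `1` or `T v` -/
def wt (T : V → R) (v : V) (b : Bool) : R := if b then T v else 1

/-- the boundary with local coefficients (no signs, used in characteristic two) -/
def bd (G : ColGraph V C) (T : V → R) (z : Finset V → (C → Bool) → M) (τ : Finset V)
    (a : C → Bool) : M :=
  ∑ v ∈ τᶜ, wt T v (a (G.col v)) • z (insert v τ) a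

/-- chains of degree `j` of the clique complex of the induced subgraph on `U` -/
structure IsChain (G : ColGraph V C) (U : Finset V) (j : ℕ) (z : Finset V → (C → Bool) → M) :
    Prop where
  supp : ∀ σ a, z σ a ≠ 0 → σ ⊆ U ∧ G.Cl σ ∧ σ.card = j
  indep : ∀ σ a v b, v ∈ σ → z σ (Function.update a (G.col v) b) = z σ a

/-- vanishing of the homology in degree `j` of the clique complex of the induced subgraph on `U`
with parameters `t` -/
def Van {K : Type} [Field K] (G : ColGraph V C) (t : V → K) (U : Finset V) (j : ℕ) : Prop :=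
  ∀ z : Finset V → (C → Bool) → K, IsChain G U j z → bd G t z = 0 →
    ∃ y : Finset V → (C → Bool) → K, IsChain G U (j + 1) y ∧ bd G t y = z

end Generic

/-! ## Stresses -/

section Stress

variable {V : Type} [DecidableEq V] [Fintype V] {K : Type} [Field K]

/-- stresses on a family `F` of flags -/
structure Stress (t : V → K) (F : Finset (Finset V)) (z : Finset V → K) : Prop where
  supp : ∀ φ, z φ ≠ 0 → φ ∈ F
  sum : ∀ τ, ∑ v ∈ τᶜ, z (insert v τ) = 0
  wsum : ∀ τ, ∑ v ∈ τᶜ, t v * z (insert v τ) = 0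

/-- there is no nonzero stress -/
def StressFree (t : V → K) (F : Finset (Finset V)) : Prop := ∀ z, Stress t F z → z = 0

end Stress

/-! ## Shellings and flags of faces of odd size -/

section Shell

variable {α : Type} [DecidableEq α]

/-- `ord` is a shelling order on the facets `𝓕`, all of size `n` -/
structure Shelling (n : ℕ) (𝓕 : Finset (Finset α)) (ord : Finset α → ℕ) : Prop where
  card : ∀ F ∈ 𝓕, F.card = n
  inj : ∀ F ∈ 𝓕, ∀ F' ∈ 𝓕, ord F = ord F' → F = F'
  shell : ∀ F ∈ 𝓕, ∀ F' ∈ 𝓕, ord F' < ord F → ∃ F'' ∈ 𝓕, ord F'' < ord F ∧ F' ∩ F ⊆ F'' ∧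
    (F'' ∩ F).card + 1 = n

/-- every ridge is in at most two facets -/
def Ridge2 (n : ℕ) (𝓕 : Finset (Finset α)) : Prop :=
  ∀ R : Finset α, R.card + 1 = n → (𝓕.filter fun F => R ⊆ F).card ≤ 2

/-- chains of sets of odd size -/
def OddChain (φ : Finset (Finset α)) : Prop :=
  (∀ S ∈ φ, ∀ S' ∈ φ, S ⊆ S' ∨ S' ⊆ S) ∧ ∀ S ∈ φ, Odd S.card

open Classical in
/-- flags of `m + 1` faces of odd size -/
noncomputable def OddFlags [Fintype α] (m : ℕ) (𝓕 : Finset (Finset α)) :
    Finset (Finset (Finset α)) :=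
  univ.filter fun φ => φ.card = m + 1 ∧ OddChain φ ∧ ∀ S ∈ φ, ∃ F ∈ 𝓕, S ⊆ F

end Shell

/-! ## Sets with an action of the right-angled Coxeter group -/

section Act

variable {V C : Type} [DecidableEq C]

/-- a set with commuting involutions (an action of the right-angled Coxeter group of the graph)
with an equivariant map to the cube `C → Bool` -/
structure InvAct (G : ColGraph V C) (Ω : Type) where
  /-- the involutions -/
  s : V → Ω → Ω
  invol : ∀ v ω, s v (s v ω) = ω
  comm : ∀ u v, G.adj u v → ∀ ω, s u (s v ω) = s v (s u ω)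
  /-- the map to the cube -/
  bit : Ω → C → Bool
  bit_s : ∀ v ω, bit (s v ω) = Function.update (bit ω) (G.col v) (!(bit ω (G.col v)))

variable [DecidableEq V] [Fintype V] {Ω : Type} (F : Type) [Field F]

/-- the incidence sign -/
def sg (ν : V → ℕ) (v : V) (τ : Finset V) : ℤ := (-1) ^ (τ.filter fun u => ν u < ν v).card

/-- antisymmetric chains -/
def Ch {G : ColGraph V C} (X : InvAct G Ω) (i : ℕ) : Submodule F (Finset V → Ω → F) where
  carrier := {f | (∀ σ ω, f σ ω ≠ 0 → G.Cl σ ∧ σ.card = i) ∧
    ∀ σ, ∀ v ∈ σ, ∀ ω, f σ (X.s v ω) = - f σ ω}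
  zero_mem' := by
    refine ⟨fun σ ω h => absurd rfl h, fun σ v _ ω => by simp⟩
  add_mem' := by
    rintro f g ⟨h1, h2⟩ ⟨h3, h4⟩
    refine ⟨fun σ ω h => ?_, fun σ v hv ω => ?_⟩
    · by_cases hf : f σ ω = 0
      · by_cases hg : g σ ω = 0
        · exact absurd (by simp [hf, hg]) h
        · exact h3 σ ω hg
      · exact h1 σ ω hf
    · simp only [Pi.add_apply]
      rw [h2 σ v hv ω, h4 σ v hv ω]
      ring
  smul_mem' := by
    rintro c f ⟨h1, h2⟩
    refine ⟨fun σ ω h => h1 σ ω ?_, fun σ v hv ω => ?_⟩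
    · intro h0
      exact h (by simp [h0])
    · simp only [Pi.smul_apply, smul_eq_mul]
      rw [h2 σ v hv ω]
      ring

/-- the boundary operator -/
def dl (ν : V → ℕ) : (Finset V → Ω → F) →ₗ[F] (Finset V → Ω → F) where
  toFun f τ ω := ∑ v ∈ τᶜ, (sg ν v τ : F) * f (insert v τ) ω
  map_add' f g := by
    funext τ ω
    simp [mul_add, Finset.sum_add_distrib]
  map_smul' c f := by
    funext τ ω
    simp only [Pi.smul_apply, smul_eq_mul, RingHom.id_apply, Finset.mul_sum]
    exact Finset.sum_congr rfl fun v _ => by ring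

/-- cycles -/
def Zc {G : ColGraph V C} (X : InvAct G Ω) (ν : V → ℕ) (i : ℕ) :
    Submodule F (Finset V → Ω → F) := Ch F X i ⊓ LinearMap.ker (dl F ν)

/-- boundaries -/
def Bc {G : ColGraph V C} (X : InvAct G Ω) (ν : V → ℕ) (i : ℕ) :
    Submodule F (Finset V → Ω → F) := (Ch F X (i + 1)).map (dl F ν)

/-- Betti numbers of a finite set with an action -/
noncomputable def bet {G : ColGraph V C} (X : InvAct G Ω) (ν : V → ℕ) (i : ℕ) : ℕ :=
  Module.finrank F (Zc F X ν i) - Module.finrank F (Bc F X ν i)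

end Act

/-! ## The finite sets `Ω_q` -/

section Om

variable {V C : Type} [DecidableEq C]

/-- the set `(C → Bool) × ℤ/q` with the involutions `(a, x) ↦ (flip a at col v, x ± k v)` -/
def omQ (G : ColGraph V C) (q : ℕ) (k : V → ℕ) : InvAct G ((C → Bool) × ZMod q) where
  s v ω := (Function.update ω.1 (G.col v) (!(ω.1 (G.col v))),
    if ω.1 (G.col v) then ω.2 - k v else ω.2 + k v)
  invol v ω := by
    rcases ω with ⟨a, x⟩
    by_cases h : a (G.col v) = true <;> simp [h]
  comm u v huv ω := by
    rcases ω with ⟨a, x⟩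
    have h := G.ne u v huv
    simp only [Function.update_of_ne h, Function.update_of_ne h.symm, Prod.mk.injEq]
    refine ⟨Function.update_comm h.symm _ _ _, ?_⟩
    split_ifs <;> ring
  bit ω := ω.1
  bit_s v ω := rfl

end Om

end Pool.Agent.H4.Singer
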