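import Pool.Agent.H4.Singer.TopDefs

/-!
# Singer project: right-angled Coxeter groups are residually finite two-groups
-/

set_option autoImplicit false
set_option linter.unusedSectionVars false

open Finset

namespace Pool.Agent.H4.Singer

variable {V : Type}

namespace NilCox

variable (G : SimpleGraph V) (L : ℕ)

/-- the length function -/
noncomputable abbrev len (w : RGrp G) : ℕ := (racg G).toCoxeterSystem.length w

/-- the standard generators of the Coxeter system -/
noncomputable abbrev sg (v : V) : RGrp G := (racg G).toCoxeterSystem.simple v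

/-- the ball of radius `L` -/
abbrev Ball : Type := {w : RGrp G // len G w ≤ L}

/-- the linear automorphisms of the functions on the ball -/
abbrev Aut : Type := (Ball G L → ZMod 2) ≃ₗ[ZMod 2] (Ball G L → ZMod 2)

/-- the nil-Coxeter operators -/
noncomputable def X (v : V) (g : Ball G L → ZMod 2) : Ball G L → ZMod 2 :=
  fun w => if h : len G (sg G v * w.1) < len G w.1 then g ⟨sg G v * w.1, h.le.trans w.2⟩ else 0

variable {G L}

lemma add_self' (g : Ball G L → ZMod 2) : g + g = 0 := by
  funext w
  exact CharTwo.add_self_eq_zero _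

lemma X_pos {v : V} {g : Ball G L → ZMod 2} {w : Ball G L}
    (h : len G (sg G v * w.1) < len G w.1) :
    X G L v g w = g ⟨sg G v * w.1, h.le.trans w.2⟩ := dif_pos h

lemma X_neg {v : V} {g : Ball G L → ZMod 2} {w : Ball G L}
    (h : ¬ len G (sg G v * w.1) < len G w.1) : X G L v g w = 0 := dif_neg h

lemma X_add (v : V) (g h : Ball G L → ZMod 2) : X G L v (g + h) = X G L v g + X G L v h := by
  funext w
  simp only [Pi.add_apply]
  by_cases hw : len G (sg G v * w.1) < len G w.1
  · rw [X_pos hw, X_pos hw, X_pos hw]
    rfl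
  · rw [X_neg hw, X_neg hw, X_neg hw, add_zero]

lemma X_smul (v : V) (c : ZMod 2) (g : Ball G L → ZMod 2) :
    X G L v (c • g) = c • X G L v g := by
  funext w
  simp only [Pi.smul_apply]
  by_cases hw : len G (sg G v * w.1) < len G w.1
  · rw [X_pos hw, X_pos hw]
    rfl
  · rw [X_neg hw, X_neg hw, smul_zero]

lemma len_mul (v : V) (w : RGrp G) :
    len G (sg G v * w) = len G w + 1 ∨ len G (sg G v * w) + 1 = len G w :=
  (racg G).toCoxeterSystem.length_simple_mul w v

lemma sg_cancel (v : V) (w : RGrp G) : sg G v * (sg G v * w) = w :=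
  (racg G).toCoxeterSystem.simple_mul_simple_cancel_left v

lemma X_X (v : V) (g : Ball G L → ZMod 2) : X G L v (X G L v g) = 0 := by
  funext w
  by_cases hw : len G (sg G v * w.1) < len G w.1
  · rw [X_pos hw, X_neg]
    · rfl
    · simp only [sg_cancel]
      omega
  · rw [X_neg hw]
    rfl

lemma XX_eq (u v : V) (g : Ball G L → ZMod 2) (w : Ball G L) :
    X G L u (X G L v g) w = if h : len G (sg G v * (sg G u * w.1)) + 2 = len G w.1 then
      g ⟨sg G v * (sg G u * w.1), by have := w.2; omega⟩ else 0 := by
  have h1 := len_mul u w.1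
  have h2 := len_mul v (sg G u * w.1)
  by_cases hw : len G (sg G u * w.1) < len G w.1
  · rw [X_pos hw]
    by_cases hw2 : len G (sg G v * (sg G u * w.1)) < len G (sg G u * w.1)
    · rw [X_pos hw2, dif_pos (by omega)]
    · rw [X_neg hw2, dif_neg (by omega)]
  · rw [X_neg hw, dif_neg (by omega)]

open Classical in
lemma sg_comm {u v : V} (h : G.Adj u v) : sg G u * sg G v = sg G v * sg G u := by
  have h1 := (racg G).toCoxeterSystem.simple_mul_simple_pow u v
  have h2 : (racg G) u v = 2 := by
    change (if u = v then 1 else if G.Adj u v then 2 else 0) = 2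
    rw [if_neg h.ne, if_pos h]
  rw [h2, sq] at h1
  have hu := (racg G).toCoxeterSystem.simple_mul_simple_self u
  have hv := (racg G).toCoxeterSystem.simple_mul_simple_self v
  have h3 : sg G u * sg G v = (sg G u * sg G v)⁻¹ := eq_inv_of_mul_eq_one_left h1
  rw [h3, mul_inv_rev]
  rw [inv_eq_of_mul_eq_one_left hu, inv_eq_of_mul_eq_one_left hv]

lemma X_comm {u v : V} (h : G.Adj u v) (g : Ball G L → ZMod 2) :
    X G L u (X G L v g) = X G L v (X G L u g) := by
  funext w
  rw [XX_eq, XX_eq]
  have h1 : sg G v * (sg G u * w.1) = sg G u * (sg G v * w.1) := by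
    rw [← mul_assoc, ← mul_assoc, sg_comm h]
  simp only [h1]

/-- the operators `1 + X v` -/
noncomputable def Y (G : SimpleGraph V) (L : ℕ) (v : V) : Aut G L where
  toFun g := g + X G L v g
  invFun g := g + X G L v g
  left_inv g := by
    change g + X G L v g + X G L v (g + X G L v g) = g
    rw [X_add, X_X, add_zero, add_assoc, add_self', add_zero]
  right_inv g := by
    change g + X G L v g + X G L v (g + X G L v g) = g
    rw [X_add, X_X, add_zero, add_assoc, add_self', add_zero]
  map_add' g h := by
    rw [X_add]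
    abel
  map_smul' c g := by
    rw [X_smul, RingHom.id_apply, smul_add]

lemma Y_apply (v : V) (g : Ball G L → ZMod 2) : Y G L v g = g + X G L v g := rfl

lemma Y_Y (v : V) : Y G L v * Y G L v = 1 := by
  ext1 g
  exact (Y G L v).left_inv g

lemma Y_comm {u v : V} (h : G.Adj u v) : Y G L u * Y G L v = Y G L v * Y G L u := by
  ext1 g
  change g + X G L v g + X G L u (g + X G L v g) = g + X G L u g + X G L v (g + X G L u g)
  rw [X_add, X_add, X_comm h]
  abel

open Classical in
lemma liftable (G : SimpleGraph V) (L : ℕ) : (racg G).IsLiftable (Y G L) := by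
  intro u v
  change (Y G L u * Y G L v) ^ (if u = v then 1 else if G.Adj u v then 2 else 0) = 1
  split_ifs with h1 h2
  · rw [h1, pow_one, Y_Y]
  · rw [sq]
    calc Y G L u * Y G L v * (Y G L u * Y G L v)
        = Y G L u * Y G L v * (Y G L v * Y G L u) := by rw [← Y_comm h2]
      _ = Y G L u * (Y G L v * Y G L v) * Y G L u := by simp only [mul_assoc]
      _ = 1 := by rw [Y_Y, mul_one, Y_Y]
  · rw [pow_zero]

/-- the representation -/
noncomputable def rep (G : SimpleGraph V) (L : ℕ) : RGrp G →* Aut G L :=
  (racg G).toCoxeterSystem.lift ⟨Y G L, liftable G L⟩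

lemma rep_sg (v : V) : rep G L (sg G v) = Y G L v :=
  (racg G).toCoxeterSystem.lift_apply_simple (liftable G L) v

/-- `g` is supported on lengths `≥ m` -/
def Low (m : ℕ) (g : Ball G L → ZMod 2) : Prop := ∀ w, g w ≠ 0 → m ≤ len G w.1

/-- `g` is supported on lengths `≤ m` -/
def High (m : ℕ) (g : Ball G L → ZMod 2) : Prop := ∀ w, g w ≠ 0 → len G w.1 ≤ m

lemma Low.add {m : ℕ} {g h : Ball G L → ZMod 2} (hg : Low m g) (hh : Low m h) : Low m (g + h) := by
  intro w hw
  by_contra hc
  have h1 : g w = 0 := by
    by_contra h2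
    exact hc (hg w h2)
  have h2 : h w = 0 := by
    by_contra h2
    exact hc (hh w h2)
  exact hw (by rw [Pi.add_apply, h1, h2, add_zero])

lemma Low.mono {m n : ℕ} {g : Ball G L → ZMod 2} (hg : Low m g) (h : n ≤ m) : Low n g :=
  fun w hw => h.trans (hg w hw)

/-- unipotent maps -/
def Uni (k : ℕ) (T : Aut G L) : Prop :=
  ∀ m g, Low m g → Low (m + k) (T g + g)

lemma Uni.low {k : ℕ} {T : Aut G L} (hT : Uni k T) {m : ℕ}
    {g : Ball G L → ZMod 2} (hg : Low m g) : Low m (T g) := by
  have h1 : T g = (T g + g) + g := by rw [add_assoc, add_self', add_zero]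
  rw [h1]
  exact ((hT m g hg).mono (Nat.le_add_right _ _)).add hg

lemma Uni.one (k : ℕ) : Uni k (1 : Aut G L) := by
  intro m g _ w hw
  exact absurd (by
    change (g + g) w = 0
    rw [add_self']
    rfl) hw

lemma Uni.mul {k : ℕ} {S T : Aut G L} (hS : Uni k S) (hT : Uni k T) :
    Uni k (S * T) := by
  intro m g hg
  have h1 : (S * T) g + g = (S (T g) + T g) + (T g + g) := by
    change S (T g) + g = _
    rw [add_assoc, ← add_assoc (T g) (T g) g, add_self', zero_add]
  rw [h1]
  exact (hS m _ (hT.low hg)).add (hT m g hg)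

lemma Uni.sq {k : ℕ} {T : Aut G L} (hT : Uni k T) : Uni (k + k) (T * T) := by
  intro m g hg
  have h1 : (T * T) g + g = T (T g + g) + (T g + g) := by
    change T (T g) + g = _
    rw [map_add, add_assoc, ← add_assoc (T g) (T g) g, add_self', zero_add]
  rw [h1, ← add_assoc]
  exact hT _ _ (hT m g hg)

lemma Uni.pow {T : Aut G L} (hT : Uni 1 T) (a : ℕ) :
    Uni (2 ^ a) (T ^ 2 ^ a) := by
  induction a with
  | zero => simpa using hT
  | succ a ih =>
    have h1 : T ^ 2 ^ (a + 1) = T ^ 2 ^ a * T ^ 2 ^ a := by
      rw [← pow_add]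
      congr 1
      ring
    rw [h1, pow_succ 2 a, mul_two]
    exact ih.sq

lemma Uni.eq_one {k : ℕ} {T : Aut G L} (hT : Uni k T) (hk : L < k) : T = 1 := by
  ext1 g
  change T g = g
  have h1 : Low 0 g := fun w _ => Nat.zero_le _
  have h2 := hT 0 g h1
  have h3 : T g + g = 0 := by
    funext w
    by_contra hw
    have := h2 w hw
    have := w.2
    omega
  calc T g = (T g + g) + g := by rw [add_assoc, add_self', add_zero]
    _ = g := by rw [h3, zero_add]

lemma uni_Y (v : V) : Uni 1 (Y G L v) := by
  intro m g hg w hw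
  have h1 : (Y G L v g + g) = X G L v g := by
    rw [Y_apply, add_comm g, add_assoc, add_self', add_zero]
  rw [h1] at hw
  by_cases hlt : len G (sg G v * w.1) < len G w.1
  · rw [X_pos hlt] at hw
    have := hg _ hw
    simp only at this
    omega
  · exact absurd (X_neg hlt) hw

lemma uni_rep (w : RGrp G) : Uni 1 (rep G L w) := by
  refine (racg G).toCoxeterSystem.simple_induction_left (p := fun w => Uni 1 (rep G L w)) w ?_ ?_
  · rw [map_one]
    exact Uni.one 1
  · intro w i hw
    rw [map_mul]
    have h1 : rep G L ((racg G).toCoxeterSystem.simple i) = Y G L i := rep_sg i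
    rw [h1]
    exact (uni_Y i).mul hw

lemma high_Y {v : V} {m : ℕ} {g : Ball G L → ZMod 2} (hg : High m g) :
    High (m + 1) (Y G L v g) := by
  intro w hw
  by_contra hc
  push Not at hc
  apply hw
  rw [Y_apply, Pi.add_apply]
  have h1 : g w = 0 := by
    by_contra h
    have := hg w h
    omega
  rw [h1, zero_add]
  by_cases hlt : len G (sg G v * w.1) < len G w.1
  · rw [X_pos hlt]
    by_contra h
    have := hg _ h
    have h2 := len_mul v w.1
    simp only at this
    omega
  · exact X_neg hlt

open Classical in
/-- the delta function at `1` -/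
noncomputable def del (G : SimpleGraph V) (L : ℕ) : Ball G L → ZMod 2 :=
  fun w => if w.1 = 1 then 1 else 0

lemma high_del : High 0 (del G L) := by
  intro w hw
  unfold del at hw
  split_ifs at hw with h
  · rw [h]
    exact ((racg G).toCoxeterSystem.length_one).le
  · exact absurd rfl hw

lemma high_word (ω : List V) :
    High ω.length (rep G L ((racg G).toCoxeterSystem.wordProd ω) (del G L)) := by
  induction ω with
  | nil =>
    rw [CoxeterSystem.wordProd_nil, map_one]
    exact high_del
  | cons v ω ih =>
    rw [CoxeterSystem.wordProd_cons, map_mul]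
    have h1 : rep G L ((racg G).toCoxeterSystem.simple v) = Y G L v := rep_sg v
    rw [h1]
    exact high_Y ih

lemma value_word (ω : List V) (hω : (racg G).toCoxeterSystem.IsReduced ω) (hL : ω.length ≤ L) :
    rep G L ((racg G).toCoxeterSystem.wordProd ω) (del G L)
      ⟨(racg G).toCoxeterSystem.wordProd ω, hω.eq.le.trans hL⟩ = 1 := by
  induction ω with
  | nil =>
    simp only [CoxeterSystem.wordProd_nil, map_one]
    change del G L _ = 1
    unfold del
    rw [if_pos rfl]
  | cons v ω ih =>
    have hr : (racg G).toCoxeterSystem.IsReduced ω := by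
      have := hω.drop 1
      simpa using this
    have hl : ω.length ≤ L := by
      rw [List.length_cons] at hL
      omega
    have ih' := ih hr hl
    have hlen : len G ((racg G).toCoxeterSystem.wordProd ω) = ω.length := hr
    have hlen2 : len G (sg G v * (racg G).toCoxeterSystem.wordProd ω) = ω.length + 1 := by
      have := hω
      unfold CoxeterSystem.IsReduced at this
      rw [CoxeterSystem.wordProd_cons, List.length_cons] at this
      exact this
    simp only [CoxeterSystem.wordProd_cons, map_mul]
    have h1 : rep G L ((racg G).toCoxeterSystem.simple v) = Y G L v := rep_sg v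
    rw [h1]
    change Y G L v (rep G L ((racg G).toCoxeterSystem.wordProd ω) (del G L)) _ = 1
    rw [Y_apply, Pi.add_apply]
    have h2 : rep G L ((racg G).toCoxeterSystem.wordProd ω) (del G L)
        ⟨(racg G).toCoxeterSystem.simple v * (racg G).toCoxeterSystem.wordProd ω, by
          change len G _ ≤ L
          rw [hlen2]
          rw [List.length_cons] at hL
          exact hL⟩ = 0 := by
      by_contra h
      have := high_word ω _ h
      simp only at this
      rw [hlen2] at this
      omega
    rw [h2, zero_add, X_pos]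
    · convert ih' using 2
      ext1
      exact sg_cancel v _
    · simp only [sg_cancel]
      rw [hlen2, hlen]
      exact Nat.lt_succ_self _

instance finite_ball [Finite V] (G : SimpleGraph V) (L : ℕ) : Finite (Ball G L) := by
  have h1 : Finite {l : List V // l.length ≤ L} := (List.finite_length_le V L).to_subtype
  refine Finite.of_surjective (fun l : {l : List V // l.length ≤ L} =>
    (⟨(racg G).toCoxeterSystem.wordProd l.1,
      ((racg G).toCoxeterSystem.length_wordProd_le l.1).trans l.2⟩ : Ball G L)) ?_
  rintro ⟨w, hw⟩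
  obtain ⟨ω, h2, h3⟩ := (racg G).toCoxeterSystem.exists_isReduced w
  refine ⟨⟨ω, ?_⟩, ?_⟩
  · rw [← h2, ← h3]
    exact hw
  · ext1
    exact h3.symm

end NilCox

/-- Residual two-finiteness (separately for each length). Proof with the nil-Coxeter operators: let
`B` be the (finite) set of the `w` with `ℓ w ≤ L`, and for `v : V` define the operator `X v` on
functions `g : B → ZMod 2` by `(X v g) w = g (s v * w)` if `ℓ (s v * w) < ℓ w` and `0` otherwise.
Then `X v ^ 2 = 0` and `X u X v = X v X u` for adjacent `u, v` (both are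
`w ↦ g (s v s u w)` if `ℓ (s v s u w) + 2 = ℓ w` and `0` otherwise, since multiplication with a
generator changes the length by exactly one). Hence `s v ↦ 1 + X v` defines a homomorphism `π` to
the group `P` of the invertible linear maps (or permutations of the finite set `B → ZMod 2`) `T` such
that `T - 1` raises the length filtration strictly: if `g` is supported on lengths `≥ m`, then
`T g - g` is supported on lengths `≥ m + 1`. Every such `T` satisfies `T ^ (2 ^ a) = 1` for
`2 ^ a > L` because `T ^ (2 ^ a) = 1 + (T - 1) ^ (2 ^ a)` in characteristic two; so `P` is a finite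
two-group. If `w = s₁ ⋯ s_l` is a reduced word, `l = ℓ w ≤ L`, then the value at `w` of
`π w δ_1 = (1 + X s₁) ⋯ (1 + X s_l) δ_1` is `1`: the other terms of the product expansion
are supported on lengths `< l`. For `w ≠ 1` the value of `δ_1` at `w` is `0`, so `π w ≠ 1`. -/
theorem exists_two_group [Finite V] (G : SimpleGraph V) (L : ℕ) :
    ∃ (P : Type) (_ : Group P) (_ : Fintype P) (π : RGrp G →* P), IsPGroup 2 P ∧
      ∀ w : RGrp G, w ≠ 1 → (racg G).toCoxeterSystem.length w ≤ L → π w ≠ 1 := by
  classical
  have hfin : Finite (NilCox.Aut G L) :=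
    Finite.of_injective (fun T => (T : (NilCox.Ball G L → ZMod 2) → (NilCox.Ball G L → ZMod 2)))
      DFunLike.coe_injective
  refine ⟨(NilCox.rep G L).range, inferInstance, Fintype.ofFinite _, (NilCox.rep G L).rangeRestrict,
    ?_, ?_⟩
  · rintro ⟨T, w, rfl⟩
    refine ⟨L + 1, ?_⟩
    ext1
    change NilCox.rep G L w ^ 2 ^ (L + 1) = 1
    refine ((NilCox.uni_rep w).pow (L + 1)).eq_one ?_
    exact lt_trans (Nat.lt_succ_self L) (Nat.lt_two_pow_self)
  · intro w hw hl h1
    obtain ⟨ω, hr, hω⟩ := (racg G).toCoxeterSystem.exists_isReduced w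
    have hlen : ω.length ≤ L := by
      rw [← hr, ← hω]
      exact hl
    have h2 := NilCox.value_word ω hr hlen
    have h3 : NilCox.rep G L ((racg G).toCoxeterSystem.wordProd ω) = 1 := by
      rw [← hω]
      exact congrArg Subtype.val h1
    rw [h3] at h2
    have h4 : NilCox.del G L ⟨(racg G).toCoxeterSystem.wordProd ω, hr.eq.le.trans hlen⟩ = 0 := by
      unfold NilCox.del
      rw [if_neg]
      exact fun h6 => hw (hω.trans h6)
    have h5 : NilCox.del G L ⟨(racg G).toCoxeterSystem.wordProd ω, hr.eq.le.trans hlen⟩ = 1 := h2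
    rw [h4] at h5
    exact zero_ne_one h5

end Pool.Agent.H4.Singer
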