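import Pool.Agent.H4.Singer.Sizes

/-!
# Singer project: joining with the odd flags of a simplex boundary
-/

set_option autoImplicit false
set_option linter.unusedSectionVars false

open Finset

namespace Pool.Agent.H4.Singer

variable {V C α : Type} [DecidableEq V] [Fintype V] [DecidableEq C] [DecidableEq α] {K : Type}
  [Field K] [CharP K 2]

/-- stress-freeness of the flags of odd size of the boundaries of all simplices -/
def GoodB (G : ColGraph V C) (e : V → Finset α) (t : V → K) : Prop :=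
  ∀ (v : V) (σ : Finset α), σ ⊂ e v → Even (e v \ σ).card →
    StressFree t (clq G (Btw e σ (e v)) ((e v \ σ).card / 2))

/-- stress-freeness of the flags of odd size of the links (`n = 2 m + 1` is the size of the
facets) -/
def GoodU (G : ColGraph V C) (e : V → Finset α) (t : V → K) (m : ℕ) : Prop :=
  ∀ σ : Finset α, Even σ.card → σ.card ≤ 2 * m →
    StressFree t (clq G (UpOdd e σ) (m + 1 - σ.card / 2))

/-- joining with the odd flags of the boundary of a simplex: `van_join_sf` and `card_le_of_odd`,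
`exists_col_of_odd` with `r = |e v \ σ| / 2` -/
theorem van_btw (G : ColGraph V C) (e : V → Finset α) (h : FaceGraph G e) (t : V → K)
    (hB : GoodB G e t) (σ : Finset α) (v : V) (hv : σ ⊂ e v) (hev : Even (e v \ σ).card)
    (A : Finset V) (hA : ∀ u ∈ A, ∀ w ∈ Up e σ, G.adj u w) (a₀ : ℕ) (ha : 1 ≤ a₀)
    (hV : ∀ j, a₀ ≤ j → Van G t A j) (j : ℕ) (hj : a₀ + (e v \ σ).card / 2 ≤ j + 1) :
    Van G t (A ∪ Btw e σ (e v)) j := by
  obtain ⟨r, hr⟩ := hev
  have hpos : 0 < (e v \ σ).card := by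
    rw [Finset.card_pos, Finset.sdiff_nonempty]
    exact fun h1 => hv.2 h1
  have hr1 : 1 ≤ r := by omega
  have hr2 : (e v \ σ).card / 2 = r := by omega
  have key : ∀ w ∈ Btw e σ (e v), σ ⊂ e w ∧ Odd (e w \ σ).card ∧ (e w \ σ).card ≤ 2 * r := by
    intro w hw
    rw [mem_Btw] at hw
    refine ⟨hw.1, hw.2.2, ?_⟩
    have h1 : (e w \ σ).card ≤ (e v \ σ).card :=
      Finset.card_le_card (Finset.sdiff_subset_sdiff hw.2.1.1 le_rfl)
    omega
  have h1 := hB v σ hv ⟨r, hr⟩
  rw [hr2] at h1 hj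
  refine van_join_sf G t A (Btw e σ (e v)) ?_ a₀ ha hV r hr1 ?_ ?_ h1 j hj
  · intro u hu w hw
    exact hA u hu w (mem_Up.2 (mem_Btw.1 hw).1)
  · intro β hβ hcl
    exact card_le_of_odd h σ r β hcl fun w hw => key w (hβ hw)
  · intro β hβ w hw
    rw [mem_clq] at hβ
    exact exists_col_of_odd h σ r β hβ.2.1 (fun w hw => key w (hβ.1 hw)) hβ.2.2 w (key w hw)

end Pool.Agent.H4.Singer
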