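import Pool.Agent.H4.Singer.AddEven
import Pool.Agent.H4.Singer.VanBtw

/-!
# Singer project: vanishing above the middle, odd case
-/

set_option autoImplicit false
set_option linter.unusedSectionVars false

open Finset

namespace Pool.Agent.H4.Singer

variable {V C α : Type} [DecidableEq V] [Fintype V] [DecidableEq C] [DecidableEq α] {K : Type}
  [Field K] [CharP K 2]

/-- The same with `van_join_sf` and `GoodU` for the start: all faces have at most `2 m + 1`
vertices, `|σ| = 2 s` with `s ≤ m`; conclusion for `j ≥ a₀ + (m - s)`. -/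
theorem van_odd (G : ColGraph V C) (e : V → Finset α) (h : FaceGraph G e) (t : V → K)
    (hB : GoodB G e t) (m : ℕ) (hU : GoodU G e t m) (hdim : ∀ v, (e v).card ≤ 2 * m + 1) (k : ℕ) :
    ∀ (σ : Finset α) (s : ℕ), σ.card = 2 * s → s + k = m →
    ∀ (A : Finset V), (∀ u ∈ A, ∀ v ∈ Up e σ, G.adj u v) → ∀ a₀, 1 ≤ a₀ →
    (∀ j, a₀ ≤ j → Van G t A j) → ∀ j, a₀ + k ≤ j → Van G t (A ∪ Up e σ) j := by
  induction k using Nat.strong_induction_on with
  | _ k ih =>
  intro σ s hs hsk A hA a₀ ha hV
  have hcard : ∀ v, σ ⊂ e v → (e v \ σ).card + 2 * s = (e v).card := by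
    intro v hv
    rw [Finset.card_sdiff_of_subset hv.1, hs]
    have := Finset.card_le_card hv.1
    omega
  refine van_add_even G e h t σ A hA (a₀ + k) (by omega) ?_ ?_
  · intro j hj
    have key : ∀ w ∈ UpOdd e σ, σ ⊂ e w ∧ Odd (e w \ σ).card ∧
        (e w \ σ).card ≤ 2 * (k + 1) := by
      intro w hw
      rw [mem_UpOdd] at hw
      refine ⟨hw.1, hw.2, ?_⟩
      have h1 := hcard w hw.1
      have h2 := hdim w
      omega
    have h1 := hU σ ⟨s, by omega⟩ (by omega)
    have h2 : m + 1 - σ.card / 2 = k + 1 := by omega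
    rw [h2] at h1
    refine van_join_sf G t A (UpOdd e σ) ?_ a₀ ha hV (k + 1) (by omega) ?_ ?_ h1 j (by omega)
    · intro u hu w hw
      exact hA u hu w (mem_Up.2 (mem_UpOdd.1 hw).1)
    · intro β hβ hcl
      exact card_le_of_odd h σ (k + 1) β hcl fun w hw => key w (hβ hw)
    · intro β hβ w hw
      rw [mem_clq] at hβ
      exact exists_col_of_odd h σ (k + 1) β hβ.2.1 (fun w hw => key w (hβ.1 hw)) hβ.2.2 w
        (key w hw)
  · intro v hv hev j hj
    obtain ⟨r, hr⟩ := hev
    have hpos : 0 < (e v \ σ).card := by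
      rw [Finset.card_pos, Finset.sdiff_nonempty]
      exact fun h1 => hv.2 h1
    have hle := hdim v
    have h1 := hcard v hv
    have hr2 : (e v \ σ).card / 2 = r := by omega
    refine ih (k - r) (by omega) (e v) (s + r) (by omega) (by omega) (A ∪ Btw e σ (e v)) ?_
      (a₀ + r - 1) (by omega) ?_ j (by omega)
    · intro u hu w hw
      rw [mem_Up] at hw
      rcases mem_union.1 hu with hu | hu
      · exact hA u hu w (mem_Up.2 (hv.trans hw))
      · exact (h.adj_iff u w).2 (Or.inl ((mem_Btw.1 hu).2.1.trans hw))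
    · intro j hj
      exact van_btw G e h t hB σ v hv ⟨r, hr⟩ A hA a₀ ha hV j (by omega)

end Pool.Agent.H4.Singer
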