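import Pool.Agent.H4.Singer.VanEven
import Pool.Agent.H4.Singer.VanOdd

/-!
# Singer project: vanishing above the middle for generic parameters
-/

set_option autoImplicit false
set_option linter.unusedSectionVars false

open Finset

namespace Pool.Agent.H4.Singer

variable {V C α : Type} [DecidableEq V] [Fintype V] [DecidableEq C] [DecidableEq α] {K : Type}
  [Field K] [CharP K 2]

/-- the empty complex has no homology in positive degrees -/
theorem van_empty (G : ColGraph V C) (t : V → K) (j : ℕ) (hj : 1 ≤ j) : Van G t ∅ j := by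
  intro z hz _
  refine ⟨0, IsChain.zero, ?_⟩
  rw [bd_zero]
  funext σ a
  by_contra hne
  have h1 := hz.supp σ a (fun h => hne (by rw [h]; rfl))
  have h2 : σ = ∅ := Finset.subset_empty.1 h1.1
  have h3 := h1.2.2
  rw [h2, Finset.card_empty] at h3
  omega

theorem van_univ_even (G : ColGraph V C) (e : V → Finset α) (h : FaceGraph G e) (t : V → K)
    (hB : GoodB G e t) (n : ℕ) (hn : Even n) (hdim : ∀ v, (e v).card ≤ n) (j : ℕ)
    (hj : n < 2 * j) : Van G t univ j := by
  have h1 := van_even G e h t hB n ∅ hn (fun v _ => by simpa using hdim v) ∅ (by simp) 1 le_rfl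
    (fun j hj => van_empty G t j hj) j (by omega)
  have h2 : (∅ : Finset V) ∪ Up e ∅ = univ := by
    ext v
    simp only [mem_union, notMem_empty, mem_Up, false_or, mem_univ, iff_true]
    exact Finset.empty_ssubset.2 (h.nonempty v)
  rwa [h2] at h1

theorem van_univ_odd (G : ColGraph V C) (e : V → Finset α) (h : FaceGraph G e) (t : V → K)
    (hB : GoodB G e t) (m : ℕ) (hU : GoodU G e t m) (hdim : ∀ v, (e v).card ≤ 2 * m + 1) (j : ℕ)
    (hj : 2 * m + 1 < 2 * j) : Van G t univ j := by
  have h1 := van_odd G e h t hB m hU hdim m ∅ 0 (by simp) (by simp) ∅ (by simp) 1 le_rfl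
    (fun j hj => van_empty G t j hj) j (by omega)
  have h2 : (∅ : Finset V) ∪ Up e ∅ = univ := by
    ext v
    simp only [mem_union, notMem_empty, mem_Up, false_or, mem_univ, iff_true]
    exact Finset.empty_ssubset.2 (h.nonempty v)
  rwa [h2] at h1

end Pool.Agent.H4.Singer
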