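import Pool.Agent.H4.Singer.Basic

/-!
# Singer project: chains with coefficients in a module, as subspaces
-/

set_option autoImplicit false
set_option linter.unusedSectionVars false

open Finset

namespace Pool.Agent.H4.Singer

section ModLevel

variable {V C : Type} [DecidableEq V] [Fintype V] [DecidableEq C] (K : Type) {R M : Type} [Field K]
  [CommRing R] [Algebra K R] [AddCommGroup M] [Module K M] [Module R M] [IsScalarTower K R M]

/-- chains as a `K`-subspace -/
def ChM (M : Type) [AddCommGroup M] [Module K M] (G : ColGraph V C) (j : ℕ) :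
    Submodule K (Finset V → (C → Bool) → M) where
  carrier := {z | IsChain G univ j z}
  zero_mem' := IsChain.zero
  add_mem' := fun hx hy => hx.add hy
  smul_mem' := fun r _ hx => hx.smul r

/-- the boundary as a `K`-linear map -/
def bdK (G : ColGraph V C) (T : V → R) :
    (Finset V → (C → Bool) → M) →ₗ[K] (Finset V → (C → Bool) → M) where
  toFun := bd G T
  map_add' := bd_add G T
  map_smul' r x := by
    funext τ a
    simp only [bd, Pi.smul_apply, RingHom.id_apply, Finset.smul_sum]
    exact Finset.sum_congr rfl fun v _ => by rw [smul_comm]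

/-- cycles -/
def ZM (G : ColGraph V C) (T : V → R) (j : ℕ) : Submodule K (Finset V → (C → Bool) → M) :=
  ChM K M G j ⊓ LinearMap.ker (bdK K G T)

/-- boundaries -/
def BM (G : ColGraph V C) (T : V → R) (j : ℕ) : Submodule K (Finset V → (C → Bool) → M) :=
  (ChM K M G (j + 1)).map (bdK K G T)

end ModLevel

/-! ## The functions on `ℤ/q` as a module over the polynomial ring -/

section Mq

variable (K : Type) [Field K] (q : ℕ)

/-- functions on `ℤ/q` -/
def Mq : Type := ZMod q → K

instance : AddCommGroup (Mq K q) := inferInstanceAs (AddCommGroup (ZMod q → K))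
instance : Module K (Mq K q) := inferInstanceAs (Module K (ZMod q → K))
instance [NeZero q] : Module.Finite K (Mq K q) := inferInstanceAs (Module.Finite K (ZMod q → K))

/-- the shift -/
def shiftL : Mq K q →ₗ[K] Mq K q where
  toFun f := fun x => f (x - 1)
  map_add' _ _ := rfl
  map_smul' _ _ := rfl

noncomputable instance : Module (Polynomial K) (Mq K q) :=
  Module.compHom (Mq K q) (Polynomial.aeval (shiftL K q)).toRingHom

theorem Mq.smul_def (p : Polynomial K) (f : Mq K q) :
    p • f = Polynomial.aeval (shiftL K q) p f := rfl

instance : IsScalarTower K (Polynomial K) (Mq K q) where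
  smul_assoc r p f := by
    rw [Mq.smul_def, Mq.smul_def, map_smul]
    rfl

theorem Mq.X_pow_smul (k : ℕ) (f : Mq K q) (x : ZMod q) :
    ((Polynomial.X ^ k : Polynomial K) • f) x = f (x - k) := by
  rw [Mq.smul_def, map_pow, Polynomial.aeval_X]
  induction k generalizing x with
  | zero => simp
  | succ k ih =>
    rw [pow_succ', Module.End.mul_apply]
    change ((shiftL K q ^ k) f) (x - 1) = _
    rw [ih]
    congr 1
    push_cast
    ring

end Mq

end Pool.Agent.H4.Singer
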