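import Pool.Agent.H4.Singer.ExactPoly
import Pool.Agent.H4.Singer.ModLevel

/-!
# Singer project: application of `exists_poly_bound` to the chain complexes
-/

set_option autoImplicit false
set_option linter.unusedSectionVars false

open Finset

namespace Pool.Agent.H4.Singer

variable {V C : Type} [DecidableEq V] [Fintype V] [DecidableEq C] [Fintype C] {K : Type} [Field K]

/-- set the colours of `σ` to `false` -/
def ecSet (G : ColGraph V C) (σ : Finset V) (a : C → Bool) : C → Bool :=
  fun c => if c ∈ σ.image G.col then false else a c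

theorem ecSet_insert (G : ColGraph V C) (v : V) (σ : Finset V) (a : C → Bool) :
    ecSet G (insert v σ) a = Function.update (ecSet G σ a) (G.col v) false := by
  funext c
  by_cases hc : c = G.col v
  · subst hc
    simp [ecSet]
  · rw [Function.update_of_ne hc]
    simp [ecSet, hc]

theorem ecSet_empty (G : ColGraph V C) (a : C → Bool) : ecSet G ∅ a = a := by
  funext c
  simp [ecSet]

theorem ecSet_update (G : ColGraph V C) {σ : Finset V} {v : V} (hv : v ∈ σ) (a : C → Bool)
    (b : Bool) : ecSet G σ (Function.update a (G.col v) b) = ecSet G σ a := by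
  funext c
  unfold ecSet
  by_cases hc : c ∈ σ.image G.col
  · rw [if_pos hc, if_pos hc]
  · rw [if_neg hc, if_neg hc, Function.update_of_ne]
    intro h
    exact hc (h ▸ mem_image_of_mem _ hv)

theorem ecSet_idem (G : ColGraph V C) (σ : Finset V) (a : C → Bool) :
    ecSet G σ (ecSet G σ a) = ecSet G σ a := by
  funext c
  unfold ecSet
  by_cases hc : c ∈ σ.image G.col
  · rw [if_pos hc, if_pos hc]
  · rw [if_neg hc]

theorem IsChain.ecSet_eq {M : Type} [AddCommGroup M] {G : ColGraph V C} {U : Finset V} {i : ℕ}
    {z : Finset V → (C → Bool) → M} (hz : IsChain G U i z) (σ : Finset V) (a : C → Bool) :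
    z σ (ecSet G σ a) = z σ a := by
  have h : ∀ s : Finset V, s ⊆ σ → z σ (ecSet G s a) = z σ a := by
    intro s
    induction s using Finset.induction_on with
    | empty => intro _; rw [ecSet_empty]
    | insert v s _ ih =>
      intro hs
      rw [ecSet_insert, hz.indep σ _ v false (hs (mem_insert_self _ _))]
      exact ih fun u hu => hs (mem_insert_of_mem hu)
  exact h σ (Finset.Subset.refl _)

open Classical in
/-- the projection onto the chains of degree `i` -/
noncomputable def ecPrj (K : Type) [Field K] (G : ColGraph V C) (i : ℕ) :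
    Matrix (Finset V × (C → Bool)) (Finset V × (C → Bool)) K :=
  fun p p' => if p' = (p.1, ecSet G p.1 p.2) then (if G.Cl p.1 ∧ p.1.card = i then 1 else 0) else 0

open Classical in
theorem ecPrj_sum (G : ColGraph V C) (i : ℕ) {M : Type} [AddCommGroup M] [Module K M]
    (z : Finset V × (C → Bool) → M) (p : Finset V × (C → Bool)) :
    ∑ j, ecPrj K G i p j • z j =
      if G.Cl p.1 ∧ p.1.card = i then z (p.1, ecSet G p.1 p.2) else 0 := by
  rw [Finset.sum_eq_single (p.1, ecSet G p.1 p.2)]
  · unfold ecPrj
    rw [if_pos rfl]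
    split_ifs
    · rw [one_smul]
    · rw [zero_smul]
  · intro b _ hb
    unfold ecPrj
    rw [if_neg hb, zero_smul]
  · intro h
    exact absurd (mem_univ _) h

theorem ecPrj_fix_iff (G : ColGraph V C) (i : ℕ) {M : Type} [AddCommGroup M] [Module K M]
    (z : Finset V × (C → Bool) → M) :
    (∀ p, ∑ j, ecPrj K G i p j • z j = z p) ↔
      IsChain G univ i (fun σ a => z (σ, a)) := by
  classical
  constructor
  · intro h
    have h1 : ∀ σ a, (if G.Cl σ ∧ σ.card = i then z (σ, ecSet G σ a) else 0) = z (σ, a) := by
      intro σ a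
      rw [← h (σ, a), ecPrj_sum]
    refine ⟨fun σ a hne => ?_, fun σ a v b hv => ?_⟩
    · have h2 := h1 σ a
      by_cases h3 : G.Cl σ ∧ σ.card = i
      · exact ⟨subset_univ _, h3⟩
      · rw [if_neg h3] at h2
        exact absurd h2.symm hne
    · beta_reduce
      rw [← h1 σ a, ← h1 σ (Function.update a (G.col v) b), ecSet_update G hv]
  · intro h p
    rw [ecPrj_sum]
    have h1 := h.ecSet_eq p.1 p.2
    beta_reduce at h1
    rw [h1]
    split_ifs with h2
    · rfl
    · by_contra hne
      have := h.supp p.1 p.2 (fun h0 => hne h0.symm)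
      exact h2 this.2

theorem ecPrj_idem (G : ColGraph V C) (i : ℕ) : ecPrj K G i * ecPrj K G i = ecPrj K G i := by
  classical
  ext p p'
  rw [Matrix.mul_apply]
  have h := ecPrj_sum (K := K) G i (M := K) (fun j => ecPrj K G i j p') p
  simp only [smul_eq_mul] at h
  rw [h]
  unfold ecPrj
  simp only [ecSet_idem]
  by_cases h1 : G.Cl p.1 ∧ p.1.card = i
  · simp [h1]
  · simp [h1]

/-- the matrix of the boundary -/
noncomputable def ecD (K : Type) [Field K] (G : ColGraph V C) :
    Matrix (Finset V × (C → Bool)) (Finset V × (C → Bool)) (MvPolynomial V K) :=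
  fun p p' => ∑ v ∈ (p.1)ᶜ,
    if insert v p.1 = p'.1 ∧ p'.2 = p.2 then wt MvPolynomial.X v (p.2 (G.col v)) else 0

theorem ecD_sum (G : ColGraph V C) {R M : Type} [CommRing R] [AddCommGroup M] [Module R M]
    (φ : MvPolynomial V K →+* R) (T : V → R) (hφ : ∀ v, φ (MvPolynomial.X v) = T v)
    (z : Finset V × (C → Bool) → M) (p : Finset V × (C → Bool)) :
    ∑ j, φ (ecD K G p j) • z j = bd G T (fun σ a => z (σ, a)) p.1 p.2 := by
  have h1 : ∀ j, φ (ecD K G p j) • z j = ∑ v ∈ (p.1)ᶜ,
      if j = (insert v p.1, p.2) then wt T v (p.2 (G.col v)) • z j else 0 := by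
    intro j
    unfold ecD
    rw [map_sum, Finset.sum_smul]
    refine Finset.sum_congr rfl fun v _ => ?_
    have h2 : (insert v p.1 = j.1 ∧ j.2 = p.2) ↔ j = (insert v p.1, p.2) := by
      constructor
      · rintro ⟨h, h'⟩
        exact Prod.ext h.symm h'
      · rintro rfl
        exact ⟨rfl, rfl⟩
    by_cases h3 : j = (insert v p.1, p.2)
    · rw [if_pos h3, if_pos (h2.mpr h3)]
      congr 1
      unfold wt
      split_ifs
      · exact hφ v
      · exact map_one φ
    · rw [if_neg h3, if_neg (fun h => h3 (h2.mp h)), map_zero, zero_smul]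
  simp only [h1]
  rw [Finset.sum_comm]
  unfold bd
  refine Finset.sum_congr rfl fun v _ => ?_
  rw [Finset.sum_ite_eq' univ, if_pos (mem_univ _)]

/-- Apply `exists_poly_bound` with `J = Finset V × (C → Bool)`, functions `z : J → M` being
`fun p => z p.1 p.2`; the projection matrix onto the chains of degree `i` has the entry
`P (σ, a) (σ', a') = 1` if `σ' = σ`, `σ` is a clique with `i` elements and `a'` is `a` with the
colours of `σ` set to `false`, and `0` otherwise; `P'` is the same for `i + 1`; and
`D (τ, a) (σ, a') = ∑ v ∈ τᶜ, if insert v τ = σ ∧ a' = a then wt X v (a (col v)) else 0`. -/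
theorem exists_chain_bound (G : ColGraph V C) (t₀ : V → K) (i : ℕ) (h : Van G t₀ univ i) :
    ∃ p : MvPolynomial V K, MvPolynomial.eval t₀ p ≠ 0 ∧
      ∀ (R M : Type) [CommRing R] [Algebra K R] [AddCommGroup M] [Module K M] [Module R M]
        [IsScalarTower K R M] [Module.Finite K M] (T : V → R),
        Module.finrank K (ZM K (M := M) G T i) ≤ Module.finrank K (BM K (M := M) G T i) +
          Fintype.card (Finset V × (C → Bool)) * Module.finrank K
            (LinearMap.ker (Algebra.lsmul K K M (MvPolynomial.aeval T p))) := by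
  classical
  obtain ⟨p, hp, hmain⟩ := exists_poly_bound (ecPrj K G i) (ecPrj K G (i + 1)) (ecD K G) t₀
    (ecPrj_idem G i) (by
      intro z hz hDz
      have h1 : IsChain G univ i (fun σ a => z (σ, a)) := by
        rw [← ecPrj_fix_iff (K := K)]
        intro q
        exact congrFun hz q
      have h2 : ∀ (z : Finset V × (C → Bool) → K) (q : Finset V × (C → Bool)),
          ((ecD K G).map (MvPolynomial.eval t₀)).mulVec z q =
            bd G t₀ (fun σ a => z (σ, a)) q.1 q.2 := fun z q =>
        ecD_sum G (MvPolynomial.eval t₀) t₀ (fun v => MvPolynomial.eval_X v) z q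
      obtain ⟨y, hy, hyz⟩ := h (fun σ a => z (σ, a)) h1 (by
        funext τ a
        rw [← h2 z (τ, a), hDz]
        rfl)
      refine ⟨fun q => y q.1 q.2, ?_, ?_⟩
      · funext q
        exact (ecPrj_fix_iff (K := K) G (i + 1) (fun q => y q.1 q.2)).mpr hy q
      · funext q
        rw [h2]
        exact congrFun (congrFun hyz q.1) q.2)
  refine ⟨p, hp, ?_⟩
  intro R M _ _ _ _ _ _ _ T
  set e := LinearEquiv.curry K M (Finset V) (C → Bool) with he
  have h3 := hmain R M T ((ZM K (M := M) G T i).comap (e : _ →ₗ[K] _))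
    ((BM K (M := M) G T i).comap (e : _ →ₗ[K] _)) (by
      intro z hz
      rw [Submodule.mem_comap] at hz
      refine ⟨(ecPrj_fix_iff (K := K) G i z).mpr hz.1, fun q => ?_⟩
      have h4 := ecD_sum G (MvPolynomial.aeval T : MvPolynomial V K →ₐ[K] R).toRingHom T
        (fun v => MvPolynomial.aeval_X T v) z q
      refine h4.trans ?_
      have h5 : bd G T (fun σ a => z (σ, a)) = 0 := LinearMap.mem_ker.mp hz.2
      rw [h5]
      rfl) (by
      intro y hy
      rw [Submodule.mem_comap]
      refine Submodule.mem_map.mpr ⟨fun σ a => y (σ, a),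
        (ecPrj_fix_iff (K := K) G (i + 1) y).mp hy, ?_⟩
      funext τ a
      have h4 := ecD_sum G (MvPolynomial.aeval T : MvPolynomial V K →ₐ[K] R).toRingHom T
        (fun v => MvPolynomial.aeval_X T v) y (τ, a)
      exact h4.symm)
  have h6 : ∀ S : Submodule K (Finset V → (C → Bool) → M),
      Module.finrank K (S.comap (e : (Finset V × (C → Bool) → M) →ₗ[K] _)) =
        Module.finrank K S := by
    intro S
    have h7 : S.comap (e : (Finset V × (C → Bool) → M) →ₗ[K] _) = S.map (e.symm : _ →ₗ[K] (Finset V × (C → Bool) → M)) := by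
      ext z
      rw [Submodule.mem_comap, Submodule.mem_map]
      constructor
      · intro hz
        exact ⟨e z, hz, e.symm_apply_apply z⟩
      · rintro ⟨w, hw, rfl⟩
        simpa using hw
    rw [h7]
    exact LinearEquiv.finrank_map_eq e.symm S
  rw [h6, h6] at h3
  exact h3

end Pool.Agent.H4.Singer
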