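import Pool.Agent.H4.Singer.FaceGraph

/-!
# Singer project: adding the faces of even relative size
-/

set_option autoImplicit false
set_option linter.unusedSectionVars false

open Finset

namespace Pool.Agent.H4.Singer

variable {V C α : Type} [DecidableEq V] [Fintype V] [DecidableEq C] [DecidableEq α] {K : Type}
  [Field K] [CharP K 2]

open Classical in
/-- the link of a face of even relative size in the union of `A`, the faces of odd relative size and
an upper closed set `O` of faces of even relative size containing it as a minimal element -/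
private theorem lk_add_even (G : ColGraph V C) (e : V → Finset α) (h : FaceGraph G e)
    (σ : Finset α) (A : Finset V) (hA : ∀ u ∈ A, ∀ v ∈ Up e σ, G.adj u v) (O : Finset V)
    (hO : ∀ v ∈ O, σ ⊂ e v ∧ Even (e v \ σ).card)
    (hup : ∀ v ∈ O, ∀ w, σ ⊂ e w → Even (e w \ σ).card → (e v).card < (e w).card → w ∈ O)
    (v : V) (hv : v ∈ O) (hmin : ∀ u ∈ O, (e v).card ≤ (e u).card) :
    lk G ((A ∪ UpOdd e σ) ∪ O) v = (A ∪ Btw e σ (e v)) ∪ Up e (e v) := by
  have hvσ := (hO v hv).1
  ext u
  simp only [lk, mem_filter, mem_union, mem_UpOdd, mem_Btw, mem_Up]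
  constructor
  · rintro ⟨(hu | ⟨hu1, hu2⟩) | hu, hadj⟩
    · exact Or.inl (Or.inl hu)
    · rcases (h.adj_iff v u).1 hadj with h1 | h1
      · exact Or.inr h1
      · exact Or.inl (Or.inr ⟨hu1, h1, hu2⟩)
    · rcases (h.adj_iff v u).1 hadj with h1 | h1
      · exact Or.inr h1
      · exact absurd (card_lt_card h1) (not_lt.2 (hmin u hu))
  · rintro ((hu | ⟨hu1, hu2, hu3⟩) | hu)
    · exact ⟨Or.inl (Or.inl hu), G.symm u v (hA u hu v (mem_Up.2 hvσ))⟩
    · exact ⟨Or.inl (Or.inr ⟨hu1, hu3⟩), (h.adj_iff v u).2 (Or.inr hu2)⟩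
    · have h1 : σ ⊂ e u := hvσ.trans hu
      refine ⟨?_, (h.adj_iff v u).2 (Or.inl hu)⟩
      rcases Nat.even_or_odd (e u \ σ).card with h2 | h2
      · exact Or.inr (hup v hv u h1 h2 (card_lt_card hu))
      · exact Or.inl (Or.inr ⟨h1, h2⟩)

/-- Proof: add the faces `e v ⊃ σ` with `|e v \ σ|` even to `A ∪ UpOdd e σ` one by one, in
decreasing order of size, and use `van_step`. When `v` is added, its link is
`(A ∪ Btw e σ (e v)) ∪ Up e (e v)`. Precisely: prove by induction on `|O|` that
`Van G t (A ∪ UpOdd e σ ∪ O) j` for `j ≥ N` and all sets `O` of such faces that contain with `v` all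
such faces of larger size; choose `v ∈ O` of minimal size. -/
theorem van_add_even (G : ColGraph V C) (e : V → Finset α) (h : FaceGraph G e) (t : V → K)
    (σ : Finset α) (A : Finset V) (hA : ∀ u ∈ A, ∀ v ∈ Up e σ, G.adj u v) (N : ℕ) (hN : 1 ≤ N)
    (hE : ∀ j, N ≤ j → Van G t (A ∪ UpOdd e σ) j)
    (hL : ∀ v, σ ⊂ e v → Even (e v \ σ).card → ∀ j, N ≤ j + 1 →
      Van G t ((A ∪ Btw e σ (e v)) ∪ Up e (e v)) j) :
    ∀ j, N ≤ j → Van G t (A ∪ Up e σ) j := by
  classical
  have key : ∀ (m : ℕ) (O : Finset V), O.card = m →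
      (∀ v ∈ O, σ ⊂ e v ∧ Even (e v \ σ).card) →
      (∀ v ∈ O, ∀ w, σ ⊂ e w → Even (e w \ σ).card → (e v).card < (e w).card → w ∈ O) →
      ∀ j, N ≤ j → Van G t ((A ∪ UpOdd e σ) ∪ O) j := by
    intro m
    induction m with
    | zero =>
      intro O hc _ _ j hj
      rw [card_eq_zero.1 hc, union_empty]
      exact hE j hj
    | succ m ih =>
      intro O hc hO hup j hj
      have hne : O.Nonempty := card_pos.1 (by omega)
      obtain ⟨v, hv, hmin⟩ := exists_min_image O (fun u => (e u).card) hne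
      have hvσ := (hO v hv).1
      have hlk := lk_add_even G e h σ A hA O hO hup v hv hmin
      have hvA : v ∉ A := fun hmem => G.irrefl v (hA v hmem v (mem_Up.2 hvσ))
      have hvU : v ∉ UpOdd e σ := fun hmem => by
        rw [mem_UpOdd] at hmem
        exact (Nat.not_even_iff_odd.2 hmem.2) (hO v hv).2
      have herase : ((A ∪ UpOdd e σ) ∪ O).erase v = (A ∪ UpOdd e σ) ∪ O.erase v := by
        ext u
        simp only [mem_erase, mem_union]
        constructor
        · rintro ⟨h1, h2 | h2⟩
          · exact Or.inl h2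
          · exact Or.inr ⟨h1, h2⟩
        · rintro (h2 | ⟨h1, h2⟩)
          · refine ⟨fun h3 => ?_, Or.inl h2⟩
            rw [h3] at h2
            rcases h2 with h2 | h2
            · exact hvA h2
            · exact hvU h2
          · exact ⟨h1, Or.inr h2⟩
      have h1 := ih (O.erase v) (by rw [card_erase_of_mem hv]; omega)
        (fun u hu => hO u (mem_of_mem_erase hu))
        (fun u hu w hw1 hw2 hw3 => mem_erase.2 ⟨fun h3 => by
          have h4 := hmin u (mem_of_mem_erase hu)
          rw [h3] at hw3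
          omega, hup u (mem_of_mem_erase hu) w hw1 hw2 hw3⟩) j hj
      obtain ⟨i, rfl⟩ : ∃ i, j = i + 1 := ⟨j - 1, by omega⟩
      apply van_step G t _ v (mem_union_right _ hv) i
      · rw [herase]
        exact h1
      · rw [hlk]
        exact hL v hvσ (hO v hv).2 i hj
  intro j hj
  have h1 := key _ (univ.filter fun v => σ ⊂ e v ∧ Even (e v \ σ).card) rfl
    (fun v hv => (mem_filter.1 hv).2)
    (fun v _ w hw1 hw2 _ => mem_filter.2 ⟨mem_univ _, hw1, hw2⟩) j hj
  have h2 : (A ∪ UpOdd e σ) ∪ (univ.filter fun v => σ ⊂ e v ∧ Even (e v \ σ).card) =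
      A ∪ Up e σ := by
    ext u
    simp only [mem_union, mem_UpOdd, mem_Up, mem_filter, mem_univ, true_and]
    constructor
    · rintro ((h3 | h3) | h3)
      · exact Or.inl h3
      · exact Or.inr h3.1
      · exact Or.inr h3.1
    · rintro (h3 | h3)
      · exact Or.inl (Or.inl h3)
      · rcases Nat.even_or_odd (e u \ σ).card with h4 | h4
        · exact Or.inr ⟨h3, h4⟩
        · exact Or.inl (Or.inr ⟨h3, h4⟩)
  rwa [h2] at h1

end Pool.Agent.H4.Singer
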