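import Pool.Agent.H4.Singer.XStep

/-!
# Singer project: generic stress-freeness of the flags of odd size of shellable complexes
-/

set_option autoImplicit false
set_option linter.unusedSectionVars false

open Finset

namespace Pool.Agent.H4.Singer

variable {α : Type} [DecidableEq α] [Fintype α] {K : Type} [Field K] [Infinite K]

theorem oddFlags_stressFree_base (𝓕 : Finset (Finset α)) (ord : Finset α → ℕ)
    (hsh : Shelling 1 𝓕 ord) (hr : Ridge2 1 𝓕) :
    ∃ t : Finset α → K, StressFree t (OddFlags 0 𝓕) := by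
  classical
  obtain ⟨t, ht⟩ : ∃ t : Finset α → K, Function.Injective t :=
    ⟨fun S => Infinite.natEmbedding K (Fintype.equivFin (Finset α) S : ℕ), fun a b hab => by
      have h1 := (Infinite.natEmbedding K).injective hab
      exact (Fintype.equivFin (Finset α)).injective (Fin.ext h1)⟩
  refine ⟨t, fun z hz => ?_⟩
  by_contra hne
  obtain ⟨φ, hφ⟩ : ∃ φ, z φ ≠ 0 := by
    by_contra h
    push Not at h
    exact hne (funext h)
  -- the support consists of singletons of facets
  have key : ∀ ψ, z ψ ≠ 0 → ∃ F ∈ 𝓕, ψ = {F} := by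
    intro ψ hψ
    have h1 := hz.supp ψ hψ
    simp only [OddFlags, mem_filter, mem_univ, true_and, zero_add] at h1
    obtain ⟨h2, h3, h4⟩ := h1
    obtain ⟨S, rfl⟩ := card_eq_one.mp h2
    obtain ⟨F, hF, hSF⟩ := h4 S (mem_singleton_self S)
    have h5 := h3.2 S (mem_singleton_self S)
    have h6 := card_le_card hSF
    rw [hsh.card F hF] at h6
    have h7 : F.card ≤ S.card := by
      rw [hsh.card F hF]
      rcases h5 with ⟨k, hk⟩
      omega
    have h8 := eq_of_subset_of_card_le hSF h7
    exact ⟨F, hF, by rw [h8]⟩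
  obtain ⟨F, hF, rfl⟩ := key φ hφ
  have h𝓕 : 𝓕.card ≤ 2 := by
    have := hr ∅ (by simp)
    simpa using this
  have hc : ∃ c : K, c ≠ t F ∧ ∀ G ∈ 𝓕, G ≠ F → t G = c := by
    have h1 : (𝓕.erase F).card ≤ 1 := by
      rw [card_erase_of_mem hF]
      omega
    rcases (𝓕.erase F).eq_empty_or_nonempty with h2 | ⟨F', h2⟩
    · refine ⟨t F + 1, fun h => ?_, fun G hG hGF => ?_⟩
      · exact one_ne_zero (α := K) (by linear_combination h)
      · exact absurd (mem_erase.mpr ⟨hGF, hG⟩) (by rw [h2]; exact notMem_empty G)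
    · refine ⟨t F', fun h => ?_, fun G hG hGF => ?_⟩
      · exact (mem_erase.mp h2).1 (ht h)
      · rw [card_le_one.mp h1 G (mem_erase.mpr ⟨hGF, hG⟩) F' h2]
  obtain ⟨c, hc1, hc2⟩ := hc
  have s1 := hz.sum ∅
  have s2 := hz.wsum ∅
  have s3 : ∑ v ∈ (∅ : Finset (Finset α))ᶜ, (t v - c) * z (insert v ∅) = 0 := by
    simp only [sub_mul, sum_sub_distrib, ← mul_sum]
    rw [s2, s1]
    simp
  rw [sum_eq_single F] at s3
  · rcases mul_eq_zero.mp s3 with h | h
    · exact hc1 (sub_eq_zero.mp h).symm
    · exact hφ (by simpa using h)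
  · intro v _ hv
    by_cases h : z (insert v ∅) = 0
    · rw [h, mul_zero]
    · obtain ⟨G, hG, hGv⟩ := key _ h
      have h1 : v = G := by
        have : ({v} : Finset (Finset α)) = {G} := by simpa using hGv
        exact singleton_injective this
      subst h1
      rw [hc2 v hG hv]
      simp
  · intro h
    simp at h

theorem xf_full (m : ℕ) (𝓕 : Finset (Finset α)) (t : Finset α → K) :
    StressFree t (Xf m 𝓕 𝓕) := by
  classical
  intro z hz
  by_contra hne
  obtain ⟨φ, hφ⟩ : ∃ φ, z φ ≠ 0 := by
    by_contra h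
    push Not at h
    exact hne (funext h)
  have key : ∀ ψ, z ψ ≠ 0 → ∃ F ∈ 𝓕, ∃ ρ ∈ LFl m F, insert ∅ ρ = ψ := by
    intro ψ hψ
    rcases mem_Xf.mp (hz.supp ψ hψ) with ⟨F, h1, h2, _⟩ | h
    · exact absurd h1 h2
    · exact h
  obtain ⟨F, hF, ρ, hρ, rfl⟩ := key φ hφ
  have hempty : (∅ : Finset α) ∉ ρ := by
    intro h
    have := (mem_LFl.mp hρ).2.1.2 ∅ h
    simp at this
  have s1 := hz.sum ρ
  rw [sum_eq_single ∅] at s1
  · exact hφ s1
  · intro v hv hv0
    by_contra h
    obtain ⟨G, hG, ρ', hρ', h1⟩ := key _ h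
    have h2 : (∅ : Finset α) ∈ insert v ρ := by
      rw [← h1]
      exact mem_insert_self _ _
    rcases mem_insert.mp h2 with h3 | h3
    · exact hv0 h3.symm
    · exact hempty h3
  · intro h
    exact absurd (mem_compl.mpr hempty) h

theorem oddFlags_subset_xf (m : ℕ) (𝓕 : Finset (Finset α)) (ord : Finset α → ℕ)
    (hsh : Shelling (2 * m + 3) 𝓕 ord) : OddFlags (m + 1) 𝓕 ⊆ Xf (m + 1) 𝓕 ∅ := by
  classical
  intro φ hφ
  simp only [OddFlags, mem_filter, mem_univ, true_and] at hφ
  obtain ⟨h2, h3, h4⟩ := hφ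
  obtain ⟨S, hS, hSc, hSt⟩ := exists_top (m := m + 1) h3 h2 (fun S hS => by
    obtain ⟨F, hF, hSF⟩ := h4 S hS
    have := card_le_card hSF
    rw [hsh.card F hF] at this
    omega)
  obtain ⟨F, hF, hSF⟩ := h4 S hS
  have h8 := eq_of_subset_of_card_le hSF (by rw [hsh.card F hF]; omega)
  subst h8
  refine mem_Xf.mpr (Or.inl ⟨S, hF, notMem_empty S, φ.erase S, mem_LFl.mpr ⟨?_, ?_, ?_⟩, ?_⟩)
  · rw [card_erase_of_mem hS, h2]
    rfl
  · exact ⟨fun A hA B hB => h3.1 A (mem_of_mem_erase hA) B (mem_of_mem_erase hB),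
      fun A hA => h3.2 A (mem_of_mem_erase hA)⟩
  · intro A hA
    exact (hSt A (mem_of_mem_erase hA)).ssubset_of_ne (ne_of_mem_erase hA)
  · exact insert_erase hS

/-- **Theorem A.** Proof: induction on `m`. For `m = 0` there are at most two facets (`Ridge2` with
`R = ∅`), and distinct parameters do. For `m + 1`: `Xf (m + 1) 𝓕 𝓕` is stress-free for all
parameters (the stress condition at the lower flag `ρ` is `z (insert ∅ ρ) = 0`); remove the facets
from `𝓑` one by one with `xstep` (in decreasing order of `ord`) to arrive at `Xf (m + 1) 𝓕 ∅`,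
which contains `OddFlags (m + 1) 𝓕`. The hypothesis `hY` of `xstep` is the induction hypothesis
with `yf_shelling`, `yf_ridge2`. -/
theorem oddFlags_stressFree (m : ℕ) (𝓕 : Finset (Finset α)) (ord : Finset α → ℕ)
    (hsh : Shelling (2 * m + 1) 𝓕 ord) (hr : Ridge2 (2 * m + 1) 𝓕) :
    ∃ t : Finset α → K, StressFree t (OddFlags m 𝓕) := by
  classical
  induction m generalizing 𝓕 ord with
  | zero => exact oddFlags_stressFree_base 𝓕 ord hsh hr
  | succ m ih =>
    have e1 : 2 * (m + 1) + 1 = 2 * m + 3 := by ring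
    rw [e1] at hsh hr
    have hY : ∀ J E : Finset α, Disjoint J E → J.card + E.card = 2 * m + 3 →
        ∃ t : Finset α → K, StressFree t (OddFlags m (Yf J E)) := by
      intro J E hd hJE
      obtain ⟨ord', hord'⟩ := yf_shelling J E hd (2 * m + 1) (by omega)
      exact ih (Yf J E) ord' hord' (yf_ridge2 J E hd (2 * m + 1) (by omega))
    obtain ⟨N, hN⟩ : ∃ N, ∀ F ∈ 𝓕, ord F < N :=
      ⟨𝓕.sup ord + 1, fun F hF => Nat.lt_succ_of_le (le_sup hF)⟩
    have main : ∀ j, j ≤ N →
        ∃ t : Finset α → K, StressFree t (Xf (m + 1) 𝓕 (𝓕.filter fun F => ord F < N - j)) := by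
      intro j
      induction j with
      | zero =>
        intro _
        have : (𝓕.filter fun F => ord F < N - 0) = 𝓕 := by
          rw [filter_eq_self]
          intro F hF
          simpa using hN F hF
        rw [this]
        exact ⟨0, xf_full (m + 1) 𝓕 0⟩
      | succ j ihj =>
        intro hj
        have h0 := ihj (by omega)
        set k := N - (j + 1) with hk
        have hk1 : N - j = k + 1 := by omega
        rw [hk1] at h0
        by_cases hF : ∃ F ∈ 𝓕, ord F = k
        · obtain ⟨F, hF, hFk⟩ := hF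
          have hset : (𝓕.filter fun G => ord G < k) =
              (𝓕.filter fun G => ord G < k + 1).erase F := by
            ext G
            simp only [mem_filter, mem_erase]
            constructor
            · rintro ⟨h1, h2⟩
              exact ⟨fun h => by rw [h, hFk] at h2; exact lt_irrefl _ h2, h1, by omega⟩
            · rintro ⟨h1, h2, h3⟩
              refine ⟨h2, ?_⟩
              by_contra h4
              have h5 : ord G = ord F := by omega
              exact h1 (hsh.inj G h2 F hF h5)
          rw [hset]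
          refine xstep m 𝓕 _ ord hsh hr (filter_subset _ _) ?_ F ?_ ?_ hY h0
          · intro G hG G' hG' hle
            rw [mem_filter] at hG ⊢
            exact ⟨hG', by omega⟩
          · rw [mem_filter]
            exact ⟨hF, by omega⟩
          · intro G hG
            rw [mem_filter] at hG
            omega
        · have hset : (𝓕.filter fun G => ord G < k) = 𝓕.filter fun G => ord G < k + 1 := by
            ext G
            simp only [mem_filter]
            constructor
            · rintro ⟨h1, h2⟩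
              exact ⟨h1, by omega⟩
            · rintro ⟨h1, h2⟩
              refine ⟨h1, ?_⟩
              by_contra h4
              exact hF ⟨G, h1, by omega⟩
          rw [hset]
          exact h0
    obtain ⟨t, ht⟩ := main N le_rfl
    have hempty : (𝓕.filter fun F => ord F < N - N) = ∅ := by
      rw [filter_eq_empty_iff]
      intro F _
      omega
    rw [hempty] at ht
    exact ⟨t, ht.mono (oddFlags_subset_xf m 𝓕 ord hsh)⟩

end Pool.Agent.H4.Singer
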