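import Pool.Agent.H4.Singer.FaceGraph
import Pool.Agent.H4.Singer.TheoremA

/-!
# Singer project: stress-freeness of the odd flags of simplex boundaries
-/

set_option autoImplicit false
set_option linter.unusedSectionVars false

open Finset

namespace Pool.Agent.H4.Singer

variable {V C α : Type} [DecidableEq V] [Fintype V] [DecidableEq C] [DecidableEq α] [Fintype α]
  {K : Type} [Field K] [Infinite K]

theorem btw_image_mem (G : ColGraph V C) (e : V → Finset α) (h : FaceGraph G e) (v : V)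
    (σ : Finset α) (m : ℕ) (φ : Finset V) (hφ : φ ⊆ Btw e σ (e v)) (hcl : G.Cl φ)
    (hinj : Set.InjOn (fun w => e w \ σ) (Btw e σ (e v) : Finset V)) (hcard : φ.card = m + 1) :
    φ.image (fun w => e w \ σ) ∈ OddFlags m (Sf (e v \ σ)) := by
  classical
  simp only [OddFlags, mem_filter, mem_univ, true_and]
  refine ⟨?_, ⟨?_, ?_⟩, ?_⟩
  · rw [card_image_of_injOn (hinj.mono (by exact_mod_cast hφ)), hcard]
  · intro S hS S' hS'
    obtain ⟨w, hw, rfl⟩ := mem_image.mp hS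
    obtain ⟨w', hw', rfl⟩ := mem_image.mp hS'
    by_cases hww : w = w'
    · exact Or.inl (by rw [hww])
    · rcases (h.adj_iff w w').mp (hcl w hw w' hw' hww) with h1 | h1
      · exact Or.inl (sdiff_subset_sdiff h1.1 (Subset.refl σ))
      · exact Or.inr (sdiff_subset_sdiff h1.1 (Subset.refl σ))
  · intro S hS
    obtain ⟨w, hw, rfl⟩ := mem_image.mp hS
    exact (mem_Btw.mp (hφ hw)).2.2
  · intro S hS
    obtain ⟨w, hw, rfl⟩ := mem_image.mp hS
    obtain ⟨h1, h2, h3⟩ := mem_Btw.mp (hφ hw)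
    obtain ⟨x, hx, hxw⟩ := exists_of_ssubset h2
    refine ⟨(e v \ σ).erase x, ?_, ?_⟩
    · unfold Sf
      exact mem_image.mpr ⟨x, mem_sdiff.mpr ⟨hx, fun hxσ => hxw (h1.1 hxσ)⟩, rfl⟩
    · intro y hy
      obtain ⟨hy1, hy2⟩ := mem_sdiff.mp hy
      refine mem_erase.mpr ⟨fun hyx => hxw (hyx ▸ hy1), mem_sdiff.mpr ⟨h2.1 hy1, hy2⟩⟩

/-- Each single family: `stressFree_comap` for `ι w = e w \ σ`, `U = Btw e σ (e v)`, from
`oddFlags_stressFree` for the facets `Sf (e v \ σ)` (`sf_shelling`, `sf_ridge2`). -/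
theorem btw_stressFree (G : ColGraph V C) (e : V → Finset α) (h : FaceGraph G e) (v : V)
    (σ : Finset α) (hσ : σ ⊂ e v) (hev : Even (e v \ σ).card) :
    ∃ t : V → K, StressFree t (clq G (Btw e σ (e v)) ((e v \ σ).card / 2)) := by
  classical
  have hpos : 0 < (e v \ σ).card := by
    rw [card_pos]
    obtain ⟨x, hx, hxσ⟩ := exists_of_ssubset hσ
    exact ⟨x, mem_sdiff.mpr ⟨hx, hxσ⟩⟩
  obtain ⟨m, hm⟩ : ∃ m, (e v \ σ).card = 2 * m + 1 + 1 := by
    obtain ⟨k, hk⟩ := hev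
    exact ⟨k - 1, by omega⟩
  obtain ⟨ord, hord⟩ := sf_shelling (e v \ σ) (2 * m + 1) hm
  obtain ⟨t, ht⟩ := oddFlags_stressFree (K := K) m (Sf (e v \ σ)) ord hord
    (sf_ridge2 (e v \ σ) (2 * m + 1) hm)
  have hr : (e v \ σ).card / 2 = m + 1 := by omega
  rw [hr]
  have hinj : Set.InjOn (fun w => e w \ σ) (Btw e σ (e v) : Finset V) := by
    intro w hw w' hw' hww
    have h1 := (mem_Btw.mp (mem_coe.mp hw)).1.1
    have h2 := (mem_Btw.mp (mem_coe.mp hw')).1.1
    apply h.inj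
    have h3 : e w \ σ = e w' \ σ := hww
    rw [← sdiff_union_of_subset h1, ← sdiff_union_of_subset h2, h3]
  refine ⟨fun w => t (e w \ σ), stressFree_comap (fun w => e w \ σ) (Btw e σ (e v)) hinj _
    (OddFlags m (Sf (e v \ σ))) ?_ t ht⟩
  intro φ hφ
  obtain ⟨h1, h2, h3⟩ := mem_clq.mp hφ
  exact ⟨h1, btw_image_mem G e h v σ m φ h1 h2 hinj h3⟩

end Pool.Agent.H4.Singer
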