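import Mathlib

/-!
# Singer project: closed links
-/

set_option autoImplicit false

open Finset

namespace Pool.Agent.H4.Singer

private lemma covered_le {β : Type} [DecidableEq β] (E : Finset (Finset β)) (ord : Finset β → ℕ)
    (hinj : ∀ e ∈ E, ∀ e' ∈ E, ord e = ord e' → e = e')
    (hcard : ∀ e ∈ E, e.card = 2)
    (hconn : ∀ e ∈ E, ∀ e' ∈ E, ord e' < ord e →
      ∃ e'' ∈ E, ord e'' < ord e ∧ (e'' ∩ e).Nonempty) (m : ℕ) :
    ∀ D : Finset (Finset β), D ⊆ E → (∀ e ∈ D, ∀ e' ∈ E, ord e' < ord e → e' ∈ D) →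
      D.card = m + 1 → (D.biUnion id).card ≤ D.card + 1 := by
  induction m with
  | zero =>
    intro D hD _ hc
    obtain ⟨e, rfl⟩ := Finset.card_eq_one.1 hc
    rw [Finset.singleton_biUnion]
    have := hcard e (hD (Finset.mem_singleton_self e))
    simp [this]
  | succ m ih =>
    intro D hD hini hc
    obtain ⟨e, heD, hemax⟩ := Finset.exists_max_image D ord
      (Finset.card_pos.1 (by omega))
    have hc' : (D.erase e).card = m + 1 := by
      rw [Finset.card_erase_of_mem heD]
      omega
    have hini' : ∀ e₁ ∈ D.erase e, ∀ e₂ ∈ E, ord e₂ < ord e₁ → e₂ ∈ D.erase e := by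
      intro e₁ h1 e₂ h2 h12
      refine Finset.mem_erase.2 ⟨?_, hini e₁ (Finset.mem_of_mem_erase h1) e₂ h2 h12⟩
      rintro rfl
      have := hemax e₁ (Finset.mem_of_mem_erase h1)
      omega
    have hih := ih (D.erase e) ((Finset.erase_subset _ _).trans hD) hini' hc'
    obtain ⟨e', he'⟩ := Finset.card_pos.1 (by rw [hc']; omega : 0 < (D.erase e).card)
    have he'D := Finset.mem_of_mem_erase he'
    have hlt : ord e' < ord e := by
      refine lt_of_le_of_ne (hemax e' he'D) fun h => ?_
      exact (Finset.mem_erase.1 he').1 (hinj e' (hD he'D) e (hD heD) h)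
    obtain ⟨e'', he'', h1, x, hx⟩ := hconn e (hD heD) e' (hD he'D) hlt
    have he''D : e'' ∈ D.erase e := by
      refine Finset.mem_erase.2 ⟨?_, hini e heD e'' he'' h1⟩
      rintro rfl
      exact lt_irrefl _ h1
    have hsub : D.biUnion id ⊆ (D.erase e).biUnion id ∪ e.erase x := by
      intro y hy
      obtain ⟨a, ha, hya⟩ := Finset.mem_biUnion.1 hy
      by_cases hae : a = e
      · by_cases hyx : y = x
        · refine Finset.mem_union_left _ (Finset.mem_biUnion.2 ⟨e'', he''D, ?_⟩)
          rw [hyx]
          exact (Finset.mem_inter.1 hx).1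
        · refine Finset.mem_union_right _ (Finset.mem_erase.2 ⟨hyx, ?_⟩)
          rw [← hae]
          exact hya
      · exact Finset.mem_union_left _ (Finset.mem_biUnion.2 ⟨a, Finset.mem_erase.2 ⟨hae, ha⟩, hya⟩)
    have h2 : (e.erase x).card = 1 := by
      rw [Finset.card_erase_of_mem (Finset.mem_inter.1 hx).2, hcard e (hD heD)]
    calc (D.biUnion id).card ≤ ((D.erase e).biUnion id ∪ e.erase x).card :=
          Finset.card_le_card hsub
      _ ≤ ((D.erase e).biUnion id).card + (e.erase x).card := Finset.card_union_le _ _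
      _ ≤ D.card + 1 := by omega

/-- A graph (edges = two-element sets) whose edges are added one after another, each new edge (except
the first) meeting an earlier edge, all degrees at most two, such that the last edge `f` has both
end points on earlier edges: then all degrees are exactly two (a path that closes up to a cycle).

Proof: for a nonempty initial segment `D` of `E` the number of vertices covered by `D` is at most
`|D| + 1` (induction on `|D|`, removing the element of maximal `ord`). For `D = E.erase f` this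
gives: the number `v` of vertices covered by `E` equals that covered by `E.erase f`, so
`v ≤ |E|`. The sum of the degrees is `2 |E|` and all degrees are at most `2`, so
`2 |E| ≤ 2 v ≤ 2 |E|` and all degrees (of covered vertices) equal `2`. -/
theorem closed_link {β : Type} [DecidableEq β] (E : Finset (Finset β)) (ord : Finset β → ℕ)
    (hinj : ∀ e ∈ E, ∀ e' ∈ E, ord e = ord e' → e = e')
    (hcard : ∀ e ∈ E, e.card = 2)
    (hconn : ∀ e ∈ E, ∀ e' ∈ E, ord e' < ord e →
      ∃ e'' ∈ E, ord e'' < ord e ∧ (e'' ∩ e).Nonempty)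
    (hdeg : ∀ x, (E.filter fun e => x ∈ e).card ≤ 2)
    (f : Finset β) (hf : f ∈ E) (hmax : ∀ e ∈ E, ord e ≤ ord f)
    (hcov : ∀ x ∈ f, ∃ e ∈ E, ord e < ord f ∧ x ∈ e) :
    ∀ x, (∃ e ∈ E, x ∈ e) → (E.filter fun e => x ∈ e).card = 2 := by
  classical
  obtain ⟨x₀, hx₀⟩ : f.Nonempty := Finset.card_pos.1 (by rw [hcard f hf]; omega)
  obtain ⟨e₀, he₀, he₀f, -⟩ := hcov x₀ hx₀
  have hmemne : ∀ e ∈ E, ord e < ord f → e ∈ E.erase f := by
    intro e he h
    refine Finset.mem_erase.2 ⟨?_, he⟩
    rintro rfl
    exact lt_irrefl _ h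
  have hcE : (E.erase f).card + 1 = E.card := Finset.card_erase_add_one hf
  have hpos : 0 < (E.erase f).card := Finset.card_pos.2 ⟨e₀, hmemne e₀ he₀ he₀f⟩
  have hle := covered_le E ord hinj hcard hconn ((E.erase f).card - 1) (E.erase f)
    (Finset.erase_subset _ _)
    (by
      intro e he e' he' h
      refine Finset.mem_erase.2 ⟨?_, he'⟩
      rintro rfl
      have := hmax e (Finset.mem_of_mem_erase he)
      omega) (by omega)
  have hV : E.biUnion id = (E.erase f).biUnion id := by
    apply Finset.Subset.antisymm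
    · intro y hy
      obtain ⟨a, ha, hya⟩ := Finset.mem_biUnion.1 hy
      by_cases haf : a = f
      · obtain ⟨e, he, h1, h2⟩ := hcov y (by rw [← haf]; exact hya)
        exact Finset.mem_biUnion.2 ⟨e, hmemne e he h1, h2⟩
      · exact Finset.mem_biUnion.2 ⟨a, Finset.mem_erase.2 ⟨haf, ha⟩, hya⟩
    · exact Finset.biUnion_subset_biUnion_of_subset_left _ (Finset.erase_subset _ _)
  have hv : (E.biUnion id).card ≤ E.card := by
    rw [hV]
    omega
  have hsum : ∑ x ∈ E.biUnion id, (E.filter fun e => x ∈ e).card = ∑ e ∈ E, 2 := by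
    have h1 := Finset.sum_card_bipartiteAbove_eq_sum_card_bipartiteBelow
      (s := E.biUnion id) (t := E) (fun (x : β) (e : Finset β) => x ∈ e)
    refine Eq.trans h1 (Finset.sum_congr rfl fun e he => ?_)
    rw [← hcard e he]
    congr 1
    ext y
    simp only [Finset.bipartiteBelow, Finset.mem_filter]
    constructor
    · exact fun h => h.2
    · exact fun h => ⟨Finset.mem_biUnion.2 ⟨e, he, h⟩, h⟩
  have hall : ∀ x ∈ E.biUnion id, (E.filter fun e => x ∈ e).card = 2 := by
    have h2 : ∑ x ∈ E.biUnion id, (E.filter fun e => x ∈ e).card = ∑ x ∈ E.biUnion id, 2 := by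
      apply le_antisymm
      · exact Finset.sum_le_sum fun x _ => hdeg x
      · rw [hsum, Finset.sum_const, Finset.sum_const, smul_eq_mul, smul_eq_mul]
        omega
    exact (Finset.sum_eq_sum_iff_of_le fun x _ => hdeg x).1 h2
  rintro x ⟨e, he, hx⟩
  exact hall x (Finset.mem_biUnion.2 ⟨e, he, hx⟩)

end Pool.Agent.H4.Singer
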