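import Pool.Agent.H4.Singer.ActBasic

/-!
# Singer project: isomorphisms and disjoint copies
-/

set_option autoImplicit false
set_option linter.unusedSectionVars false

open Finset

namespace Pool.Agent.H4.Singer

variable {V C : Type} [DecidableEq V] [Fintype V] [DecidableEq C] {G : ColGraph V C}
  {F : Type} [Field F]

/-- the Betti numbers only depend on the involutions, up to isomorphism -/
theorem bet_equiv {Ω Ω' : Type} (X : InvAct G Ω) (X' : InvAct G Ω') (ν : V → ℕ) (i : ℕ)
    (θ : Ω ≃ Ω') (h : ∀ v ω, θ (X.s v ω) = X'.s v (θ ω)) : bet F X ν i = bet F X' ν i := by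
  let Φ : (Finset V → Ω → F) ≃ₗ[F] (Finset V → Ω' → F) :=
    LinearEquiv.piCongrRight (fun _ => LinearEquiv.funCongrLeft F F θ.symm)
  have hΦ : ∀ f σ ω', Φ f σ ω' = f σ (θ.symm ω') := fun _ _ _ => rfl
  have h' : ∀ v ω, θ.symm (X'.s v ω) = X.s v (θ.symm ω) := by
    intro v ω
    rw [Equiv.symm_apply_eq, h, Equiv.apply_symm_apply]
  have hCh : ∀ j f, Φ f ∈ Ch F X' j ↔ f ∈ Ch F X j := by
    intro j f
    rw [mem_Ch, mem_Ch]
    constructor
    · rintro ⟨h1, h2⟩
      refine ⟨fun σ ω hne => h1 σ (θ ω) ?_, fun σ v hv ω => ?_⟩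
      · rw [hΦ, Equiv.symm_apply_apply]; exact hne
      · have := h2 σ v hv (θ ω)
        rw [hΦ, hΦ, h', Equiv.symm_apply_apply] at this
        exact this
    · rintro ⟨h1, h2⟩
      refine ⟨fun σ ω hne => h1 σ (θ.symm ω) hne, fun σ v hv ω => ?_⟩
      rw [hΦ, hΦ, h']
      exact h2 σ v hv _
  have hdl : ∀ f, dl F ν (Φ f) = Φ (dl F ν f) := by
    intro f
    funext σ ω
    rw [hΦ, dl_apply, dl_apply]
    rfl
  have hZ : Zc F X' ν i = (Zc F X ν i).map (Φ : (Finset V → Ω → F) →ₗ[F] _) := by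
    ext g
    constructor
    · intro hg
      refine ⟨Φ.symm g, ?_, Φ.apply_symm_apply g⟩
      refine ⟨(hCh i _).1 (by rw [Φ.apply_symm_apply]; exact hg.1), ?_⟩
      show dl F ν (Φ.symm g) = 0
      apply Φ.injective
      rw [← hdl, Φ.apply_symm_apply, map_zero]
      exact hg.2
    · rintro ⟨f, hf, rfl⟩
      refine ⟨(hCh i f).2 hf.1, ?_⟩
      show dl F ν (Φ f) = 0
      rw [hdl, show dl F ν f = 0 from hf.2, map_zero]
  have hB : Bc F X' ν i = (Bc F X ν i).map (Φ : (Finset V → Ω → F) →ₗ[F] _) := by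
    ext g
    constructor
    · rintro ⟨f, hf, rfl⟩
      refine ⟨dl F ν (Φ.symm f), ⟨Φ.symm f, ?_, rfl⟩, ?_⟩
      · exact (hCh (i + 1) _).1 (by rw [Φ.apply_symm_apply]; exact hf)
      · show Φ (dl F ν (Φ.symm f)) = dl F ν f
        rw [← hdl, Φ.apply_symm_apply]
    · rintro ⟨_, ⟨f, hf, rfl⟩, rfl⟩
      exact ⟨Φ f, (hCh (i + 1) f).2 hf, hdl f⟩
  unfold bet
  rw [hZ, hB, LinearEquiv.finrank_map_eq, LinearEquiv.finrank_map_eq]

/-- `|Y|` disjoint copies of `Ω` -/
def copies {Ω : Type} (X : InvAct G Ω) (Y : Type) : InvAct G (Ω × Y) where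
  s v p := (X.s v p.1, p.2)
  invol v p := by simp [X.invol]
  comm u v h p := by simp [X.comm u v h]
  bit p := X.bit p.1
  bit_s v p := X.bit_s v p.1

/-- the restriction to one copy -/
private def slice {Ω Y : Type} (y : Y) (f : Finset V → Ω × Y → F) : Finset V → Ω → F :=
  fun σ ω => f σ (ω, y)

private theorem finrank_slices {Ω : Type} [Fintype Ω] {Y : Type} [Fintype Y]
    (S : Submodule F (Finset V → Ω × Y → F)) (T : Submodule F (Finset V → Ω → F))
    (h : ∀ f, f ∈ S ↔ ∀ y, slice y f ∈ T) :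
    Module.finrank F S = Fintype.card Y * Module.finrank F T := by
  let e : S ≃ₗ[F] (Y → T) :=
    { toFun := fun f y => ⟨slice y f.1, (h f.1).1 f.2 y⟩
      map_add' := fun f g => rfl
      map_smul' := fun c f => rfl
      invFun := fun g => ⟨fun σ p => (g p.2).1 σ p.1, (h _).2 fun y => (g y).2⟩
      left_inv := fun f => rfl
      right_inv := fun g => rfl }
  rw [e.finrank_eq, Module.finrank_pi_fintype, Finset.sum_const, Finset.card_univ, smul_eq_mul]

/-- Proof: `Finset V → Ω × Y → F` is isomorphic to `Y → (Finset V → Ω → F)`; the cycles and the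
boundaries of `copies X Y` correspond to the functions with values in the cycles and the boundaries
of `X`. -/
theorem bet_copies {Ω : Type} [Fintype Ω] (X : InvAct G Ω) (Y : Type) [Fintype Y] (ν : V → ℕ)
    (hν : Function.Injective ν) (i : ℕ) :
    bet F (copies X Y) ν i = Fintype.card Y * bet F X ν i := by
  have hCh : ∀ j f, f ∈ Ch F (copies X Y) j ↔ ∀ y, slice y f ∈ Ch F X j := by
    intro j f
    simp only [mem_Ch]
    constructor
    · rintro ⟨h1, h2⟩ y
      exact ⟨fun σ ω hne => h1 σ (ω, y) hne, fun σ v hv ω => h2 σ v hv (ω, y)⟩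
    · intro h
      exact ⟨fun σ p hne => (h p.2).1 σ p.1 hne, fun σ v hv p => (h p.2).2 σ v hv p.1⟩
  have hdl : ∀ f : Finset V → Ω × Y → F, ∀ y, slice y (dl F ν f) = dl F ν (slice y f) := by
    intro f y
    funext σ ω
    show dl F ν f σ (ω, y) = _
    rw [dl_apply, dl_apply]
    rfl
  have hZ := finrank_slices (Zc F (copies X Y) ν i) (Zc F X ν i) (by
    intro f
    constructor
    · intro hf y
      refine ⟨(hCh i f).1 hf.1 y, ?_⟩
      show dl F ν (slice y f) = 0
      rw [← hdl, show dl F ν f = 0 from hf.2]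
      rfl
    · intro hf
      refine ⟨(hCh i f).2 fun y => (hf y).1, ?_⟩
      show dl F ν f = 0
      funext σ p
      have h1 : dl F ν (slice p.2 f) = 0 := (hf p.2).2
      rw [← hdl] at h1
      exact congrFun (congrFun h1 σ) p.1)
  have hB := finrank_slices (Bc F (copies X Y) ν i) (Bc F X ν i) (by
    intro f
    constructor
    · rintro ⟨g, hg, rfl⟩ y
      exact ⟨slice y g, (hCh (i + 1) g).1 hg y, (hdl g y).symm⟩
    · intro hf
      choose g hg hg' using hf
      refine ⟨fun σ p => g p.2 σ p.1, (hCh (i + 1) _).2 fun y => hg y, ?_⟩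
      funext σ p
      have h1 := hdl (fun σ p => g p.2 σ p.1) p.2
      have h2 : dl F ν (slice p.2 fun σ (p : Ω × Y) => g p.2 σ p.1) = slice p.2 f := hg' p.2
      rw [h2] at h1
      exact congrFun (congrFun h1 σ) p.1)
  unfold bet
  rw [hZ, hB, Nat.mul_sub]

end Pool.Agent.H4.Singer
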