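import Pool.Agent.H4.Singer.Defs
import Pool.Agent.H4.Singer.ClosedLink

/-!
# Singer project: the facets around a dead codimension two face
-/

set_option autoImplicit false

open Finset

namespace Pool.Agent.H4.Singer

variable {α : Type} [DecidableEq α]

/-- If both ridges of the facet `F` that contain the codimension two face `S` are in earlier facets,
then no later facet contains `S`.

Proof: consider the graph `E` whose edges are the two-element sets `G \ S`, `G` a facet with
`S ⊆ G`, `ord G ≤ ord F` (`ord e := ord (S ∪ e)`). Shelling: if `G, G' ⊇ S`, `ord G' < ord G`, there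
is `G''` with `ord G'' < ord G`, `S ⊆ G' ∩ G ⊆ G''`, `|G'' ∩ G| = n - 1`, so `G'' \ S` meets
`G \ S`. `Ridge2` gives degrees at most two. `closed_link` shows that all vertices of `E` have
degree two. Let `G ⊇ S` be a facet with `ord G > ord F`, with `ord G` minimal. The shelling
condition for `G, F` gives `G''` with `ord G'' < ord G`, `S ⊆ G''`, `G'' \ S` meets `G \ S` in a
point `g`; by minimality `ord G'' ≤ ord F`. Then two facets of `E` and `G` contain the ridge
`insert g S`, contradicting `Ridge2`. -/
theorem facets_of_dead (n : ℕ) (𝓕 : Finset (Finset α)) (ord : Finset α → ℕ)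
    (hsh : Shelling n 𝓕 ord) (hr : Ridge2 n 𝓕) (F : Finset α) (hF : F ∈ 𝓕) (S : Finset α)
    (hSF : S ⊆ F) (hS : S.card + 2 = n)
    (hR : ∀ x ∈ F \ S, ∃ F' ∈ 𝓕, ord F' < ord F ∧ F.erase x ⊆ F') :
    ∀ G ∈ 𝓕, S ⊆ G → ord G ≤ ord F := by
  classical
  obtain ⟨E, hE⟩ : ∃ E : Finset (Finset α),
      E = (𝓕.filter fun G => S ⊆ G ∧ ord G ≤ ord F).image fun G => G \ S := ⟨_, rfl⟩
  have hun : ∀ G, S ⊆ G → S ∪ G \ S = G := fun G h => Finset.union_sdiff_of_subset h
  have hmem : ∀ e, e ∈ E ↔ ∃ G ∈ 𝓕, S ⊆ G ∧ ord G ≤ ord F ∧ G \ S = e := by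
    intro e
    rw [hE]
    simp only [Finset.mem_image, Finset.mem_filter]
    constructor
    · rintro ⟨G, ⟨h1, h2, h3⟩, h4⟩
      exact ⟨G, h1, h2, h3, h4⟩
    · rintro ⟨G, h1, h2, h3, h4⟩
      exact ⟨G, ⟨h1, h2, h3⟩, h4⟩
  have hmemG : ∀ G ∈ 𝓕, S ⊆ G → ord G ≤ ord F → G \ S ∈ E := fun G h1 h2 h3 =>
    (hmem _).2 ⟨G, h1, h2, h3, rfl⟩
  have hUmem : ∀ e ∈ E, S ∪ e ∈ 𝓕 ∧ ord (S ∪ e) ≤ ord F ∧ Disjoint e S := by
    intro e he
    obtain ⟨G, h1, h2, h3, rfl⟩ := (hmem e).1 he
    rw [hun G h2]
    exact ⟨h1, h3, Finset.sdiff_disjoint⟩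
  have hUinj : ∀ e ∈ E, ∀ e' ∈ E, S ∪ e = S ∪ e' → e = e' := by
    intro e he e' he' h
    obtain ⟨G, h1, h2, h3, rfl⟩ := (hmem e).1 he
    obtain ⟨G', h1', h2', h3', rfl⟩ := (hmem e').1 he'
    rw [hun G h2, hun G' h2'] at h
    rw [h]
  -- the intersection of an earlier facet
  have hmeet : ∀ G G'' : Finset α, S ⊆ G → S ⊆ G'' → (G'' ∩ G).card + 1 = n →
      (G'' \ S ∩ (G \ S)).Nonempty := by
    intro G G'' h1 h2 h3
    rw [← Finset.card_pos]
    have h4 : G'' \ S ∩ (G \ S) = (G'' ∩ G) \ S := by
      ext y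
      simp only [Finset.mem_inter, Finset.mem_sdiff]
      tauto
    rw [h4, Finset.card_sdiff_of_subset (Finset.subset_inter h2 h1)]
    omega
  -- at most two facets contain a ridge
  have hridge : ∀ x, x ∉ S → (𝓕.filter fun G => insert x S ⊆ G).card ≤ 2 := by
    intro x hx
    apply hr
    rw [Finset.card_insert_of_notMem hx]
    omega
  have hall := closed_link E (fun e => ord (S ∪ e))
    (by
      intro e he e' he' h
      exact hUinj e he e' he' (hsh.inj _ (hUmem e he).1 _ (hUmem e' he').1 h))
    (by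
      intro e he
      obtain ⟨G, h1, h2, h3, rfl⟩ := (hmem e).1 he
      rw [Finset.card_sdiff_of_subset h2, hsh.card G h1]
      omega)
    (by
      intro e he e' he' h
      obtain ⟨G, h1, h2, h3, rfl⟩ := (hmem e).1 he
      obtain ⟨G', h1', h2', h3', rfl⟩ := (hmem e').1 he'
      simp only [hun G h2, hun G' h2'] at h
      obtain ⟨G'', h5, h6, h7, h8⟩ := hsh.shell G h1 G' h1' h
      have h9 : S ⊆ G'' := (Finset.subset_inter h2' h2).trans h7
      refine ⟨G'' \ S, hmemG G'' h5 h9 (by omega), ?_, hmeet G G'' h2 h9 h8⟩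
      simp only [hun G h2, hun G'' h9]
      exact h6)
    (by
      intro x
      by_cases hx : x ∈ S
      · have : (E.filter fun e => x ∈ e) = ∅ := by
          apply Finset.filter_eq_empty_iff.2
          intro e he hxe
          exact (Finset.disjoint_left.1 (hUmem e he).2.2 hxe) hx
        rw [this]
        simp
      · refine le_trans ?_ (hridge x hx)
        apply Finset.card_le_card_of_injOn (fun e => S ∪ e)
        · intro e he
          rw [Finset.mem_coe, Finset.mem_filter] at he
          rw [Finset.mem_coe, Finset.mem_filter]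
          refine ⟨(hUmem e he.1).1, ?_⟩
          apply Finset.insert_subset
          · exact Finset.mem_union_right _ he.2
          · exact Finset.subset_union_left
        · intro e he e' he' h
          rw [Finset.mem_coe, Finset.mem_filter] at he he'
          exact hUinj e he.1 e' he'.1 h)
    (F \ S) (hmemG F hF hSF le_rfl)
    (by
      intro e he
      rw [hun F hSF]
      exact (hUmem e he).2.1)
    (by
      intro x hx
      obtain ⟨y, hy, hyx⟩ := Finset.exists_mem_ne (s := F \ S)
        (by rw [Finset.card_sdiff_of_subset hSF, hsh.card F hF]; omega) x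
      obtain ⟨F', h1, h2, h3⟩ := hR y hy
      have h4 : S ⊆ F' := by
        intro s hs
        apply h3
        refine Finset.mem_erase.2 ⟨?_, hSF hs⟩
        rintro rfl
        exact (Finset.mem_sdiff.1 hy).2 hs
      refine ⟨F' \ S, hmemG F' h1 h4 h2.le, ?_, ?_⟩
      · simp only [hun F hSF, hun F' h4]
        exact h2
      · refine Finset.mem_sdiff.2 ⟨h3 (Finset.mem_erase.2 ⟨hyx.symm, (Finset.mem_sdiff.1 hx).1⟩),
          (Finset.mem_sdiff.1 hx).2⟩)
  have key : ∀ m, ∀ G ∈ 𝓕, S ⊆ G → ord G = m → ord G ≤ ord F := by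
    intro m
    induction m using Nat.strong_induction_on with
    | _ m ih =>
      intro G hG hSG hm
      by_contra hlt
      obtain ⟨G'', h5, h6, h7, h8⟩ := hsh.shell G hG F hF (by omega)
      have h9 : S ⊆ G'' := (Finset.subset_inter hSF hSG).trans h7
      have h10 := ih (ord G'') (by omega) G'' h5 h9 rfl
      obtain ⟨g, hg⟩ := hmeet G G'' hSG h9 h8
      rw [Finset.mem_inter] at hg
      have hgS : g ∉ S := (Finset.mem_sdiff.1 hg.1).2
      have h2 := hall g ⟨G'' \ S, hmemG G'' h5 h9 h10, hg.1⟩
      have h3 := hridge g hgS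
      have h4 : insert G ((E.filter fun e => g ∈ e).image fun e => S ∪ e) ⊆
          𝓕.filter fun G => insert g S ⊆ G := by
        apply Finset.insert_subset
        · refine Finset.mem_filter.2 ⟨hG, Finset.insert_subset (Finset.mem_sdiff.1 hg.2).1 hSG⟩
        · intro A hA
          obtain ⟨e, he, rfl⟩ := Finset.mem_image.1 hA
          rw [Finset.mem_filter] at he
          refine Finset.mem_filter.2 ⟨(hUmem e he.1).1, Finset.insert_subset ?_ ?_⟩
          · exact Finset.mem_union_right _ he.2
          · exact Finset.subset_union_left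
      have h11 := Finset.card_le_card h4
      rw [Finset.card_insert_of_notMem, Finset.card_image_of_injOn, h2] at h11
      · omega
      · intro e he e' he' h
        rw [Finset.mem_coe, Finset.mem_filter] at he he'
        exact hUinj e he.1 e' he'.1 h
      · intro hA
        obtain ⟨e, he, h12⟩ := Finset.mem_image.1 hA
        rw [Finset.mem_filter] at he
        have := (hUmem e he.1).2.1
        rw [h12] at this
        exact hlt this
  exact fun G hG hSG => key _ G hG hSG rfl

end Pool.Agent.H4.Singer
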