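import Pool.Agent.H4.Singer.Half

/-!
# Singer project: double covers
-/

set_option autoImplicit false
set_option linter.unusedSectionVars false

open Finset

namespace Pool.Agent.H4.Singer

variable {V C : Type} [DecidableEq V] [Fintype V] [DecidableEq C] {G : ColGraph V C}

section DC

variable {F : Type} [Field F] {Ω Ω' : Type}

/-- composition with a map -/
def pullL (F : Type) [Field F] (V : Type) {Ω Ω' : Type} (p : Ω' → Ω) :
    (Finset V → Ω → F) →ₗ[F] (Finset V → Ω' → F) where
  toFun f σ ω := f σ (p ω)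
  map_add' _ _ := rfl
  map_smul' _ _ := rfl

theorem pullL_apply (p : Ω' → Ω) (f : Finset V → Ω → F) (σ : Finset V) (ω : Ω') :
    pullL F V p f σ ω = f σ (p ω) := rfl

theorem pullL_dl (p : Ω' → Ω) (ν : V → ℕ) (f : Finset V → Ω → F) :
    pullL F V p (dl F ν f) = dl F ν (pullL F V p f) := rfl

/-- `g ↦ g (s ω) + g (τ (s ω))` -/
def pushL (F : Type) [Field F] (V : Type) {Ω Ω' : Type} (s : Ω → Ω') (τ : Ω' → Ω') :
    (Finset V → Ω' → F) →ₗ[F] (Finset V → Ω → F) where
  toFun g σ ω := g σ (s ω) + g σ (τ (s ω))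
  map_add' f g := by
    funext σ ω
    simp only [Pi.add_apply]
    ring
  map_smul' c f := by
    funext σ ω
    simp only [Pi.smul_apply, smul_eq_mul, RingHom.id_apply]
    ring

theorem pushL_apply (s : Ω → Ω') (τ : Ω' → Ω') (g : Finset V → Ω' → F) (σ : Finset V) (ω : Ω) :
    pushL F V s τ g σ ω = g σ (s ω) + g σ (τ (s ω)) := rfl

theorem pushL_dl (s : Ω → Ω') (τ : Ω' → Ω') (ν : V → ℕ) (g : Finset V → Ω' → F) :
    pushL F V s τ (dl F ν g) = dl F ν (pushL F V s τ g) := by
  funext σ ω
  rw [pushL_apply, dl_apply, dl_apply, dl_apply, ← Finset.sum_add_distrib]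
  refine Finset.sum_congr rfl fun v _ => ?_
  rw [pushL_apply]
  ring

end DC

/-- Betti numbers at most double in a double cover (characteristic two). Proof: let
`p_* g ω = ∑` of `g` over the fibre of `ω` and `p^* f = f ∘ p`. Then `0 → Ch X → Ch X' → Ch X → 0`
(maps `p^*`, `p_*`) is exact: `p_* g = 0` means that `g` is invariant under `τ`, and `p_*` is
surjective on chains: for `f ∈ Ch X` let `g σ ω = f σ (p ω)` if `D_σ ω` and `0` otherwise
(`exists_half`). Both maps commute with `∂`. Hence `finrank Z' ≤ 2 finrank Z` and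
`finrank B' ≥ 2 finrank B`: precisely `ker (p_* | Z') = p^* Z` and
`finrank Z' ≤ finrank Z + finrank (p_* Z')` with `p_* Z' ⊆ Z`; `p_* B' = B`,
`ker (p_* | B') ⊇ p^* B`. -/
theorem bet_double {F : Type} [Field F] [CharP F 2] {Ω Ω' : Type} [Fintype Ω] [Fintype Ω']
    (X : InvAct G Ω) (X' : InvAct G Ω') (ν : V → ℕ) (hν : Function.Injective ν) (i : ℕ)
    (p : Ω' → Ω) (hp : ∀ v ω, p (X'.s v ω) = X.s v (p ω)) (hbit : ∀ ω, X'.bit ω = X.bit (p ω))
    (hsurj : Function.Surjective p) (τ : Ω' → Ω') (hτs : ∀ v ω, τ (X'.s v ω) = X'.s v (τ ω))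
    (hτ2 : ∀ ω, τ (τ ω) = ω) (hτ : ∀ ω, τ ω ≠ ω)
    (hfib : ∀ ω ω', p ω = p ω' ↔ ω' = ω ∨ ω' = τ ω) :
    bet F X' ν i ≤ 2 * bet F X ν i := by
  classical
  obtain ⟨s, hs⟩ := hsurj.hasRightInverse
  have hs' : ∀ ω, p (s ω) = ω := hs
  have hpτ : ∀ ω, p (τ ω) = p ω := fun ω => ((hfib ω (τ ω)).2 (Or.inr rfl)).symm
  have hsec : ∀ ω', s (p ω') = ω' ∨ s (p ω') = τ ω' := by
    intro ω'
    exact (hfib ω' (s (p ω'))).1 (hs' (p ω')).symm
  have hcc : ∀ a : F, a + a = 0 := fun a => CharTwo.add_self_eq_zero a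
  have hneg : ∀ a : F, -a = a := fun a => CharTwo.neg_eq a
  have hpush : ∀ (g : Finset V → Ω' → F) (σ : Finset V) (ω' : Ω'),
      pushL F V s τ g σ (p ω') = g σ ω' + g σ (τ ω') := by
    intro g σ ω'
    rw [pushL_apply]
    rcases hsec ω' with h | h
    · rw [h]
    · rw [h, hτ2, add_comm]
  -- the maps preserve chains
  have hpull_mem : ∀ (j : ℕ) (f : Finset V → Ω → F), f ∈ Ch F X j → pullL F V p f ∈ Ch F X' j := by
    intro j f hf
    rw [mem_Ch] at hf ⊢
    refine ⟨fun σ ω h => hf.1 σ (p ω) h, fun σ v hv ω => ?_⟩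
    rw [pullL_apply, pullL_apply, hp, hf.2 σ v hv]
  have hpush_mem : ∀ (j : ℕ) (g : Finset V → Ω' → F), g ∈ Ch F X' j →
      pushL F V s τ g ∈ Ch F X j := by
    intro j g hg
    rw [mem_Ch] at hg ⊢
    refine ⟨fun σ ω h => ?_, fun σ v hv ω => ?_⟩
    · rw [pushL_apply] at h
      by_cases h1 : g σ (s ω) = 0
      · by_cases h2 : g σ (τ (s ω)) = 0
        · exact absurd (by rw [h1, h2, add_zero]) h
        · exact hg.1 _ _ h2
      · exact hg.1 _ _ h1
    · have e1 : X.s v ω = p (X'.s v (s ω)) := by rw [hp, hs']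
      rw [e1, hpush, hτs, hg.2 σ v hv, hg.2 σ v hv, pushL_apply]
      ring
  -- the map `r` is an inverse of the pull back on the kernel
  have hinv : ∀ g : Finset V → Ω' → F, pushL F V s τ g = 0 → pullL F V p (pullL F V s g) = g := by
    intro g hg
    funext σ ω'
    have h1 : g σ ω' + g σ (τ ω') = 0 := by
      rw [← hpush, hg]
      rfl
    have h2 : g σ (τ ω') = g σ ω' := by
      have : g σ (τ ω') = - g σ ω' := by
        rw [eq_neg_iff_add_eq_zero, add_comm]
        exact h1
      rw [this, hneg]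
    rw [pullL_apply, pullL_apply]
    rcases hsec ω' with h | h
    · rw [h]
    · rw [h, h2]
  have hr_mem : ∀ (j : ℕ) (g : Finset V → Ω' → F), g ∈ Ch F X' j → pushL F V s τ g = 0 →
      pullL F V s g ∈ Ch F X j := by
    intro j g hg h0
    have h1 := hinv g h0
    rw [mem_Ch] at hg ⊢
    refine ⟨fun σ ω h => hg.1 σ (s ω) h, fun σ v hv ω => ?_⟩
    have e1 : X.s v ω = p (X'.s v (s ω)) := by rw [hp, hs']
    have e2 : pullL F V s g σ (p (X'.s v (s ω))) = g σ (X'.s v (s ω)) :=
      congrFun (congrFun h1 σ) (X'.s v (s ω))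
    rw [e1, e2, hg.2 σ v hv]
    rfl
  have hpp : ∀ f : Finset V → Ω → F, pushL F V s τ (pullL F V p f) = 0 := by
    intro f
    funext σ ω
    rw [pushL_apply, pullL_apply, pullL_apply, hpτ]
    exact hcc _
  -- surjectivity
  have hpush_surj : ∀ (j : ℕ) (f : Finset V → Ω → F), f ∈ Ch F X j →
      ∃ g ∈ Ch F X' j, pushL F V s τ g = f := by
    intro j f hf
    rw [mem_Ch] at hf
    have hD : ∀ σ : Finset V, ∃ D : Ω' → Prop, G.Cl σ →
        (∀ v ∈ σ, ∀ ω, D (X'.s v ω) ↔ D ω) ∧ ∀ ω, D ω ↔ ¬ D (τ ω) := by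
      intro σ
      by_cases hσ : G.Cl σ
      · obtain ⟨D, hD⟩ := exists_half X' τ hτs hτ2 hτ
          (fun ω => by rw [hbit, hbit, hpτ]) σ hσ
        exact ⟨D, fun _ => hD⟩
      · exact ⟨fun _ => True, fun h => absurd h hσ⟩
    choose D hD using hD
    refine ⟨fun σ ω => if D σ ω then f σ (p ω) else 0, ?_, ?_⟩
    · rw [mem_Ch]
      refine ⟨fun σ ω h => ?_, fun σ v hv ω => ?_⟩
      · by_cases h1 : D σ ω
        · rw [if_pos h1] at h
          exact hf.1 _ _ h
        · rw [if_neg h1] at h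
          exact absurd rfl h
      · by_cases hσ : G.Cl σ
        · have h1 := (hD σ hσ).1 v hv ω
          by_cases h2 : D σ ω
          · simp only [if_pos (h1.2 h2), if_pos h2]
            rw [hp, hf.2 σ v hv]
          · simp only [if_neg (fun h => h2 (h1.1 h)), if_neg h2, neg_zero]
        · have h0 : ∀ ω, f σ ω = 0 := by
            intro ω
            by_contra h
            exact hσ (hf.1 _ _ h).1
          simp only [h0, ite_self, neg_zero]
    · funext σ ω
      rw [pushL_apply]
      by_cases hσ : G.Cl σ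
      · have h1 := (hD σ hσ).2 (s ω)
        by_cases h2 : D σ (s ω)
        · simp only [if_pos h2, if_neg (h1.1 h2), hs', add_zero]
        · have h3 : D σ (τ (s ω)) := by
            by_contra h
            exact h2 (h1.2 h)
          simp only [if_neg h2, if_pos h3, hpτ, hs', zero_add]
      · have h0 : ∀ ω, f σ ω = 0 := by
          intro ω
          by_contra h
          exact hσ (hf.1 _ _ h).1
        simp only [h0, ite_self, add_zero]
  -- cycles
  have hZ : Module.finrank F (Zc F X' ν i) ≤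
      Module.finrank F (Zc F X ν i) + Module.finrank F (Zc F X ν i) := by
    let φ : Zc F X' ν i →ₗ[F] Zc F X ν i :=
      ((pushL F V s τ).restrict (p := Zc F X' ν i) (q := Zc F X ν i) (by
        rintro g ⟨h1, h2⟩
        refine ⟨hpush_mem i g h1, ?_⟩
        rw [SetLike.mem_coe, LinearMap.mem_ker] at h2 ⊢
        rw [← pushL_dl, h2, map_zero]))
    have h1 := LinearMap.finrank_range_add_finrank_ker φ
    have h2 : Module.finrank F (LinearMap.range φ) ≤ Module.finrank F (Zc F X ν i) :=
      Submodule.finrank_le _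
    have hk : ∀ z : LinearMap.ker φ, pushL F V s τ ((z : Zc F X' ν i) : Finset V → Ω' → F) = 0 := by
      intro z
      have h3 : φ z = 0 := z.2
      exact congrArg Subtype.val h3
    let g : LinearMap.ker φ →ₗ[F] Zc F X ν i :=
      LinearMap.codRestrict (Zc F X ν i)
        ((pullL F V s) ∘ₗ (Zc F X' ν i).subtype ∘ₗ (LinearMap.ker φ).subtype) (by
          intro z
          have hz := (z : Zc F X' ν i).2
          refine ⟨hr_mem i _ hz.1 (hk z), ?_⟩
          have hz2 : dl F ν ((z : Zc F X' ν i) : Finset V → Ω' → F) = 0 := hz.2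
          show pullL F V s ((z : Zc F X' ν i) : Finset V → Ω' → F) ∈ LinearMap.ker (dl F ν)
          rw [LinearMap.mem_ker, ← pullL_dl, hz2, map_zero])
    have h3 : Module.finrank F (LinearMap.ker φ) ≤ Module.finrank F (Zc F X ν i) := by
      refine LinearMap.finrank_le_finrank_of_injective (f := g) ?_
      intro z w hzw
      apply Subtype.ext
      apply Subtype.ext
      have h4 : pullL F V s ((z : Zc F X' ν i) : Finset V → Ω' → F) =
          pullL F V s ((w : Zc F X' ν i) : Finset V → Ω' → F) := congrArg Subtype.val hzw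
      rw [← hinv _ (hk z), ← hinv _ (hk w), h4]
    omega
  -- boundaries
  have hB : Module.finrank F (Bc F X ν i) + Module.finrank F (Bc F X ν i) ≤
      Module.finrank F (Bc F X' ν i) := by
    let φ : Bc F X' ν i →ₗ[F] Bc F X ν i :=
      ((pushL F V s τ).restrict (p := Bc F X' ν i) (q := Bc F X ν i) (by
        rintro _ ⟨g, hg, rfl⟩
        exact ⟨pushL F V s τ g, hpush_mem _ g hg, (pushL_dl s τ ν g).symm⟩))
    have h1 := LinearMap.finrank_range_add_finrank_ker φ
    have hsurjφ : Function.Surjective φ := by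
      rintro ⟨_, f, hf, rfl⟩
      obtain ⟨g, hg, hgf⟩ := hpush_surj (i + 1) f hf
      refine ⟨⟨dl F ν g, g, hg, rfl⟩, ?_⟩
      apply Subtype.ext
      show pushL F V s τ (dl F ν g) = dl F ν f
      rw [pushL_dl, hgf]
    have h2 : Module.finrank F (LinearMap.range φ) = Module.finrank F (Bc F X ν i) := by
      rw [LinearMap.range_eq_top.2 hsurjφ, finrank_top]
    let g₁ : Bc F X ν i →ₗ[F] Bc F X' ν i :=
      LinearMap.codRestrict (Bc F X' ν i) ((pullL F V p) ∘ₗ (Bc F X ν i).subtype) (by
        rintro ⟨_, f, hf, rfl⟩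
        exact ⟨pullL F V p f, hpull_mem _ f hf, (pullL_dl p ν f).symm⟩)
    let g : Bc F X ν i →ₗ[F] LinearMap.ker φ :=
      LinearMap.codRestrict (LinearMap.ker φ) g₁ (by
        intro b
        rw [LinearMap.mem_ker]
        apply Subtype.ext
        exact hpp (b : Finset V → Ω → F))
    have h3 : Module.finrank F (Bc F X ν i) ≤ Module.finrank F (LinearMap.ker φ) := by
      refine LinearMap.finrank_le_finrank_of_injective (f := g) ?_
      intro z w hzw
      apply Subtype.ext
      have h4 : pullL F V p (z : Finset V → Ω → F) = pullL F V p (w : Finset V → Ω → F) :=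
        congrArg Subtype.val (congrArg Subtype.val hzw)
      funext σ ω
      have h5 := congrFun (congrFun h4 σ) (s ω)
      rw [pullL_apply, pullL_apply, hs'] at h5
      exact h5
    omega
  have e1 := bet_add (F := F) X ν hν i
  have e2 := bet_add (F := F) X' ν hν i
  omega

end Pool.Agent.H4.Singer
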