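import Pool.Agent.H4.Singer.Basic

/-!
# Singer project: elimination of components in a join
-/

set_option autoImplicit false
set_option linter.unusedSectionVars false

open Finset

namespace Pool.Agent.H4.Singer

variable {V C : Type} [DecidableEq V] [Fintype V] [DecidableEq C] {K : Type} [Field K]

/-- set the colours of `β` to `false` -/
def resetCol (G : ColGraph V C) (β : Finset V) (a : C → Bool) : C → Bool :=
  fun c => if c ∈ β.image G.col then false else a c

theorem resetCol_update_mem {G : ColGraph V C} {β : Finset V} {a : C → Bool} {v : V} {b : Bool}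
    (h : G.col v ∈ β.image G.col) :
    resetCol G β (Function.update a (G.col v) b) = resetCol G β a := by
  funext c
  unfold resetCol
  by_cases hc : c ∈ β.image G.col
  · rw [if_pos hc, if_pos hc]
  · have hne : c ≠ G.col v := by
      rintro rfl
      exact hc h
    rw [if_neg hc, if_neg hc, Function.update_of_ne hne]

theorem resetCol_update_notMem {G : ColGraph V C} {β : Finset V} {a : C → Bool} {v : V} {b : Bool}
    (h : G.col v ∉ β.image G.col) :
    resetCol G β (Function.update a (G.col v) b) =
      Function.update (resetCol G β a) (G.col v) b := by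
  funext c
  by_cases hcv : c = G.col v
  · subst hcv
    unfold resetCol
    rw [if_neg h, Function.update_self, Function.update_self]
  · rw [Function.update_of_ne hcv]
    unfold resetCol
    rw [Function.update_of_ne hcv]

theorem resetCol_insert (G : ColGraph V C) (v : V) (β : Finset V) (a : C → Bool) :
    resetCol G (insert v β) a = Function.update (resetCol G β a) (G.col v) false := by
  funext c
  by_cases hcv : c = G.col v
  · subst hcv
    rw [Function.update_self]
    unfold resetCol
    rw [if_pos (by simp)]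
  · rw [Function.update_of_ne hcv]
    unfold resetCol
    simp only [Finset.image_insert, Finset.mem_insert, hcv, false_or]

theorem IsChain.resetCol_eq {G : ColGraph V C} {U : Finset V} {j : ℕ}
    {z : Finset V → (C → Bool) → K} (hz : IsChain G U j z) {σ β : Finset V} (hβ : β ⊆ σ)
    (a : C → Bool) : z σ (resetCol G β a) = z σ a := by
  induction β using Finset.induction_on with
  | empty =>
    congr 1
  | insert v β hv ih =>
    rw [resetCol_insert, hz.indep σ _ v false (hβ (Finset.mem_insert_self _ _))]
    exact ih ((Finset.subset_insert _ _).trans hβ)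

/-- one step of the elimination -/
theorem elim_step (G : ColGraph V C) (t : V → K) (A B : Finset V)
    (hAB : ∀ u ∈ A, ∀ v ∈ B, G.adj u v) (b j i : ℕ) (hij : i + b = j) (hA : Van G t A i)
    (z : Finset V → (C → Bool) → K) (hz : IsChain G (A ∪ B) j z)
    (hbz : bd G t z = 0) (hb : ∀ σ a, z σ a ≠ 0 → (σ ∩ B).card ≤ b) :
    ∃ y : Finset V → (C → Bool) → K, IsChain G (A ∪ B) (j + 1) y ∧
      ∀ σ a, b ≤ (σ ∩ B).card → bd G t y σ a = z σ a := by
  classical
  have hdis : ∀ v ∈ A, v ∉ B := fun v hv hvB => G.irrefl v (hAB v hv v hvB)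
  have hdisj : ∀ α β : Finset V, α ⊆ A → β ⊆ B → Disjoint α β := fun α β hα hβ =>
    Finset.disjoint_left.2 fun v hv hv' => hdis v (hα hv) (hβ hv')
  -- the components
  let zb : Finset V → Finset V → (C → Bool) → K := fun β α a => if α ⊆ A then z (α ∪ β) a else 0
  have hzb : ∀ β, β ⊆ B → β.card = b → IsChain G A i (zb β) := by
    intro β hβ hβb
    refine ⟨fun α a h => ?_, fun α a v c hv => ?_⟩
    · have hα : α ⊆ A := by
        by_contra hα
        exact h (if_neg hα)
      have h1 : z (α ∪ β) a ≠ 0 := by
        intro h0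
        exact h (by simp only [zb]; rw [if_pos hα, h0])
      obtain ⟨_, h3, h4⟩ := hz.supp _ _ h1
      refine ⟨hα, h3.mono Finset.subset_union_left, ?_⟩
      rw [Finset.card_union_of_disjoint (hdisj α β hα hβ)] at h4
      omega
    · simp only [zb]
      split_ifs
      · exact hz.indep _ _ _ _ (Finset.mem_union_left _ hv)
      · rfl
  have hbzb : ∀ β, β ⊆ B → β.card = b → bd G t (zb β) = 0 := by
    intro β hβ hβb
    funext α a
    by_cases hα : α ⊆ A
    · have h0 : bd G t z (α ∪ β) a = 0 := by rw [hbz]; rfl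
      rw [Pi.zero_apply, Pi.zero_apply, ← h0]
      unfold bd
      symm
      refine Finset.sum_subset_zero_on_sdiff (fun v hv => ?_) (fun v hv => ?_) (fun v hv => ?_)
      · rw [Finset.mem_compl] at hv ⊢
        exact fun h => hv (Finset.mem_union_left _ h)
      · rw [Finset.mem_sdiff, Finset.mem_compl, Finset.mem_compl, not_not,
          Finset.mem_union] at hv
        have hvβ : v ∈ β := hv.2.resolve_left hv.1
        have : ¬ insert v α ⊆ A := fun h => hdis v (h (Finset.mem_insert_self _ _)) (hβ hvβ)
        simp only [zb]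
        rw [if_neg this, smul_zero]
      · rw [Finset.mem_compl, Finset.mem_union, not_or] at hv
        by_cases hvA : v ∈ A
        · simp only [zb]
          rw [if_pos (Finset.insert_subset hvA hα), Finset.insert_union]
        · have h1 : zb β (insert v α) a = 0 :=
            if_neg fun h => hvA (h (Finset.mem_insert_self _ _))
          rw [h1]
          by_contra hne
          have h2 : z (insert v (α ∪ β)) a ≠ 0 := fun h0 => hne (by rw [h0])
          have h3 := (hz.supp _ _ h2).1 (Finset.mem_insert_self _ _)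
          rw [Finset.mem_union] at h3
          have hvB := h3.resolve_left hvA
          have h4 := hb _ _ h2
          have h5 : insert v β ⊆ insert v (α ∪ β) ∩ B := by
            intro w hw
            rw [Finset.mem_insert] at hw
            rw [Finset.mem_inter, Finset.mem_insert, Finset.mem_union]
            rcases hw with rfl | hw
            · exact ⟨Or.inl rfl, hvB⟩
            · exact ⟨Or.inr (Or.inr hw), hβ hw⟩
          have h6 := Finset.card_le_card h5
          rw [Finset.card_insert_of_notMem hv.2] at h6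
          omega
    · unfold bd
      refine Finset.sum_eq_zero fun v _ => ?_
      have : ¬ insert v α ⊆ A := fun h => hα ((Finset.subset_insert _ _).trans h)
      simp only [zb]
      rw [if_neg this, smul_zero]
  have hY : ∀ β, ∃ y : Finset V → (C → Bool) → K, β ⊆ B → β.card = b →
      IsChain G A (i + 1) y ∧ bd G t y = zb β := by
    intro β
    by_cases h : β ⊆ B ∧ β.card = b
    · obtain ⟨y, hy⟩ := hA (zb β) (hzb β h.1 h.2) (hbzb β h.1 h.2)
      exact ⟨y, fun _ _ => hy⟩
    · exact ⟨0, fun h1 h2 => absurd ⟨h1, h2⟩ h⟩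
  choose Y' hY' using hY
  let y : Finset V → (C → Bool) → K := fun σ a =>
    if σ ⊆ A ∪ B ∧ (σ ∩ B).card = b ∧ G.Cl (σ ∩ B) then
      Y' (σ ∩ B) (σ ∩ A) (resetCol G (σ ∩ B) a) else 0
  have hyc : IsChain G (A ∪ B) (j + 1) y := by
    refine ⟨fun σ a h => ?_, fun σ a v c hv => ?_⟩
    · have hσ : σ ⊆ A ∪ B ∧ (σ ∩ B).card = b ∧ G.Cl (σ ∩ B) := by
        by_contra hσ
        exact h (if_neg hσ)
      obtain ⟨h1, h2, h3⟩ := hσ
      have h4 : Y' (σ ∩ B) (σ ∩ A) (resetCol G (σ ∩ B) a) ≠ 0 := by
        intro h0
        apply h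
        simp only [y]
        rw [if_pos ⟨h1, h2, h3⟩, h0]
      obtain ⟨h5, _⟩ := hY' (σ ∩ B) Finset.inter_subset_right h2
      obtain ⟨_, h7, h8⟩ := h5.supp _ _ h4
      have hsplit : σ = (σ ∩ A) ∪ (σ ∩ B) := by
        rw [← Finset.inter_union_distrib_left, Finset.inter_eq_left.2 h1]
      refine ⟨h1, fun u hu w hw huw => ?_, ?_⟩
      · rcases Finset.mem_union.1 (h1 hu) with hu' | hu' <;>
          rcases Finset.mem_union.1 (h1 hw) with hw' | hw'
        · exact h7 u (Finset.mem_inter.2 ⟨hu, hu'⟩) w (Finset.mem_inter.2 ⟨hw, hw'⟩) huw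
        · exact hAB u hu' w hw'
        · exact G.symm _ _ (hAB w hw' u hu')
        · exact h3 u (Finset.mem_inter.2 ⟨hu, hu'⟩) w (Finset.mem_inter.2 ⟨hw, hw'⟩) huw
      · rw [hsplit, Finset.card_union_of_disjoint
          (hdisj _ _ Finset.inter_subset_right Finset.inter_subset_right), h8, h2]
        omega
    · simp only [y]
      split_ifs with hσ
      · obtain ⟨h1, h2, h3⟩ := hσ
        obtain ⟨h5, _⟩ := hY' (σ ∩ B) Finset.inter_subset_right h2
        by_cases hc : G.col v ∈ (σ ∩ B).image G.col
        · rw [resetCol_update_mem hc]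
        · have hvB : v ∉ B := fun hvB =>
            hc (Finset.mem_image_of_mem _ (Finset.mem_inter.2 ⟨hv, hvB⟩))
          have hvA : v ∈ A := (Finset.mem_union.1 (h1 hv)).resolve_right hvB
          rw [resetCol_update_notMem hc, h5.indep _ _ _ _ (Finset.mem_inter.2 ⟨hv, hvA⟩)]
      · rfl
  refine ⟨y, hyc, fun τ a hτb => ?_⟩
  by_cases hτ : τ ⊆ A ∪ B ∧ (τ ∩ B).card = b ∧ G.Cl (τ ∩ B)
  · obtain ⟨h1, h2, h3⟩ := hτ
    obtain ⟨h5, h6⟩ := hY' (τ ∩ B) Finset.inter_subset_right h2
    have hsplit : (τ ∩ A) ∪ (τ ∩ B) = τ := by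
      rw [← Finset.inter_union_distrib_left, Finset.inter_eq_left.2 h1]
    have h7 : z τ a = bd G t (Y' (τ ∩ B)) (τ ∩ A) (resetCol G (τ ∩ B) a) := by
      rw [h6]
      simp only [zb]
      rw [if_pos Finset.inter_subset_right, hsplit, hz.resetCol_eq Finset.inter_subset_left]
    rw [h7]
    unfold bd
    refine Finset.sum_subset_zero_on_sdiff (fun v hv => ?_) (fun v hv => ?_) (fun v hv => ?_)
    · rw [Finset.mem_compl] at hv ⊢
      exact fun h => hv (Finset.mem_inter.1 h).1
    · rw [Finset.mem_sdiff, Finset.mem_compl, Finset.mem_compl, not_not] at hv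
      by_contra hne
      have h8 : Y' (τ ∩ B) (insert v (τ ∩ A)) (resetCol G (τ ∩ B) a) ≠ 0 := fun h0 =>
        hne (by rw [h0, smul_zero])
      have h9 := (h5.supp _ _ h8).1 (Finset.mem_insert_self _ _)
      exact hv.1 (Finset.mem_inter.2 ⟨hv.2, h9⟩)
    · rw [Finset.mem_compl] at hv
      by_cases hvA : v ∈ A
      · have hvB : v ∉ B := hdis v hvA
        have e1 : insert v τ ∩ B = τ ∩ B := Finset.insert_inter_of_notMem hvB
        have e2 : insert v τ ∩ A = insert v (τ ∩ A) := Finset.insert_inter_of_mem hvA
        have e3 : insert v τ ⊆ A ∪ B := Finset.insert_subset (Finset.mem_union_left _ hvA) h1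
        have e4 : G.col v ∉ (τ ∩ B).image G.col := by
          intro h
          obtain ⟨u, hu, huv⟩ := Finset.mem_image.1 h
          exact G.ne _ _ (hAB v hvA u (Finset.mem_inter.1 hu).2) huv.symm
        have e5 : resetCol G (τ ∩ B) a (G.col v) = a (G.col v) := by
          unfold resetCol
          rw [if_neg e4]
        simp only [y]
        rw [e1, e2, if_pos ⟨e3, h2, h3⟩, e5]
      · have hl : y (insert v τ) a = 0 := by
          refine if_neg fun h => ?_
          have hvB : v ∈ B := (Finset.mem_union.1 (h.1 (Finset.mem_insert_self _ _))).resolve_left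
            hvA
          have h8 := h.2.1
          rw [Finset.insert_inter_of_mem hvB, Finset.card_insert_of_notMem
            (fun h9 => hv (Finset.mem_inter.1 h9).1)] at h8
          omega
        have hr : Y' (τ ∩ B) (insert v (τ ∩ A)) (resetCol G (τ ∩ B) a) = 0 := by
          by_contra h0
          exact hvA ((h5.supp _ _ h0).1 (Finset.mem_insert_self _ _))
        rw [hl, hr, smul_zero, smul_zero]
  · have hz0 : z τ a = 0 := by
      by_contra h0
      obtain ⟨h1, h2, _⟩ := hz.supp _ _ h0
      exact hτ ⟨h1, le_antisymm (hb _ _ h0) hτb, h2.mono Finset.inter_subset_left⟩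
    rw [hz0]
    unfold bd
    refine Finset.sum_eq_zero fun v hv => ?_
    have : y (insert v τ) a = 0 := by
      refine if_neg fun h => hτ ?_
      obtain ⟨h1, h2, h3⟩ := h
      have h4 : τ ∩ B ⊆ insert v τ ∩ B :=
        Finset.inter_subset_inter_right (Finset.subset_insert _ _)
      exact ⟨(Finset.subset_insert _ _).trans h1,
        le_antisymm ((Finset.card_le_card h4).trans h2.le) hτb, h3.mono h4⟩
    rw [this, smul_zero]

/-- Let all vertices of `A` be adjacent to all vertices of `B`, let the homology of `A` vanish in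
degrees `≥ a₀`, and let `z` be a cycle of degree `j` on `A ∪ B` whose components `z σ` vanish for
`|σ ∩ B| > b`, where `a₀ + b ≤ j`. Then `z` is a boundary.

Proof: induction on `b`. For `β ⊆ B` with `|β| = b` let `z_β α a = z (α ∪ β) a` for `α ⊆ A` (and
`0` otherwise); it is a chain of degree `j - b ≥ a₀` on `A` and `∂ z_β = 0` because the
components with `|σ ∩ B| = b + 1` vanish (for `b = 0`: `β = ∅`). Choose `y_β` with
`∂ y_β = z_β`, without loss of generality independent of the colours of `β` (evaluate at `a`
with these colours set to `false`; the colours of `A` are different from those of `β`). Let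
`y σ = y_{σ ∩ B} (σ ∩ A)` if `|σ ∩ B| = b` and `0` otherwise, a chain of degree `j + 1` on `A ∪ B`
(if `β` is not a clique, `z_β = 0` and take `y_β = 0`). The components of `z - ∂ y` with
`|σ ∩ B| ≥ b` vanish. -/
theorem elim_join [CharP K 2] (G : ColGraph V C) (t : V → K) (A B : Finset V)
    (hAB : ∀ u ∈ A, ∀ v ∈ B, G.adj u v) (a₀ : ℕ) (hA : ∀ j, a₀ ≤ j → Van G t A j) (b j : ℕ)
    (hj : a₀ + b ≤ j) (z : Finset V → (C → Bool) → K) (hz : IsChain G (A ∪ B) j z)
    (hbz : bd G t z = 0) (hb : ∀ σ a, z σ a ≠ 0 → (σ ∩ B).card ≤ b) :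
    ∃ y : Finset V → (C → Bool) → K, IsChain G (A ∪ B) (j + 1) y ∧ bd G t y = z := by
  have h2 : ∀ m : K, m + m = 0 := fun m => CharTwo.add_self_eq_zero m
  induction b generalizing z with
  | zero =>
    obtain ⟨y, hy, hyz⟩ := elim_step G t A B hAB 0 j j rfl (hA j (by omega)) z hz hbz hb
    exact ⟨y, hy, by funext σ a; exact hyz σ a (Nat.zero_le _)⟩
  | succ b ih =>
    obtain ⟨y, hy, hyz⟩ := elim_step G t A B hAB (b + 1) j (j - (b + 1)) (by omega)
      (hA _ (by omega)) z hz hbz hb
    obtain ⟨y', hy', hyz'⟩ := ih (by omega) (z - bd G t y) (hz.sub (hy.bd t))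
      (by rw [bd_sub, hbz, bd_bd t h2, sub_zero]) (fun σ a h => by
        by_contra hlt
        exact h (by rw [Pi.sub_apply, Pi.sub_apply, hyz σ a (by omega), sub_self]))
    exact ⟨y + y', hy.add hy', by rw [bd_add, hyz', add_sub_cancel]⟩

end Pool.Agent.H4.Singer
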