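import Pool.Agent.H4.Singer.Homotopy

/-!
# Singer project: exactness at generic parameters bounds the homology of all specialisations
-/

set_option autoImplicit false
set_option linter.unusedSectionVars false

open Finset

namespace Pool.Agent.H4.Singer

variable {J X K : Type} [Fintype J] [DecidableEq J] [Fintype X] [Field K]

open scoped Matrix

section Act

variable {R M : Type} [CommRing R] [Algebra K R] [AddCommGroup M] [Module K M] [Module R M]
  [IsScalarTower K R M]

/-- the action of a matrix over `MvPolynomial X K` on `J → M` through `aeval T` -/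
noncomputable def actMat (T : X → R) (A : Matrix J J (MvPolynomial X K)) : (J → M) →ₗ[K] (J → M) :=
  LinearMap.pi fun i => ∑ j, (Algebra.lsmul K K M (MvPolynomial.aeval T (A i j))) ∘ₗ
    LinearMap.proj j

theorem actMat_apply (T : X → R) (A : Matrix J J (MvPolynomial X K)) (z : J → M) (i : J) :
    actMat T A z i = ∑ j, (MvPolynomial.aeval T (A i j)) • z j := by
  simp [actMat]

theorem actMat_mul (T : X → R) (A B : Matrix J J (MvPolynomial X K)) (z : J → M) :
    actMat T (A * B) z = actMat T A (actMat T B z) := by
  funext i
  rw [actMat_apply, actMat_apply]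
  simp only [actMat_apply, Matrix.mul_apply, map_sum, map_mul, Finset.sum_smul, Finset.smul_sum,
    mul_smul]
  rw [Finset.sum_comm]

theorem actMat_add (T : X → R) (A B : Matrix J J (MvPolynomial X K)) (z : J → M) :
    actMat T (A + B) z = actMat T A z + actMat T B z := by
  funext i
  simp only [Pi.add_apply, actMat_apply, Matrix.add_apply, map_add, add_smul,
    Finset.sum_add_distrib]

theorem actMat_sub (T : X → R) (A B : Matrix J J (MvPolynomial X K)) (z : J → M) :
    actMat T (A - B) z = actMat T A z - actMat T B z := by
  funext i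
  simp only [Pi.sub_apply, actMat_apply, Matrix.sub_apply, map_sub, sub_smul,
    Finset.sum_sub_distrib]

theorem actMat_smul_one (T : X → R) (p : MvPolynomial X K) (z : J → M) (i : J) :
    actMat T (p • (1 : Matrix J J (MvPolynomial X K))) z i = (MvPolynomial.aeval T p) • z i := by
  rw [actMat_apply, Finset.sum_eq_single i]
  · simp
  · intro j _ hj
    simp [Matrix.one_apply_ne hj.symm]
  · intro h
    exact absurd (Finset.mem_univ i) h

theorem actMat_one (T : X → R) (z : J → M) :
    actMat T (1 : Matrix J J (MvPolynomial X K)) z = z := by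
  funext i
  have h := actMat_smul_one T (1 : MvPolynomial X K) z i
  rw [one_smul] at h
  rw [h]
  simp

theorem actMat_C (T : X → R) (A : Matrix J J K) (z : J → M) (i : J) :
    actMat T (A.map (MvPolynomial.C : K →+* MvPolynomial X K)) z i = ∑ j, A i j • z j := by
  rw [actMat_apply]
  refine Finset.sum_congr rfl fun j _ => ?_
  rw [Matrix.map_apply, MvPolynomial.aeval_C, algebraMap_smul]

end Act

/-- Proof: let `Φ = (D * H + H' * D) * P + (1 - P)` with `H, H'` from `exists_homotopy` (constant
matrices, mapped to `MvPolynomial X K` with `C`), and `p = det Φ`; `Φ (t₀) = 1`, so `p (t₀) = 1`.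
For `z ∈ ZZ` we have `Φ z = D (H z)` with `P' (H z) = H z`, so `Φ` maps `ZZ` to `BB`. As
`adjugate Φ * Φ = p`, the kernel of `Φ` on `J → M` is contained in the functions with values in the
kernel of `p` on `M`. -/
theorem exists_poly_bound (P P' : Matrix J J K) (D : Matrix J J (MvPolynomial X K)) (t₀ : X → K)
    (hP : P * P = P)
    (hex : ∀ z : J → K, P *ᵥ z = z → (D.map (MvPolynomial.eval t₀)) *ᵥ z = 0 →
      ∃ y : J → K, P' *ᵥ y = y ∧ (D.map (MvPolynomial.eval t₀)) *ᵥ y = z) :
    ∃ p : MvPolynomial X K, MvPolynomial.eval t₀ p ≠ 0 ∧
      ∀ (R M : Type) [CommRing R] [Algebra K R] [AddCommGroup M] [Module K M] [Module R M]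
        [IsScalarTower K R M] [Module.Finite K M] (T : X → R) (ZZ BB : Submodule K (J → M)),
        (∀ z ∈ ZZ, (∀ i, ∑ j, P i j • z j = z i) ∧
          ∀ i, ∑ j, (MvPolynomial.aeval T (D i j)) • z j = 0) →
        (∀ y : J → M, (∀ i, ∑ j, P' i j • y j = y i) →
          (fun i => ∑ j, (MvPolynomial.aeval T (D i j)) • y j) ∈ BB) →
        Module.finrank K ZZ ≤ Module.finrank K BB +
          Fintype.card J * Module.finrank K
            (LinearMap.ker (Algebra.lsmul K K M (MvPolynomial.aeval T p))) := by
  obtain ⟨H, H', h1, h2⟩ := exists_homotopy P P' (D.map (MvPolynomial.eval t₀)) hP hex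
  let cc : K →+* MvPolynomial X K := MvPolynomial.C
  let Φ : Matrix J J (MvPolynomial X K) :=
    (D * H.map cc + H'.map cc * D) * P.map cc + (1 - P.map cc)
  have hec : ∀ A : Matrix J J K, (A.map cc).map (MvPolynomial.eval t₀) = A := by
    intro A
    ext i j
    simp [cc]
  have hΦ : Φ.map (MvPolynomial.eval t₀) = 1 := by
    have h3 : Φ.map (MvPolynomial.eval t₀) =
        (D.map (MvPolynomial.eval t₀) * (H.map cc).map (MvPolynomial.eval t₀) +
          (H'.map cc).map (MvPolynomial.eval t₀) * D.map (MvPolynomial.eval t₀)) *
            (P.map cc).map (MvPolynomial.eval t₀) +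
          (1 - (P.map cc).map (MvPolynomial.eval t₀)) := by
      show (MvPolynomial.eval t₀).mapMatrix Φ = _
      simp only [Φ, map_add, map_mul, map_sub, map_one]
      rfl
    rw [h3, hec, hec, hec, h2]
    abel
  refine ⟨Φ.det, ?_, ?_⟩
  · have h4 : MvPolynomial.eval t₀ Φ.det = (Φ.map (MvPolynomial.eval t₀)).det :=
      RingHom.map_det (MvPolynomial.eval t₀) Φ
    rw [h4, hΦ, Matrix.det_one]
    exact one_ne_zero
  · intro R M _ _ _ _ _ _ _ T ZZ BB hZ hB
    have hmap : ∀ z ∈ ZZ, actMat T Φ z ∈ BB := by
      intro z hz
      obtain ⟨hz1, hz2⟩ := hZ z hz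
      have e1 : actMat T (P.map cc) z = z := by
        funext i
        rw [← hz1 i]
        exact actMat_C T P z i
      have e2 : actMat T D z = 0 := by
        funext i
        rw [actMat_apply]
        exact hz2 i
      have e3 : actMat T Φ z = actMat T D (actMat T (H.map cc) z) := by
        rw [actMat_add, actMat_mul, e1, actMat_sub, actMat_one, e1, sub_self, add_zero,
          actMat_add, actMat_mul, actMat_mul, e2, map_zero, add_zero]
      rw [e3]
      have e4 : actMat T D (actMat T (H.map cc) z) =
          fun i => ∑ j, (MvPolynomial.aeval T (D i j)) • (actMat T (H.map cc) z) j := by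
        funext i
        exact actMat_apply T D _ i
      rw [e4]
      apply hB
      intro i
      have e5 := actMat_C (X := X) T P' (actMat T (H.map cc) z) i
      rw [← e5, ← actMat_mul]
      have e6 : P'.map cc * H.map cc = H.map cc := by
        rw [← Matrix.map_mul, h1]
      show actMat T (P'.map cc * H.map cc) z i = _
      rw [e6]
    have hker : ∀ z : J → M, actMat T Φ z = 0 → ∀ i, (MvPolynomial.aeval T Φ.det) • z i = 0 := by
      intro z hz i
      rw [← actMat_smul_one T Φ.det z i, ← Matrix.adjugate_mul, actMat_mul, hz, map_zero]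
      rfl
    let f : ZZ →ₗ[K] BB := (actMat T Φ).restrict hmap
    have hf := LinearMap.finrank_range_add_finrank_ker f
    have hr : Module.finrank K (LinearMap.range f) ≤ Module.finrank K BB :=
      Submodule.finrank_le _
    let W := LinearMap.ker (Algebra.lsmul K K M (MvPolynomial.aeval T Φ.det))
    have hk : Module.finrank K (LinearMap.ker f) ≤ Module.finrank K (J → W) := by
      have hmem : ∀ z : LinearMap.ker f, ∀ i, ((z : ZZ) : J → M) i ∈ W := by
        intro z i
        rw [LinearMap.mem_ker]
        show (MvPolynomial.aeval T Φ.det) • ((z : ZZ) : J → M) i = 0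
        apply hker
        have h3 : f z = 0 := z.2
        exact congrArg Subtype.val h3
      let g : LinearMap.ker f →ₗ[K] (J → W) :=
        { toFun := fun z i => ⟨((z : ZZ) : J → M) i, hmem z i⟩
          map_add' := fun z w => by
            funext i
            rfl
          map_smul' := fun c z => by
            funext i
            rfl }
      refine LinearMap.finrank_le_finrank_of_injective (f := g) ?_
      intro z w hzw
      apply Subtype.ext
      apply Subtype.ext
      funext i
      have := congrFun hzw i
      exact congrArg Subtype.val this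
    rw [Module.finrank_pi_fintype, Finset.sum_const, Finset.card_univ, smul_eq_mul] at hk
    have hk' : Module.finrank K (LinearMap.ker f) ≤ Fintype.card J * Module.finrank K
        (LinearMap.ker (Algebra.lsmul K K M (MvPolynomial.aeval T Φ.det))) := hk
    omega

end Pool.Agent.H4.Singer
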