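import Pool.Agent.H4.Singer.JTop
import Pool.Agent.H4.Singer.MV

/-!
# Singer project: the comparability graph of the faces of a complex
-/

set_option autoImplicit false
set_option linter.unusedSectionVars false

open Finset

namespace Pool.Agent.H4.Singer

variable {V C α : Type} [DecidableEq V] [Fintype V] [DecidableEq C] [DecidableEq α]

/-- the vertices of `G` are the faces `e v` of a simplicial complex, adjacency is strict
comparability, and the colours only depend on the size of the faces -/
structure FaceGraph (G : ColGraph V C) (e : V → Finset α) : Prop where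
  inj : Function.Injective e
  adj_iff : ∀ u v, G.adj u v ↔ e u ⊂ e v ∨ e v ⊂ e u
  nonempty : ∀ v, (e v).Nonempty
  down : ∀ v, ∀ τ ⊆ e v, τ.Nonempty → ∃ u, e u = τ
  col : ∀ u v, (e u).card = (e v).card → G.col u = G.col v

open Classical in
/-- faces that strictly contain `σ` -/
noncomputable def Up (e : V → Finset α) (σ : Finset α) : Finset V := univ.filter fun v => σ ⊂ e v

open Classical in
/-- faces that strictly contain `σ`, with an odd number of further vertices -/
noncomputable def UpOdd (e : V → Finset α) (σ : Finset α) : Finset V :=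
  univ.filter fun v => σ ⊂ e v ∧ Odd (e v \ σ).card

open Classical in
/-- faces strictly between `σ` and `ρ`, with an odd number of further vertices -/
noncomputable def Btw (e : V → Finset α) (σ ρ : Finset α) : Finset V :=
  univ.filter fun v => σ ⊂ e v ∧ e v ⊂ ρ ∧ Odd (e v \ σ).card

theorem mem_Up {e : V → Finset α} {σ : Finset α} {v : V} : v ∈ Up e σ ↔ σ ⊂ e v := by
  classical
  simp [Up]

theorem mem_UpOdd {e : V → Finset α} {σ : Finset α} {v : V} :
    v ∈ UpOdd e σ ↔ σ ⊂ e v ∧ Odd (e v \ σ).card := by
  classical
  simp [UpOdd]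

theorem mem_Btw {e : V → Finset α} {σ ρ : Finset α} {v : V} :
    v ∈ Btw e σ ρ ↔ σ ⊂ e v ∧ e v ⊂ ρ ∧ Odd (e v \ σ).card := by
  classical
  simp [Btw]

end Pool.Agent.H4.Singer
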