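import Pool.Agent.H4.Singer.ActBasic
import Pool.Agent.H4.Singer.AdjId

/-!
# Singer project: harmonic chains on finite sets
-/

set_option autoImplicit false
set_option linter.unusedSectionVars false

open Finset

namespace Pool.Agent.H4.Singer

variable {V C : Type} [DecidableEq V] [Fintype V] [DecidableEq C] {G : ColGraph V C}

/-- Harmonic chains (kernel of `∂` and of the coboundary) inject into the homology. Proof: it
suffices that a harmonic chain `f = ∂ y`, `y ∈ Ch (i + 1)`, is zero (then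
`finrank H + finrank Bc ≤ finrank Zc`). By `adj_identity` (with `h = f`, `c = y`)
`∑ |f τ ω|² = ∑_{τ, ω} conj (f τ ω) (∂ y) τ ω = 0`. -/
theorem harm_finrank_le {Ω : Type} [Fintype Ω] (X : InvAct G Ω) (ν : V → ℕ)
    (hν : Function.Injective ν) (i : ℕ) (H : Submodule ℂ (Finset V → Ω → ℂ))
    (hH : ∀ f ∈ H, f ∈ Zc ℂ X ν i ∧ ∀ ρ ω, G.Cl ρ → ρ.card = i + 1 →
      ∑ v ∈ ρ, (sg ν v (ρ.erase v) : ℂ) * (f (ρ.erase v) ω - f (ρ.erase v) (X.s v ω)) = 0) :
    Module.finrank ℂ H ≤ bet ℂ X ν i := by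
  have hbot : H ⊓ Bc ℂ X ν i = ⊥ := by
    rw [eq_bot_iff]
    rintro f ⟨hf, y, hy, hyf⟩
    obtain ⟨hy1, hy2⟩ := hy
    obtain ⟨-, hcoc⟩ := hH f hf
    have key := adj_identity X.s X.invol ν f y (fun σ => (hasSum_fintype _).summable)
      (fun σ => (hasSum_fintype _).summable) hy2
    have hl : ∀ τ ω, (∑ v ∈ τᶜ, (-1 : ℂ) ^ (τ.filter fun u => ν u < ν v).card * y (insert v τ) ω) =
        f τ ω := by
      intro τ ω
      rw [← hyf, dl_apply]
      refine Finset.sum_congr rfl fun v _ => ?_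
      unfold sg
      push_cast
      rfl
    have hr : ∀ ρ ω, (starRingEnd ℂ)
        (∑ v ∈ ρ, (-1 : ℂ) ^ ((ρ.erase v).filter fun u => ν u < ν v).card *
          (f (ρ.erase v) ω - f (ρ.erase v) (X.s v ω))) * y ρ ω = 0 := by
      intro ρ ω
      by_cases h0 : y ρ ω = 0
      · rw [h0, mul_zero]
      · obtain ⟨h1, h2⟩ := hy1 ρ ω h0
        have h3 := hcoc ρ ω h1 h2
        have h4 : (∑ v ∈ ρ, (-1 : ℂ) ^ ((ρ.erase v).filter fun u => ν u < ν v).card *
          (f (ρ.erase v) ω - f (ρ.erase v) (X.s v ω))) = 0 := by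
          rw [← h3]
          refine Finset.sum_congr rfl fun v _ => ?_
          unfold sg
          push_cast
          rfl
        rw [h4, map_zero, zero_mul]
    simp only [hl, hr, tsum_fintype, Finset.sum_const_zero, mul_zero] at key
    have hsq : ∀ z : ℂ, (starRingEnd ℂ) z * z = ((‖z‖ ^ 2 : ℝ) : ℂ) := by
      intro z
      rw [mul_comm, Complex.mul_conj, Complex.normSq_eq_norm_sq]
    simp only [hsq, ← Complex.ofReal_sum] at key
    have key' : ∑ τ : Finset V, ∑ ω : Ω, ‖f τ ω‖ ^ 2 = 0 := by exact_mod_cast key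
    rw [Submodule.mem_bot]
    funext τ ω
    have h1 := (Finset.sum_eq_zero_iff_of_nonneg
      (fun τ _ => Finset.sum_nonneg fun ω _ => sq_nonneg ‖f τ ω‖)).1 key' τ (mem_univ τ)
    have h2 := (Finset.sum_eq_zero_iff_of_nonneg (fun ω _ => sq_nonneg ‖f τ ω‖)).1 h1 ω (mem_univ ω)
    simpa using h2
  have hle : H ⊔ Bc ℂ X ν i ≤ Zc ℂ X ν i :=
    sup_le (fun f hf => (hH f hf).1) (Bc_le_Zc X ν hν i)
  have h1 := Submodule.finrank_sup_add_finrank_inf_eq H (Bc ℂ X ν i)
  rw [hbot, finrank_bot, add_zero] at h1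
  have h2 := Submodule.finrank_mono hle
  have h3 := bet_add (F := ℂ) X ν hν i
  omega

end Pool.Agent.H4.Singer
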