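import Pool.Agent.H4.Singer.Defs

/-!
# Singer project: links of faces in shellable complexes
-/

set_option autoImplicit false

open Finset

namespace Pool.Agent.H4.Singer

variable {α : Type} [DecidableEq α]

/-- facets of the link of `σ` -/
def Lf (𝓕 : Finset (Finset α)) (σ : Finset α) : Finset (Finset α) :=
  (𝓕.filter fun F => σ ⊆ F).image fun F => F \ σ

theorem mem_Lf {𝓕 : Finset (Finset α)} {σ G : Finset α} :
    G ∈ Lf 𝓕 σ ↔ ∃ F ∈ 𝓕, σ ⊆ F ∧ F \ σ = G := by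
  unfold Lf
  rw [Finset.mem_image]
  constructor
  · rintro ⟨F, hF, h⟩
    rw [Finset.mem_filter] at hF
    exact ⟨F, hF.1, hF.2, h⟩
  · rintro ⟨F, hF, h1, h2⟩
    exact ⟨F, Finset.mem_filter.2 ⟨hF, h1⟩, h2⟩

/-- the order `ord' G = ord (G ∪ σ)` -/
theorem lf_shelling (n n' : ℕ) (𝓕 : Finset (Finset α)) (ord : Finset α → ℕ)
    (hsh : Shelling n 𝓕 ord) (σ : Finset α) (hn : σ.card + n' = n) :
    ∃ ord', Shelling n' (Lf 𝓕 σ) ord' := by
  refine ⟨fun G => ord (G ∪ σ), ?_, ?_, ?_⟩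
  · intro G hG
    obtain ⟨F, hF, h1, rfl⟩ := mem_Lf.1 hG
    have h2 := hsh.card F hF
    have h3 := Finset.card_sdiff_add_card_eq_card h1
    omega
  · intro G hG G' hG' h
    obtain ⟨F, hF, h1, rfl⟩ := mem_Lf.1 hG
    obtain ⟨F', hF', h1', rfl⟩ := mem_Lf.1 hG'
    simp only [Finset.sdiff_union_of_subset h1, Finset.sdiff_union_of_subset h1'] at h
    rw [hsh.inj F hF F' hF' h]
  · intro G hG G' hG' h
    obtain ⟨F, hF, h1, rfl⟩ := mem_Lf.1 hG
    obtain ⟨F', hF', h1', rfl⟩ := mem_Lf.1 hG'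
    simp only [Finset.sdiff_union_of_subset h1, Finset.sdiff_union_of_subset h1'] at h
    obtain ⟨F'', hF'', h2, h3, h4⟩ := hsh.shell F hF F' hF' h
    have h5 : σ ⊆ F'' := (Finset.subset_inter h1' h1).trans h3
    refine ⟨F'' \ σ, mem_Lf.2 ⟨F'', hF'', h5, rfl⟩, ?_, ?_, ?_⟩
    · simp only [Finset.sdiff_union_of_subset h1, Finset.sdiff_union_of_subset h5]
      exact h2
    · intro x hx
      rw [Finset.mem_inter, Finset.mem_sdiff, Finset.mem_sdiff] at hx
      rw [Finset.mem_sdiff]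
      exact ⟨h3 (Finset.mem_inter.2 ⟨hx.1.1, hx.2.1⟩), hx.1.2⟩
    · have h6 : F'' \ σ ∩ (F \ σ) = (F'' ∩ F) \ σ := by
        ext x
        simp only [Finset.mem_inter, Finset.mem_sdiff]
        tauto
      have h7 : σ ⊆ F'' ∩ F := Finset.subset_inter h5 h1
      have h8 := Finset.card_sdiff_add_card_eq_card h7
      rw [h6]
      omega

theorem lf_ridge2 (n n' : ℕ) (𝓕 : Finset (Finset α)) (hr : Ridge2 n 𝓕) (σ : Finset α)
    (hn : σ.card + n' = n) : Ridge2 n' (Lf 𝓕 σ) := by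
  intro R hR
  by_cases hd : Disjoint R σ
  · have h1 : (R ∪ σ).card + 1 = n := by
      rw [Finset.card_union_of_disjoint hd]
      omega
    refine le_trans ?_ (hr (R ∪ σ) h1)
    refine Finset.card_le_card_of_injOn (fun G => G ∪ σ) ?_ ?_
    · intro G hG
      rw [Finset.mem_coe, Finset.mem_filter] at hG
      obtain ⟨F, hF, h2, rfl⟩ := mem_Lf.1 hG.1
      show (F \ σ) ∪ σ ∈ 𝓕.filter fun F => R ∪ σ ⊆ F
      rw [Finset.mem_filter, Finset.sdiff_union_of_subset h2]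
      exact ⟨hF, Finset.union_subset (hG.2.trans Finset.sdiff_subset) h2⟩
    · intro G hG G' hG' h
      rw [Finset.mem_coe, Finset.mem_filter] at hG hG'
      obtain ⟨F, hF, h2, rfl⟩ := mem_Lf.1 hG.1
      obtain ⟨F', hF', h2', rfl⟩ := mem_Lf.1 hG'.1
      simp only [Finset.sdiff_union_of_subset h2, Finset.sdiff_union_of_subset h2'] at h
      rw [h]
  · have h1 : (Lf 𝓕 σ).filter (fun F => R ⊆ F) = ∅ := by
      rw [Finset.filter_eq_empty_iff]
      intro G hG hRG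
      obtain ⟨F, hF, h2, rfl⟩ := mem_Lf.1 hG
      exact hd (Finset.disjoint_of_subset_left hRG Finset.sdiff_disjoint)
    rw [h1]
    simp

end Pool.Agent.H4.Singer
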