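import Pool.Agent.H4.Singer.FaceGraph
import Pool.Agent.H4.Singer.TheoremA
import Pool.Agent.H4.Singer.LinkShell

/-!
# Singer project: stress-freeness of the odd flags of links
-/

set_option autoImplicit false
set_option linter.unusedSectionVars false

open Finset

namespace Pool.Agent.H4.Singer

variable {V C α : Type} [DecidableEq V] [Fintype V] [DecidableEq C] [DecidableEq α] [Fintype α]
  {K : Type} [Field K] [Infinite K]

/-- Each single family: `stressFree_comap` for `ι w = e w \ σ`, `U = UpOdd e σ`, from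
`oddFlags_stressFree` for the facets `Lf 𝓕 σ` of the link (`lf_shelling`, `lf_ridge2`). -/
theorem upOdd_stressFree (G : ColGraph V C) (e : V → Finset α) (h : FaceGraph G e) (m : ℕ)
    (𝓕 : Finset (Finset α)) (ord : Finset α → ℕ) (hsh : Shelling (2 * m + 1) 𝓕 ord)
    (hr : Ridge2 (2 * m + 1) 𝓕) (hK : ∀ v, ∃ F ∈ 𝓕, e v ⊆ F) (σ : Finset α) (hσ : Even σ.card)
    (hσm : σ.card ≤ 2 * m) :
    ∃ t : V → K, StressFree t (clq G (UpOdd e σ) (m + 1 - σ.card / 2)) := by
  classical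
  obtain ⟨c, hc⟩ := hσ
  have hc2 : σ.card / 2 = c := by omega
  rw [hc2]
  have hn : σ.card + (2 * (m - c) + 1) = 2 * m + 1 := by omega
  obtain ⟨ord', hsh'⟩ := lf_shelling (2 * m + 1) (2 * (m - c) + 1) 𝓕 ord hsh σ hn
  have hr' := lf_ridge2 (2 * m + 1) (2 * (m - c) + 1) 𝓕 hr σ hn
  obtain ⟨t, ht⟩ := oddFlags_stressFree (K := K) (m - c) (Lf 𝓕 σ) ord' hsh' hr'
  refine ⟨fun v => t (e v \ σ), stressFree_comap (fun v => e v \ σ) (UpOdd e σ) ?_ _
    (OddFlags (m - c) (Lf 𝓕 σ)) ?_ t ht⟩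
  · intro u hu v hv huv
    have hu' := (mem_UpOdd.1 (Finset.mem_coe.1 hu)).1
    have hv' := (mem_UpOdd.1 (Finset.mem_coe.1 hv)).1
    apply h.inj
    have h1 : e u = e u \ σ ∪ σ := (sdiff_union_of_subset hu'.1).symm
    have h2 : e v = e v \ σ ∪ σ := (sdiff_union_of_subset hv'.1).symm
    simp only at huv
    rw [h1, h2, huv]
  · intro φ hφ
    obtain ⟨h1, h2, h3⟩ := mem_clq.1 hφ
    have hinj : Set.InjOn (fun v => e v \ σ) φ := by
      intro u hu v hv huv
      have hu' := (mem_UpOdd.1 (h1 (Finset.mem_coe.1 hu))).1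
      have hv' := (mem_UpOdd.1 (h1 (Finset.mem_coe.1 hv))).1
      apply h.inj
      have h1 : e u = e u \ σ ∪ σ := (sdiff_union_of_subset hu'.1).symm
      have h2 : e v = e v \ σ ∪ σ := (sdiff_union_of_subset hv'.1).symm
      simp only at huv
      rw [h1, h2, huv]
    refine ⟨h1, ?_⟩
    unfold OddFlags
    rw [mem_filter]
    refine ⟨mem_univ _, ?_, ⟨?_, ?_⟩, ?_⟩
    · rw [card_image_of_injOn hinj, h3]
      omega
    · intro S hS S' hS'
      obtain ⟨u, hu, rfl⟩ := mem_image.1 hS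
      obtain ⟨v, hv, rfl⟩ := mem_image.1 hS'
      by_cases huv : u = v
      · subst huv
        exact Or.inl Subset.rfl
      · rcases (h.adj_iff u v).1 (h2 u hu v hv huv) with h4 | h4
        · exact Or.inl (sdiff_subset_sdiff h4.1 Subset.rfl)
        · exact Or.inr (sdiff_subset_sdiff h4.1 Subset.rfl)
    · intro S hS
      obtain ⟨u, hu, rfl⟩ := mem_image.1 hS
      exact (mem_UpOdd.1 (h1 hu)).2
    · intro S hS
      obtain ⟨u, hu, rfl⟩ := mem_image.1 hS
      obtain ⟨F, hF, hFu⟩ := hK u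
      refine ⟨F \ σ, ?_, sdiff_subset_sdiff hFu Subset.rfl⟩
      unfold Lf
      rw [mem_image]
      exact ⟨F, mem_filter.2 ⟨hF, ((mem_UpOdd.1 (h1 hu)).1.1).trans hFu⟩, rfl⟩

end Pool.Agent.H4.Singer
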