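import Pool.Agent.H4.Singer.VanMain
import Pool.Agent.H4.Singer.BtwSF
import Pool.Agent.H4.Singer.UpOddSF

/-!
# Singer project: generic parameters
-/

set_option autoImplicit false
set_option linter.unusedSectionVars false

open Finset

namespace Pool.Agent.H4.Singer

variable {V C α : Type} [DecidableEq V] [Fintype V] [DecidableEq C] [DecidableEq α] [Fintype α]
  {K : Type} [Field K] [Infinite K]

/-- `exists_common` with the (finite) index set of all pairs `(v, σ)` -/
theorem exists_goodB (G : ColGraph V C) (e : V → Finset α) (h : FaceGraph G e) :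
    ∃ t : V → K, GoodB G e t := by
  classical
  obtain ⟨t, -, ht⟩ := exists_common (K := K)
    (univ.filter fun p : V × Finset α => p.2 ⊂ e p.1 ∧ Even (e p.1 \ p.2).card)
    (fun p => clq G (Btw e p.2 (e p.1)) ((e p.1 \ p.2).card / 2))
    (fun p hp => by
      rw [mem_filter] at hp
      exact btw_stressFree G e h p.1 p.2 hp.2.1 hp.2.2) 1 one_ne_zero
  refine ⟨t, fun v σ h1 h2 => ht (v, σ) ?_⟩
  rw [mem_filter]
  exact ⟨mem_univ _, h1, h2⟩

theorem exists_goodB_goodU (G : ColGraph V C) (e : V → Finset α) (h : FaceGraph G e) (m : ℕ)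
    (𝓕 : Finset (Finset α)) (ord : Finset α → ℕ) (hsh : Shelling (2 * m + 1) 𝓕 ord)
    (hr : Ridge2 (2 * m + 1) 𝓕) (hK : ∀ v, ∃ F ∈ 𝓕, e v ⊆ F) :
    ∃ t : V → K, GoodB G e t ∧ GoodU G e t m := by
  classical
  obtain ⟨t, -, ht⟩ := exists_common (K := K)
    (univ.filter fun p : Option V × Finset α => match p.1 with
      | some v => p.2 ⊂ e v ∧ Even (e v \ p.2).card
      | none => Even p.2.card ∧ p.2.card ≤ 2 * m)
    (fun p => match p.1 with
      | some v => clq G (Btw e p.2 (e v)) ((e v \ p.2).card / 2)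
      | none => clq G (UpOdd e p.2) (m + 1 - p.2.card / 2))
    (fun p hp => by
      rcases p with ⟨_ | v, σ⟩
      · simp only [mem_filter, mem_univ, true_and] at hp
        exact upOdd_stressFree G e h m 𝓕 ord hsh hr hK σ hp.1 hp.2
      · simp only [mem_filter, mem_univ, true_and] at hp
        exact btw_stressFree G e h v σ hp.1 hp.2) 1 one_ne_zero
  refine ⟨t, fun v σ h1 h2 => ?_, fun σ h1 h2 => ?_⟩
  · have := ht (some v, σ) (by simp only [mem_filter, mem_univ, true_and]; exact ⟨h1, h2⟩)
    exact this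
  · have := ht (none, σ) (by simp only [mem_filter, mem_univ, true_and]; exact ⟨h1, h2⟩)
    exact this

end Pool.Agent.H4.Singer
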