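import Pool.Agent.H4.Singer.Core
import Pool.Agent.H4.Singer.Params

/-!
# Singer project: the main theorems
-/

set_option autoImplicit false
set_option linter.unusedSectionVars false

open Finset

namespace Pool.Agent.H4.Singer

/-- an algebraically closed field of characteristic two -/
abbrev KK : Type := AlgebraicClosure (ZMod 2)

section

variable {α : Type} [DecidableEq α]

/-- the coloured comparability graph of the faces of `K`, the colour is the number of vertices -/
def faceCol (K : Finset (Finset α)) (n : ℕ) (hdim : ∀ σ ∈ K, σ.card ≤ n) :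
    ColGraph {σ // σ ∈ K} (Fin (n + 1)) where
  adj a b := a.1 ⊂ b.1 ∨ b.1 ⊂ a.1
  symm _ _ h := h.symm
  col a := ⟨a.1.card, Nat.lt_succ_of_le (hdim a.1 a.2)⟩
  ne a b h := by
    intro heq
    have h1 : a.1.card = b.1.card := congrArg Fin.val heq
    rcases h with h | h
    · exact absurd h1 (Finset.card_lt_card h).ne
    · exact absurd h1 (Finset.card_lt_card h).ne'

theorem faceCol_faceGraph (K : Finset (Finset α)) (hK : IsComplex K) (n : ℕ)
    (hdim : ∀ σ ∈ K, σ.card ≤ n) :
    FaceGraph (faceCol K n hdim) (fun a : {σ // σ ∈ K} => a.1) where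
  inj := Subtype.val_injective
  adj_iff _ _ := Iff.rfl
  nonempty a := (hK a.1 a.2).1
  down a τ hτ hne := ⟨⟨τ, (hK a.1 a.2).2 τ hτ hne⟩, rfl⟩
  col a b h := Fin.ext h

end

/-- **Theorem (even case).** -/
theorem l2_even {α : Type} [Fintype α] [DecidableEq α] (K : Finset (Finset α)) (hK : IsComplex K)
    (n : ℕ) (hn : Even n) (hdim : ∀ σ ∈ K, σ.card ≤ n) (i : ℕ) (hi : n < 2 * i) :
    L2HomologyZero (sdGraph K) i := by
  have hF := faceCol_faceGraph K hK n hdim
  obtain ⟨t, ht⟩ := exists_goodB (K := KK) _ _ hF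
  exact core (sdGraph K) (faceCol K n hdim) (fun _ _ => Iff.rfl) t i
    (van_univ_even _ _ hF t ht n hn (fun a => hdim a.1 a.2) i hi)

theorem shelling_of_list {α : Type} [DecidableEq α] (n N : ℕ) (F : Fin N → Finset α)
    (hinj : Function.Injective F) (hcard : ∀ k, (F k).card = n)
    (hsh : ∀ k i, i < k → ∃ l, l < k ∧ F i ∩ F k ⊆ F l ∧ (F l ∩ F k).card + 1 = n)
    (hr : ∀ R : Finset α, R.card + 1 = n → (univ.filter fun k => R ⊆ F k).card ≤ 2) :
    ∃ ord, Shelling n (univ.image F) ord ∧ Ridge2 n (univ.image F) := by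
  classical
  have hord : ∃ ord : Finset α → ℕ, ∀ k, ord (F k) = k.val := by
    refine ⟨fun G => if h : ∃ k, F k = G then (h.choose).val else 0, fun k => ?_⟩
    have h : ∃ k', F k' = F k := ⟨k, rfl⟩
    simp only [dif_pos h]
    exact congrArg Fin.val (hinj h.choose_spec)
  obtain ⟨ord, hord⟩ := hord
  refine ⟨ord, ⟨?_, ?_, ?_⟩, ?_⟩
  · intro G hG
    obtain ⟨k, -, rfl⟩ := mem_image.1 hG
    exact hcard k
  · intro G hG G' hG' h
    obtain ⟨k, -, rfl⟩ := mem_image.1 hG
    obtain ⟨k', -, rfl⟩ := mem_image.1 hG'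
    rw [hord, hord] at h
    rw [Fin.ext h]
  · intro G hG G' hG' h
    obtain ⟨k, -, rfl⟩ := mem_image.1 hG
    obtain ⟨i, -, rfl⟩ := mem_image.1 hG'
    rw [hord, hord] at h
    obtain ⟨l, h1, h2, h3⟩ := hsh k i h
    refine ⟨F l, mem_image_of_mem _ (mem_univ _), ?_, h2, h3⟩
    rw [hord, hord]
    exact h1
  · intro R hR
    refine le_trans ?_ (hr R hR)
    rw [Finset.filter_image]
    exact Finset.card_image_le

/-- **Theorem (odd case).** -/
theorem l2_odd {α : Type} [Fintype α] [DecidableEq α] (K : Finset (Finset α)) (n : ℕ)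
    (hn : Odd n) (hK : IsShellableSphereOrBall n K) (i : ℕ) (hi : n < 2 * i) :
    L2HomologyZero (sdGraph K) i := by
  obtain ⟨m, rfl⟩ := hn
  obtain ⟨N, F, hinj, hcard, hmem, hsh, hr⟩ := hK
  have hKc : IsComplex K := by
    intro σ hσ
    obtain ⟨h1, k, h2⟩ := (hmem σ).1 hσ
    exact ⟨h1, fun τ hτ hne => (hmem τ).2 ⟨hne, k, hτ.trans h2⟩⟩
  have hdim : ∀ σ ∈ K, σ.card ≤ 2 * m + 1 := by
    intro σ hσ
    obtain ⟨h1, k, h2⟩ := (hmem σ).1 hσ
    exact (Finset.card_le_card h2).trans (hcard k).le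
  have hF := faceCol_faceGraph K hKc (2 * m + 1) hdim
  obtain ⟨ord, h1, h2⟩ := shelling_of_list (2 * m + 1) N F hinj hcard hsh hr
  obtain ⟨t, ht, hU⟩ := exists_goodB_goodU (K := KK) _ _ hF m _ ord h1 h2 (by
    rintro ⟨σ, hσ⟩
    obtain ⟨-, k, h3⟩ := (hmem σ).1 hσ
    exact ⟨F k, mem_image_of_mem _ (mem_univ _), h3⟩)
  exact core (sdGraph K) (faceCol K (2 * m + 1) hdim) (fun _ _ => Iff.rfl) t i
    (van_univ_odd _ _ hF t ht m hU (fun a => hdim a.1 a.2) i hi)

/-- **Main theorem.** Let `K` be a finite simplicial complex of dimension at most `n - 1` where `n` is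
even, or a shellable sphere or ball of dimension `n - 1`. Let `W` be the right-angled Coxeter group
whose nerve is the barycentric subdivision of `K`. Then the reduced `ℓ²`-homology of the Davis
complex of `W` vanishes in all degrees `i > n / 2`. -/
theorem main {α : Type} [Fintype α] [DecidableEq α] (K : Finset (Finset α)) (n : ℕ)
    (h : (Even n ∧ IsComplex K ∧ ∀ σ ∈ K, σ.card ≤ n) ∨ IsShellableSphereOrBall n K) (i : ℕ)
    (hi : n < 2 * i) : L2HomologyZero (sdGraph K) i := by
  rcases h with ⟨h1, h2, h3⟩ | h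
  · exact l2_even K h2 n h1 h3 i hi
  · rcases Nat.even_or_odd n with hn | hn
    · obtain ⟨N, F, hinj, hcard, hmem, hsh, hr⟩ := h
      refine l2_even K ?_ n hn ?_ i hi
      · intro σ hσ
        obtain ⟨h1, k, h2⟩ := (hmem σ).1 hσ
        exact ⟨h1, fun τ hτ hne => (hmem τ).2 ⟨hne, k, hτ.trans h2⟩⟩
      · intro σ hσ
        obtain ⟨h1, k, h2⟩ := (hmem σ).1 hσ
        exact (Finset.card_le_card h2).trans (hcard k).le
    · exact l2_odd K n hn h i hi

end Pool.Agent.H4.Singer
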