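import Pool.Agent.H4.Singer.ActBasic

/-!
# Singer project: invariant halves of double covers
-/

set_option autoImplicit false
set_option linter.unusedSectionVars false

open Finset

namespace Pool.Agent.H4.Singer

variable {V C : Type} [DecidableEq V] [Fintype V] [DecidableEq C] {G : ColGraph V C}

private theorem exists_code {Ω : Type} [Finite Ω] (X : InvAct G Ω) (σ : Finset V) :
    G.Cl σ → ∃ κ : Ω → ℕ, (∀ v ∈ σ, ∀ ω, κ (X.s v ω) = κ ω) ∧
      ∀ ω ω', κ ω = κ ω' → (∀ v ∈ σ, X.bit ω (G.col v) = X.bit ω' (G.col v)) → ω = ω' := by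
  induction σ using Finset.induction_on with
  | empty =>
    intro _
    obtain ⟨n, ⟨e⟩⟩ := Finite.exists_equiv_fin Ω
    refine ⟨fun ω => (e ω : ℕ), fun v hv => absurd hv (Finset.notMem_empty v), fun ω ω' h _ => ?_⟩
    exact e.injective (Fin.ext h)
  | insert u σ hu ih =>
    intro hcl
    have hcl' : G.Cl σ := fun a ha b hb hab =>
      hcl a (mem_insert_of_mem ha) b (mem_insert_of_mem hb) hab
    have hadj : ∀ v ∈ σ, G.adj u v := fun v hv =>
      hcl u (mem_insert_self _ _) v (mem_insert_of_mem hv) (fun h => hu (h ▸ hv))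
    obtain ⟨κ, h1, h2⟩ := ih hcl'
    refine ⟨fun ω => Nat.pair (min (κ ω) (κ (X.s u ω))) (max (κ ω) (κ (X.s u ω))), ?_, ?_⟩
    · intro v hv ω
      rcases Finset.mem_insert.1 hv with rfl | hv
      · simp only [X.invol]
        rw [min_comm, max_comm]
      · have e1 : κ (X.s u (X.s v ω)) = κ (X.s u ω) := by
          rw [X.comm u v (hadj v hv), h1 v hv]
        simp only [e1, h1 v hv]
    · intro ω ω' h hb
      obtain ⟨ha, hb'⟩ := Nat.pair_eq_pair.1 h
      have hbσ : ∀ v ∈ σ, X.bit ω (G.col v) = X.bit ω' (G.col v) := fun v hv =>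
        hb v (mem_insert_of_mem hv)
      have hcases : κ ω = κ ω' ∨ κ ω = κ (X.s u ω') := by omega
      rcases hcases with h0 | h0
      · exact h2 ω ω' h0 hbσ
      · exfalso
        have h3 : ω = X.s u ω' := by
          refine h2 ω _ h0 fun v hv => ?_
          rw [X.bit_s, Function.update_of_ne (G.ne u v (hadj v hv)).symm]
          exact hbσ v hv
        have h4 := hb u (mem_insert_self _ _)
        rw [h3, X.bit_s, Function.update_self] at h4
        cases hc : X.bit ω' (G.col u) <;> rw [hc] at h4 <;> exact absurd h4 (by decide)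

/-- A free involution `τ` commuting with the action and preserving the bits: there is an invariant
(under the `s v`, `v ∈ σ`) set that contains exactly one element of each pair `{ω, τ ω}`.

Proof: by induction on `σ` there is `κ : Ω → ℕ` with `κ (s v ω) = κ ω` for `v ∈ σ` such that
`κ ω = κ ω'` and `bit ω (col v) = bit ω' (col v)` for all `v ∈ σ` imply `ω = ω'`. (For `σ = ∅` take
an injection `Ω → ℕ`; for `insert u σ` encode the unordered pair `{κ ω, κ (s u ω)}`.) Then
`κ (τ ω) ≠ κ ω` and `D ω := κ ω < κ (τ ω)` works. -/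
theorem exists_half {Ω : Type} [Finite Ω] (X : InvAct G Ω) (τ : Ω → Ω)
    (hτs : ∀ v ω, τ (X.s v ω) = X.s v (τ ω)) (hτ2 : ∀ ω, τ (τ ω) = ω) (hτ : ∀ ω, τ ω ≠ ω)
    (hbit : ∀ ω, X.bit (τ ω) = X.bit ω) (σ : Finset V) (hσ : G.Cl σ) :
    ∃ D : Ω → Prop, (∀ v ∈ σ, ∀ ω, D (X.s v ω) ↔ D ω) ∧ ∀ ω, D ω ↔ ¬ D (τ ω) := by
  obtain ⟨κ, h1, h2⟩ := exists_code X σ hσ
  refine ⟨fun ω => κ ω < κ (τ ω), fun v hv ω => ?_, fun ω => ?_⟩
  · show κ (X.s v ω) < κ (τ (X.s v ω)) ↔ κ ω < κ (τ ω)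
    rw [hτs, h1 v hv, h1 v hv]
  · have hne : κ ω ≠ κ (τ ω) := fun h =>
      hτ ω (h2 ω (τ ω) h fun v _ => by rw [hbit]).symm
    show κ ω < κ (τ ω) ↔ ¬ κ (τ ω) < κ (τ (τ ω))
    rw [hτ2]
    omega

end Pool.Agent.H4.Singer
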