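import Mathlib

/-!
# Singer project: homotopies in exact degrees
-/

set_option autoImplicit false
set_option linter.unusedSectionVars false

open Finset

namespace Pool.Agent.H4.Singer

open scoped Matrix

/-- Linear algebra over a field: if `ker D ∩ range P ⊆ D (range P')` (where `range P'` is the space
of the fixed vectors of `P'`), then there is a homotopy. Proof: let `Z = {z | P z = z, D z = 0}`.
Choose a linear map `s : Z → (J → K)` with `P' (s z) = s z`, `D (s z) = z`, and extend it to `H` on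
`J → K` (`LinearMap.exists_extend`). The map `z ↦ z - D H z` on `range P` vanishes on
`Z = ker (D restricted to range P)`, so it factors through `D`. -/
theorem exists_homotopy {J K : Type} [Fintype J] [DecidableEq J] [Field K] (P P' D : Matrix J J K) (hP : P * P = P)
    (hex : ∀ z : J → K, P *ᵥ z = z → D *ᵥ z = 0 → ∃ y : J → K, P' *ᵥ y = y ∧ D *ᵥ y = z) :
    ∃ H H' : Matrix J J K, P' * H = H ∧ (D * H + H' * D) * P = P := by
  classical
  let E := J → K
  let fP : E →ₗ[K] E := P.mulVecLin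
  let fP' : E →ₗ[K] E := P'.mulVecLin
  let fD : E →ₗ[K] E := D.mulVecLin
  have aP : ∀ z, fP z = P *ᵥ z := fun z => rfl
  have aP' : ∀ z, fP' z = P' *ᵥ z := fun z => rfl
  have aD : ∀ z, fD z = D *ᵥ z := fun z => rfl
  -- cycles
  let Z : Submodule K E := LinearMap.ker (fP - LinearMap.id) ⊓ LinearMap.ker fD
  have hZ : ∀ z, z ∈ Z ↔ P *ᵥ z = z ∧ D *ᵥ z = 0 := by
    intro z
    show z ∈ LinearMap.ker (fP - LinearMap.id) ∧ z ∈ LinearMap.ker fD ↔ _
    rw [LinearMap.mem_ker, LinearMap.mem_ker, LinearMap.sub_apply, LinearMap.id_apply, sub_eq_zero]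
    exact Iff.rfl
  -- the fixed vectors of `P'`
  let W : Submodule K E := LinearMap.ker (fP' - LinearMap.id)
  have hW : ∀ z, z ∈ W ↔ P' *ᵥ z = z := by
    intro z
    show z ∈ LinearMap.ker (fP' - LinearMap.id) ↔ _
    rw [LinearMap.mem_ker, LinearMap.sub_apply, LinearMap.id_apply, sub_eq_zero]
    exact Iff.rfl
  -- a section over `Z`, by values on a basis
  let b := Module.Basis.ofVectorSpace K Z
  have hy : ∀ i, ∃ y : W, D *ᵥ (y : E) = ((b i : Z) : E) := by
    intro i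
    obtain ⟨h1, h2⟩ := (hZ _).1 (b i).2
    obtain ⟨y, hy1, hy2⟩ := hex _ h1 h2
    exact ⟨⟨y, (hW y).2 hy1⟩, hy2⟩
  choose y hy using hy
  let s : Z →ₗ[K] W := b.constr K y
  have hs : ∀ z : Z, D *ᵥ ((s z : W) : E) = (z : E) := by
    have h1 : fD ∘ₗ W.subtype ∘ₗ s = Z.subtype := by
      apply b.ext
      intro i
      show D *ᵥ ((s (b i) : W) : E) = ((b i : Z) : E)
      rw [Module.Basis.constr_basis]
      exact hy i
    intro z
    exact LinearMap.congr_fun h1 z
  obtain ⟨h, hh⟩ := LinearMap.exists_extend s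
  have hh' : ∀ z : Z, h (z : E) = s z := fun z => LinearMap.congr_fun hh z
  let fH : E →ₗ[K] E := W.subtype ∘ₗ h
  -- the second map: `z ↦ z - D H z` on the range of `P`
  let ψ : E →ₗ[K] E := (LinearMap.id - fD ∘ₗ fH) ∘ₗ fP
  let χ : E →ₗ[K] E := fD ∘ₗ fP
  have hker : LinearMap.ker χ ≤ LinearMap.ker ψ := by
    intro z hz
    rw [LinearMap.mem_ker] at hz ⊢
    have hz' : D *ᵥ (P *ᵥ z) = 0 := hz
    have hPz : P *ᵥ z ∈ Z := by
      rw [hZ]
      refine ⟨?_, hz'⟩
      rw [Matrix.mulVec_mulVec, hP]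
    show P *ᵥ z - D *ᵥ ((h (P *ᵥ z) : W) : E) = 0
    rw [hh' ⟨P *ᵥ z, hPz⟩, hs]
    simp
  obtain ⟨κ, hκ⟩ := LinearMap.exists_extend
    ((LinearMap.ker χ).liftQ ψ hker ∘ₗ (χ.quotKerEquivRange.symm : LinearMap.range χ →ₗ[K] _))
  have hκ' : ∀ z : E, κ (χ z) = ψ z := by
    intro z
    have h1 := LinearMap.congr_fun hκ ⟨χ z, z, rfl⟩
    have h2 : (κ ∘ₗ (LinearMap.range χ).subtype) ⟨χ z, z, rfl⟩ = κ (χ z) := rfl
    rw [← h2, h1]
    show (LinearMap.ker χ).liftQ ψ hker (χ.quotKerEquivRange.symm ⟨χ z, z, rfl⟩) = ψ z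
    have h3 : χ.quotKerEquivRange.symm ⟨χ z, z, rfl⟩ = (LinearMap.ker χ).mkQ z := by
      rw [LinearEquiv.symm_apply_eq]
      rfl
    rw [h3]
    rfl
  have hinj : ∀ A B : Matrix J J K, (∀ z : E, A *ᵥ z = B *ᵥ z) → A = B := by
    intro A B hAB
    apply Matrix.toLin'.injective
    apply LinearMap.ext
    intro z
    rw [Matrix.toLin'_apply, Matrix.toLin'_apply]
    exact hAB z
  refine ⟨LinearMap.toMatrix' fH, LinearMap.toMatrix' κ, ?_, ?_⟩
  · apply hinj
    intro z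
    rw [← Matrix.mulVec_mulVec, LinearMap.toMatrix'_mulVec]
    exact (hW _).1 (h z).2
  · apply hinj
    intro z
    rw [← Matrix.mulVec_mulVec, Matrix.add_mulVec,
      ← Matrix.mulVec_mulVec, ← Matrix.mulVec_mulVec, LinearMap.toMatrix'_mulVec,
      LinearMap.toMatrix'_mulVec]
    have h1 := hκ' z
    have h2 : χ z = D *ᵥ (P *ᵥ z) := rfl
    have h3 : ψ z = P *ᵥ z - D *ᵥ (fH (P *ᵥ z)) := rfl
    rw [h2, h3] at h1
    rw [h1]
    abel

end Pool.Agent.H4.Singer
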