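import Pool.Agent.H4.Singer.Elim

/-!
# Singer project: joins with a stress-free complex
-/

set_option autoImplicit false
set_option linter.unusedSectionVars false

open Finset

namespace Pool.Agent.H4.Singer

variable {V C : Type} [DecidableEq V] [Fintype V] [DecidableEq C] {K : Type} [Field K]

open Classical in
/-- the cliques with `r` vertices in `U` -/
noncomputable def clq (G : ColGraph V C) (U : Finset V) (r : ℕ) : Finset (Finset V) :=
  univ.filter fun φ => φ ⊆ U ∧ G.Cl φ ∧ φ.card = r

theorem mem_clq {G : ColGraph V C} {U : Finset V} {r : ℕ} {φ : Finset V} :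
    φ ∈ clq G U r ↔ φ ⊆ U ∧ G.Cl φ ∧ φ.card = r := by
  classical
  simp [clq]

/-- easy consequence of `elim_join` with `b = r` -/
theorem van_join_dim [CharP K 2] (G : ColGraph V C) (t : V → K) (A B : Finset V)
    (hAB : ∀ u ∈ A, ∀ v ∈ B, G.adj u v) (a₀ : ℕ) (hA : ∀ j, a₀ ≤ j → Van G t A j) (r : ℕ)
    (hB : ∀ σ ⊆ B, G.Cl σ → σ.card ≤ r) (j : ℕ) (hj : a₀ + r ≤ j) : Van G t (A ∪ B) j := by
  intro z hz hbz
  refine elim_join G t A B hAB a₀ hA r j hj z hz hbz fun σ a h => ?_
  have h1 := (hz.supp σ a h).2.1
  exact hB _ Finset.inter_subset_right (h1.mono Finset.inter_subset_left)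

/-- a chain only depends on the bits of the colours outside `σ` -/
theorem jtop_agree {G : ColGraph V C} {U : Finset V} {j : ℕ} {z : Finset V → (C → Bool) → K}
    (hz : IsChain G U j z) (σ : Finset V) (a a' : C → Bool)
    (h : ∀ c, (∀ v ∈ σ, G.col v ≠ c) → a c = a' c) : z σ a = z σ a' := by
  have key : ∀ s : Finset V, s ⊆ σ →
      z σ a = z σ (fun c => if c ∈ s.image G.col then a' c else a c) := by
    intro s
    induction s using Finset.induction_on with
    | empty => intro _; simp
    | insert v s hv ih =>
      intro hs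
      rw [ih ((Finset.subset_insert v s).trans hs)]
      rw [← hz.indep σ (fun c => if c ∈ s.image G.col then a' c else a c) v (a' (G.col v))
        (hs (Finset.mem_insert_self v s))]
      congr 1
      funext c
      by_cases hc : c = G.col v
      · subst hc
        rw [Function.update_self, if_pos]
        exact Finset.mem_image_of_mem _ (Finset.mem_insert_self v s)
      · rw [Function.update_of_ne hc]
        have : c ∈ (insert v s).image G.col ↔ c ∈ s.image G.col := by
          rw [Finset.image_insert, Finset.mem_insert]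
          simp [hc]
        simp only [this]
  rw [key σ le_rfl]
  congr 1
  funext c
  by_cases hc : c ∈ σ.image G.col
  · rw [if_pos hc]
  · rw [if_neg hc]
    refine h c fun v hv hvc => hc ?_
    rw [← hvc]
    exact Finset.mem_image_of_mem _ hv

section Top

variable [CharP K 2] (G : ColGraph V C) (t : V → K) (A B : Finset V)
    (hAB : ∀ u ∈ A, ∀ v ∈ B, G.adj u v) (a : ℕ) (r : ℕ)
    (hcol : ∀ β ∈ clq G B r, ∀ v ∈ B, ∃ u ∈ β, G.col u = G.col v)

/-- the component of a chain at `β` -/
def jcomp (A : Finset V) (z : Finset V → (C → Bool) → K) (β : Finset V) :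
    Finset V → (C → Bool) → K :=
  fun α a => if α ⊆ A then z (α ∪ β) a else 0

include hAB in
theorem jtop_notMem {v : V} (hv : v ∈ B) : v ∉ A := fun h => G.ne v v (hAB v h v hv) rfl

include hAB in
theorem jtop_card {α β : Finset V} (hα : α ⊆ A) (hβ : β ⊆ B) :
    (α ∪ β).card = α.card + β.card := by
  apply Finset.card_union_of_disjoint
  rw [Finset.disjoint_left]
  intro x hx hx'
  exact jtop_notMem G A B hAB (hβ hx') (hα hx)

include hAB hcol in
/-- the key identity -/
theorem jtop_key (z : Finset V → (C → Bool) → K) (hz : IsChain G (A ∪ B) (a + r) z)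
    (hbz : bd G t z = 0) (τ : Finset V) (v₀ : V) (hv₀ : v₀ ∉ τ) (hτ : insert v₀ τ ∈ clq G B r)
    (b : Bool) :
    ∃ y : Finset V → (C → Bool) → K, IsChain G A (a + 1) y ∧
      bd G t y = ∑ v ∈ τᶜ, if insert v τ ∈ clq G B r then
        wt t v b • jcomp A z (insert v τ) else 0 := by
  classical
  have hτ' := mem_clq.1 hτ
  have hv₀B : v₀ ∈ B := hτ'.1 (Finset.mem_insert_self _ _)
  have hτB : τ ⊆ B := (Finset.subset_insert _ _).trans hτ'.1
  have hτcard : τ.card + 1 = r := by
    rw [← hτ'.2.2, Finset.card_insert_of_notMem hv₀]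
  set c : C := G.col v₀ with hc
  have hcv : ∀ v, v ∉ τ → insert v τ ∈ clq G B r → G.col v = c := by
    intro v hv hvc
    obtain ⟨u, hu, huc⟩ := hcol _ hvc v₀ hv₀B
    rcases Finset.mem_insert.1 hu with rfl | hu
    · exact huc
    · exfalso
      have : G.adj u v₀ := hτ'.2.1 u (Finset.mem_insert_of_mem hu) v₀
        (Finset.mem_insert_self _ _) (fun h => hv₀ (h ▸ hu))
      exact G.ne _ _ this huc
  have hcA : ∀ v ∈ A, G.col v ≠ c := fun v hv => G.ne v v₀ (hAB v hv v₀ hv₀B)
  refine ⟨fun α a' => if α ⊆ A then z (α ∪ τ) (Function.update a' c b) else 0, ⟨?_, ?_⟩, ?_⟩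
  · intro α a' h
    by_cases hα : α ⊆ A
    · simp only [if_pos hα] at h
      obtain ⟨h1, h2, h3⟩ := hz.supp _ _ h
      rw [jtop_card G A B hAB hα hτB] at h3
      exact ⟨hα, h2.mono Finset.subset_union_left, by omega⟩
    · simp only [if_neg hα] at h
      exact absurd rfl h
  · intro α a' v b' hv
    by_cases hα : α ⊆ A
    · simp only [if_pos hα]
      rw [Function.update_comm (hcA v (hα hv))]
      exact hz.indep _ _ v b' (Finset.mem_union_left _ hv)
    · simp only [if_neg hα]
  · funext α a'
    have hR : (∑ v ∈ τᶜ, if insert v τ ∈ clq G B r then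
        wt t v b • jcomp A z (insert v τ) else 0) α a' =
        ∑ v ∈ τᶜ, if insert v τ ∈ clq G B r then
          wt t v b * jcomp A z (insert v τ) α a' else 0 := by
      rw [Finset.sum_apply, Finset.sum_apply]
      refine Finset.sum_congr rfl fun v _ => ?_
      split_ifs <;> rfl
    rw [hR]
    by_cases hα : α ⊆ A
    swap
    · unfold bd jcomp
      rw [Finset.sum_eq_zero, Finset.sum_eq_zero]
      · intro v _
        simp [hα]
      · intro v _
        beta_reduce
        rw [if_neg (fun h => hα ((Finset.subset_insert _ _).trans h)), smul_zero]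
    have hcyc : bd G t z (α ∪ τ) (Function.update a' c b) = 0 := by rw [hbz]; rfl
    unfold bd at hcyc ⊢
    set a'' := Function.update a' c b with ha''
    rw [← CharTwo.add_eq_zero]
    refine Eq.trans ?_ hcyc
    have e1 : ∀ (s : Finset V) (f : V → K), ∑ v ∈ sᶜ, f v = ∑ v, if v ∈ s then 0 else f v := by
      intro s f
      rw [← Finset.sum_filter_add_sum_filter_not univ (fun v => v ∈ s)]
      rw [Finset.sum_eq_zero (s := univ.filter fun v => v ∈ s)]
      · rw [zero_add]
        apply Finset.sum_congr
        · ext v; simp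
        · intro v hv
          rw [if_neg]
          simpa using hv
      · intro v hv
        rw [if_pos]
        simpa using hv
    rw [e1, e1, e1, ← Finset.sum_add_distrib]
    refine Finset.sum_congr rfl fun v _ => ?_
    beta_reduce
    by_cases hvA : v ∈ A
    · have hvB : v ∉ B := fun h => jtop_notMem G A B hAB h hvA
      have hvτ : v ∉ τ := fun h => hvB (hτB h)
      have hn : insert v τ ∉ clq G B r := fun h =>
        hvB ((mem_clq.1 h).1 (Finset.mem_insert_self _ _))
      rw [if_neg hvτ, if_neg hn, add_zero]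
      by_cases hvα : v ∈ α
      · rw [if_pos hvα, if_pos (Finset.mem_union_left _ hvα)]
      · have hvu : v ∉ α ∪ τ := fun h => (Finset.mem_union.1 h).elim hvα hvτ
        rw [if_neg hvα, if_neg hvu, if_pos (Finset.insert_subset hvA hα),
          Finset.insert_union, ha'', Function.update_of_ne (hcA v hvA)]
    · have hvα : v ∉ α := fun h => hvA (hα h)
      rw [if_neg hvα, if_neg (fun h : insert v α ⊆ A => hvA (h (Finset.mem_insert_self _ _))),
        smul_zero, zero_add]
      by_cases hvτ : v ∈ τ
      · rw [if_pos hvτ, if_pos (Finset.mem_union_right _ hvτ)]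
      · have hvu : v ∉ α ∪ τ := fun h => (Finset.mem_union.1 h).elim hvα hvτ
        rw [if_neg hvτ, if_neg hvu]
        by_cases hq : insert v τ ∈ clq G B r
        · rw [if_pos hq]
          unfold jcomp
          rw [if_pos hα, ha'', ← hcv v hvτ hq, Function.update_self, Finset.union_insert]
          rw [hz.indep _ _ v b (Finset.mem_insert_self _ _), smul_eq_mul]
        · rw [if_neg hq]
          symm
          by_contra hne
          apply hq
          have hz0 : z (insert v (α ∪ τ)) a'' ≠ 0 := fun h => hne (by rw [h, smul_zero])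
          obtain ⟨h1, h2, h3⟩ := hz.supp _ _ hz0
          rw [mem_clq]
          refine ⟨Finset.insert_subset ?_ hτB, h2.mono ?_, ?_⟩
          · exact (Finset.mem_union.1 (h1 (Finset.mem_insert_self _ _))).resolve_left hvA
          · exact Finset.insert_subset_insert _ Finset.subset_union_right
          · rw [Finset.card_insert_of_notMem hvτ, hτcard]

end Top

/-- The top components can be removed as well if the top flags of `B` (which have all colours of
`B`) are stress-free. Let `z` be a cycle of degree `a + r` on `A ∪ B`. For `β ∈ clq G B r` the chain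
`z_β α = z (α ∪ β)` is a cycle of degree `a` on `A`, and `z_β α a` does not depend on the colours
of `B`. For `|β'| = r - 1` the cycle condition for `z` at `α ∪ β'` says that
`∑_v wt t v (a (col v)) • z_{β' ∪ v}` is a boundary on `A`; with the colour bit of `v ∉ β'` equal
to `false`, `true` we get that `∑_v z_{β' ∪ v}` and `∑_v t_v z_{β' ∪ v}` are boundaries of chains on
`A` (with bits of the colours of `B` fixed). Hence for a linear functional `lam` on
`Finset V → (C → Bool) → K` that vanishes on the subspace `{∂ y | IsChain G A (a + 1) y}`, the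
function `β ↦ lam z_β` is a stress on `clq G B r`, so it is zero. Since a vector that is killed by
all such functionals is in the subspace (`Submodule.exists_le_ker_of_notMem`), `z_β = ∂ y_β`.
Subtract `∂` of the chain `y σ = y_{σ ∩ B} (σ ∩ A)` (`|σ ∩ B| = r`) from `z` and apply `elim_join`
with `a₀ = a + 1`, `b = r - 1`. -/
theorem van_join_top [CharP K 2] (G : ColGraph V C) (t : V → K) (A B : Finset V)
    (hAB : ∀ u ∈ A, ∀ v ∈ B, G.adj u v) (a : ℕ) (hA : ∀ j, a + 1 ≤ j → Van G t A j) (r : ℕ)
    (hr : 1 ≤ r) (hB : ∀ σ ⊆ B, G.Cl σ → σ.card ≤ r)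
    (hcol : ∀ β ∈ clq G B r, ∀ v ∈ B, ∃ u ∈ β, G.col u = G.col v)
    (hSF : StressFree t (clq G B r)) : Van G t (A ∪ B) (a + r) := by
  classical
  intro z hz hbz
  -- the subspace of boundaries
  let Bd : Submodule K (Finset V → (C → Bool) → K) :=
    { carrier := {x | ∃ y : Finset V → (C → Bool) → K, IsChain G A (a + 1) y ∧ bd G t y = x}
      zero_mem' := ⟨0, IsChain.zero, bd_zero G t⟩
      add_mem' := by
        rintro _ _ ⟨y, hy, rfl⟩ ⟨y', hy', rfl⟩
        exact ⟨y + y', hy.add hy', bd_add G t y y'⟩
      smul_mem' := by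
        rintro s _ ⟨y, hy, rfl⟩
        exact ⟨s • y, hy.smul s, bd_smul G t s y⟩ }
  have claim : ∀ β ∈ clq G B r, jcomp A z β ∈ Bd := by
    intro β hβ
    by_contra hn
    obtain ⟨lam, hlam, hker⟩ := Submodule.exists_le_ker_of_notMem hn
    have hst : Stress t (clq G B r)
        (fun φ => if φ ∈ clq G B r then lam (jcomp A z φ) else 0) := by
      have key : ∀ (τ : Finset V) (b : Bool), ∑ v ∈ τᶜ, wt t v b *
          (if insert v τ ∈ clq G B r then lam (jcomp A z (insert v τ)) else 0) = 0 := by
        intro τ b
        by_cases hex : ∃ v₀, v₀ ∉ τ ∧ insert v₀ τ ∈ clq G B r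
        · obtain ⟨v₀, h1, h2⟩ := hex
          obtain ⟨y, hy, hby⟩ := jtop_key G t A B hAB a r hcol z hz hbz τ v₀ h1 h2 b
          have h3 : bd G t y ∈ Bd := ⟨y, hy, rfl⟩
          have h4 := hker h3
          rw [LinearMap.mem_ker, hby, map_sum] at h4
          refine Eq.trans ?_ h4
          refine Finset.sum_congr rfl fun v _ => ?_
          split_ifs
          · rw [map_smul, smul_eq_mul]
          · rw [mul_zero, map_zero]
        · apply Finset.sum_eq_zero
          intro v hv
          rw [Finset.mem_compl] at hv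
          rw [if_neg (fun h => hex ⟨v, hv, h⟩), mul_zero]
      refine ⟨?_, ?_, ?_⟩
      · intro φ hφ
        by_contra hn
        exact hφ (if_neg hn)
      · intro τ
        have := key τ false
        simpa [wt] using this
      · intro τ
        have := key τ true
        simpa [wt] using this
    have h0 := congrFun (hSF _ hst) β
    simp only [if_pos hβ, Pi.zero_apply] at h0
    exact hlam h0
  -- choose primitives, independent of the colours of `β`
  have claim2 : ∀ β ∈ clq G B r, ∃ y : Finset V → (C → Bool) → K, IsChain G A (a + 1) y ∧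
      bd G t y = jcomp A z β ∧ ∀ α a' v b, v ∈ β → y α (Function.update a' (G.col v) b) =
        y α a' := by
    intro β hβ
    obtain ⟨y, hy, hby⟩ := claim β hβ
    have hβ' := mem_clq.1 hβ
    have hcolA : ∀ u ∈ A, ∀ v ∈ β, G.col u ≠ G.col v := fun u hu v hv =>
      G.ne u v (hAB u hu v (hβ'.1 hv))
    refine ⟨fun α a' => y α (fun c => if ∃ v ∈ β, G.col v = c then false else a' c),
      ⟨?_, ?_⟩, ?_, ?_⟩
    · intro α a' h
      exact hy.supp _ _ h
    · intro α a' v b hv
      by_cases hy0 : ∀ a'', y α a'' = 0
      · rw [hy0, hy0]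
      · push Not at hy0
        obtain ⟨a'', ha''⟩ := hy0
        have hαA := (hy.supp _ _ ha'').1
        rw [← hy.indep α (fun c => if ∃ v ∈ β, G.col v = c then false else a' c) v b hv]
        congr 1
        funext c
        by_cases hc : c = G.col v
        · subst hc
          rw [Function.update_self, Function.update_self, if_neg]
          rintro ⟨u, hu, huc⟩
          exact hcolA v (hαA hv) u hu huc.symm
        · rw [Function.update_of_ne hc, Function.update_of_ne hc]
    · funext α a'
      have h1 : bd G t y α (fun c => if ∃ v ∈ β, G.col v = c then false else a' c) =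
          jcomp A z β α a' := by
        rw [hby]
        unfold jcomp
        split_ifs with hα
        · refine jtop_agree hz _ _ _ fun c hc => ?_
          rw [if_neg]
          rintro ⟨v, hv, hvc⟩
          exact hc v (Finset.mem_union_right _ hv) hvc
        · rfl
      rw [← h1]
      unfold bd
      refine Finset.sum_congr rfl fun v _ => ?_
      by_cases hy0 : y (insert v α) (fun c => if ∃ v ∈ β, G.col v = c then false else a' c) = 0
      · simp only [hy0, smul_zero]
      · have hvA : v ∈ A := (hy.supp _ _ hy0).1 (Finset.mem_insert_self _ _)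
        congr 2
        beta_reduce
        rw [if_neg]
        rintro ⟨u, hu, huc⟩
        exact hcolA v hvA u hu huc.symm
    · intro α a' v b hv
      refine congrArg (y α) (funext fun c => ?_)
      by_cases hc : ∃ v ∈ β, G.col v = c
      · rw [if_pos hc, if_pos hc]
      · rw [if_neg hc, if_neg hc, Function.update_of_ne]
        rintro rfl
        exact hc ⟨v, hv, rfl⟩
  choose! Y hY1 hY2 hY3 using claim2
  -- the chain
  let y : Finset V → (C → Bool) → K := fun σ a' =>
    if σ ⊆ A ∪ B ∧ σ ∩ B ∈ clq G B r then Y (σ ∩ B) (σ ∩ A) a' else 0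
  have hsplit : ∀ σ, σ ⊆ A ∪ B → (σ ∩ A) ∪ (σ ∩ B) = σ := by
    intro σ hσ
    rw [← Finset.inter_union_distrib_left]
    exact Finset.inter_eq_left.2 hσ
  have hy : IsChain G (A ∪ B) (a + r + 1) y := by
    refine ⟨?_, ?_⟩
    · intro σ a' h
      by_cases hσ : σ ⊆ A ∪ B ∧ σ ∩ B ∈ clq G B r
      · have h' : Y (σ ∩ B) (σ ∩ A) a' ≠ 0 := by
          intro h0
          apply h
          change (if _ then _ else _) = _
          rw [if_pos hσ, h0]
        have hq := mem_clq.1 hσ.2
        obtain ⟨h1, h2, h3⟩ := (hY1 _ hσ.2).supp _ _ h'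
        refine ⟨hσ.1, ?_, ?_⟩
        · intro u hu v hv huv
          rcases Finset.mem_union.1 (hσ.1 hu) with huA | huB
          · rcases Finset.mem_union.1 (hσ.1 hv) with hvA | hvB
            · exact h2 u (Finset.mem_inter.2 ⟨hu, huA⟩) v (Finset.mem_inter.2 ⟨hv, hvA⟩) huv
            · exact hAB u huA v hvB
          · rcases Finset.mem_union.1 (hσ.1 hv) with hvA | hvB
            · exact G.symm _ _ (hAB v hvA u huB)
            · exact hq.2.1 u (Finset.mem_inter.2 ⟨hu, huB⟩) v (Finset.mem_inter.2 ⟨hv, hvB⟩) huv
        · rw [← hsplit σ hσ.1, jtop_card G A B hAB Finset.inter_subset_right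
            Finset.inter_subset_right, h3, hq.2.2]
          omega
      · exact absurd (if_neg hσ) h
    · intro σ a' v b hv
      change (if _ then _ else _) = (if _ then _ else _)
      by_cases hσ : σ ⊆ A ∪ B ∧ σ ∩ B ∈ clq G B r
      · rw [if_pos hσ, if_pos hσ]
        rcases Finset.mem_union.1 (hσ.1 hv) with hvA | hvB
        · exact (hY1 _ hσ.2).indep _ _ v b (Finset.mem_inter.2 ⟨hv, hvA⟩)
        · exact hY3 _ hσ.2 _ _ v b (Finset.mem_inter.2 ⟨hv, hvB⟩)
      · rw [if_neg hσ, if_neg hσ]
  have hz' : IsChain G (A ∪ B) (a + r) (z - bd G t y) := hz.sub (hy.bd t)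
  have hbz' : bd G t (z - bd G t y) = 0 := by
    rw [bd_sub, hbz, bd_bd t (fun m => CharTwo.add_self_eq_zero m), sub_zero]
  obtain ⟨y', hy', hby'⟩ := elim_join G t A B hAB (a + 1) hA (r - 1) (a + r) (by omega)
    (z - bd G t y) hz' hbz' (by
      intro σ a' hne
      obtain ⟨h1, h2, h3⟩ := hz'.supp σ a' hne
      have h4 : (σ ∩ B).card ≤ r := hB _ Finset.inter_subset_right
        (h2.mono Finset.inter_subset_left)
      by_contra h5
      have h6 : σ ∩ B ∈ clq G B r := mem_clq.2 ⟨Finset.inter_subset_right,
        h2.mono Finset.inter_subset_left, by omega⟩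
      apply hne
      rw [Pi.sub_apply, Pi.sub_apply, sub_eq_zero]
      have h7 : jcomp A z (σ ∩ B) (σ ∩ A) a' = z σ a' := by
        unfold jcomp
        rw [if_pos Finset.inter_subset_right, hsplit σ h1]
      rw [← h7, ← hY2 _ h6]
      unfold bd
      have e1 : ∀ (s : Finset V) (f : V → K), ∑ v ∈ sᶜ, f v = ∑ v, if v ∈ s then 0 else f v := by
        intro s f
        rw [← Finset.sum_filter_add_sum_filter_not univ (fun v => v ∈ s)]
        rw [Finset.sum_eq_zero (s := univ.filter fun v => v ∈ s)]
        · rw [zero_add]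
          apply Finset.sum_congr
          · ext v; simp
          · intro v hv
            rw [if_neg]
            simpa using hv
        · intro v hv
          rw [if_pos]
          simpa using hv
      rw [e1, e1]
      refine Finset.sum_congr rfl fun v _ => ?_
      by_cases hvA : v ∈ A
      · by_cases hvσ : v ∈ σ
        · rw [if_pos (Finset.mem_inter.2 ⟨hvσ, hvA⟩), if_pos hvσ]
        · rw [if_neg (fun h => hvσ (Finset.mem_inter.1 h).1), if_neg hvσ]
          have hvB : v ∉ B := fun h => jtop_notMem G A B hAB h hvA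
          have e2 : insert v σ ∩ B = σ ∩ B := Finset.insert_inter_of_notMem hvB
          have e3 : insert v σ ∩ A = insert v (σ ∩ A) := Finset.insert_inter_of_mem hvA
          have e4 : y (insert v σ) a' = Y (σ ∩ B) (insert v (σ ∩ A)) a' := by
            change (if _ then _ else _) = _
            rw [e2, e3, if_pos ⟨Finset.insert_subset (Finset.mem_union_left _ hvA) h1, h6⟩]
          rw [e4]
      · have hL : Y (σ ∩ B) (insert v (σ ∩ A)) a' = 0 := by
          by_contra h0
          exact hvA (((hY1 _ h6).supp _ _ h0).1 (Finset.mem_insert_self _ _))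
        rw [if_neg (fun h => hvA (Finset.mem_inter.1 h).2), hL, smul_zero]
        by_cases hvσ : v ∈ σ
        · rw [if_pos hvσ]
        · rw [if_neg hvσ]
          have hR : y (insert v σ) a' = 0 := by
            by_contra h0
            obtain ⟨h8, h9, h10⟩ := hy.supp _ _ h0
            have hvB : v ∈ B := (Finset.mem_union.1 (h8 (Finset.mem_insert_self _ _))).resolve_left hvA
            have h11 : (insert v σ ∩ B).card ≤ r := hB _ Finset.inter_subset_right
              (h9.mono Finset.inter_subset_left)
            rw [Finset.insert_inter_of_mem hvB, Finset.card_insert_of_notMem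
              (fun h => hvσ (Finset.mem_inter.1 h).1)] at h11
            have h12 := (mem_clq.1 h6).2.2
            omega
          rw [hR, smul_zero])
  refine ⟨y' + y, hy'.add hy, ?_⟩
  rw [bd_add, hby', sub_add_cancel]

/-- combination of the two previous theorems -/
theorem van_join_sf [CharP K 2] (G : ColGraph V C) (t : V → K) (A B : Finset V)
    (hAB : ∀ u ∈ A, ∀ v ∈ B, G.adj u v) (a₀ : ℕ) (ha : 1 ≤ a₀) (hA : ∀ j, a₀ ≤ j → Van G t A j)
    (r : ℕ) (hr : 1 ≤ r) (hB : ∀ σ ⊆ B, G.Cl σ → σ.card ≤ r)
    (hcol : ∀ β ∈ clq G B r, ∀ v ∈ B, ∃ u ∈ β, G.col u = G.col v)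
    (hSF : StressFree t (clq G B r)) (j : ℕ) (hj : a₀ + r ≤ j + 1) : Van G t (A ∪ B) j := by
  rcases Nat.lt_or_ge j (a₀ + r) with h | h
  · obtain ⟨a, rfl⟩ : ∃ a, a₀ = a + 1 := ⟨a₀ - 1, by omega⟩
    have : j = a + r := by omega
    subst this
    exact van_join_top G t A B hAB a hA r hr hB hcol hSF
  · exact van_join_dim G t A B hAB a₀ hA r hB j h

end Pool.Agent.H4.Singer
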