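import Mathlib

/-!
# Singer project: Kronecker substitution
-/

set_option autoImplicit false
set_option linter.unusedSectionVars false

open Finset

namespace Pool.Agent.H4.Singer

lemma exists_base {X : Type} [Fintype X] (S : Finset (X →₀ ℕ)) :
    ∃ B : ℕ, ∀ m ∈ S, ∀ m' ∈ S, m ≠ m' →
      ∑ v, B ^ (Fintype.equivFin X v : ℕ) * m v ≠ ∑ v, B ^ (Fintype.equivFin X v : ℕ) * m' v := by
  classical
  let L : (X →₀ ℕ) × (X →₀ ℕ) → Polynomial ℤ := fun d =>
    ∑ v, Polynomial.C ((d.1 v : ℤ) - d.2 v) * Polynomial.X ^ (Fintype.equivFin X v : ℕ)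
  have hL : ∀ d : (X →₀ ℕ) × (X →₀ ℕ), d.1 ≠ d.2 → L d ≠ 0 := by
    intro d hd h0
    apply hd
    ext u
    have h2 := congrArg (fun r => Polynomial.coeff r (Fintype.equivFin X u : ℕ)) h0
    simp only [L, Polynomial.finsetSum_coeff, Polynomial.coeff_C_mul, Polynomial.coeff_X_pow,
      Polynomial.coeff_zero] at h2
    rw [Finset.sum_eq_single_of_mem u (Finset.mem_univ u)] at h2
    · simp only [if_true, mul_one] at h2
      have h3 : (d.1 u : ℤ) = d.2 u := by linarith
      exact_mod_cast h3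
    · intro v _ hv
      rw [if_neg, mul_zero]
      intro h
      apply hv
      exact ((Fintype.equivFin X).injective (Fin.ext h)).symm
  have hQ : ∏ d ∈ S.offDiag, L d ≠ 0 := by
    rw [Finset.prod_ne_zero_iff]
    intro d hd
    exact hL d (Finset.mem_offDiag.1 hd).2.2
  obtain ⟨B, hB⟩ : ∃ B : ℕ, (∏ d ∈ S.offDiag, L d).eval (B : ℤ) ≠ 0 := by
    by_contra hcon
    push Not at hcon
    apply hQ
    refine Polynomial.eq_zero_of_infinite_isRoot _ ?_
    exact Set.infinite_of_injective_forall_mem (f := fun n : ℕ => (n : ℤ))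
      Nat.cast_injective (fun n => hcon n)
  refine ⟨B, fun m hm m' hm' hne heq => hB ?_⟩
  rw [Polynomial.eval_prod]
  refine Finset.prod_eq_zero (i := (m, m')) (Finset.mem_offDiag.2 ⟨hm, hm', hne⟩) ?_
  simp only [L, Polynomial.eval_finsetSum, Polynomial.eval_mul, Polynomial.eval_C,
    Polynomial.eval_pow, Polynomial.eval_X]
  have h3 : ∑ v, ((m v : ℤ) - m' v) * (B : ℤ) ^ (Fintype.equivFin X v : ℕ) =
      ((∑ v, B ^ (Fintype.equivFin X v : ℕ) * m v : ℕ) : ℤ) -
        ((∑ v, B ^ (Fintype.equivFin X v : ℕ) * m' v : ℕ) : ℤ) := by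
    push_cast
    rw [← Finset.sum_sub_distrib]
    exact Finset.sum_congr rfl fun v _ => by ring
  rw [h3, heq, sub_self]

/-- Kronecker substitution: with `k v = B ^ (index of v)` and `B` larger than all exponents, distinct
monomials of `p` go to distinct powers of `X`. -/
theorem exists_subst {X K : Type} [Fintype X] [Field K] (p : MvPolynomial X K) (hp : p ≠ 0) :
    ∃ k : X → ℕ, MvPolynomial.aeval (fun v => (Polynomial.X : Polynomial K) ^ k v) p ≠ 0 := by
  classical
  obtain ⟨B, hB⟩ := exists_base (X := X) p.support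
  refine ⟨fun v => B ^ (Fintype.equivFin X v : ℕ), ?_⟩
  obtain ⟨m0, hm0⟩ := (MvPolynomial.support_nonempty).2 hp
  have h1 : MvPolynomial.aeval (fun v => (Polynomial.X : Polynomial K) ^
      (B ^ (Fintype.equivFin X v : ℕ))) p = ∑ m ∈ p.support,
        Polynomial.C (p.coeff m) * Polynomial.X ^ (∑ v, B ^ (Fintype.equivFin X v : ℕ) * m v) := by
    rw [MvPolynomial.aeval_def, MvPolynomial.eval₂_eq']
    refine Finset.sum_congr rfl fun m _ => ?_
    rw [← Finset.prod_pow_eq_pow_sum]
    simp only [pow_mul]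
    rfl
  intro h0
  rw [h1] at h0
  have h2 := congrArg (fun r => Polynomial.coeff r
    (∑ v, B ^ (Fintype.equivFin X v : ℕ) * m0 v)) h0
  simp only [Polynomial.finsetSum_coeff, Polynomial.coeff_C_mul, Polynomial.coeff_X_pow,
    Polynomial.coeff_zero] at h2
  rw [Finset.sum_eq_single_of_mem m0 hm0] at h2
  · simp only [if_true, mul_one] at h2
    exact (MvPolynomial.mem_support_iff.1 hm0) h2
  · intro m hm hne
    rw [if_neg, mul_zero]
    exact fun h => hB m0 hm0 m hm (Ne.symm hne) h

end Pool.Agent.H4.Singer
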