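import Pool.Agent.H4.Atiyah.VN
import Pool.Agent.H4.Atiyah.Luck

/-!
# Singer project: the von Neumann dimension vanishes by Lück approximation
-/

set_option autoImplicit false
set_option linter.unusedSectionVars false

open Filter Topology

namespace Pool.Agent.H4.Singer

open Pool.Agent.H4.Atiyah

/-- the complex matrix of an integer matrix over the group ring -/
noncomputable def toC {G : Type} [Group G] {m n : Type}
    (A : Matrix m n (MonoidAlgebra ℤ G)) : Matrix m n (MonoidAlgebra ℂ G) :=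
  A.map (MonoidAlgebra.mapRingHom G (Int.castRingHom ℂ))

theorem op_toC {G P : Type} [Group G] [Group P] {k n : ℕ} (π : G →* P)
    (A : Matrix (Fin k) (Fin n) (MonoidAlgebra ℤ G)) :
    op ((toC A).map (MonoidAlgebra.mapDomainRingHom ℂ π)) =
      (op (A.map (MonoidAlgebra.mapDomainRingHom ℤ π))).map (Int.cast : ℤ → ℂ) := by
  classical
  ext ⟨i, g⟩ ⟨j, h⟩
  show (Finsupp.mapDomain π (MonoidAlgebra.mapRingHom G (Int.castRingHom ℂ) (A i j)).coeff)
      (g⁻¹ * h) = ((Finsupp.mapDomain π (A i j).coeff (g⁻¹ * h) : ℤ) : ℂ)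
  have h1 : (MonoidAlgebra.mapRingHom G (Int.castRingHom ℂ) (A i j)).coeff =
      Finsupp.mapRange (Int.cast : ℤ → ℂ) Int.cast_zero (A i j).coeff := rfl
  rw [h1, Finsupp.mapDomain_mapRange _ _ _ _ (fun x y => Int.cast_add x y),
    Finsupp.mapRange_apply]

/-- Proof: by the second part of `vnDim_approx` there are, for given `η, ε > 0` and large `j`,
subspaces `V` with `(vnDim A - η) |P_j| ≤ finrank V` on which `op A_j` is bounded by `ε`; by
`luck_int` (the matrix `op A_j` is an integer matrix with norm bounded by a constant `c`,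
`nrm_op_le`) `finrank V ≤ (k |P_j| - rank) + k |P_j| log c / log (1 / ε)`. Hence
`vnDim A ≤ 2 η + k log c / log (1 / ε)` for all `η`, `ε`, so `vnDim A ≤ 0`. -/
theorem vnDim_nonpos {G : Type} [Group G] [DecidableEq G] {P : ℕ → Type} [∀ j, Group (P j)]
    [∀ j, Fintype (P j)] (π : ∀ j, G →* P j) (hπ : ∀ g : G, g ≠ 1 → ∀ᶠ j in atTop, π j g ≠ 1)
    {k n : ℕ} (A : Matrix (Fin k) (Fin n) (MonoidAlgebra ℤ G))
    (hdim : ∀ η > (0 : ℝ), ∀ᶠ j in atTop, (k * Fintype.card (P j) : ℝ) -
      (op ((toC A).map (MonoidAlgebra.mapDomainRingHom ℂ (π j)))).rank ≤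
        η * Fintype.card (P j)) :
    vnDim (toC A) ≤ 0 := by
  classical
  by_contra hcon
  push Not at hcon
  obtain ⟨d, hd⟩ : ∃ d, d = vnDim (toC A) := ⟨_, rfl⟩
  rw [← hd] at hcon
  obtain ⟨c, hc⟩ : ∃ c, c = l1 (toC A) ^ 2 + 1 := ⟨_, rfl⟩
  have hc1 : 1 ≤ c := by
    rw [hc]
    linarith [sq_nonneg (l1 (toC A))]
  have hlogc : 0 ≤ Real.log c := Real.log_nonneg hc1
  obtain ⟨L, hL⟩ : ∃ L, L = 4 * (k * Real.log c) / d + 1 := ⟨_, rfl⟩
  have hL0 : 0 < L := by
    rw [hL]
    positivity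
  have hkL : k * (Real.log c / L) ≤ d / 4 := by
    rw [← mul_div_assoc, div_le_div_iff₀ hL0 (by norm_num)]
    have h1 : d * L = 4 * (k * Real.log c) + d := by
      rw [hL]
      field_simp
    rw [h1]
    linarith
  have hε0 : 0 < Real.exp (-L) := Real.exp_pos _
  have hε1 : Real.exp (-L) < 1 := by
    rw [Real.exp_lt_one_iff]
    linarith
  have hlogε : Real.log (1 / Real.exp (-L)) = L := by
    rw [one_div, Real.log_inv, Real.log_exp, neg_neg]
  have h1 := hdim (d / 8) (by linarith)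
  have h2 := (vnDim_approx π hπ (toC A)).2 (d / 8) (by linarith) (Real.exp (-L)) hε0
  obtain ⟨j, hj1, V, hV1, hV2⟩ := (h1.and h2).exists
  rw [← hd] at hV1
  have hbound : ∀ x : Fin k × P j → ℂ, nrm (Matrix.vecMul x
      ((op (A.map (MonoidAlgebra.mapDomainRingHom ℤ (π j)))).map (Int.cast : ℤ → ℂ))) ≤
        c * nrm x := by
    intro x
    rw [← op_toC]
    have h3 := nrm_op_le (π j) (toC A) (c := c) (by rw [hc]; linarith) x
    have h4 : 0 ≤ nrm x := Real.sqrt_nonneg _
    refine le_of_sq_le_sq (h3.trans ?_) (by positivity)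
    rw [mul_pow]
    have h5 : c ≤ c ^ 2 := by nlinarith
    exact mul_le_mul_of_nonneg_right h5 (sq_nonneg _)
  have hV2' : ∀ x ∈ V, nrm (Matrix.vecMul x
      ((op (A.map (MonoidAlgebra.mapDomainRingHom ℤ (π j)))).map (Int.cast : ℤ → ℂ))) ≤
        Real.exp (-L) * nrm x := by
    intro x hx
    rw [← op_toC]
    exact hV2 x hx
  have h6 := luck_int (op (A.map (MonoidAlgebra.mapDomainRingHom ℤ (π j)))) c hc1 hbound
    (Real.exp (-L)) hε0 hε1 V hV2'
  rw [hlogε, ← op_toC, Fintype.card_prod, Fintype.card_fin] at h6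
  push_cast at h6
  have hP : (0 : ℝ) < Fintype.card (P j) := by exact_mod_cast Fintype.card_pos
  have h7 : (k * Fintype.card (P j) : ℝ) * (Real.log c / L) ≤ d / 4 * Fintype.card (P j) := by
    calc (k * Fintype.card (P j) : ℝ) * (Real.log c / L)
        = (k * (Real.log c / L)) * Fintype.card (P j) := by ring
      _ ≤ _ := mul_le_mul_of_nonneg_right hkL hP.le
  have h8 : 0 < d * Fintype.card (P j) := mul_pos hcon hP
  nlinarith

end Pool.Agent.H4.Singer
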