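import Pool.Agent.H4.Singer.ModLevel

/-!
# Singer project: the chain complexes of the sets `Ω_q`
-/

set_option autoImplicit false
set_option linter.unusedSectionVars false

open Finset

namespace Pool.Agent.H4.Singer

variable {V C : Type} [DecidableEq V] [Fintype V] [DecidableEq C] [Fintype C] {K : Type} [Field K]

/-- the translation attached to `σ` and `a` -/
def oeSh (G : ColGraph V C) (q : ℕ) (k : V → ℕ) (σ : Finset V) (a : C → Bool) : ZMod q :=
  ∑ v ∈ σ, if a (G.col v) then (k v : ZMod q) else 0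

theorem oeSh_flip (G : ColGraph V C) (q : ℕ) (k : V → ℕ) {σ : Finset V} (hσ : G.Cl σ) {v : V}
    (hv : v ∈ σ) (a : C → Bool) :
    oeSh G q k σ (Function.update a (G.col v) (!(a (G.col v)))) =
      if a (G.col v) then oeSh G q k σ a - k v else oeSh G q k σ a + k v := by
  unfold oeSh
  rw [← Finset.add_sum_erase σ _ hv, ← Finset.add_sum_erase σ
    (fun v => if a (G.col v) then (k v : ZMod q) else 0) hv]
  have h1 : ∑ u ∈ σ.erase v, (if (Function.update a (G.col v) (!(a (G.col v)))) (G.col u) = true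
      then (k u : ZMod q) else 0) =
      ∑ u ∈ σ.erase v, (if a (G.col u) = true then (k u : ZMod q) else 0) := by
    refine Finset.sum_congr rfl fun u hu => ?_
    rw [mem_erase] at hu
    rw [Function.update_of_ne (G.ne u v (hσ u hu.2 v hv hu.1))]
  rw [h1, Function.update_self]
  cases h : a (G.col v)
  · simp
    ring
  · simp

/-- the comparison isomorphism -/
def oeEquiv (K : Type) [Field K] (G : ColGraph V C) (q : ℕ) (k : V → ℕ) :
    (Finset V → (C → Bool) → Mq K q) ≃ₗ[K] (Finset V → (C → Bool) × ZMod q → K) where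
  toFun z := fun σ p => z σ p.1 (p.2 - oeSh G q k σ p.1)
  map_add' _ _ := rfl
  map_smul' _ _ := rfl
  invFun f := fun σ a => (fun x => f σ (a, x + oeSh G q k σ a) : ZMod q → K)
  left_inv z := by
    funext σ a
    refine funext fun x => ?_
    simp
  right_inv f := by
    funext σ p
    simp

theorem oeEquiv_apply (G : ColGraph V C) (q : ℕ) (k : V → ℕ)
    (z : Finset V → (C → Bool) → Mq K q) (σ : Finset V) (a : C → Bool) (x : ZMod q) :
    oeEquiv K G q k z σ (a, x) = z σ a (x - oeSh G q k σ a) := rfl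

theorem oe_mem_iff [CharP K 2] (G : ColGraph V C) (q : ℕ) [NeZero q] (k : V → ℕ) (i : ℕ)
    (z : Finset V → (C → Bool) → Mq K q) :
    oeEquiv K G q k z ∈ Ch K (omQ G q k) i ↔ z ∈ ChM K (Mq K q) G i := by
  have hsupp : (∀ σ (ω : (C → Bool) × ZMod q), oeEquiv K G q k z σ ω ≠ 0 → G.Cl σ ∧ σ.card = i) ↔
      ∀ σ a, z σ a ≠ 0 → G.Cl σ ∧ σ.card = i := by
    constructor
    · intro h σ a hne
      obtain ⟨x, hx⟩ : ∃ x, z σ a x ≠ 0 := by
        by_contra hcon
        push Not at hcon
        exact hne (funext hcon)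
      refine h σ (a, x + oeSh G q k σ a) ?_
      rw [oeEquiv_apply, add_sub_cancel_right]
      exact hx
    · intro h σ ω hne
      refine h σ ω.1 fun h0 => hne ?_
      change z σ ω.1 _ = 0
      rw [h0]
      rfl
  have hinv : ∀ σ, G.Cl σ → ∀ v ∈ σ, ∀ a x,
      oeEquiv K G q k z σ ((omQ G q k).s v (a, x)) =
        z σ (Function.update a (G.col v) (!(a (G.col v)))) (x - oeSh G q k σ a) := by
    intro σ hσ v hv a x
    have h1 : (omQ G q k).s v (a, x) = (Function.update a (G.col v) (!(a (G.col v))),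
      if a (G.col v) then x - k v else x + k v) := rfl
    rw [h1, oeEquiv_apply, oeSh_flip G q k hσ hv]
    congr 1
    split_ifs <;> ring
  constructor
  · rintro ⟨h1, h2⟩
    have h1' := hsupp.mp h1
    refine ⟨fun σ a hne => ⟨subset_univ _, h1' σ a hne⟩, fun σ a v b hv => ?_⟩
    by_cases hσ : G.Cl σ
    · by_cases hb : b = a (G.col v)
      · rw [hb, Function.update_eq_self]
      · have hb' : b = !(a (G.col v)) := by
          cases b <;> cases h : a (G.col v) <;> simp_all
        rw [hb']
        refine funext fun x => ?_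
        have h3 := h2 σ v hv (a, x + oeSh G q k σ a)
        rw [hinv σ hσ v hv, oeEquiv_apply, add_sub_cancel_right, CharTwo.neg_eq] at h3
        exact h3
    · have h3 : ∀ a', z σ a' = 0 := fun a' => by
        by_contra hne
        exact hσ (h1' σ a' hne).1
      rw [h3, h3]
  · intro hz
    have h1 : ∀ σ a, z σ a ≠ 0 → G.Cl σ ∧ σ.card = i := fun σ a hne => (hz.supp σ a hne).2
    refine ⟨hsupp.mpr h1, fun σ v hv ω => ?_⟩
    rw [CharTwo.neg_eq]
    by_cases hσ : G.Cl σ
    · obtain ⟨a, x⟩ := ω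
      rw [hinv σ hσ v hv, hz.indep σ a v _ hv]
      rfl
    · have h3 : ∀ a', z σ a' = 0 := fun a' => by
        by_contra hne
        exact hσ (h1 σ a' hne).1
      change z σ _ _ = z σ _ _
      rw [h3, h3]
      rfl

theorem oe_dl [CharP K 2] (G : ColGraph V C) (q : ℕ) [NeZero q] (k : V → ℕ) (ν : V → ℕ)
    (z : Finset V → (C → Bool) → Mq K q) :
    dl K ν (oeEquiv K G q k z) = oeEquiv K G q k
      (bdK K G (fun v => (Polynomial.X : Polynomial K) ^ k v) z) := by
  funext τ ω
  obtain ⟨a, x⟩ := ω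
  rw [oeEquiv_apply]
  have h1 : dl K ν (oeEquiv K G q k z) τ (a, x) =
      ∑ v ∈ τᶜ, (sg ν v τ : K) * oeEquiv K G q k z (insert v τ) (a, x) := rfl
  have h2 : (bdK K G (fun v => (Polynomial.X : Polynomial K) ^ k v) z) τ a =
      ∑ v ∈ τᶜ, wt (fun v => (Polynomial.X : Polynomial K) ^ k v) v (a (G.col v)) •
        z (insert v τ) a := rfl
  have h3 : ∀ (s : Finset V) (f : V → Mq K q) (y : ZMod q),
      (∑ v ∈ s, f v) y = ∑ v ∈ s, f v y := fun s f y =>
    Finset.sum_apply (M := fun _ : ZMod q => K) y s f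
  rw [h1, h2, h3]
  refine Finset.sum_congr rfl fun v hv => ?_
  have h4 : ((sg ν v τ : ℤ) : K) = 1 := by
    unfold sg
    rcases neg_one_pow_eq_or ℤ (τ.filter fun u => ν u < ν v).card with h | h
    · rw [h]; simp
    · rw [h, Int.cast_neg, Int.cast_one, CharTwo.neg_eq]
  rw [h4, one_mul, oeEquiv_apply]
  have h5 : oeSh G q k (insert v τ) a =
      (if a (G.col v) then (k v : ZMod q) else 0) + oeSh G q k τ a := by
    unfold oeSh
    rw [Finset.sum_insert (Finset.mem_compl.mp hv)]
  rw [h5]
  cases h : a (G.col v)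
  · simp only [wt, Bool.false_eq_true, if_false, one_smul, zero_add]
  · simp only [wt, if_true]
    rw [Mq.X_pow_smul]
    congr 1
    ring

/-- The linear isomorphism `Φ` with
`(Φ z) σ (a, x) = z σ a (x - ∑ v ∈ σ, if a (col v) then k v else 0)` between the functions
`Finset V → (C → Bool) → Mq K q` and `Finset V → (C → Bool) × ZMod q → K` maps `ZM` (for
`T v = X ^ k v`) onto `Zc` and `BM` onto `Bc` (characteristic two: the signs are trivial; a chain
`z` has `z σ a` independent of the colours of `σ` iff `Φ z` is invariant under `s v`, `v ∈ σ`). -/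
theorem finrank_omQ [CharP K 2] (G : ColGraph V C) (q : ℕ) [NeZero q] (k : V → ℕ) (ν : V → ℕ)
    (i : ℕ) :
    Module.finrank K (Zc K (omQ G q k) ν i) = Module.finrank K
      (ZM K (M := Mq K q) G (fun v => (Polynomial.X : Polynomial K) ^ k v) i) ∧
    Module.finrank K (Bc K (omQ G q k) ν i) = Module.finrank K
      (BM K (M := Mq K q) G (fun v => (Polynomial.X : Polynomial K) ^ k v) i) := by
  set e := oeEquiv K G q k with he
  have hZ : Zc K (omQ G q k) ν i =
      (ZM K (M := Mq K q) G (fun v => (Polynomial.X : Polynomial K) ^ k v) i).map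
        (e : (Finset V → (C → Bool) → Mq K q) →ₗ[K] _) := by
    ext f
    rw [Submodule.mem_map]
    constructor
    · rintro ⟨h1, h2⟩
      refine ⟨e.symm f, ⟨?_, ?_⟩, e.apply_symm_apply f⟩
      · refine (oe_mem_iff G q k i (e.symm f)).mp ?_
        rw [← he, e.apply_symm_apply]
        exact h1
      · rw [SetLike.mem_coe, LinearMap.mem_ker]
        apply e.injective
        rw [he, ← oe_dl G q k ν, ← he, e.apply_symm_apply, map_zero]
        exact h2
    · rintro ⟨z, ⟨h1, h2⟩, rfl⟩
      refine ⟨(oe_mem_iff G q k i z).mpr h1, ?_⟩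
      rw [SetLike.mem_coe, LinearMap.mem_ker]
      have h3 := oe_dl G q k ν z
      rw [LinearMap.mem_ker.mp h2, map_zero] at h3
      exact h3
  have hB : Bc K (omQ G q k) ν i =
      (BM K (M := Mq K q) G (fun v => (Polynomial.X : Polynomial K) ^ k v) i).map
        (e : (Finset V → (C → Bool) → Mq K q) →ₗ[K] _) := by
    ext f
    rw [Submodule.mem_map]
    constructor
    · intro hf
      obtain ⟨g, hg, rfl⟩ := Submodule.mem_map.mp hf
      refine ⟨bdK K G (fun v => (Polynomial.X : Polynomial K) ^ k v) (e.symm g),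
        Submodule.mem_map_of_mem ?_, ?_⟩
      · refine (oe_mem_iff G q k (i + 1) (e.symm g)).mp ?_
        rw [← he, e.apply_symm_apply]
        exact hg
      · have h3 := oe_dl G q k ν (e.symm g)
        rw [← he, e.apply_symm_apply] at h3
        exact h3.symm
    · rintro ⟨z, hz, rfl⟩
      obtain ⟨w, hw, rfl⟩ := Submodule.mem_map.mp hz
      refine Submodule.mem_map.mpr ⟨e w, (oe_mem_iff G q k (i + 1) w).mpr hw, ?_⟩
      exact oe_dl G q k ν w
  rw [hZ, hB]
  exact ⟨LinearEquiv.finrank_map_eq e _, LinearEquiv.finrank_map_eq e _⟩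

end Pool.Agent.H4.Singer
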