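import Pool.Agent.H4.Singer.ModLevel

/-!
# Singer project: kernels of polynomials in the shift
-/

set_option autoImplicit false
set_option linter.unusedSectionVars false

open Finset

namespace Pool.Agent.H4.Singer

theorem smul_apply_sum (K : Type) [Field K] (q : ℕ) (p : Polynomial K) (f : Mq K q)
    (y : ZMod q) : (p • f) y = ∑ i ∈ range (p.natDegree + 1), p.coeff i * f (y - i) := by
  have h1 : p • f = ∑ i ∈ range (p.natDegree + 1), p.coeff i • (Polynomial.X ^ i : Polynomial K) • f := by
    conv_lhs => rw [p.as_sum_range_C_mul_X_pow]
    rw [Finset.sum_smul]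
    refine Finset.sum_congr rfl fun i _ => ?_
    rw [← smul_assoc, Polynomial.smul_eq_C_mul]
  rw [h1]
  have h2 : ∀ (s : Finset ℕ) (g : ℕ → Mq K q), (∑ i ∈ s, g i) y = ∑ i ∈ s, g i y := by
    intro s g
    exact Finset.sum_apply y s g
  rw [h2]
  refine Finset.sum_congr rfl fun i _ => ?_
  have h3 := Mq.X_pow_smul K q i f y
  rw [← h3]
  rfl

/-- A function on `ℤ/q` in the kernel of `p` (acting with the shift) satisfies a linear recursion of
order `natDegree p` (solve for the value `f (y - natDegree p)`), so it is determined by its values at
`0, -1, …, -(natDegree p - 1)`. -/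
theorem ker_shift_le (K : Type) [Field K] (q : ℕ) [NeZero q] (p : Polynomial K) (hp : p ≠ 0) :
    Module.finrank K (LinearMap.ker (Algebra.lsmul K K (Mq K q) p)) ≤ p.natDegree := by
  let φ : Mq K q →ₗ[K] (Fin p.natDegree → K) :=
    { toFun := fun f i => f (-((i : ℕ) : ZMod q))
      map_add' := fun _ _ => rfl
      map_smul' := fun _ _ => rfl }
  have hinj : Function.Injective (φ.comp (LinearMap.ker (Algebra.lsmul K K (Mq K q) p)).subtype) := by
    rw [injective_iff_map_eq_zero]
    rintro ⟨f, hf⟩ h0
    have hf' : p • f = 0 := hf
    have hz : ∀ y : ZMod q, (p • f) y = 0 := by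
      intro y
      rw [hf']
      rfl
    have hrec : ∀ n : ℕ, f (-((n : ℕ) : ZMod q)) = 0 := by
      intro n
      induction n using Nat.strong_induction_on with
      | _ n ih =>
        by_cases hn : n < p.natDegree
        · exact congrFun h0 ⟨n, hn⟩
        · have h1 := hz (-((n - p.natDegree : ℕ) : ZMod q))
          rw [smul_apply_sum, Finset.sum_range_succ] at h1
          rw [Finset.sum_eq_zero, zero_add] at h1
          · have h2 : (-((n - p.natDegree : ℕ) : ZMod q) - ((p.natDegree : ℕ) : ZMod q)) =
                -((n : ℕ) : ZMod q) := by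
              rw [Nat.cast_sub (not_lt.1 hn)]
              ring
            rw [h2] at h1
            refine (mul_eq_zero.1 h1).resolve_left ?_
            exact Polynomial.leadingCoeff_ne_zero.2 hp
          · intro i hi
            have hi' := Finset.mem_range.1 hi
            have h2 : (-((n - p.natDegree : ℕ) : ZMod q) - ((i : ℕ) : ZMod q)) =
                -((n - p.natDegree + i : ℕ) : ZMod q) := by
              push_cast
              ring
            rw [h2, ih (n - p.natDegree + i) (by omega), mul_zero]
    apply Subtype.ext
    show f = 0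
    funext x
    have h3 := hrec (-x).val
    rw [ZMod.natCast_zmod_val, neg_neg] at h3
    exact h3
  have h4 := LinearMap.finrank_le_finrank_of_injective hinj
  simpa using h4

end Pool.Agent.H4.Singer
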