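import Pool.Agent.H4.Singer.ExactChain
import Pool.Agent.H4.Singer.Kronecker
import Pool.Agent.H4.Singer.ShiftKer
import Pool.Agent.H4.Singer.OmegaEquiv

/-!
# Singer project: bounded Betti numbers of the sets `Ω_q`
-/

set_option autoImplicit false
set_option linter.unusedSectionVars false

open Finset

namespace Pool.Agent.H4.Singer

variable {V C : Type} [DecidableEq V] [Fintype V] [DecidableEq C] [Fintype C] {K : Type} [Field K]

theorem bet_omQ_le [CharP K 2] (G : ColGraph V C) (t₀ : V → K) (i : ℕ) (h : Van G t₀ univ i)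
    (ν : V → ℕ) : ∃ (D : ℕ) (k : V → ℕ), ∀ (q : ℕ) [NeZero q], bet K (omQ G q k) ν i ≤ D := by
  obtain ⟨p, hp, hb⟩ := exists_chain_bound G t₀ i h
  have hp0 : p ≠ 0 := by
    rintro rfl
    exact hp (map_zero _)
  obtain ⟨k, hk⟩ := exists_subst p hp0
  refine ⟨Fintype.card (Finset V × (C → Bool)) *
    (MvPolynomial.aeval (fun v => (Polynomial.X : Polynomial K) ^ k v) p).natDegree, k, ?_⟩
  intro q _
  obtain ⟨h1, h2⟩ := finrank_omQ (K := K) G q k ν i
  have h3 := hb (Polynomial K) (Mq K q) (fun v => (Polynomial.X : Polynomial K) ^ k v)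
  have h4 := ker_shift_le K q _ hk
  unfold bet
  rw [h1, h2]
  have h5 := Nat.mul_le_mul_left (Fintype.card (Finset V × (C → Bool))) h4
  omega

end Pool.Agent.H4.Singer
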