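import Pool.Agent.H4.Singer.FaceGraph

/-!
# Singer project: sizes of flags of odd faces
-/

set_option autoImplicit false
set_option linter.unusedSectionVars false

open Finset

namespace Pool.Agent.H4.Singer

variable {V C α : Type} [DecidableEq V] [Fintype V] [DecidableEq C] [DecidableEq α]
  {G : ColGraph V C} {e : V → Finset α}

theorem sizes_injOn (h : FaceGraph G e) (σ : Finset α) (β : Finset V) (hβ : G.Cl β)
    (h1 : ∀ v ∈ β, σ ⊂ e v) :
    Set.InjOn (fun v => (e v \ σ).card) (β : Set V) := by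
  intro u hu v hv huv
  have hu1 : u ∈ β := hu
  have hv1 : v ∈ β := hv
  have hc : (e u \ σ).card = (e v \ σ).card := huv
  by_contra hne
  have hadj := (h.adj_iff u v).1 (hβ u hu1 v hv1 hne)
  have e1 : (e u \ σ).card = (e u).card - σ.card := Finset.card_sdiff_of_subset (h1 u hu1).1
  have e2 : (e v \ σ).card = (e v).card - σ.card := Finset.card_sdiff_of_subset (h1 v hv1).1
  have l1 := Finset.card_lt_card (h1 u hu1)
  have l2 := Finset.card_lt_card (h1 v hv1)
  rcases hadj with hh | hh
  · have := Finset.card_lt_card hh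
    omega
  · have := Finset.card_lt_card hh
    omega

theorem sizes_image_subset (σ : Finset α) (r : ℕ) (β : Finset V)
    (h1 : ∀ v ∈ β, σ ⊂ e v ∧ Odd (e v \ σ).card ∧ (e v \ σ).card ≤ 2 * r) :
    (β.image fun v => (e v \ σ).card) ⊆ (range r).image fun i => 2 * i + 1 := by
  intro k hk
  rw [mem_image] at hk
  obtain ⟨v, hv, rfl⟩ := hk
  obtain ⟨_, ⟨i, hi⟩, hle⟩ := h1 v hv
  rw [mem_image]
  refine ⟨i, ?_, hi.symm⟩
  rw [mem_range]
  omega

/-- A clique of faces `e v` with `σ ⊂ e v`, `|e v \ σ|` odd and `|e v \ σ| ≤ 2 r` (or `2 r - 1`) has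
at most `r` elements: the numbers `|e v \ σ|` are distinct odd numbers `≤ 2 r`. -/
theorem card_le_of_odd (h : FaceGraph G e) (σ : Finset α) (r : ℕ) (β : Finset V) (hβ : G.Cl β)
    (h1 : ∀ v ∈ β, σ ⊂ e v ∧ Odd (e v \ σ).card ∧ (e v \ σ).card ≤ 2 * r) : β.card ≤ r := by
  have hi := sizes_injOn h σ β hβ fun v hv => (h1 v hv).1
  have hs := sizes_image_subset σ r β h1
  rw [← Finset.card_image_of_injOn hi]
  refine (Finset.card_le_card hs).trans ?_
  exact Finset.card_image_le.trans (by simp)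

/-- if the clique has `r` elements, then all odd numbers `≤ 2 r` occur -/
theorem exists_col_of_odd (h : FaceGraph G e) (σ : Finset α) (r : ℕ) (β : Finset V) (hβ : G.Cl β)
    (h1 : ∀ v ∈ β, σ ⊂ e v ∧ Odd (e v \ σ).card ∧ (e v \ σ).card ≤ 2 * r) (hr : β.card = r)
    (v : V) (hv : σ ⊂ e v ∧ Odd (e v \ σ).card ∧ (e v \ σ).card ≤ 2 * r) :
    ∃ u ∈ β, G.col u = G.col v := by
  have hi := sizes_injOn h σ β hβ fun v hv => (h1 v hv).1
  have hs := sizes_image_subset σ r β h1
  have hle : ((range r).image fun i => 2 * i + 1).card ≤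
      (β.image fun v => (e v \ σ).card).card := by
    rw [Finset.card_image_of_injOn hi, hr]
    exact Finset.card_image_le.trans (by simp)
  have heq := Finset.eq_of_subset_of_card_le hs hle
  obtain ⟨hσ, ⟨i, hi2⟩, hle2⟩ := hv
  have hmem : (e v \ σ).card ∈ β.image fun v => (e v \ σ).card := by
    rw [heq, mem_image]
    refine ⟨i, ?_, hi2.symm⟩
    rw [mem_range]
    omega
  rw [mem_image] at hmem
  obtain ⟨u, hu, huc⟩ := hmem
  refine ⟨u, hu, h.col u v ?_⟩
  have e1 : (e u \ σ).card = (e u).card - σ.card :=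
    Finset.card_sdiff_of_subset (h1 u hu).1.1
  have e2 : (e v \ σ).card = (e v).card - σ.card := Finset.card_sdiff_of_subset hσ.1
  have l1 := Finset.card_lt_card (h1 u hu).1
  have l2 := Finset.card_lt_card hσ
  omega

end Pool.Agent.H4.Singer
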