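import Pool.Agent.H4.Singer.Basic

/-!
# Singer project: functoriality of stress-freeness
-/

set_option autoImplicit false
set_option linter.unusedSectionVars false

open Finset

namespace Pool.Agent.H4.Singer

variable {V V' : Type} [DecidableEq V] [Fintype V] [DecidableEq V'] [Fintype V'] {K : Type}
  [Field K]

theorem StressFree.mono {t : V → K} {F F' : Finset (Finset V)} (h : StressFree t F')
    (hF : F ⊆ F') : StressFree t F := by
  intro z hz
  exact h z ⟨fun φ hφ => hF (hz.supp φ hφ), hz.sum, hz.wsum⟩

/-- stress-freeness only depends on the parameters of the vertices that occur in the flags -/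
theorem StressFree.congr {t t' : V → K} {F : Finset (Finset V)} (h : StressFree t F)
    (htt : ∀ φ ∈ F, ∀ v ∈ φ, t v = t' v) : StressFree t' F := by
  intro z hz
  refine h z ⟨hz.supp, hz.sum, fun τ => ?_⟩
  rw [← hz.wsum τ]
  refine Finset.sum_congr rfl fun v _ => ?_
  by_cases h0 : z (insert v τ) = 0
  · rw [h0, mul_zero, mul_zero]
  · rw [htt _ (hz.supp _ h0) v (Finset.mem_insert_self v τ)]

/-- transport of the weighted sums -/
private theorem sum_comap (ι : V → V') (U : Finset V) (hι : Set.InjOn ι U)
    (z : Finset V → K) (hz : ∀ φ, z φ ≠ 0 → φ ⊆ U) (g : V' → K) (τ' : Finset V')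
    (h : ∀ τ : Finset V, ∑ v ∈ τᶜ, g (ι v) * z (insert v τ) = 0) :
    ∑ v ∈ τ'ᶜ, g v * (if insert v τ' ⊆ U.image ι then
      z (U.filter fun w => ι w ∈ insert v τ') else 0) = 0 := by
  by_cases hτ : τ' ⊆ U.image ι
  · have hsub : (U.filter fun w => ι w ∉ τ').image ι ⊆ τ'ᶜ := by
      intro x hx
      rw [Finset.mem_image] at hx
      obtain ⟨w, hw, rfl⟩ := hx
      rw [Finset.mem_filter] at hw
      rw [Finset.mem_compl]
      exact hw.2
    rw [← Finset.sum_subset hsub]
    · rw [Finset.sum_image]
      · have key := h (U.filter fun w => ι w ∈ τ')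
        have hsub2 : (U.filter fun w => ι w ∉ τ') ⊆ (U.filter fun w => ι w ∈ τ')ᶜ := by
          intro x hx
          rw [Finset.mem_filter] at hx
          rw [Finset.mem_compl, Finset.mem_filter]
          exact fun h1 => hx.2 h1.2
        rw [← Finset.sum_subset hsub2] at key
        · rw [← key]
          refine Finset.sum_congr rfl fun v hv => ?_
          rw [Finset.mem_filter] at hv
          have h1 : insert (ι v) τ' ⊆ U.image ι := by
            intro x hx
            rw [Finset.mem_insert] at hx
            rcases hx with rfl | hx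
            · exact Finset.mem_image_of_mem ι hv.1
            · exact hτ hx
          rw [if_pos h1]
          congr 2
          ext w
          simp only [Finset.mem_filter, Finset.mem_insert]
          constructor
          · rintro ⟨hw, hw' | hw'⟩
            · exact Or.inl (hι hw hv.1 hw')
            · exact Or.inr ⟨hw, hw'⟩
          · rintro (rfl | ⟨hw, hw'⟩)
            · exact ⟨hv.1, Or.inl rfl⟩
            · exact ⟨hw, Or.inr hw'⟩
        · intro x hx hx2
          rw [Finset.mem_compl, Finset.mem_filter] at hx
          rw [Finset.mem_filter] at hx2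
          have hxU : x ∉ U := by
            intro hxU
            by_cases h3 : ι x ∈ τ'
            · exact hx ⟨hxU, h3⟩
            · exact hx2 ⟨hxU, h3⟩
          have : z (insert x (U.filter fun w => ι w ∈ τ')) = 0 := by
            by_contra h0
            exact hxU (hz _ h0 (Finset.mem_insert_self _ _))
          rw [this, mul_zero]
      · intro a ha b hb hab
        rw [Finset.mem_coe, Finset.mem_filter] at ha hb
        exact hι ha.1 hb.1 hab
    · intro x hx hx2
      rw [if_neg, mul_zero]
      intro h1
      have h2 : x ∈ U.image ι := h1 (Finset.mem_insert_self _ _)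
      rw [Finset.mem_image] at h2
      obtain ⟨w, hw, rfl⟩ := h2
      rw [Finset.mem_compl] at hx
      exact hx2 (Finset.mem_image_of_mem ι (Finset.mem_filter.2 ⟨hw, hx⟩))
  · refine Finset.sum_eq_zero fun v _ => ?_
    rw [if_neg, mul_zero]
    exact fun h1 => hτ ((Finset.subset_insert v τ').trans h1)

/-- transport along a map that is injective on the vertices that occur. Proof: a stress `z` on `F`
gives the stress `z'` on `F'` with `z' (φ.image ι) = z φ` for `φ ⊆ U` and `z' = 0` on sets that are
not images of subsets of `U`. -/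
theorem stressFree_comap (ι : V → V') (U : Finset V) (hι : Set.InjOn ι U)
    (F : Finset (Finset V)) (F' : Finset (Finset V')) (hF : ∀ φ ∈ F, φ ⊆ U ∧ φ.image ι ∈ F')
    (t : V' → K) (h : StressFree t F') : StressFree (fun v => t (ι v)) F := by
  intro z hz
  have hzU : ∀ φ, z φ ≠ 0 → φ ⊆ U := fun φ h0 => (hF φ (hz.supp φ h0)).1
  have hz' := h (fun ψ => if ψ ⊆ U.image ι then z (U.filter fun w => ι w ∈ ψ) else 0)
    ⟨fun ψ h0 => ?_, fun τ' => ?_, fun τ' => ?_⟩
  · funext φ
    by_contra h0
    have hφ := hzU φ h0
    have h1 := congrFun hz' (φ.image ι)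
    simp only [Pi.zero_apply] at h1
    rw [if_pos (Finset.image_subset_image hφ)] at h1
    apply h0
    have h2 : (U.filter fun w => ι w ∈ φ.image ι) = φ := by
      ext w
      rw [Finset.mem_filter, Finset.mem_image]
      constructor
      · rintro ⟨hw, x, hx, hxw⟩
        rwa [← hι (hφ hx) hw hxw]
      · intro hw
        exact ⟨hφ hw, w, hw, rfl⟩
    rw [h2] at h1
    exact h1
  · by_cases h1 : ψ ⊆ U.image ι
    · simp only [if_pos h1] at h0
      have h2 := (hF _ (hz.supp _ h0)).2
      have h3 : (U.filter fun w => ι w ∈ ψ).image ι = ψ := by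
        ext x
        rw [Finset.mem_image]
        constructor
        · rintro ⟨w, hw, rfl⟩
          exact (Finset.mem_filter.1 hw).2
        · intro hx
          obtain ⟨w, hw, rfl⟩ := Finset.mem_image.1 (h1 hx)
          exact ⟨w, Finset.mem_filter.2 ⟨hw, hx⟩, rfl⟩
      rwa [h3] at h2
    · exact absurd (if_neg h1) h0
  · have := sum_comap ι U hι z hzU (fun _ => 1) τ' (fun τ => by simpa using hz.sum τ)
    simpa using this
  · exact sum_comap ι U hι z hzU t τ' hz.wsum

end Pool.Agent.H4.Singer
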