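import Pool.Agent.H4.Singer.Basic

/-!
# Singer project: genericity of stress-freeness

`StressFree t F` is an open condition (nonvanishing of a determinant), so it holds for generic
parameters as soon as it holds for one.
-/

set_option autoImplicit false
set_option linter.unusedSectionVars false

open Finset

namespace Pool.Agent.H4.Singer

variable {V : Type} [DecidableEq V] [Fintype V] {K : Type} [Field K]

/-- the matrix of the stress conditions over a ring -/
def strM {R : Type} [CommRing R] (t : V → R) (F : Finset (Finset V)) :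
    Matrix (Finset V × Bool) F R :=
  Matrix.of fun p φ => ∑ v ∈ p.1ᶜ, if insert v p.1 = φ.1 then (if p.2 then t v else 1) else 0

theorem strM_mulVec (t : V → K) (F : Finset (Finset V)) (z : Finset V → K)
    (hz : ∀ φ, z φ ≠ 0 → φ ∈ F) (p : Finset V × Bool) :
    (strM t F).mulVec (fun φ => z φ.1) p =
      ∑ v ∈ p.1ᶜ, (if p.2 then t v else 1) * z (insert v p.1) := by
  unfold strM Matrix.mulVec dotProduct
  simp only [Matrix.of_apply, Finset.sum_mul]
  rw [Finset.sum_comm]
  refine Finset.sum_congr rfl fun v _ => ?_
  by_cases hv : insert v p.1 ∈ F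
  · rw [Finset.sum_eq_single ⟨insert v p.1, hv⟩]
    · rw [if_pos rfl]
    · intro b _ hb
      rw [if_neg, zero_mul]
      intro h
      exact hb (Subtype.ext h.symm)
    · intro h
      exact absurd (Finset.mem_univ _) h
  · have h0 : z (insert v p.1) = 0 := by
      by_contra h
      exact hv (hz _ h)
    rw [h0, mul_zero]
    refine Finset.sum_eq_zero fun b _ => ?_
    rw [if_neg, zero_mul]
    intro h
    exact hv (h ▸ b.2)

theorem stressFree_iff_strM (t : V → K) (F : Finset (Finset V)) :
    StressFree t F ↔ ∀ w : F → K, (strM t F).mulVec w = 0 → w = 0 := by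
  constructor
  · intro h w hw
    obtain ⟨z, hz⟩ : ∃ z : Finset V → K, ∀ φ, z φ = if hφ : φ ∈ F then w ⟨φ, hφ⟩ else 0 :=
      ⟨_, fun _ => rfl⟩
    have hzF : ∀ φ, z φ ≠ 0 → φ ∈ F := by
      intro φ h0
      by_contra hφ
      exact h0 (by rw [hz, dif_neg hφ])
    have hwz : w = fun φ : F => z φ.1 := by
      funext φ
      rw [hz, dif_pos φ.2]
    rw [hwz] at hw
    have hst : Stress t F z := by
      refine ⟨hzF, fun τ => ?_, fun τ => ?_⟩
      · have := congrFun hw (τ, false)
        rw [strM_mulVec t F z hzF] at this
        simpa using this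
      · have := congrFun hw (τ, true)
        rw [strM_mulVec t F z hzF] at this
        simpa using this
    have h0 := h z hst
    rw [hwz]
    funext φ
    rw [h0]
    rfl
  · intro h z hz
    have h0 := h (fun φ => z φ.1) (by
      funext p
      rw [strM_mulVec t F z hz.supp]
      rcases p with ⟨τ, b⟩
      cases b
      · simpa using hz.sum τ
      · simpa using hz.wsum τ)
    funext φ
    by_cases hφ : φ ∈ F
    · exact congrFun h0 ⟨φ, hφ⟩
    · by_contra h1
      exact hφ (hz.supp φ h1)

/-- Proof: the stress conditions are a linear system `M(t) z = 0` for `z : F → K` (`z` is determined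
by its restriction to `F`), where the entries of `M(t)` are the polynomials `0`, `1`, `t v`. As
`M(t₀)` is injective there is a constant matrix `G` with `G * M(t₀) = 1`. Let
`p = det (G * M(X))`, a polynomial with `p(t₀) = 1`; `p(t) ≠ 0` implies that `M(t)` is injective. -/
theorem stressFree_generic (t₀ : V → K) (F : Finset (Finset V)) (h : StressFree t₀ F) :
    ∃ p : MvPolynomial V K, MvPolynomial.eval t₀ p ≠ 0 ∧
      ∀ t : V → K, MvPolynomial.eval t p ≠ 0 → StressFree t F := by
  classical
  rw [stressFree_iff_strM] at h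
  have hinj : LinearMap.ker (strM t₀ F).mulVecLin = ⊥ := by
    rw [LinearMap.ker_eq_bot']
    intro w hw
    exact h w hw
  obtain ⟨g, hg⟩ := LinearMap.exists_leftInverse_of_injective _ hinj
  have hG : LinearMap.toMatrix' g * strM t₀ F = 1 := by
    have h1 : LinearMap.toMatrix' (g ∘ₗ (strM t₀ F).mulVecLin) = 1 := by
      rw [hg, LinearMap.toMatrix'_id]
    rw [LinearMap.toMatrix'_comp, ← Matrix.toLin'_apply', LinearMap.toMatrix'_toLin'] at h1
    exact h1
  set G := LinearMap.toMatrix' g with hGdef
  set GX : Matrix F (Finset V × Bool) (MvPolynomial V K) :=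
    Matrix.of fun a b => MvPolynomial.C (G a b) with hGX
  set MX : Matrix (Finset V × Bool) F (MvPolynomial V K) :=
    strM (fun v => MvPolynomial.X v) F with hMX
  have hev : ∀ t : V → K, MvPolynomial.eval t (Matrix.det (GX * MX)) =
        Matrix.det (G * strM t F) := by
    intro t
    rw [RingHom.map_det, RingHom.mapMatrix_apply, Matrix.map_mul]
    have e1 : GX.map (MvPolynomial.eval t) = G := by
      ext a b
      simp [hGX]
    have e2 : MX.map (MvPolynomial.eval t) = strM t F := by
      ext a b
      simp only [hMX, Matrix.map_apply, strM, Matrix.of_apply, map_sum]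
      refine Finset.sum_congr rfl fun v _ => ?_
      split_ifs <;> simp
    rw [e1, e2]
  refine ⟨Matrix.det (GX * MX), ?_, fun t ht => ?_⟩
  · rw [hev, hG, Matrix.det_one]
    exact one_ne_zero
  · rw [hev] at ht
    rw [stressFree_iff_strM]
    intro w hw
    have h2 : (G * strM t F).mulVec w = 0 := by
      rw [← Matrix.mulVec_mulVec, hw, Matrix.mulVec_zero]
    exact Matrix.eq_zero_of_mulVec_eq_zero ht h2

/-- finitely many families (each stress-free for some parameters) are simultaneously stress-free for
some parameters, which moreover avoid the zeros of a given nonzero polynomial (product of nonzero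
polynomials over an infinite field). -/
theorem exists_common [Infinite K] {ι : Type} (s : Finset ι) (F : ι → Finset (Finset V))
    (h : ∀ i ∈ s, ∃ t : V → K, StressFree t (F i)) (q : MvPolynomial V K) (hq : q ≠ 0) :
    ∃ t : V → K, MvPolynomial.eval t q ≠ 0 ∧ ∀ i ∈ s, StressFree t (F i) := by
  classical
  have h' : ∀ i : ι, ∃ p : MvPolynomial V K, p ≠ 0 ∧
      (i ∈ s → ∀ t : V → K, MvPolynomial.eval t p ≠ 0 → StressFree t (F i)) := by
    intro i
    by_cases hi : i ∈ s
    · obtain ⟨t, ht⟩ := h i hi
      obtain ⟨p, hp, hp'⟩ := stressFree_generic t (F i) ht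
      refine ⟨p, ?_, fun _ => hp'⟩
      rintro rfl
      exact hp (map_zero _)
    · exact ⟨1, one_ne_zero, fun h => absurd h hi⟩
  choose p hp hp' using h'
  have hne : q * ∏ i ∈ s, p i ≠ 0 := mul_ne_zero hq (Finset.prod_ne_zero_iff.2 fun i _ => hp i)
  obtain ⟨t, ht⟩ : ∃ t : V → K, MvPolynomial.eval t (q * ∏ i ∈ s, p i) ≠ 0 := by
    by_contra hcon
    push Not at hcon
    apply hne
    refine MvPolynomial.funext fun t => ?_
    rw [hcon t, map_zero]
  rw [map_mul, map_prod] at ht
  refine ⟨t, left_ne_zero_of_mul ht, fun i hi => hp' i hi t ?_⟩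
  exact Finset.prod_ne_zero_iff.1 (right_ne_zero_of_mul ht) i hi

end Pool.Agent.H4.Singer
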