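import Pool.Agent.H4.Singer.DoubleCover
import Pool.Agent.H4.Singer.Copies

/-!
# Singer project: products with finite two-groups
-/

set_option autoImplicit false
set_option linter.unusedSectionVars false

open Finset

namespace Pool.Agent.H4.Singer

variable {V C : Type} [DecidableEq V] [Fintype V] [DecidableEq C] {G : ColGraph V C}
  {F : Type} [Field F]

/-- the product of a group with elements `g v` and a set with an action -/
def prodAct {P Ω : Type} [Group P] (g : V → P) (hg : ∀ v, g v * g v = 1)
    (hgc : ∀ u v, G.adj u v → g u * g v = g v * g u) (X : InvAct G Ω) : InvAct G (P × Ω) where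
  s v p := (p.1 * g v, X.s v p.2)
  invol v p := by simp [X.invol, mul_assoc, hg]
  comm u v h p := by simp [X.comm u v h, mul_assoc, hgc u v h]
  bit p := X.bit p.2
  bit_s v p := X.bit_s v p.2

/-- a nontrivial finite two-group has a central element of order two -/
private theorem exists_central_two {P : Type} [Group P] [Fintype P] (hP : IsPGroup 2 P)
    (hc : Fintype.card P ≠ 1) : ∃ z : P, z ≠ 1 ∧ z * z = 1 ∧ ∀ x, z * x = x * z := by
  haveI : Fact (Nat.Prime 2) := ⟨Nat.prime_two⟩
  haveI : Nontrivial P := by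
    rw [← Fintype.one_lt_card_iff_nontrivial]
    have : 0 < Fintype.card P := Fintype.card_pos
    omega
  haveI := hP.center_nontrivial
  have h1 : 2 ∣ Nat.card (Subgroup.center P) := by
    rcases (hP.to_subgroup (Subgroup.center P)).card_eq_or_dvd with h | h
    · exact absurd h (by
        have := Finite.one_lt_card (α := Subgroup.center P)
        omega)
    · exact h
  obtain ⟨c, hc2⟩ := exists_prime_orderOf_dvd_card' 2 h1
  have h2 : c ^ 2 = 1 := by rw [← hc2]; exact pow_orderOf_eq_one c
  have h3 : c ≠ 1 := by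
    intro h
    rw [h, orderOf_one] at hc2
    exact absurd hc2 (by decide)
  refine ⟨c, fun h => h3 (Subtype.ext h), ?_, fun x => (Subgroup.mem_center_iff.1 c.2 x).symm⟩
  have := congrArg Subtype.val h2
  rwa [pow_two] at this

/-- the central subgroup `{1, z}` -/
private def twoSub {P : Type} [Group P] (z : P) (hz : z * z = 1) : Subgroup P where
  carrier := {x | x = 1 ∨ x = z}
  mul_mem' := by
    rintro a b (rfl | rfl) (rfl | rfl)
    · exact Or.inl (mul_one _)
    · exact Or.inr (one_mul _)
    · exact Or.inr (mul_one _)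
    · exact Or.inl hz
  one_mem' := Or.inl rfl
  inv_mem' := by
    rintro a (rfl | rfl)
    · exact Or.inl inv_one
    · exact Or.inr (inv_eq_of_mul_eq_one_left hz)

private theorem mem_twoSub {P : Type} [Group P] (z : P) (hz : z * z = 1) (x : P) :
    x ∈ twoSub z hz ↔ x = 1 ∨ x = z := Iff.rfl

private theorem twoSub_normal {P : Type} [Group P] (z : P) (hz : z * z = 1)
    (hzc : ∀ x, z * x = x * z) : (twoSub z hz).Normal := by
  refine ⟨fun n hn x => ?_⟩
  rw [mem_twoSub] at hn ⊢
  rcases hn with rfl | rfl
  · left; group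
  · right; rw [← hzc, mul_inv_cancel_right]

private theorem card_twoSub {P : Type} [Group P] (z : P) (hz : z * z = 1) (hz1 : z ≠ 1) :
    Nat.card (twoSub z hz) = 2 := by
  rw [Nat.card_eq_two_iff]
  refine ⟨⟨1, Or.inl rfl⟩, ⟨z, Or.inr rfl⟩, fun h => hz1 (congrArg Subtype.val h).symm, ?_⟩
  ext ⟨x, hx⟩
  simp only [Set.mem_insert_iff, Set.mem_singleton_iff, Set.mem_univ, iff_true, Subtype.mk.injEq]
  exact hx

private theorem bet_prod_le_aux [CharP F 2] {Ω : Type} [Fintype Ω] (X : InvAct G Ω) (ν : V → ℕ)
    (hν : Function.Injective ν) (i : ℕ) (n : ℕ) : ∀ (P : Type) [Group P] [Fintype P],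
    Fintype.card P ≤ n → IsPGroup 2 P → ∀ (g : V → P) (hg : ∀ v, g v * g v = 1)
    (hgc : ∀ u v, G.adj u v → g u * g v = g v * g u),
    bet F (prodAct g hg hgc X) ν i ≤ Fintype.card P * bet F X ν i := by
  induction n with
  | zero =>
    intro P _ _ hn
    have : 0 < Fintype.card P := Fintype.card_pos
    omega
  | succ n ih =>
    intro P _ _ hn hP g hg hgc
    by_cases hc : Fintype.card P = 1
    · have hsub : Subsingleton P := Fintype.card_le_one_iff_subsingleton.1 hc.le
      refine le_of_eq ?_
      rw [hc, one_mul]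
      exact bet_equiv (prodAct g hg hgc X) X ν i
        { toFun := fun p => p.2
          invFun := fun ω => (1, ω)
          left_inv := fun p => Prod.ext (Subsingleton.elim _ _) rfl
          right_inv := fun ω => rfl } (fun v ω => rfl)
    · obtain ⟨z, hz1, hz, hzc⟩ := exists_central_two hP hc
      haveI := twoSub_normal z hz hzc
      letI : Fintype (P ⧸ twoSub z hz) := Fintype.ofFinite _
      have hcard : Fintype.card P = Fintype.card (P ⧸ twoSub z hz) * 2 := by
        rw [← card_twoSub z hz hz1, ← Nat.card_eq_fintype_card, ← Nat.card_eq_fintype_card]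
        exact Subgroup.card_eq_card_quotient_mul_card_subgroup _
      have hpos : 0 < Fintype.card (P ⧸ twoSub z hz) := Fintype.card_pos
      have hg' : ∀ v, ((g v : P) : P ⧸ twoSub z hz) * (g v : P) = 1 := fun v => by
        rw [← QuotientGroup.mk_mul, hg, QuotientGroup.mk_one]
      have hgc' : ∀ u v, G.adj u v → ((g u : P) : P ⧸ twoSub z hz) * (g v : P) =
          ((g v : P) : P ⧸ twoSub z hz) * (g u : P) := fun u v h => by
        rw [← QuotientGroup.mk_mul, hgc u v h, QuotientGroup.mk_mul]
      have h1 := ih (P ⧸ twoSub z hz) (by omega) (hP.to_quotient _)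
        (fun v => ((g v : P) : P ⧸ twoSub z hz)) hg' hgc'
      have h2 : bet F (prodAct g hg hgc X) ν i ≤
          2 * bet F (prodAct (fun v => ((g v : P) : P ⧸ twoSub z hz)) hg' hgc' X) ν i := by
        refine bet_double _ _ ν hν i (fun p => ((p.1 : P ⧸ twoSub z hz), p.2))
          (fun v p => rfl) (fun p => rfl) ?_ (fun p => (z * p.1, p.2)) ?_ ?_ ?_ ?_
        · rintro ⟨x, ω⟩
          obtain ⟨y, rfl⟩ := QuotientGroup.mk_surjective x
          exact ⟨(y, ω), rfl⟩
        · intro v p
          show (z * (p.1 * g v), X.s v p.2) = ((z * p.1) * g v, X.s v p.2)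
          rw [mul_assoc]
        · intro p
          show (z * (z * p.1), p.2) = p
          rw [← mul_assoc, hz, one_mul]
        · intro p h
          have h3 : z * p.1 = p.1 := congrArg Prod.fst h
          exact hz1 (mul_eq_right.1 h3)
        · rintro ⟨x, ω⟩ ⟨x', ω'⟩
          simp only [Prod.mk.injEq]
          rw [QuotientGroup.eq, mem_twoSub]
          constructor
          · rintro ⟨h | h, rfl⟩
            · left
              exact ⟨(inv_mul_eq_one.1 h).symm, rfl⟩
            · right
              refine ⟨?_, rfl⟩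
              rw [hzc, ← h, mul_inv_cancel_left]
          · rintro (⟨rfl, rfl⟩ | ⟨rfl, rfl⟩)
            · exact ⟨Or.inl (inv_mul_cancel _), rfl⟩
            · refine ⟨Or.inr ?_, rfl⟩
              rw [hzc, inv_mul_cancel_left]
      calc bet F (prodAct g hg hgc X) ν i
          ≤ 2 * bet F (prodAct (fun v => ((g v : P) : P ⧸ twoSub z hz)) hg' hgc' X) ν i := h2
        _ ≤ 2 * (Fintype.card (P ⧸ twoSub z hz) * bet F X ν i) := Nat.mul_le_mul_left 2 h1
        _ = Fintype.card P * bet F X ν i := by rw [hcard]; ring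

/-- Proof: induction on `|P|`. If `P` is trivial use `bet_equiv`. Otherwise let `z` be a central
element of order two, `P' = P ⧸ ⟨z⟩`; `bet_double` for `p (x, ω) = ([x], ω)`, `τ (x, ω) = (z x, ω)`
gives `bet (P × Ω) ≤ 2 bet (P' × Ω)`. -/
theorem bet_prod_le [CharP F 2] {P Ω : Type} [Group P] [Fintype P] [Fintype Ω]
    (hP : IsPGroup 2 P) (g : V → P) (hg : ∀ v, g v * g v = 1)
    (hgc : ∀ u v, G.adj u v → g u * g v = g v * g u) (X : InvAct G Ω) (ν : V → ℕ)
    (hν : Function.Injective ν) (i : ℕ) :
    bet F (prodAct g hg hgc X) ν i ≤ Fintype.card P * bet F X ν i :=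
  bet_prod_le_aux X ν hν i (Fintype.card P) P le_rfl hP g hg hgc

end Pool.Agent.H4.Singer
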