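import Pool.Agent.H4.Singer.AddEven
import Pool.Agent.H4.Singer.VanBtw

/-!
# Singer project: vanishing above the middle, even case
-/

set_option autoImplicit false
set_option linter.unusedSectionVars false

open Finset

namespace Pool.Agent.H4.Singer

variable {V C α : Type} [DecidableEq V] [Fintype V] [DecidableEq C] [DecidableEq α] {K : Type}
  [Field K] [CharP K 2]

/-- Strong induction on `n`: `van_add_even` with `N = a₀ + n / 2`; `hE` is `van_join_dim` with
`card_le_of_odd` (`r = n / 2`); for `hL` apply the induction hypothesis to `e v`,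
`A ∪ Btw e σ (e v)`, `a₀ + r - 1`, `n - 2 r` where `r = |e v \ σ| / 2 ≥ 1`. -/
theorem van_even (G : ColGraph V C) (e : V → Finset α) (h : FaceGraph G e) (t : V → K)
    (hB : GoodB G e t) (n : ℕ) : ∀ (σ : Finset α), Even n → (∀ v, σ ⊂ e v → (e v \ σ).card ≤ n) →
    ∀ (A : Finset V), (∀ u ∈ A, ∀ v ∈ Up e σ, G.adj u v) → ∀ a₀, 1 ≤ a₀ →
    (∀ j, a₀ ≤ j → Van G t A j) → ∀ j, a₀ + n / 2 ≤ j → Van G t (A ∪ Up e σ) j := by
  induction n using Nat.strong_induction_on with
  | _ n ih =>
  intro σ hn hdim A hA a₀ ha hV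
  refine van_add_even G e h t σ A hA (a₀ + n / 2) (by omega) ?_ ?_
  · intro j hj
    refine van_join_dim G t A (UpOdd e σ) ?_ a₀ hV (n / 2) ?_ j hj
    · intro u hu w hw
      exact hA u hu w (mem_Up.2 (mem_UpOdd.1 hw).1)
    · intro β hβ hcl
      refine card_le_of_odd h σ (n / 2) β hcl fun w hw => ?_
      have h1 := mem_UpOdd.1 (hβ hw)
      refine ⟨h1.1, h1.2, ?_⟩
      have := hdim w h1.1
      obtain ⟨n', hn'⟩ := hn
      omega
  · intro v hv hev j hj
    obtain ⟨r, hr⟩ := hev
    have hpos : 0 < (e v \ σ).card := by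
      rw [Finset.card_pos, Finset.sdiff_nonempty]
      exact fun h1 => hv.2 h1
    have hle := hdim v hv
    have hr2 : (e v \ σ).card / 2 = r := by omega
    obtain ⟨n', hn'⟩ := hn
    refine ih (n - 2 * r) (by omega) (e v) ⟨n' - r, by omega⟩ ?_ (A ∪ Btw e σ (e v)) ?_
      (a₀ + r - 1) (by omega) ?_ j (by omega)
    · intro w hw
      have h1 := hdim w (hv.trans hw)
      have h2 : (e w \ e v).card + (e v \ σ).card = (e w \ σ).card := by
        rw [← Finset.card_union_of_disjoint]
        · congr 1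
          ext x
          simp only [mem_union, mem_sdiff]
          constructor
          · rintro (⟨h3, h4⟩ | ⟨h3, h4⟩)
            · exact ⟨h3, fun h5 => h4 (hv.1 h5)⟩
            · exact ⟨hw.1 h3, h4⟩
          · rintro ⟨h3, h4⟩
            by_cases h5 : x ∈ e v
            · exact Or.inr ⟨h5, h4⟩
            · exact Or.inl ⟨h3, h5⟩
        · rw [Finset.disjoint_left]
          intro x hx hx'
          exact (mem_sdiff.1 hx).2 (mem_sdiff.1 hx').1
      omega
    · intro u hu w hw
      rw [mem_Up] at hw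
      rcases mem_union.1 hu with hu | hu
      · exact hA u hu w (mem_Up.2 (hv.trans hw))
      · exact (h.adj_iff u w).2 (Or.inl ((mem_Btw.1 hu).2.1.trans hw))
    · intro j hj
      exact van_btw G e h t hB σ v hv ⟨r, hr⟩ A hA a₀ ha hV j (by omega)

end Pool.Agent.H4.Singer
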