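import Pool.Agent.H4.Singer.Defs

/-!
# Singer project: joins of two simplex boundaries, and simplex boundaries
-/

set_option autoImplicit false

open Finset

namespace Pool.Agent.H4.Singer

variable {α : Type} [DecidableEq α]

/-- facets of the join of the boundaries of the simplices on `J` and `E` -/
def Yf (J E : Finset α) : Finset (Finset α) :=
  (J ×ˢ E).image fun p => (J.erase p.1) ∪ (E.erase p.2)

/-- facets of the boundary of the simplex on `J` -/
def Sf (J : Finset α) : Finset (Finset α) := J.image fun x => J.erase x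

private theorem exists_enum (U : Finset α) : ∃ e : α → ℕ, (∀ x ∈ U, ∀ y ∈ U, e x = e y → x = y) ∧
    ∀ x, e x < U.card + 1 := by
  classical
  refine ⟨fun x => if h : x ∈ U then (U.equivFin ⟨x, h⟩ : ℕ) else 0, ?_, ?_⟩
  · intro x hx y hy h
    simp only [hx, hy, dif_pos] at h
    have h2 := U.equivFin.injective (Fin.ext h)
    simpa using h2
  · intro x
    by_cases hx : x ∈ U
    · simp only [hx, dif_pos]
      have := (U.equivFin ⟨x, hx⟩).isLt
      omega
    · simp [hx]

private theorem fac_eq (J E : Finset α) (hd : Disjoint J E) {x y : α} (hx : x ∈ J) (hy : y ∈ E) :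
    J.erase x ∪ E.erase y = (J ∪ E) \ {x, y} := by
  have hxE : x ∉ E := fun h => (Finset.disjoint_left.1 hd) hx h
  have hyJ : y ∉ J := fun h => (Finset.disjoint_left.1 hd) h hy
  ext z
  simp only [mem_union, mem_erase, mem_sdiff, mem_insert, mem_singleton, not_or]
  constructor
  · rintro (⟨h1, h2⟩ | ⟨h1, h2⟩)
    · exact ⟨Or.inl h2, h1, fun h => hyJ (h ▸ h2)⟩
    · exact ⟨Or.inr h2, fun h => hxE (h ▸ h2), h1⟩
  · rintro ⟨h1 | h1, h2, h3⟩
    · exact Or.inl ⟨h2, h1⟩
    · exact Or.inr ⟨h3, h1⟩

private theorem sdiff_J (J E : Finset α) (hd : Disjoint J E) {x y : α} (hx : x ∈ J) (hy : y ∈ E) :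
    J \ (J.erase x ∪ E.erase y) = {x} := by
  have hyJ : y ∉ J := fun h => (Finset.disjoint_left.1 hd) h hy
  rw [fac_eq J E hd hx hy]
  ext z
  simp only [mem_sdiff, mem_union, mem_insert, mem_singleton]
  constructor
  · rintro ⟨h1, h2⟩
    by_contra h
    exact h2 ⟨Or.inl h1, by rintro (h3 | h3); exacts [h h3, hyJ (h3 ▸ h1)]⟩
  · rintro rfl
    exact ⟨hx, fun h => h.2 (Or.inl rfl)⟩

private theorem sdiff_E (J E : Finset α) (hd : Disjoint J E) {x y : α} (hx : x ∈ J) (hy : y ∈ E) :
    E \ (J.erase x ∪ E.erase y) = {y} := by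
  have hxE : x ∉ E := fun h => (Finset.disjoint_left.1 hd) hx h
  rw [fac_eq J E hd hx hy]
  ext z
  simp only [mem_sdiff, mem_union, mem_insert, mem_singleton]
  constructor
  · rintro ⟨h1, h2⟩
    by_contra h
    exact h2 ⟨Or.inr h1, by rintro (h3 | h3); exacts [hxE (h3 ▸ h1), h h3]⟩
  · rintro rfl
    exact ⟨hy, fun h => h.2 (Or.inr rfl)⟩

private theorem card_inter_fac (U : Finset α) {x y z : α} (hx : x ∈ U) (hy : y ∈ U) (hz : z ∈ U)
    (hxy : x ≠ y) (hxz : x ≠ z) (hyz : y ≠ z) : (U \ {x, y, z}).card + 3 = U.card := by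
  have hsub : ({x, y, z} : Finset α) ⊆ U := by
    intro w hw
    simp only [mem_insert, mem_singleton] at hw
    rcases hw with rfl | rfl | rfl <;> assumption
  have h3 : ({x, y, z} : Finset α).card = 3 := Finset.card_eq_three.2 ⟨x, y, z, hxy, hxz, hyz, rfl⟩
  have := Finset.card_sdiff_add_card_eq_card hsub
  omega

/-- Lexicographic order: with an injection `e : α → ℕ` on `J ∪ E` (e.g. from `Finset.equivFin` or by
`[Finite]`), `ord G = (∑ x ∈ J \ G, e x) * N + ∑ y ∈ E \ G, e y` with `N` larger than all `e y`.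
For `F = (x, y)`, `F' = (x', y')` with `x' < x` take `F'' = (x', y)`; for `x' = x`, `y' < y` take
`F'' = F'`. -/
theorem yf_shelling (J E : Finset α) (hd : Disjoint J E) (n : ℕ)
    (hn : J.card + E.card = n + 2) : ∃ ord, Shelling n (Yf J E) ord := by
  obtain ⟨e, he, hlt⟩ := exists_enum (J ∪ E)
  set N := (J ∪ E).card + 1 with hN
  have hU : (J ∪ E).card = n + 2 := by rw [Finset.card_union_of_disjoint hd, hn]
  have hneq : ∀ x ∈ J, ∀ y ∈ E, x ≠ y := fun x hx y hy h =>
    (Finset.disjoint_left.1 hd) hx (h ▸ hy)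
  have hord : ∀ x ∈ J, ∀ y ∈ E,
      (∑ u ∈ J \ (J.erase x ∪ E.erase y), e u) * N + ∑ u ∈ E \ (J.erase x ∪ E.erase y), e u =
        e x * N + e y := by
    intro x hx y hy
    rw [sdiff_J J E hd hx hy, sdiff_E J E hd hx hy, sum_singleton, sum_singleton]
  refine ⟨fun G => (∑ u ∈ J \ G, e u) * N + ∑ u ∈ E \ G, e u, ?_, ?_, ?_⟩
  · intro F hF
    obtain ⟨⟨x, y⟩, hp, rfl⟩ := Finset.mem_image.1 hF
    obtain ⟨hx, hy⟩ := Finset.mem_product.1 hp
    simp only at hx hy ⊢
    have hd2 : Disjoint (J.erase x) (E.erase y) :=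
      Finset.disjoint_of_subset_left (Finset.erase_subset _ _)
        (Finset.disjoint_of_subset_right (Finset.erase_subset _ _) hd)
    rw [Finset.card_union_of_disjoint hd2]
    have h1 := Finset.card_erase_add_one hx
    have h2 := Finset.card_erase_add_one hy
    omega
  · intro F hF F' hF' h
    obtain ⟨⟨x, y⟩, hp, rfl⟩ := Finset.mem_image.1 hF
    obtain ⟨hx, hy⟩ := Finset.mem_product.1 hp
    obtain ⟨⟨x', y'⟩, hp', rfl⟩ := Finset.mem_image.1 hF'
    obtain ⟨hx', hy'⟩ := Finset.mem_product.1 hp'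
    simp only at hx hy hx' hy' h ⊢
    rw [hord x hx y hy, hord x' hx' y' hy'] at h
    have h1 : e x = e x' := by
      rcases Nat.lt_trichotomy (e x) (e x') with h2 | h2 | h2
      · have := Nat.mul_le_mul_right N h2
        have := hlt y
        rw [Nat.succ_mul] at *
        omega
      · exact h2
      · have := Nat.mul_le_mul_right N h2
        have := hlt y'
        rw [Nat.succ_mul] at *
        omega
    have h2 : e y = e y' := by
      rw [h1] at h
      omega
    rw [he x (mem_union_left _ hx) x' (mem_union_left _ hx') h1,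
      he y (mem_union_right _ hy) y' (mem_union_right _ hy') h2]
  · intro F hF F' hF' h
    obtain ⟨⟨x, y⟩, hp, rfl⟩ := Finset.mem_image.1 hF
    obtain ⟨hx, hy⟩ := Finset.mem_product.1 hp
    obtain ⟨⟨x', y'⟩, hp', rfl⟩ := Finset.mem_image.1 hF'
    obtain ⟨hx', hy'⟩ := Finset.mem_product.1 hp'
    simp only at hx hy hx' hy' h ⊢
    rw [hord x hx y hy, hord x' hx' y' hy'] at h
    have hle : e x' ≤ e x := by
      by_contra hc
      have := Nat.mul_le_mul_right N (Nat.lt_of_not_le hc)
      have := hlt y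
      rw [Nat.succ_mul] at *
      omega
    have hxU := mem_union_left E hx
    have hx'U := mem_union_left E hx'
    have hyU := mem_union_right J hy
    have hy'U := mem_union_right J hy'
    by_cases hxx : e x' = e x
    · -- same x
      have hxe : x' = x := he _ hx'U _ hxU hxx
      subst hxe
      have hyy : e y' < e y := by omega
      have hyne : y' ≠ y := fun h => by rw [h] at hyy; omega
      refine ⟨_, hF', ?_, ?_, ?_⟩
      · simp only
        rw [hord x' hx' y' hy', hord x' hx' y hy]
        omega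
      · exact inter_subset_left
      · simp only
        rw [fac_eq J E hd hx' hy', fac_eq J E hd hx' hy]
        have hE : (J ∪ E) \ {x', y'} ∩ ((J ∪ E) \ {x', y}) = (J ∪ E) \ {x', y', y} := by
          ext z
          simp only [mem_inter, mem_sdiff, mem_insert, mem_singleton]
          tauto
        rw [hE]
        have := card_inter_fac (J ∪ E) hx'U hy'U hyU (hneq _ hx' _ hy') (hneq _ hx' _ hy) hyne
        omega
    · have hxlt : e x' < e x := lt_of_le_of_ne hle hxx
      have hxne : x' ≠ x := fun h => by rw [h] at hxlt; omega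
      have hmem : J.erase x' ∪ E.erase y ∈ Yf J E :=
        Finset.mem_image.2 ⟨(x', y), Finset.mem_product.2 ⟨hx', hy⟩, rfl⟩
      refine ⟨_, hmem, ?_, ?_, ?_⟩
      · rw [hord x' hx' y hy, hord x hx y hy]
        have := Nat.mul_le_mul_right N (Nat.succ_le_of_lt hxlt)
        rw [Nat.succ_mul] at this
        omega
      · rw [fac_eq J E hd hx' hy', fac_eq J E hd hx hy, fac_eq J E hd hx' hy]
        intro z
        simp only [mem_inter, mem_sdiff, mem_insert, mem_singleton]
        tauto
      · rw [fac_eq J E hd hx' hy, fac_eq J E hd hx hy]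
        have hE : (J ∪ E) \ {x', y} ∩ ((J ∪ E) \ {x, y}) = (J ∪ E) \ {x', x, y} := by
          ext z
          simp only [mem_inter, mem_sdiff, mem_insert, mem_singleton]
          tauto
        rw [hE]
        have := card_inter_fac (J ∪ E) hx'U hxU hyU hxne (hneq _ hx' _ hy) (hneq _ hx _ hy)
        omega

/-- a facet `(x, y)` contains the ridge `R` iff `x ∉ R`, `y ∉ R` (and `R ⊆ J ∪ E`); as
`|J \ R| + |E \ R| = 3` and both are positive there are at most two such facets. -/
theorem yf_ridge2 (J E : Finset α) (hd : Disjoint J E) (n : ℕ)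
    (hn : J.card + E.card = n + 2) : Ridge2 n (Yf J E) := by
  intro R hR
  have hU : (J ∪ E).card = n + 2 := by rw [Finset.card_union_of_disjoint hd, hn]
  by_cases hRU : R ⊆ J ∪ E
  · have hsub : ((Yf J E).filter fun F => R ⊆ F) ⊆
        ((J \ R) ×ˢ (E \ R)).image fun p => (J.erase p.1) ∪ (E.erase p.2) := by
      intro F hF
      obtain ⟨hF1, hF2⟩ := Finset.mem_filter.1 hF
      obtain ⟨⟨x, y⟩, hp, rfl⟩ := Finset.mem_image.1 hF1
      obtain ⟨hx, hy⟩ := Finset.mem_product.1 hp
      simp only at hx hy hF2 ⊢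
      rw [fac_eq J E hd hx hy] at hF2
      refine Finset.mem_image.2 ⟨(x, y), Finset.mem_product.2 ⟨?_, ?_⟩, rfl⟩
      · refine Finset.mem_sdiff.2 ⟨hx, fun h => ?_⟩
        have := hF2 h
        simp at this
      · refine Finset.mem_sdiff.2 ⟨hy, fun h => ?_⟩
        have := hF2 h
        simp at this
    have hab : (J \ R).card + (E \ R).card = 3 := by
      have h1 : (J ∪ E) \ R = (J \ R) ∪ (E \ R) := Finset.union_sdiff_distrib J E R
      have h2 : Disjoint (J \ R) (E \ R) :=
        Finset.disjoint_of_subset_left (Finset.sdiff_subset)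
          (Finset.disjoint_of_subset_right (Finset.sdiff_subset) hd)
      have h3 := Finset.card_sdiff_add_card_eq_card hRU
      rw [h1, Finset.card_union_of_disjoint h2] at h3
      omega
    refine (Finset.card_le_card hsub).trans (Finset.card_image_le.trans ?_)
    rw [Finset.card_product]
    have ha : (J \ R).card ≤ 3 := by omega
    have hb : (E \ R).card = 3 - (J \ R).card := by omega
    rw [hb]
    interval_cases (J \ R).card <;> simp
  · have : ((Yf J E).filter fun F => R ⊆ F) = ∅ := by
      refine Finset.filter_eq_empty_iff.2 fun F hF h => hRU ?_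
      obtain ⟨⟨x, y⟩, hp, rfl⟩ := Finset.mem_image.1 hF
      exact h.trans (Finset.union_subset_union (Finset.erase_subset _ _) (Finset.erase_subset _ _))
    rw [this]
    simp

private theorem sf_sdiff (J : Finset α) {x : α} (hx : x ∈ J) : J \ J.erase x = {x} := by
  ext z
  simp only [mem_sdiff, mem_erase, mem_singleton]
  constructor
  · rintro ⟨h1, h2⟩
    by_contra h
    exact h2 ⟨h, h1⟩
  · rintro rfl
    exact ⟨hx, fun h => h.1 rfl⟩

theorem sf_shelling (J : Finset α) (n : ℕ) (hn : J.card = n + 1) :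
    ∃ ord, Shelling n (Sf J) ord := by
  obtain ⟨e, he, -⟩ := exists_enum J
  refine ⟨fun G => ∑ u ∈ J \ G, e u, ?_, ?_, ?_⟩
  · intro F hF
    obtain ⟨x, hx, rfl⟩ := Finset.mem_image.1 hF
    have := Finset.card_erase_add_one hx
    omega
  · intro F hF F' hF' h
    obtain ⟨x, hx, rfl⟩ := Finset.mem_image.1 hF
    obtain ⟨x', hx', rfl⟩ := Finset.mem_image.1 hF'
    rw [sf_sdiff J hx, sf_sdiff J hx', sum_singleton, sum_singleton] at h
    rw [he x hx x' hx' h]
  · intro F hF F' hF' h
    obtain ⟨x, hx, rfl⟩ := Finset.mem_image.1 hF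
    obtain ⟨x', hx', rfl⟩ := Finset.mem_image.1 hF'
    refine ⟨_, hF', h, inter_subset_left, ?_⟩
    rw [sf_sdiff J hx, sf_sdiff J hx', sum_singleton, sum_singleton] at h
    have hne : x' ≠ x := fun h1 => by rw [h1] at h; omega
    have hE : J.erase x' ∩ J.erase x = (J.erase x).erase x' := by
      ext z
      simp only [mem_inter, mem_erase]
      tauto
    rw [hE]
    have h1 := Finset.card_erase_add_one (Finset.mem_erase.2 ⟨hne, hx'⟩ : x' ∈ J.erase x)
    have h2 := Finset.card_erase_add_one hx
    omega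

theorem sf_ridge2 (J : Finset α) (n : ℕ) (hn : J.card = n + 1) : Ridge2 n (Sf J) := by
  intro R hR
  by_cases hRU : R ⊆ J
  · have hsub : ((Sf J).filter fun F => R ⊆ F) ⊆ (J \ R).image fun x => J.erase x := by
      intro F hF
      obtain ⟨hF1, hF2⟩ := Finset.mem_filter.1 hF
      obtain ⟨x, hx, rfl⟩ := Finset.mem_image.1 hF1
      refine Finset.mem_image.2 ⟨x, Finset.mem_sdiff.2 ⟨hx, fun h => ?_⟩, rfl⟩
      have := hF2 h
      simp at this
    have h3 := Finset.card_sdiff_add_card_eq_card hRU
    refine (Finset.card_le_card hsub).trans (Finset.card_image_le.trans ?_)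
    omega
  · have : ((Sf J).filter fun F => R ⊆ F) = ∅ := by
      refine Finset.filter_eq_empty_iff.2 fun F hF h => hRU ?_
      obtain ⟨x, hx, rfl⟩ := Finset.mem_image.1 hF
      exact h.trans (Finset.erase_subset _ _)
    rw [this]
    simp

end Pool.Agent.H4.Singer
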