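import Pool.Agent.H4.Singer.Defs
import Pool.Agent.H4.Singer.YShell

/-!
# Singer project: the families of flags with merged top colour
-/

set_option autoImplicit false

open Finset

namespace Pool.Agent.H4.Singer

variable {α : Type} [DecidableEq α] [Fintype α]

open Classical in
/-- lower flags of a facet `F`: chains of `m` proper subsets of odd size -/
noncomputable def LFl (m : ℕ) (F : Finset α) : Finset (Finset (Finset α)) :=
  univ.filter fun ρ => ρ.card = m ∧ OddChain ρ ∧ ∀ S ∈ ρ, S ⊂ F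

/-- the family of flags where the facets in `𝓑` are merged to one vertex, which is denoted by the
empty set `∅` (as an abstract label) -/
noncomputable def Xf (m : ℕ) (𝓕 𝓑 : Finset (Finset α)) : Finset (Finset (Finset α)) :=
  ((𝓕 \ 𝓑).biUnion fun F => (LFl m F).image (insert F)) ∪
    (𝓑.biUnion fun F => (LFl m F).image (insert ∅))

open Classical in
/-- the restriction set of a facet -/
noncomputable def Rs (𝓕 : Finset (Finset α)) (ord : Finset α → ℕ) (F : Finset α) : Finset α :=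
  F.filter fun x => ∃ F' ∈ 𝓕, ord F' < ord F ∧ F.erase x ⊆ F'

/-- dead lower flags of `F` -/
def Dead (𝓕 : Finset (Finset α)) (ord : Finset α → ℕ) (F : Finset α)
    (ρ : Finset (Finset α)) : Prop :=
  ∃ S ∈ ρ, S.card + 2 = F.card ∧ F \ S ⊆ Rs 𝓕 ord F

theorem mem_LFl {m : ℕ} {F : Finset α} {ρ : Finset (Finset α)} :
    ρ ∈ LFl m F ↔ ρ.card = m ∧ OddChain ρ ∧ ∀ S ∈ ρ, S ⊂ F := by
  classical
  simp [LFl]

theorem mem_Xf {m : ℕ} {𝓕 𝓑 : Finset (Finset α)} {φ : Finset (Finset α)} :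
    φ ∈ Xf m 𝓕 𝓑 ↔ (∃ F ∈ 𝓕, F ∉ 𝓑 ∧ ∃ ρ ∈ LFl m F, insert F ρ = φ) ∨
      ∃ F ∈ 𝓑, ∃ ρ ∈ LFl m F, insert ∅ ρ = φ := by
  simp only [Xf, mem_union, mem_biUnion, mem_sdiff, mem_image]
  constructor
  · rintro (⟨F, ⟨h1, h2⟩, h3⟩ | h)
    · exact Or.inl ⟨F, h1, h2, h3⟩
    · exact Or.inr h
  · rintro (⟨F, h1, h2, h3⟩ | h)
    · exact Or.inl ⟨F, ⟨h1, h2⟩, h3⟩
    · exact Or.inr h

end Pool.Agent.H4.Singer
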