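import Pool.Agent.H4.Singer.XFam

/-!
# Singer project: the push-forward of stresses
-/

set_option autoImplicit false
set_option linter.unusedSectionVars false

open Finset

namespace Pool.Agent.H4.Singer

variable {α : Type} [DecidableEq α] [Fintype α] {K : Type} [Field K]

private theorem xpush_lfl {m n : ℕ} {𝓕 : Finset (Finset α)} (hcard : ∀ G ∈ 𝓕, G.card = n)
    {G : Finset α} (hG : G ∈ 𝓕) {ρ : Finset (Finset α)} (hρ : ρ ∈ LFl m G) :
    ∅ ∉ ρ ∧ ∀ H ∈ 𝓕, H ∉ ρ := by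
  rw [mem_LFl] at hρ
  constructor
  · intro h
    have := hρ.2.1.2 ∅ h
    simp at this
  · intro H hH h
    have h1 := card_lt_card (hρ.2.2 H h)
    rw [hcard G hG, hcard H hH] at h1
    exact lt_irrefl _ h1

/-- the structure of the flags containing a facet or the merged vertex -/
private theorem xpush_mem {m n : ℕ} {𝓕 𝓑 : Finset (Finset α)} (hcard : ∀ G ∈ 𝓕, G.card = n)
    (h𝓑 : 𝓑 ⊆ 𝓕) {F : Finset α} (hF : F ∈ 𝓕) (hn : 1 ≤ n) {φ : Finset (Finset α)}
    (h : φ ∈ Xf m 𝓕 𝓑) :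
    (F ∈ φ → ∅ ∉ φ ∧ F ∉ 𝓑 ∧ φ.erase F ∈ LFl m F) ∧
      (∅ ∈ φ → F ∉ φ ∧ ∃ G ∈ 𝓑, φ.erase ∅ ∈ LFl m G) ∧
      (∅ ∉ φ → F ∉ φ → ∃ G ∈ 𝓕, G ∉ 𝓑 ∧ G ≠ F ∧ ∃ ρ ∈ LFl m G, insert G ρ = φ) := by
  have hne : ∀ G ∈ 𝓕, G ≠ ∅ := by
    rintro G hG rfl
    have := hcard _ hG
    simp at this
    omega
  rw [mem_Xf] at h
  rcases h with ⟨G, hG, hGB, ρ, hρ, rfl⟩ | ⟨G, hG, ρ, hρ, rfl⟩
  · obtain ⟨h1, h2⟩ := xpush_lfl hcard hG hρ
    have h3 : ∅ ∉ insert G ρ := by
      rw [mem_insert, not_or]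
      exact ⟨fun h => hne G hG h.symm, h1⟩
    refine ⟨fun hFm => ?_, fun h => absurd h h3, fun _ hFm => ?_⟩
    · rw [mem_insert] at hFm
      rcases hFm with hFm | hFm
      · subst hFm
        refine ⟨h3, hGB, ?_⟩
        rw [erase_insert (h2 F hF)]
        exact hρ
      · exact absurd hFm (h2 F hF)
    · refine ⟨G, hG, hGB, ?_, ρ, hρ, rfl⟩
      rintro rfl
      exact hFm (mem_insert_self _ _)
  · obtain ⟨h1, h2⟩ := xpush_lfl hcard (h𝓑 hG) hρ
    have h3 : F ∉ insert ∅ ρ := by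
      rw [mem_insert, not_or]
      exact ⟨hne F hF, h2 F hF⟩
    refine ⟨fun h => absurd h h3, fun _ => ⟨h3, G, hG, ?_⟩, fun h _ => ?_⟩
    · rw [erase_insert h1]
      exact hρ
    · exact absurd (mem_insert_self _ _) h

/-- the push-forward -/
private noncomputable def xpush_z (F : Finset α) (z : Finset (Finset α) → K)
    (φ : Finset (Finset α)) : K :=
  if F ∈ φ then 0 else if ∅ ∈ φ then z φ + z (insert F (φ.erase ∅)) else z φ

private theorem xpush_sum (F : Finset α) (hF0 : F ≠ ∅) (z : Finset (Finset α) → K)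
    (c : Finset α → K) (hc : c F = c ∅) (hboth : ∀ φ, F ∈ φ → ∅ ∈ φ → z φ = 0)
    (hz : ∀ τ, ∑ v ∈ τᶜ, c v * z (insert v τ) = 0) (τ : Finset (Finset α)) :
    ∑ v ∈ τᶜ, c v * xpush_z F z (insert v τ) = 0 := by
  by_cases hFτ : F ∈ τ
  · apply sum_eq_zero
    intro v _
    unfold xpush_z
    rw [if_pos (mem_insert_of_mem hFτ), mul_zero]
  have hFc : F ∈ τᶜ := by rwa [mem_compl]
  have hzF : c F * xpush_z F z (insert F τ) = 0 := by
    unfold xpush_z
    rw [if_pos (mem_insert_self _ _), mul_zero]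
  by_cases h0τ : ∅ ∈ τ
  · rw [← add_sum_erase _ _ hFc, hzF, zero_add]
    have h1 : ∀ v ∈ τᶜ.erase F, c v * xpush_z F z (insert v τ) =
        c v * z (insert v τ) + c v * z (insert v (insert F (τ.erase ∅))) := by
      intro v hv
      rw [mem_erase, mem_compl] at hv
      have hv0 : v ≠ ∅ := by
        rintro rfl
        exact hv.2 h0τ
      unfold xpush_z
      rw [if_neg, if_pos (mem_insert_of_mem h0τ), mul_add]
      · congr 3
        rw [erase_insert_of_ne hv0, insert_comm]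
      · rw [mem_insert, not_or]
        exact ⟨fun h => hv.1 h.symm, hFτ⟩
    rw [sum_congr rfl h1, sum_add_distrib]
    have h2 : ∑ v ∈ τᶜ.erase F, c v * z (insert v τ) = 0 := by
      have h3 := hz τ
      rw [← add_sum_erase _ _ hFc, hboth _ (mem_insert_self _ _) (mem_insert_of_mem h0τ),
        mul_zero, zero_add] at h3
      exact h3
    have h4 : ∑ v ∈ τᶜ.erase F, c v * z (insert v (insert F (τ.erase ∅))) = 0 := by
      have h3 := hz (insert F (τ.erase ∅))
      have h5 : (∅ : Finset α) ∈ (insert F (τ.erase ∅))ᶜ := by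
        rw [mem_compl, mem_insert, not_or]
        exact ⟨fun h => hF0 h.symm, notMem_erase _ _⟩
      rw [← add_sum_erase _ _ h5, hboth _ (mem_insert_of_mem (mem_insert_self _ _))
        (mem_insert_self _ _), mul_zero, zero_add] at h3
      rw [← h3]
      apply sum_congr _ fun _ _ => rfl
      ext v
      simp only [mem_erase, mem_compl, mem_insert, not_or, not_and]
      constructor
      · rintro ⟨h6, h7⟩
        refine ⟨?_, h6, fun _ => h7⟩
        rintro rfl
        exact h7 h0τ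
      · rintro ⟨h6, h7, h8⟩
        exact ⟨h7, h8 h6⟩
    rw [h2, h4, add_zero]
  · have h0c : (∅ : Finset α) ∈ τᶜ.erase F := by
      rw [mem_erase, mem_compl]
      exact ⟨fun h => hF0 h.symm, h0τ⟩
    rw [← add_sum_erase _ _ hFc, hzF, zero_add, ← add_sum_erase _ _ h0c]
    have h1 : xpush_z F z (insert ∅ τ) = z (insert ∅ τ) + z (insert F τ) := by
      unfold xpush_z
      rw [if_neg, if_pos (mem_insert_self _ _), erase_insert h0τ]
      rw [mem_insert, not_or]
      exact ⟨hF0, hFτ⟩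
    have h2 : ∀ v ∈ (τᶜ.erase F).erase ∅, c v * xpush_z F z (insert v τ) =
        c v * z (insert v τ) := by
      intro v hv
      rw [mem_erase, mem_erase, mem_compl] at hv
      unfold xpush_z
      rw [if_neg, if_neg]
      · rw [mem_insert, not_or]
        exact ⟨fun h => hv.1 h.symm, h0τ⟩
      · rw [mem_insert, not_or]
        exact ⟨fun h => hv.2.1 h.symm, hFτ⟩
    have h3 := hz τ
    rw [← add_sum_erase _ _ hFc, ← add_sum_erase _ _ h0c] at h3
    rw [h1, sum_congr rfl h2, mul_add, ← h3, hc]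
    ring

/-- Push-forward. The facet `F` is split off from the merged class `∅`; the parameters of `F` and of
`∅` are equal. Proof: let `z' φ = 0` if `F ∈ φ`, `z' φ = z φ + z (insert F (φ.erase ∅))` if `∅ ∈ φ`
and `z' φ = z φ` otherwise; `z'` is a stress on `Xf m 𝓕 𝓑`, so it is zero. (No flag of
`Xf m 𝓕 (𝓑.erase F)` contains both `F` and `∅`; note that `∅` is not in any lower flag because its
size is even, and no facet is in a lower flag for size reasons.) -/
theorem xpush (m n : ℕ) (𝓕 𝓑 : Finset (Finset α)) (hcard : ∀ G ∈ 𝓕, G.card = n)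
    (h𝓑 : 𝓑 ⊆ 𝓕) (F : Finset α) (hF : F ∈ 𝓑) (hn : 1 ≤ n) (t : Finset α → K) (ht : t F = t ∅)
    (hSF : StressFree t (Xf m 𝓕 𝓑)) (z : Finset (Finset α) → K)
    (hz : Stress t (Xf m 𝓕 (𝓑.erase F)) z) :
    (∀ φ, ∅ ∉ φ → F ∉ φ → z φ = 0) ∧
      ∀ ρ, ∅ ∉ ρ → F ∉ ρ → z (insert ∅ ρ) + z (insert F ρ) = 0 := by
  have hF0 : F ≠ ∅ := by
    rintro rfl
    have := hcard _ (h𝓑 hF)
    simp at this
    omega
  have hBe : 𝓑.erase F ⊆ 𝓕 := (erase_subset _ _).trans h𝓑
  have hmem : ∀ φ, z φ ≠ 0 → _ := fun φ h =>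
    xpush_mem hcard hBe (h𝓑 hF) hn (hz.supp φ h)
  have hboth : ∀ φ, F ∈ φ → ∅ ∈ φ → z φ = 0 := by
    intro φ h1 h2
    by_contra hne
    exact ((hmem φ hne).1 h1).1 h2
  have hst : Stress t (Xf m 𝓕 𝓑) (xpush_z F z) := by
    constructor
    · intro φ hφ
      unfold xpush_z at hφ
      split_ifs at hφ with h1 h2
      · exact absurd rfl hφ
      · by_cases h3 : z φ = 0
        · rw [h3, zero_add] at hφ
          have h4 := ((hmem _ hφ).1 (mem_insert_self _ _)).2.2
          rw [erase_insert (fun h => h1 (mem_of_mem_erase h))] at h4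
          rw [mem_Xf]
          exact Or.inr ⟨F, hF, φ.erase ∅, h4, insert_erase h2⟩
        · obtain ⟨-, G, hG, h4⟩ := (hmem _ h3).2.1 h2
          rw [mem_Xf]
          exact Or.inr ⟨G, mem_of_mem_erase hG, φ.erase ∅, h4, insert_erase h2⟩
      · obtain ⟨G, hG, hGB, hGF, ρ, hρ, h4⟩ := (hmem _ hφ).2.2 h2 h1
        rw [mem_Xf]
        refine Or.inl ⟨G, hG, fun h => hGB ?_, ρ, hρ, h4⟩
        rw [mem_erase]
        exact ⟨hGF, h⟩
    · intro τ
      have h1 := xpush_sum F hF0 z (fun _ => 1) rfl hboth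
        (fun τ => by simpa only [one_mul] using hz.sum τ) τ
      simpa only [one_mul] using h1
    · exact xpush_sum F hF0 z t ht hboth hz.wsum
  have h0 := hSF _ hst
  constructor
  · intro φ h1 h2
    have h3 := congrFun h0 φ
    unfold xpush_z at h3
    rw [if_neg h2, if_neg h1] at h3
    exact h3
  · intro ρ h1 h2
    have h3 := congrFun h0 (insert ∅ ρ)
    unfold xpush_z at h3
    rw [if_neg, if_pos (mem_insert_self _ _), erase_insert h1] at h3
    · exact h3
    · rw [mem_insert, not_or]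
      exact ⟨hF0, h2⟩

end Pool.Agent.H4.Singer
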