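import Pool.Agent.H4.Singer.XTop

/-!
# Singer project: the surviving lower flags
-/

set_option autoImplicit false
set_option linter.unusedSectionVars false

open Finset

namespace Pool.Agent.H4.Singer

variable {α : Type} [DecidableEq α] [Fintype α]

/-- The surviving lower flags are flags of the join of the boundaries of the simplices on the
restriction set and on its complement.

Proof: by `exists_top` the flag `ρ` has a top element `S` of size `2 m + 1`; `F \ S = {x, y}`. It is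
not contained in the restriction set since `ρ` is not dead. As `S ⊆ G ∩ F` with `ord G < ord F`, the
shelling condition gives `G''` with `ord G'' < ord F`, `S ⊆ G''`, `|G'' ∩ F| + 1 = n`, so
`G'' ∩ F = F.erase x'` with `x' ∈ F \ S` and `x'` is in the restriction set. -/
theorem xsupp (m : ℕ) (𝓕 : Finset (Finset α)) (ord : Finset α → ℕ)
    (hsh : Shelling (2 * m + 3) 𝓕 ord) (F : Finset α) (hF : F ∈ 𝓕) (G : Finset α) (hG : G ∈ 𝓕)
    (hGF : ord G < ord F) (ρ : Finset (Finset α)) (h1 : ρ ∈ LFl (m + 1) F)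
    (h2 : ρ ∈ LFl (m + 1) G) (h3 : ¬ Dead 𝓕 ord F ρ) :
    ρ ∈ OddFlags m (Yf (Rs 𝓕 ord F) (F \ Rs 𝓕 ord F)) := by
  classical
  obtain ⟨hρ1, hρ2, hρ3⟩ := mem_LFl.1 h1
  obtain ⟨-, -, hρG⟩ := mem_LFl.1 h2
  have hFc : F.card = 2 * m + 3 := hsh.card F hF
  have hsz : ∀ S ∈ ρ, S.card ≤ 2 * m + 1 := by
    intro S hS
    have h4 := Finset.card_lt_card (hρ3 S hS)
    obtain ⟨k, hk⟩ := hρ2.2 S hS
    omega
  obtain ⟨S, hS, hSc, hStop⟩ := exists_top hρ2 hρ1 hsz
  have hSF : S ⊆ F := (hρ3 S hS).1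
  have hSG : S ⊆ G := (hρG S hS).1
  obtain ⟨F'', hF'', hord, hsub, hcard⟩ := hsh.shell F hF G hG hGF
  have hle : (F'' ∩ F).card < F.card := by omega
  have hne : ∃ x ∈ F, x ∉ F'' ∩ F := by
    by_contra hcon
    push Not at hcon
    have := Finset.card_le_card (show F ⊆ F'' ∩ F from hcon)
    omega
  obtain ⟨x, hxF, hx⟩ := hne
  have hxF'' : x ∉ F'' := fun h => hx (mem_inter.2 ⟨h, hxF⟩)
  have herase : F.erase x = F'' ∩ F := by
    symm
    apply Finset.eq_of_subset_of_card_le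
    · intro z hz
      rw [mem_inter] at hz
      exact mem_erase.2 ⟨fun h => hxF'' (h ▸ hz.1), hz.2⟩
    · rw [card_erase_of_mem hxF]
      omega
  have hxS : x ∉ S := fun h => hxF'' (hsub (mem_inter.2 ⟨hSG h, hSF h⟩))
  have hxR : x ∈ Rs 𝓕 ord F := by
    unfold Rs
    rw [mem_filter]
    refine ⟨hxF, F'', hF'', hord, ?_⟩
    rw [herase]
    exact inter_subset_left
  have hy : ∃ y ∈ F \ S, y ∉ Rs 𝓕 ord F := by
    by_contra hcon
    push Not at hcon
    exact h3 ⟨S, hS, by omega, hcon⟩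
  obtain ⟨y, hyFS, hyR⟩ := hy
  rw [mem_sdiff] at hyFS
  unfold OddFlags
  rw [mem_filter]
  refine ⟨mem_univ _, hρ1, hρ2, fun S' hS' => ?_⟩
  refine ⟨(Rs 𝓕 ord F).erase x ∪ (F \ Rs 𝓕 ord F).erase y, ?_, ?_⟩
  · unfold Yf
    rw [mem_image]
    exact ⟨(x, y), mem_product.2 ⟨hxR, mem_sdiff.2 ⟨hyFS.1, hyR⟩⟩, rfl⟩
  · intro z hz
    have hzS := hStop S' hS' hz
    rw [mem_union, mem_erase, mem_erase, mem_sdiff]
    by_cases hzR : z ∈ Rs 𝓕 ord F
    · exact Or.inl ⟨fun h => hxS (h ▸ hzS), hzR⟩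
    · exact Or.inr ⟨fun h => hyFS.2 (h ▸ hzS), hSF hzS, hzR⟩

end Pool.Agent.H4.Singer
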