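import Pool.Agent.H4.Singer.XPush
import Pool.Agent.H4.Singer.XSupp

/-!
# Singer project: the shelling step at special parameters
-/

set_option autoImplicit false
set_option linter.unusedSectionVars false

open Finset

namespace Pool.Agent.H4.Singer

variable {α : Type} [DecidableEq α] [Fintype α] {K : Type} [Field K]

theorem not_mem_of_card_eq {n m : ℕ} {F F' : Finset α} {ρ : Finset (Finset α)}
    (h1 : F.card = n) (h2 : F'.card = n) (hρ : ρ ∈ LFl m F') : F ∉ ρ := by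
  intro h
  have := Finset.card_lt_card ((mem_LFl.1 hρ).2.2 F h)
  omega

theorem empty_not_mem_LFl {m : ℕ} {F' : Finset α} {ρ : Finset (Finset α)}
    (hρ : ρ ∈ LFl m F') : (∅ : Finset α) ∉ ρ := by
  intro h
  have := (mem_LFl.1 hρ).2.1.2 ∅ h
  simp at this

theorem insert_cancel {V : Type} [DecidableEq V] {v : V} {ρ ρ' : Finset V} (h1 : v ∉ ρ)
    (h2 : v ∉ ρ') (h : insert v ρ' = insert v ρ) : ρ' = ρ := by
  rw [← Finset.erase_insert h1, ← Finset.erase_insert h2, h]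

/-- flags of `Xf` containing a set of the size of a facet -/
theorem xf_insert_facet {k n : ℕ} {𝓕 𝓒 : Finset (Finset α)} (hcard : ∀ G ∈ 𝓕, G.card = n)
    (h𝓒 : 𝓒 ⊆ 𝓕) (hn : 1 ≤ n) {F : Finset α} (hF : F.card = n) {ρ : Finset (Finset α)}
    (hρ : F ∉ ρ) (h : insert F ρ ∈ Xf k 𝓕 𝓒) : F ∈ 𝓕 ∧ F ∉ 𝓒 ∧ ρ ∈ LFl k F := by
  rcases mem_Xf.1 h with ⟨F', h1, h2, ρ', h3, h4⟩ | ⟨F', h1, ρ', h3, h4⟩
  · have hF' : F ∈ insert F' ρ' := h4 ▸ Finset.mem_insert_self _ _
    rcases Finset.mem_insert.1 hF' with h5 | h5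
    · subst h5
      have h6 := insert_cancel hρ (not_mem_of_card_eq hF hF h3) h4
      subst h6
      exact ⟨h1, h2, h3⟩
    · exact absurd h5 (not_mem_of_card_eq hF (hcard _ h1) h3)
  · have hF' : F ∈ insert ∅ ρ' := h4 ▸ Finset.mem_insert_self _ _
    rcases Finset.mem_insert.1 hF' with h5 | h5
    · subst h5
      simp at hF
      omega
    · exact absurd h5 (not_mem_of_card_eq hF (hcard _ (h𝓒 h1)) h3)

/-- flags of `Xf` containing the merged vertex -/
theorem xf_insert_empty {k n : ℕ} {𝓕 𝓒 : Finset (Finset α)} (hcard : ∀ G ∈ 𝓕, G.card = n)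
    (hn : 1 ≤ n) {ρ : Finset (Finset α)} (hρ0 : ∅ ∉ ρ) (hρ : ∀ G ∈ ρ, G.card ≠ n)
    (h : insert ∅ ρ ∈ Xf k 𝓕 𝓒) : ∃ F' ∈ 𝓒, ρ ∈ LFl k F' := by
  rcases mem_Xf.1 h with ⟨F', h1, h2, ρ', h3, h4⟩ | ⟨F', h1, ρ', h3, h4⟩
  · have hF' : F' ∈ insert ∅ ρ := h4 ▸ Finset.mem_insert_self _ _
    have hc := hcard F' h1
    rcases Finset.mem_insert.1 hF' with h5 | h5
    · subst h5
      simp at hc
      omega
    · exact absurd hc (hρ F' h5)
  · have h6 := insert_cancel hρ0 (empty_not_mem_LFl h3) h4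
    subst h6
    exact ⟨F', h1, h3⟩

/-- The shelling step without the dead flags, at special parameters `t F = t ∅`. Proof: `xpush`,
`xsupp` show that `y ρ = if F ∈ ρ then 0 else z (insert F ρ)` is a stress on
`OddFlags m (Yf R (F \ R))`; hence `y = 0` and `z = 0`. -/
theorem xstep_special (m : ℕ) (𝓕 𝓑 : Finset (Finset α)) (ord : Finset α → ℕ)
    (hsh : Shelling (2 * m + 3) 𝓕 ord) (h𝓑 : 𝓑 ⊆ 𝓕) (F : Finset α) (hF : F ∈ 𝓑)
    (hmax : ∀ G ∈ 𝓑, ord G ≤ ord F) (t : Finset α → K) (ht : t F = t ∅)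
    (hSF : StressFree t (Xf (m + 1) 𝓕 𝓑))
    (hY : StressFree t (OddFlags m (Yf (Rs 𝓕 ord F) (F \ Rs 𝓕 ord F))))
    (z : Finset (Finset α) → K) (hz : Stress t (Xf (m + 1) 𝓕 (𝓑.erase F)) z)
    (hdead : ∀ ρ ∈ LFl (m + 1) F, Dead 𝓕 ord F ρ → z (insert F ρ) = 0 ∧ z (insert ∅ ρ) = 0) :
    z = 0 := by
  have hn : 1 ≤ 2 * m + 3 := by omega
  obtain ⟨P1, P2⟩ := xpush (m + 1) (2 * m + 3) 𝓕 𝓑 hsh.card h𝓑 F hF hn t ht hSF z hz
  have hFc : F.card = 2 * m + 3 := hsh.card F (h𝓑 hF)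
  obtain ⟨y, hy⟩ : ∃ y : Finset (Finset α) → K,
      ∀ ρ, y ρ = if F ∈ ρ then 0 else z (insert F ρ) := ⟨_, fun _ => rfl⟩
  have hsup : ∀ ρ, F ∉ ρ → z (insert F ρ) ≠ 0 →
      ρ ∈ OddFlags m (Yf (Rs 𝓕 ord F) (F \ Rs 𝓕 ord F)) := by
    intro ρ hρ h0
    obtain ⟨a1, a2, a3⟩ := xf_insert_facet hsh.card ((Finset.erase_subset _ _).trans h𝓑) hn hFc hρ
      (hz.supp _ h0)
    have hρ0 : (∅ : Finset α) ∉ ρ := empty_not_mem_LFl a3
    have h1 : z (insert ∅ ρ) ≠ 0 := by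
      intro h1
      have := P2 ρ hρ0 hρ
      rw [h1, zero_add] at this
      exact h0 this
    obtain ⟨G, hG, hG'⟩ := xf_insert_empty hsh.card hn hρ0 (fun G hG hc => by
      have := Finset.card_lt_card ((mem_LFl.1 a3).2.2 G hG)
      omega) (hz.supp _ h1)
    rw [Finset.mem_erase] at hG
    have hlt : ord G < ord F := lt_of_le_of_ne (hmax G hG.2)
      (fun h => hG.1 (hsh.inj G (h𝓑 hG.2) F (h𝓑 hF) h))
    exact xsupp m 𝓕 ord hsh F (h𝓑 hF) G (h𝓑 hG.2) hlt ρ a3 hG' (fun hd => h0 (hdead ρ a3 hd).1)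
  have hsum : ∀ (c : Finset α → K) (τ : Finset (Finset α)), F ∉ τ →
      ∑ v ∈ τᶜ, c v * y (insert v τ) =
        ∑ v ∈ (insert F τ)ᶜ, c v * z (insert v (insert F τ)) := by
    intro c τ hτ
    have hsub : (insert F τ)ᶜ ⊆ τᶜ := by
      intro u hu
      rw [Finset.mem_compl] at hu ⊢
      exact fun h => hu (Finset.mem_insert_of_mem h)
    rw [← Finset.sum_subset hsub]
    · refine Finset.sum_congr rfl fun u hu => ?_
      rw [Finset.mem_compl, Finset.mem_insert, not_or] at hu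
      rw [hy, if_neg, Finset.insert_comm]
      rw [Finset.mem_insert, not_or]
      exact ⟨fun h => hu.1 h.symm, hτ⟩
    · intro u hu hu'
      rw [Finset.mem_compl] at hu hu'
      rw [not_not, Finset.mem_insert] at hu'
      rcases hu' with h | h
      · subst h
        rw [hy, if_pos (Finset.mem_insert_self _ _), mul_zero]
      · exact absurd h hu
  have hys : Stress t (OddFlags m (Yf (Rs 𝓕 ord F) (F \ Rs 𝓕 ord F))) y := by
    refine ⟨fun ρ h => ?_, fun τ => ?_, fun τ => ?_⟩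
    · rw [hy] at h
      by_cases hρ : F ∈ ρ
      · rw [if_pos hρ] at h
        exact absurd rfl h
      · rw [if_neg hρ] at h
        exact hsup ρ hρ h
    · by_cases hτ : F ∈ τ
      · refine Finset.sum_eq_zero fun v _ => ?_
        rw [hy, if_pos (Finset.mem_insert_of_mem hτ)]
      · have h1 := hsum (fun _ => 1) τ hτ
        simp only [one_mul] at h1
        rw [h1]
        exact hz.sum _
    · by_cases hτ : F ∈ τ
      · refine Finset.sum_eq_zero fun v _ => ?_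
        rw [hy, if_pos (Finset.mem_insert_of_mem hτ), mul_zero]
      · rw [hsum t τ hτ]
        exact hz.wsum _
  have hy0 := hY y hys
  have hzF : ∀ ρ, F ∉ ρ → z (insert F ρ) = 0 := by
    intro ρ hρ
    have := congrFun hy0 ρ
    rwa [hy, if_neg hρ] at this
  funext φ
  rw [Pi.zero_apply]
  by_cases h1 : F ∈ φ
  · rw [← Finset.insert_erase h1]
    exact hzF _ (Finset.notMem_erase _ _)
  · by_cases h2 : ∅ ∈ φ
    · have h3 := P2 (φ.erase ∅) (Finset.notMem_erase _ _)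
        (fun h => h1 (Finset.mem_of_mem_erase h))
      rw [hzF _ (fun h => h1 (Finset.mem_of_mem_erase h)), add_zero,
        Finset.insert_erase h2] at h3
      exact h3
    · exact P1 φ h2 h1

end Pool.Agent.H4.Singer
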