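import Pool.Agent.H4.Singer.XSpecial
import Pool.Agent.H4.Singer.DeadFacets
import Pool.Agent.H4.Singer.StressPoly
import Pool.Agent.H4.Singer.StressMap

/-!
# Singer project: the shelling step
-/

set_option autoImplicit false
set_option linter.unusedSectionVars false

open Finset

namespace Pool.Agent.H4.Singer

variable {α : Type} [DecidableEq α] [Fintype α] {K : Type} [Field K] [Infinite K]

/-- The shelling step. Proof: choose parameters `t₀` that are good for `Xf (m + 1) 𝓕 𝓑` and for the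
flags of `Yf R (F \ R)` (`exists_common`); none of these families involves the vertex `F`, so we may
change `t₀ F` to `t₀ ∅` (`StressFree.congr`). By `xstep_special` the family `𝒳'` of the non-dead
flags of `Xf (m + 1) 𝓕 (𝓑.erase F)` is stress-free. Choose generic `t` that are good for `𝒳'` and
have `t F ≠ t ∅`. For a stress `z` on `Xf (m + 1) 𝓕 (𝓑.erase F)` and a dead lower flag `ρ` the
stress conditions at `ρ` are `z (insert ∅ ρ) + z (insert F ρ) = 0` and
`t ∅ * z (insert ∅ ρ) + t F * z (insert F ρ) = 0` because by `facets_of_dead` no facet outside `𝓑`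
contains the top element of `ρ`; so `z` vanishes on the dead flags. -/
theorem xstep (m : ℕ) (𝓕 𝓑 : Finset (Finset α)) (ord : Finset α → ℕ)
    (hsh : Shelling (2 * m + 3) 𝓕 ord) (hr : Ridge2 (2 * m + 3) 𝓕) (h𝓑 : 𝓑 ⊆ 𝓕)
    (hinit : ∀ G ∈ 𝓑, ∀ G' ∈ 𝓕, ord G' ≤ ord G → G' ∈ 𝓑) (F : Finset α) (hF : F ∈ 𝓑)
    (hmax : ∀ G ∈ 𝓑, ord G ≤ ord F)
    (hY : ∀ J E : Finset α, Disjoint J E → J.card + E.card = 2 * m + 3 →
      ∃ t : Finset α → K, StressFree t (OddFlags m (Yf J E)))
    (h : ∃ t : Finset α → K, StressFree t (Xf (m + 1) 𝓕 𝓑)) :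
    ∃ t : Finset α → K, StressFree t (Xf (m + 1) 𝓕 (𝓑.erase F)) := by
  classical
  have hn : 1 ≤ 2 * m + 3 := by omega
  have hFc : F.card = 2 * m + 3 := hsh.card F (h𝓑 hF)
  have hF0 : F ≠ ∅ := by
    intro h0
    rw [h0] at hFc
    simp at hFc
  have hRs : Rs 𝓕 ord F ⊆ F := Finset.filter_subset _ _
  -- common parameters for both families
  have hYR := hY (Rs 𝓕 ord F) (F \ Rs 𝓕 ord F) Finset.disjoint_sdiff (by
    rw [Finset.card_sdiff_of_subset hRs, hFc]
    have := Finset.card_le_card hRs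
    omega)
  obtain ⟨t0, -, ht0⟩ := exists_common (K := K) (Finset.univ : Finset Bool)
    (fun b => if b then Xf (m + 1) 𝓕 𝓑 else OddFlags m (Yf (Rs 𝓕 ord F) (F \ Rs 𝓕 ord F)))
    (by
      intro b _
      cases b
      · simpa using hYR
      · simpa using h) 1 one_ne_zero
  have hX0 : StressFree t0 (Xf (m + 1) 𝓕 𝓑) := by simpa using ht0 true (Finset.mem_univ _)
  have hY0 : StressFree t0 (OddFlags m (Yf (Rs 𝓕 ord F) (F \ Rs 𝓕 ord F))) := by
    simpa using ht0 false (Finset.mem_univ _)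
  -- change the parameter of `F`
  have hX1 : StressFree (Function.update t0 F (t0 ∅)) (Xf (m + 1) 𝓕 𝓑) := by
    refine hX0.congr fun φ hφ v hv => ?_
    have hvF : v ≠ F := by
      rintro rfl
      rcases mem_Xf.1 hφ with ⟨F', h1, h2, ρ', h3, h4⟩ | ⟨F', h1, ρ', h3, h4⟩
      · rw [← h4] at hv
        rcases Finset.mem_insert.1 hv with h5 | h5
        · exact h2 (h5 ▸ hF)
        · exact not_mem_of_card_eq hFc (hsh.card _ h1) h3 h5
      · rw [← h4] at hv
        rcases Finset.mem_insert.1 hv with h5 | h5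
        · exact hF0 h5
        · exact not_mem_of_card_eq hFc (hsh.card _ (h𝓑 h1)) h3 h5
    rw [Function.update_of_ne hvF]
  have hY1 : StressFree (Function.update t0 F (t0 ∅))
      (OddFlags m (Yf (Rs 𝓕 ord F) (F \ Rs 𝓕 ord F))) := by
    refine hY0.congr fun φ hφ v hv => ?_
    have hvF : v ≠ F := by
      rintro rfl
      unfold OddFlags at hφ
      rw [Finset.mem_filter] at hφ
      obtain ⟨G, hG, hvG⟩ := hφ.2.2.2 _ hv
      unfold Yf at hG
      rw [Finset.mem_image] at hG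
      obtain ⟨⟨x, w⟩, hxw, hG'⟩ := hG
      rw [Finset.mem_product] at hxw
      simp only at hxw hG'
      have hx : x ∈ G := hvG (hRs hxw.1)
      rw [← hG', Finset.mem_union, Finset.mem_erase, Finset.mem_erase, Finset.mem_sdiff] at hx
      rcases hx with hx | hx
      · exact hx.1 rfl
      · exact hx.2.2 hxw.1
    rw [Function.update_of_ne hvF]
  have ht1 : Function.update t0 F (t0 ∅) F = Function.update t0 F (t0 ∅) ∅ := by
    rw [Function.update_self, Function.update_of_ne (fun h => hF0 h.symm)]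
  -- the non-dead flags
  obtain ⟨X', hX'⟩ : ∃ X' : Finset (Finset (Finset α)), ∀ φ, φ ∈ X' ↔
      φ ∈ Xf (m + 1) 𝓕 (𝓑.erase F) ∧ ∀ ρ ∈ LFl (m + 1) F, Dead 𝓕 ord F ρ →
        φ ≠ insert F ρ ∧ φ ≠ insert ∅ ρ :=
    ⟨(Xf (m + 1) 𝓕 (𝓑.erase F)).filter fun φ => ∀ ρ ∈ LFl (m + 1) F, Dead 𝓕 ord F ρ →
        φ ≠ insert F ρ ∧ φ ≠ insert ∅ ρ, fun φ => Finset.mem_filter⟩
  have hX'1 : StressFree (Function.update t0 F (t0 ∅)) X' := by
    intro z hz
    refine xstep_special m 𝓕 𝓑 ord hsh h𝓑 F hF hmax _ ht1 hX1 hY1 z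
      ⟨fun φ h => ((hX' φ).1 (hz.supp φ h)).1, hz.sum, hz.wsum⟩ fun ρ hρ hd => ⟨?_, ?_⟩
    · by_contra h0
      exact (((hX' _).1 (hz.supp _ h0)).2 ρ hρ hd).1 rfl
    · by_contra h0
      exact (((hX' _).1 (hz.supp _ h0)).2 ρ hρ hd).2 rfl
  -- generic parameters
  have hq : (MvPolynomial.X F - MvPolynomial.X ∅ : MvPolynomial (Finset α) K) ≠ 0 := by
    rw [sub_ne_zero]
    intro h0
    exact hF0 (MvPolynomial.X_injective h0)
  obtain ⟨t, htF, ht⟩ := exists_common (K := K) (Finset.univ : Finset Unit) (fun _ => X')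
    (fun _ _ => ⟨_, hX'1⟩) _ hq
  rw [map_sub, MvPolynomial.eval_X, MvPolynomial.eval_X] at htF
  have hXt := ht () (Finset.mem_univ _)
  refine ⟨t, fun z hz => hXt z ⟨fun φ h => ?_, hz.sum, hz.wsum⟩⟩
  rw [hX']
  refine ⟨hz.supp φ h, fun ρ hρ hd => ?_⟩
  -- the two stress conditions at a dead flag
  have hFρ : F ∉ ρ := not_mem_of_card_eq hFc hFc hρ
  have hρ0 : (∅ : Finset α) ∉ ρ := empty_not_mem_LFl hρ
  have hcρ : ∀ G ∈ ρ, G.card ≠ 2 * m + 3 := fun G hG hc => by
    have := Finset.card_lt_card ((mem_LFl.1 hρ).2.2 G hG)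
    omega
  have hother : ∀ v ∈ ρᶜ, v ∉ ({∅, F} : Finset (Finset α)) → z (insert v ρ) = 0 := by
    intro v hv hv'
    rw [Finset.mem_compl] at hv
    rw [Finset.mem_insert, Finset.mem_singleton, not_or] at hv'
    by_contra h0
    have hsp := hz.supp _ h0
    rcases mem_Xf.1 hsp with ⟨F', h1, h2, ρ', h3, h4⟩ | ⟨F', h1, ρ', h3, h4⟩
    · have hF' : F' ∈ insert v ρ := h4 ▸ Finset.mem_insert_self _ _
      have hvF' : F' = v := by
        rcases Finset.mem_insert.1 hF' with h5 | h5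
        · exact h5
        · exact absurd (hsh.card _ h1) (hcρ _ h5)
      subst hvF'
      have h6 := insert_cancel hv (not_mem_of_card_eq (hsh.card _ h1) (hsh.card _ h1) h3) h4
      subst h6
      have hnB : F' ∉ 𝓑 := fun h => h2 (Finset.mem_erase.2 ⟨hv'.2, h⟩)
      obtain ⟨S, hS, hS2, hS3⟩ := hd
      have hSF : S ⊆ F := ((mem_LFl.1 hρ).2.2 S hS).subset
      have hle := facets_of_dead (2 * m + 3) 𝓕 ord hsh hr F (h𝓑 hF) S hSF (by omega)
        (fun x hx => (Finset.mem_filter.1 (hS3 hx)).2) F' h1 ((mem_LFl.1 h3).2.2 S hS).subset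
      exact hnB (hinit F hF F' h1 hle)
    · have h5 : (∅ : Finset α) ∈ insert v ρ := h4 ▸ Finset.mem_insert_self _ _
      rcases Finset.mem_insert.1 h5 with h6 | h6
      · exact hv'.1 h6.symm
      · exact hρ0 h6
  have hpair : ({∅, F} : Finset (Finset α)) ⊆ ρᶜ := by
    intro v hv
    rw [Finset.mem_insert, Finset.mem_singleton] at hv
    rw [Finset.mem_compl]
    rcases hv with rfl | rfl
    · exact hρ0
    · exact hFρ
  have e1 : z (insert ∅ ρ) + z (insert F ρ) = 0 := by
    have := hz.sum ρ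
    rw [← Finset.sum_subset hpair (fun v hv hv' => hother v hv hv'),
      Finset.sum_pair (fun h => hF0 h.symm)] at this
    exact this
  have e2 : t ∅ * z (insert ∅ ρ) + t F * z (insert F ρ) = 0 := by
    have := hz.wsum ρ
    rw [← Finset.sum_subset hpair (fun v hv hv' => by rw [hother v hv hv', mul_zero]),
      Finset.sum_pair (fun h => hF0 h.symm)] at this
    exact this
  have e3 : z (insert F ρ) = 0 := by
    have : (t F - t ∅) * z (insert F ρ) = 0 := by linear_combination e2 - t ∅ * e1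
    rcases mul_eq_zero.1 this with h5 | h5
    · exact absurd h5 htF
    · exact h5
  have e4 : z (insert ∅ ρ) = 0 := by
    rw [e3, add_zero] at e1
    exact e1
  refine ⟨?_, ?_⟩
  · rintro rfl
    exact h e3
  · rintro rfl
    exact h e4

end Pool.Agent.H4.Singer
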