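import Pool.Agent.H4.Singer.XFam

/-!
# Singer project: the top element of a flag
-/

set_option autoImplicit false
set_option linter.unusedSectionVars false

open Finset

namespace Pool.Agent.H4.Singer

variable {α : Type} [DecidableEq α] [Fintype α]

/-- A chain of `m + 1` sets of odd size at most `2 m + 1` has an element of size `2 m + 1` which
contains all others (the sizes are distinct odd numbers, so all of `1, 3, …, 2 m + 1` occur). -/
theorem exists_top {m : ℕ} {φ : Finset (Finset α)} (h1 : OddChain φ) (h2 : φ.card = m + 1)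
    (h3 : ∀ S ∈ φ, S.card ≤ 2 * m + 1) :
    ∃ S ∈ φ, S.card = 2 * m + 1 ∧ ∀ S' ∈ φ, S' ⊆ S := by
  have hinj : Set.InjOn (fun S : Finset α => S.card) (φ : Set (Finset α)) := by
    intro S hS S' hS' h
    have hS1 : S ∈ φ := hS
    have hS2 : S' ∈ φ := hS'
    have hc : S.card = S'.card := h
    rcases h1.1 S hS1 S' hS2 with hh | hh
    · exact Finset.eq_of_subset_of_card_le hh hc.ge
    · exact (Finset.eq_of_subset_of_card_le hh hc.le).symm
  have hcard : (φ.image fun S => S.card).card = m + 1 := by
    rw [Finset.card_image_of_injOn hinj, h2]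
  have hsub : (φ.image fun S => S.card) ⊆ (range (m + 1)).image fun i => 2 * i + 1 := by
    intro k hk
    rw [mem_image] at hk
    obtain ⟨S, hS, rfl⟩ := hk
    obtain ⟨i, hi⟩ := h1.2 S hS
    rw [mem_image]
    refine ⟨i, ?_, hi.symm⟩
    rw [mem_range]
    have := h3 S hS
    omega
  have hle : ((range (m + 1)).image fun i => 2 * i + 1).card ≤ (φ.image fun S => S.card).card := by
    rw [hcard]
    exact Finset.card_image_le.trans (by simp)
  have heq := Finset.eq_of_subset_of_card_le hsub hle
  have hmem : 2 * m + 1 ∈ φ.image fun S => S.card := by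
    rw [heq, mem_image]
    exact ⟨m, by simp, rfl⟩
  rw [mem_image] at hmem
  obtain ⟨S, hS, hSc⟩ := hmem
  refine ⟨S, hS, hSc, fun S' hS' => ?_⟩
  rcases h1.1 S hS S' hS' with hh | hh
  · have := h3 S' hS'
    rw [Finset.eq_of_subset_of_card_le hh (by omega)]
  · exact hh

end Pool.Agent.H4.Singer
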